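import Mathlib

/-!
Basic definitions for MP_572ff6_an (entropy numbers, mixed smoothness).
-/

namespace Pool.Agent.LibEnt73

open MeasureTheory ProbabilityTheory Finset

noncomputable section

/-- dyadic size of an integer: `0` for `0`, and `s` if `2^(s-1) ≤ |v| < 2^s`. -/
def sz (v : ℤ) : ℕ := Nat.size v.natAbs

/-- total dyadic size of an integer vector -/
def tsz {d : ℕ} (ξ : Fin d → ℤ) : ℕ := ∑ i, sz (ξ i)

/-- integer vectors with all `|ξ i| < 2^n` -/
def box (d n : ℕ) : Finset (Fin d → ℤ) :=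
  Fintype.piFinset fun _ => Finset.Ioo (-(2 : ℤ) ^ n) ((2 : ℤ) ^ n)

/-- the step hyperbolic cross -/
def Q (d n : ℕ) : Finset (Fin d → ℤ) := (box d n).filter fun ξ => tsz ξ ≤ n

/-- the hyperbolic layer -/
def dQ (d n : ℕ) : Finset (Fin d → ℤ) := (box d n).filter fun ξ => tsz ξ = n

lemma sz_le_iff {v : ℤ} {n : ℕ} : sz v ≤ n ↔ v ∈ Finset.Ioo (-(2 : ℤ) ^ n) ((2 : ℤ) ^ n) := by
  unfold sz
  rw [Nat.size_le, Finset.mem_Ioo, ← abs_lt, Int.abs_eq_natAbs]
  constructor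
  · intro h; exact_mod_cast h
  · intro h; exact_mod_cast h

lemma sz_le_tsz {d : ℕ} (ξ : Fin d → ℤ) (i : Fin d) : sz (ξ i) ≤ tsz ξ :=
  Finset.single_le_sum (f := fun i => sz (ξ i)) (fun _ _ => Nat.zero_le _) (Finset.mem_univ i)

lemma mem_Q {d n : ℕ} {ξ : Fin d → ℤ} : ξ ∈ Q d n ↔ tsz ξ ≤ n := by
  unfold Q box
  rw [Finset.mem_filter, Fintype.mem_piFinset]
  constructor
  · exact fun h => h.2
  · intro h
    exact ⟨fun i => sz_le_iff.1 ((sz_le_tsz ξ i).trans h), h⟩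

lemma mem_dQ {d n : ℕ} {ξ : Fin d → ℤ} : ξ ∈ dQ d n ↔ tsz ξ = n := by
  unfold dQ box
  rw [Finset.mem_filter, Fintype.mem_piFinset]
  constructor
  · exact fun h => h.2
  · intro h
    exact ⟨fun i => sz_le_iff.1 ((sz_le_tsz ξ i).trans h.le), h⟩

/-- scalar product of real vectors -/
def dot {ι : Type*} [Fintype ι] (v w : ι → ℝ) : ℝ := ∑ i, v i * w i

/-- square of the Euclidean norm -/
def nsq {ι : Type*} [Fintype ι] (v : ι → ℝ) : ℝ := ∑ i, v i ^ 2

/-- standard Gaussian measure on `ι → ℝ` -/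
abbrev gam (ι : Type*) [Fintype ι] : Measure (ι → ℝ) :=
  Measure.pi fun _ : ι => gaussianReal 0 1

/-- the character `u ↦ exp (2 π i ξ u / 2^N)` of `Z/2^N` -/
def ee (N : ℕ) (ξ : ℤ) (u : ZMod (2 ^ N)) : ℂ := ZMod.stdAddChar ((ξ : ZMod (2 ^ N)) * u)

/-- characters of `(Z/2^N)^m` -/
def eem (N : ℕ) {m : ℕ} (ξ : Fin m → ℤ) (u : Fin m → ZMod (2 ^ N)) : ℂ := ∏ i, ee N (ξ i) (u i)

/-- average of a real or complex valued function over a finite type -/
def avg {α E : Type*} [Fintype α] [AddCommMonoid E] [Module ℝ E] (f : α → E) : E :=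
  (1 / (Fintype.card α : ℝ)) • ∑ x, f x

/-- index of the block of level `k` containing `x` (blocks of length `2^(N-k)`) -/
def blk (N k : ℕ) (x : ZMod (2 ^ N)) : ℕ := x.val / 2 ^ (N - k)

/-- Rademacher sign of level `k`: `+1` on the first half of each block of level `k`, else `-1` -/
def rsgn (N k : ℕ) (x : ZMod (2 ^ N)) : ℝ := if (x.val / 2 ^ (N - k - 1)) % 2 = 0 then 1 else -1

/-- unnormalised Haar coefficient of level `k` on block `a` -/
def hc (N k a : ℕ) (φ : ZMod (2 ^ N) → ℂ) : ℂ :=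
  avg fun x => if blk N k x = a then (rsgn N k x : ℂ) * φ x else 0

/-- square of the `L_2` norm of the block averages at level `K` -/
def hE (N K : ℕ) (φ : ZMod (2 ^ N) → ℂ) : ℝ :=
  ∑ a ∈ range (2 ^ K), (2 : ℝ) ^ K * ‖avg fun x => if blk N K x = a then φ x else 0‖ ^ 2

/-- dyadic distance exponent of `u` to `0` -/
def tau (N : ℕ) (u : ZMod (2 ^ N)) : ℕ := N - Nat.size u.valMinAbs.natAbs

end

end Pool.Agent.LibEnt73
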