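import Pool.Agent.LibEnt73.Base

/-! Task CH: characters of `Z/2^N` and of `(Z/2^N)^m`, orthogonality. -/

namespace Pool.Agent.LibEnt73

open MeasureTheory ProbabilityTheory Finset

theorem ee_eq (N : ℕ) (ξ : ℤ) (u : ZMod (2 ^ N)) :
    ee N ξ u = Complex.exp (2 * Real.pi * Complex.I * ξ * (u.val : ℂ) / 2 ^ N) := by
  have h1 : (ξ : ZMod (2 ^ N)) * u = ((ξ * (u.val : ℤ) : ℤ) : ZMod (2 ^ N)) := by
    push_cast
    rw [ZMod.natCast_zmod_val]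
  rw [ee, h1, ZMod.stdAddChar_coe]
  congr 1
  push_cast
  ring

theorem ee_add_right (N : ℕ) (ξ : ℤ) (u v : ZMod (2 ^ N)) : ee N ξ (u + v) = ee N ξ u * ee N ξ v := by
  rw [ee, ee, ee, mul_add, AddChar.map_add_eq_mul]

theorem ee_add_left (N : ℕ) (ξ η : ℤ) (u : ZMod (2 ^ N)) : ee N (ξ + η) u = ee N ξ u * ee N η u := by
  rw [ee, ee, ee, Int.cast_add, add_mul, AddChar.map_add_eq_mul]

theorem ee_zero_left (N : ℕ) (u : ZMod (2 ^ N)) : ee N 0 u = 1 := by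
  rw [ee, Int.cast_zero, zero_mul, AddChar.map_zero_eq_one]

theorem norm_ee (N : ℕ) (ξ : ℤ) (u : ZMod (2 ^ N)) : ‖ee N ξ u‖ = 1 := by
  rw [ee, ZMod.stdAddChar_apply, Circle.norm_coe]

theorem ee_neg_left (N : ℕ) (ξ : ℤ) (u : ZMod (2 ^ N)) : ee N (-ξ) u = (starRingEnd ℂ) (ee N ξ u) := by
  rw [ee, ee, Int.cast_neg, neg_mul, AddChar.map_neg_eq_conj]

theorem ee_neg_right (N : ℕ) (ξ : ℤ) (u : ZMod (2 ^ N)) : ee N ξ (-u) = (starRingEnd ℂ) (ee N ξ u) := by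
  rw [ee, ee, mul_neg, AddChar.map_neg_eq_conj]

theorem Chars_ne (N q : ℕ) (hq : q < N) (ξ η : ℤ) (hξ : ξ ∈ Finset.Ioo (-(2 : ℤ) ^ q) (2 ^ q))
    (hη : η ∈ Finset.Ioo (-(2 : ℤ) ^ q) (2 ^ q)) :
    ((ξ - η : ℤ) : ZMod (2 ^ N)) = 0 ↔ ξ = η := by
  rw [Finset.mem_Ioo] at hξ hη
  rw [ZMod.intCast_zmod_eq_zero_iff_dvd]
  constructor
  · intro h
    have h1 : (2 : ℤ) ^ (q + 1) ≤ 2 ^ N := pow_le_pow_right₀ (by norm_num) hq
    rw [pow_succ] at h1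
    have h2 : |ξ - η| < ((2 ^ N : ℕ) : ℤ) := by
      rw [abs_lt]
      push_cast
      constructor <;> linarith [hξ.1, hξ.2, hη.1, hη.2]
    have h3 := Int.eq_zero_of_abs_lt_dvd h h2
    omega
  · rintro rfl
    simp

/-- orthogonality in one variable for frequencies in `(-2^(N-1), 2^(N-1))` -/
theorem avg_ee_mul_conj (N q : ℕ) (hq : q < N) (ξ η : ℤ) (hξ : ξ ∈ Finset.Ioo (-(2 : ℤ) ^ q) (2 ^ q))
    (hη : η ∈ Finset.Ioo (-(2 : ℤ) ^ q) (2 ^ q)) :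
    avg (fun u : ZMod (2 ^ N) => ee N ξ u * (starRingEnd ℂ) (ee N η u)) = if ξ = η then 1 else 0 := by
  have h1 : ∀ u : ZMod (2 ^ N), ee N ξ u * (starRingEnd ℂ) (ee N η u) =
      ZMod.stdAddChar (u * ((ξ - η : ℤ) : ZMod (2 ^ N))) := by
    intro u
    rw [← ee_neg_left, ← ee_add_left, ee, mul_comm u, sub_eq_add_neg]
  have h2 := AddChar.sum_mulShift ((ξ - η : ℤ) : ZMod (2 ^ N)) (ZMod.isPrimitive_stdAddChar (2 ^ N))
  rw [avg]
  simp only [h1]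
  rw [h2]
  simp only [Chars_ne N q hq ξ η hξ hη]
  split_ifs with h
  · rw [ZMod.card]
    simp
  · simp

theorem Chars_avg_ofReal {α : Type*} [Fintype α] (f : α → ℝ) :
    ((avg f : ℝ) : ℂ) = avg fun x => (f x : ℂ) := by
  rw [avg, avg]
  simp

theorem Chars_avg_sum {α ι : Type*} [Fintype α] (s : Finset ι) (f : ι → α → ℂ) :
    (avg fun x => ∑ i ∈ s, f i x) = ∑ i ∈ s, avg (f i) := by
  simp only [avg]
  rw [Finset.sum_comm, Finset.smul_sum]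

theorem Chars_avg_mul {α : Type*} [Fintype α] (c : ℂ) (f : α → ℂ) :
    (avg fun x => c * f x) = c * avg f := by
  simp only [avg]
  rw [← Finset.mul_sum, mul_smul_comm]

/-- Parseval in one variable -/
theorem parseval_one (N q : ℕ) (hq : q < N) (c : ℤ → ℂ) :
    avg (fun u : ZMod (2 ^ N) => ‖∑ ξ ∈ Finset.Ioo (-(2 : ℤ) ^ q) (2 ^ q), c ξ * ee N ξ u‖ ^ 2)
      = ∑ ξ ∈ Finset.Ioo (-(2 : ℤ) ^ q) (2 ^ q), ‖c ξ‖ ^ 2 := by
  rw [← Complex.ofReal_inj, Chars_avg_ofReal]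
  have h1 : ∀ u : ZMod (2 ^ N),
      ((‖∑ ξ ∈ Finset.Ioo (-(2 : ℤ) ^ q) (2 ^ q), c ξ * ee N ξ u‖ ^ 2 : ℝ) : ℂ) =
      ∑ ξ ∈ Finset.Ioo (-(2 : ℤ) ^ q) (2 ^ q), ∑ η ∈ Finset.Ioo (-(2 : ℤ) ^ q) (2 ^ q),
        (c ξ * (starRingEnd ℂ) (c η)) * (ee N ξ u * (starRingEnd ℂ) (ee N η u)) := by
    intro u
    push_cast
    rw [← Complex.mul_conj', map_sum, Finset.sum_mul_sum]
    refine Finset.sum_congr rfl fun ξ _ => Finset.sum_congr rfl fun η _ => ?_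
    rw [map_mul]
    ring
  simp only [h1]
  rw [Chars_avg_sum]
  push_cast
  refine Finset.sum_congr rfl fun ξ hξ => ?_
  rw [Chars_avg_sum, Finset.sum_eq_single ξ]
  · rw [Chars_avg_mul, avg_ee_mul_conj N q hq ξ ξ hξ hξ, if_pos rfl, mul_one, Complex.mul_conj']
  · intro η hη hne
    rw [Chars_avg_mul, avg_ee_mul_conj N q hq ξ η hξ hη, if_neg (Ne.symm hne), mul_zero]
  · intro h
    exact absurd hξ h

variable {m : ℕ}

theorem eem_add_right (N : ℕ) (ξ : Fin m → ℤ) (u v : Fin m → ZMod (2 ^ N)) :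
    eem N ξ (u + v) = eem N ξ u * eem N ξ v := by
  simp only [eem, Pi.add_apply, ee_add_right, Finset.prod_mul_distrib]

theorem eem_neg_right (N : ℕ) (ξ : Fin m → ℤ) (u : Fin m → ZMod (2 ^ N)) :
    eem N ξ (-u) = (starRingEnd ℂ) (eem N ξ u) := by
  simp only [eem, Pi.neg_apply, ee_neg_right, map_prod]

theorem eem_neg_left (N : ℕ) (ξ : Fin m → ℤ) (u : Fin m → ZMod (2 ^ N)) :
    eem N (-ξ) u = (starRingEnd ℂ) (eem N ξ u) := by
  simp only [eem, Pi.neg_apply, ee_neg_left, map_prod]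

theorem norm_eem (N : ℕ) (ξ : Fin m → ℤ) (u : Fin m → ZMod (2 ^ N)) : ‖eem N ξ u‖ = 1 := by
  rw [eem, norm_prod]
  simp only [norm_ee, Finset.prod_const_one]

theorem Chars_avg_prod (N : ℕ) (f : Fin m → ZMod (2 ^ N) → ℂ) :
    (avg fun u : Fin m → ZMod (2 ^ N) => ∏ i, f i (u i)) = ∏ i, avg (f i) := by
  have h1 := Finset.prod_univ_sum (fun _ : Fin m => (Finset.univ : Finset (ZMod (2 ^ N)))) f
  rw [Fintype.piFinset_univ] at h1
  simp only [avg, Complex.real_smul]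
  rw [Finset.prod_mul_distrib, h1, Finset.prod_const, Finset.card_univ, Fintype.card_fin,
    Fintype.card_pi, Finset.prod_const, Finset.card_univ, Fintype.card_fin]
  congr 1
  push_cast
  rw [one_div, one_div, inv_pow]

theorem avg_eem_mul_conj (N q : ℕ) (hq : q < N) (ξ η : Fin m → ℤ) (hξ : ξ ∈ box m q)
    (hη : η ∈ box m q) :
    avg (fun u : Fin m → ZMod (2 ^ N) => eem N ξ u * (starRingEnd ℂ) (eem N η u))
      = if ξ = η then 1 else 0 := by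
  rw [box, Fintype.mem_piFinset] at hξ hη
  have h1 : (fun u : Fin m → ZMod (2 ^ N) => eem N ξ u * (starRingEnd ℂ) (eem N η u)) =
      fun u => ∏ i, ee N (ξ i) (u i) * (starRingEnd ℂ) (ee N (η i) (u i)) := by
    funext u
    simp only [eem, map_prod, Finset.prod_mul_distrib]
  rw [h1, Chars_avg_prod N fun i v => ee N (ξ i) v * (starRingEnd ℂ) (ee N (η i) v)]
  rw [Finset.prod_congr rfl fun i _ => avg_ee_mul_conj N q hq (ξ i) (η i) (hξ i) (hη i)]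
  rw [Finset.prod_ite_zero]
  simp only [Finset.mem_univ, true_imp_iff, Finset.prod_const_one, funext_iff]

end Pool.Agent.LibEnt73
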