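import Pool.Agent.LibEnt73.KerDefs
import Pool.Agent.LibEnt73.Chars

/-! Task FA: pointwise bound of the one variable Fejer kernel, level sets of `tau`. -/

namespace Pool.Agent.LibEnt73

open Finset

theorem FejerA_ee_pow (N j : ℕ) (u : ZMod (2 ^ N)) :
    ee N (j : ℤ) u = (ZMod.stdAddChar u) ^ j := by
  unfold ee
  rw [← AddChar.map_nsmul_eq_pow, nsmul_eq_mul]
  norm_cast

theorem FejerA_norm (N : ℕ) (u : ZMod (2 ^ N)) : ‖(ZMod.stdAddChar u : ℂ)‖ = 1 :=
  AddChar.norm_apply _ _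

theorem VV_zero (N t : ℕ) : VV N t 0 = 2 ^ (t + 2) := by
  unfold VV
  simp only [FejerA_ee_pow, AddChar.map_zero_eq_one, one_pow, sum_const, card_range, nsmul_eq_mul,
    mul_one]
  rw [Nat.cast_pow, norm_pow]
  simp only [Nat.cast_ofNat, RCLike.norm_ofNat]
  have h : (2 : ℝ) ^ t ≠ 0 := by positivity
  field_simp
  ring

theorem FejerA_trivial (N t : ℕ) (u : ZMod (2 ^ N)) : VV N t u ≤ 2 ^ (t + 2) := by
  unfold VV
  have h1 : ‖∑ j ∈ range (2 ^ (t + 1)), ee N j u‖ ≤ 2 ^ (t + 1) := by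
    refine (norm_sum_le _ _).trans ?_
    simp only [FejerA_ee_pow, norm_pow, FejerA_norm, one_pow, sum_const, card_range, nsmul_eq_mul,
      mul_one]
    push_cast
    exact le_rfl
  have h2 : ‖∑ j ∈ range (2 ^ (t + 1)), ee N j u‖ ^ 2 ≤ (2 ^ (t + 1)) ^ 2 :=
    pow_le_pow_left₀ (norm_nonneg _) h1 2
  calc ((2 : ℝ) ^ t)⁻¹ * ‖∑ j ∈ range (2 ^ (t + 1)), ee N j u‖ ^ 2
      ≤ ((2 : ℝ) ^ t)⁻¹ * (2 ^ (t + 1)) ^ 2 := by gcongr
    _ = 2 ^ (t + 2) := by
      have h : (2 : ℝ) ^ t ≠ 0 := by positivity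
      field_simp
      ring

theorem FejerA_size_le (N : ℕ) (u : ZMod (2 ^ N)) : Nat.size u.valMinAbs.natAbs ≤ N := by
  rw [Nat.size_le]
  have h1 := ZMod.natAbs_valMinAbs_le u
  have h2 : 0 < 2 ^ N := by positivity
  omega

/-- the geometric sum -/
theorem FejerA_geom (N J : ℕ) (u : ZMod (2 ^ N)) (hu : u ≠ 0) :
    ‖∑ j ∈ range J, ee N j u‖ ≤ 2 ^ (tau N u) := by
  set v : ℤ := u.valMinAbs with hv
  set z : ℂ := ZMod.stdAddChar u with hz
  have hv0 : v ≠ 0 := by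
    intro h0
    exact hu ((ZMod.valMinAbs_eq_zero u).1 h0)
  -- the character value
  have hzv : z = Complex.exp (Complex.I * ((2 * Real.pi * v / 2 ^ N : ℝ) : ℂ)) := by
    have h1 : u = ((v : ℤ) : ZMod (2 ^ N)) := (ZMod.coe_valMinAbs u).symm
    rw [hz, h1, ZMod.stdAddChar_coe]
    congr 1
    push_cast
    ring
  have hsize : 2 ^ (Nat.size v.natAbs - 1) ≤ v.natAbs := by
    have h1 : 0 < Nat.size v.natAbs := by
      rw [Nat.size_pos]
      exact Int.natAbs_pos.2 hv0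
    by_contra hlt
    push Not at hlt
    have := Nat.size_le.2 hlt
    omega
  have hsz1 : 1 ≤ Nat.size v.natAbs := by
    have h1 : 0 < Nat.size v.natAbs := by
      rw [Nat.size_pos]
      exact Int.natAbs_pos.2 hv0
    exact h1
  have hszN : Nat.size v.natAbs ≤ N := FejerA_size_le N u
  have habs : (2 : ℝ) ^ (Nat.size v.natAbs - 1) ≤ |(v : ℝ)| := by
    have h1 : ((2 ^ (Nat.size v.natAbs - 1) : ℕ) : ℝ) ≤ ((v.natAbs : ℕ) : ℝ) := by
      exact_mod_cast hsize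
    rw [Nat.cast_natAbs, Int.cast_abs] at h1
    push_cast at h1
    exact h1
  have habs2 : |(v : ℝ)| ≤ 2 ^ N / 2 := by
    have h1 := ZMod.natAbs_valMinAbs_le u
    have h2 : 2 * v.natAbs ≤ 2 ^ N := by
      rw [← hv] at h1
      omega
    have h3 : ((2 * v.natAbs : ℕ) : ℝ) ≤ ((2 ^ N : ℕ) : ℝ) := by exact_mod_cast h2
    push_cast at h3
    rw [Nat.cast_natAbs, Int.cast_abs] at h3
    linarith
  have hN : (0 : ℝ) < 2 ^ N := by positivity
  have hpi := Real.pi_pos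
  -- lower bound of `‖z - 1‖`
  have hz1 : 2 * ((2 : ℝ) ^ (tau N u))⁻¹ ≤ ‖z - 1‖ := by
    rw [hzv, Complex.norm_exp_I_mul_ofReal_sub_one]
    have h1 : 2 * Real.pi * v / 2 ^ N / 2 = Real.pi * (v / 2 ^ N) := by ring
    rw [h1, norm_mul, Real.norm_eq_abs, Real.norm_eq_abs, abs_two]
    have h2 : |Real.pi * (v / 2 ^ N)| ≤ Real.pi / 2 := by
      rw [abs_mul, abs_of_pos hpi, abs_div, abs_of_pos hN]
      have : |(v : ℝ)| / 2 ^ N ≤ 1 / 2 := by
        rw [div_le_iff₀ hN]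
        linarith
      nlinarith
    have h3 := Real.mul_abs_le_abs_sin h2
    rw [abs_mul, abs_of_pos hpi, abs_div, abs_of_pos hN] at h3
    have h4 : 2 / Real.pi * (Real.pi * (|(v : ℝ)| / 2 ^ N)) = 2 * |(v : ℝ)| / 2 ^ N := by
      field_simp
    rw [h4] at h3
    have h5 : ((2 : ℝ) ^ (tau N u))⁻¹ ≤ 2 * |(v : ℝ)| / 2 ^ N := by
      rw [le_div_iff₀ hN]
      have h6 : (2 : ℝ) ^ N = 2 ^ (tau N u) * 2 ^ (Nat.size v.natAbs) := by
        rw [← pow_add]
        congr 1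
        unfold tau
        rw [← hv]
        omega
      rw [h6, inv_mul_cancel_left₀ (by positivity)]
      calc (2 : ℝ) ^ (Nat.size v.natAbs) = 2 * 2 ^ (Nat.size v.natAbs - 1) := by
            rw [← pow_succ', Nat.sub_add_cancel hsz1]
        _ ≤ 2 * |(v : ℝ)| := by linarith
    linarith
  have hzne : z ≠ 1 := by
    intro h
    rw [h, sub_self, norm_zero] at hz1
    have : (0 : ℝ) < 2 * ((2 : ℝ) ^ (tau N u))⁻¹ := by positivity
    linarith
  have hzpos : 0 < ‖z - 1‖ := norm_pos_iff.2 (sub_ne_zero.2 hzne)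
  simp only [FejerA_ee_pow]
  rw [← hz, geom_sum_eq hzne, norm_div, div_le_iff₀ hzpos]
  have h7 : ‖z ^ J - 1‖ ≤ 2 := by
    refine (norm_sub_le _ _).trans ?_
    rw [norm_pow, hz, FejerA_norm, one_pow, norm_one]
    norm_num
  calc ‖z ^ J - 1‖ ≤ 2 := h7
    _ = 2 ^ (tau N u) * (2 * ((2 : ℝ) ^ (tau N u))⁻¹) := by
      field_simp
    _ ≤ 2 ^ (tau N u) * ‖z - 1‖ := by gcongr

theorem VV_le (N t : ℕ) (ht : t ≤ N) (u : ZMod (2 ^ N)) :
    VV N t u ≤ 2 ^ (t + 2) * (1 / 4 : ℝ) ^ (t - tau N u) := by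
  rcases Nat.lt_or_ge (tau N u) t with hlt | hge
  · have hu : u ≠ 0 := by
      rintro rfl
      unfold tau at hlt
      simp at hlt
      omega
    have h1 := FejerA_geom N (2 ^ (t + 1)) u hu
    have h2 : ‖∑ j ∈ range (2 ^ (t + 1)), ee N j u‖ ^ 2 ≤ (2 ^ (tau N u)) ^ 2 :=
      pow_le_pow_left₀ (norm_nonneg _) h1 2
    unfold VV
    calc ((2 : ℝ) ^ t)⁻¹ * ‖∑ j ∈ range (2 ^ (t + 1)), ee N j u‖ ^ 2
        ≤ ((2 : ℝ) ^ t)⁻¹ * (2 ^ (tau N u)) ^ 2 := by gcongr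
      _ ≤ 2 ^ (t + 2) * (1 / 4 : ℝ) ^ (t - tau N u) := by
        obtain ⟨d, hd⟩ := Nat.exists_eq_add_of_lt hlt
        have e1 : t - tau N u = d + 1 := by omega
        rw [e1, hd]
        have h3 : (0 : ℝ) < 2 ^ (tau N u) := by positivity
        have h4 : (0 : ℝ) < 2 ^ d := by positivity
        have e2 : (1 / 4 : ℝ) ^ (d + 1) = 1 / (4 * (2 ^ d) ^ 2) := by
          rw [div_pow, one_pow, pow_succ, ← pow_mul, mul_comm d 2, pow_mul]
          norm_num
          ring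
        rw [e2]
        have e3 : (2 : ℝ) ^ (tau N u + d + 1) = 2 * 2 ^ (tau N u) * 2 ^ d := by ring
        have e4 : (2 : ℝ) ^ (tau N u + d + 1 + 2) = 8 * 2 ^ (tau N u) * 2 ^ d := by ring
        rw [e3, e4, inv_mul_eq_div, div_le_iff₀ (by positivity)]
        have e5 : 8 * 2 ^ (tau N u) * 2 ^ d * (1 / (4 * (2 ^ d) ^ 2)) *
            (2 * 2 ^ (tau N u) * (2 : ℝ) ^ d) = 4 * (2 ^ (tau N u)) ^ 2 := by
          field_simp
          ring
        rw [e5]
        nlinarith [sq_nonneg ((2 : ℝ) ^ (tau N u))]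
  · rw [Nat.sub_eq_zero_of_le hge, pow_zero, mul_one]
    exact FejerA_trivial N t u

theorem card_tau_le (N τ : ℕ) (hτ : τ ≤ N) :
    (Finset.univ.filter fun u : ZMod (2 ^ N) => tau N u = τ).card ≤ 2 ^ (N - τ) := by
  classical
  have hinj : Set.InjOn (fun u : ZMod (2 ^ N) => u.valMinAbs)
      (Finset.univ.filter fun u : ZMod (2 ^ N) => tau N u = τ : Finset (ZMod (2 ^ N))) :=
    fun u _ v _ h => ZMod.injective_valMinAbs h
  have hsz : ∀ u : ZMod (2 ^ N), tau N u = τ → Nat.size u.valMinAbs.natAbs = N - τ := by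
    intro u hu
    have h1 := FejerA_size_le N u
    unfold tau at hu
    omega
  rcases Nat.eq_zero_or_pos (N - τ) with h0 | hpos
  · rw [h0, pow_zero]
    refine (Finset.card_le_card_of_injOn _ ?_ hinj (t := {0})).trans (by simp)
    intro u hu
    have h1 := hsz u (Finset.mem_filter.1 hu).2
    rw [h0, Nat.size_eq_zero] at h1
    simpa using Int.natAbs_eq_zero.1 h1
  · obtain ⟨s, hs⟩ : ∃ s, N - τ = s + 1 := ⟨N - τ - 1, by omega⟩
    rw [hs]
    refine (Finset.card_le_card_of_injOn _ ?_ hinj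
      (t := Finset.Ico ((2 : ℤ) ^ s) (2 ^ (s + 1)) ∪
        Finset.Ioc (-(2 : ℤ) ^ (s + 1)) (-(2 : ℤ) ^ s))).trans ?_
    · intro u hu
      have h1 := hsz u (Finset.mem_filter.1 hu).2
      rw [hs] at h1
      have h2 : u.valMinAbs.natAbs < 2 ^ (s + 1) := Nat.size_le.1 h1.le
      have h3 : 2 ^ s ≤ u.valMinAbs.natAbs := by
        by_contra hlt
        push Not at hlt
        have := Nat.size_le.2 hlt
        omega
      have h2' : |u.valMinAbs| < 2 ^ (s + 1) := by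
        rw [Int.abs_eq_natAbs]; exact_mod_cast h2
      have h3' : (2 : ℤ) ^ s ≤ |u.valMinAbs| := by
        rw [Int.abs_eq_natAbs]; exact_mod_cast h3
      rw [Finset.mem_coe, Finset.mem_union, Finset.mem_Ico, Finset.mem_Ioc]
      rw [abs_lt] at h2'
      rcases le_abs.1 h3' with h | h
      · left
        exact ⟨h, h2'.2⟩
      · right
        exact ⟨h2'.1, by linarith⟩
    · refine (Finset.card_union_le _ _).trans ?_
      rw [Int.card_Ico, Int.card_Ioc]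
      have e1 : (2 : ℤ) ^ (s + 1) - 2 ^ s = ((2 ^ s : ℕ) : ℤ) := by push_cast; ring
      have e2 : -(2 : ℤ) ^ s - -(2 : ℤ) ^ (s + 1) = ((2 ^ s : ℕ) : ℤ) := by push_cast; ring
      rw [e1, e2, Int.toNat_natCast, pow_succ]
      omega

end Pool.Agent.LibEnt73
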