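import Pool.Agent.LibEnt73.KerDefs

/-! Task KS: the combinatorial sum behind the kernel estimate (real numbers only). -/

namespace Pool.Agent.LibEnt73

open Finset

/-- number of `t` with `|t| = μ` -/
theorem card_piAntidiag_le (m μ n' : ℕ) (hm : 1 ≤ m) (h : μ ≤ n') :
    ((Finset.piAntidiag (Finset.univ : Finset (Fin m)) μ).card : ℝ) ≤ ((n' : ℝ) + 1) ^ (m - 1) := by
  obtain ⟨m', rfl⟩ : ∃ m', m = m' + 1 := ⟨m - 1, by omega⟩
  have h1 : (Finset.piAntidiag (Finset.univ : Finset (Fin (m' + 1))) μ).card ≤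
      (Fintype.piFinset (fun _ : Fin m' => range (n' + 1))).card := by
    apply Finset.card_le_card_of_injOn (fun t i => t (Fin.castSucc i))
    · intro t ht
      simp only [Finset.mem_coe, Finset.mem_piAntidiag] at ht
      simp only [Finset.mem_coe, Fintype.mem_piFinset, Finset.mem_range]
      intro i
      have h2 : t (Fin.castSucc i) ≤ ∑ j, t j :=
        Finset.single_le_sum (fun j _ => Nat.zero_le _) (Finset.mem_univ _)
      have h3 : ∑ j, t j = μ := ht.1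
      omega
    · intro t ht s hs hts
      simp only [Finset.mem_coe, Finset.mem_piAntidiag] at ht hs
      have h4 : ∀ i : Fin m', t (Fin.castSucc i) = s (Fin.castSucc i) := fun i =>
        congrFun hts i
      have h5 : ∑ j, t j = μ := ht.1
      have h6 : ∑ j, s j = μ := hs.1
      rw [Fin.sum_univ_castSucc] at h5 h6
      have h7 : ∑ i : Fin m', t (Fin.castSucc i) = ∑ i : Fin m', s (Fin.castSucc i) :=
        Finset.sum_congr rfl fun i _ => h4 i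
      funext j
      refine Fin.lastCases ?_ (fun i => h4 i) j
      omega
  rw [Fintype.card_piFinset_const, Finset.card_range] at h1
  have h8 : ((Finset.piAntidiag (Finset.univ : Finset (Fin (m' + 1))) μ).card : ℝ) ≤
      (((n' + 1) ^ m' : ℕ) : ℝ) := by exact_mod_cast h1
  simpa using h8

/-- the one-dimensional sum in `t` -/
theorem KerSum_geomT (n τ : ℕ) :
    ∑ j ∈ range n, ((5 / 4 : ℝ) ^ j * (1 / 4 : ℝ) ^ (j - τ)) ≤ 6 * (5 / 4 : ℝ) ^ τ := by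
  have h0 : ∑ j ∈ range (τ + 1), ((5 / 4 : ℝ) ^ j * (1 / 4 : ℝ) ^ (j - τ)) ≤
      5 * (5 / 4 : ℝ) ^ τ := by
    have h1 : ∑ j ∈ range (τ + 1), ((5 / 4 : ℝ) ^ j * (1 / 4 : ℝ) ^ (j - τ)) =
        ∑ j ∈ range (τ + 1), (5 / 4 : ℝ) ^ j := by
      refine Finset.sum_congr rfl fun j hj => ?_
      rw [Finset.mem_range] at hj
      rw [show j - τ = 0 by omega, pow_zero, mul_one]
    rw [h1, geom_sum_eq (by norm_num), pow_succ, div_le_iff₀ (by norm_num)]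
    linarith
  have h2 : ∀ i : ℕ, ∑ j ∈ range (τ + 1 + i), ((5 / 4 : ℝ) ^ j * (1 / 4 : ℝ) ^ (j - τ)) ≤
      (5 / 4 : ℝ) ^ τ * (6 - (5 / 16 : ℝ) ^ i) := by
    intro i
    induction i with
    | zero =>
      rw [pow_zero, add_zero]
      linarith
    | succ i ih =>
      rw [← add_assoc, Finset.sum_range_succ]
      have h3 : (5 / 4 : ℝ) ^ (τ + 1 + i) * (1 / 4 : ℝ) ^ (τ + 1 + i - τ) =
          (5 / 4 : ℝ) ^ τ * (5 / 16 : ℝ) ^ (i + 1) := by
        rw [show τ + 1 + i - τ = i + 1 by omega, show τ + 1 + i = τ + (i + 1) by omega, pow_add,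
          mul_assoc, ← mul_pow]
        norm_num
      rw [h3]
      have h4 : (0 : ℝ) < (5 / 4 : ℝ) ^ τ := by positivity
      have h5 : (0 : ℝ) < (5 / 16 : ℝ) ^ i := by positivity
      have h6 : (5 / 16 : ℝ) ^ (i + 1) = (5 / 16 : ℝ) ^ i * (5 / 16) := pow_succ _ _
      rw [h6]
      nlinarith [mul_pos h4 h5]
  have h7 : ∑ j ∈ range n, ((5 / 4 : ℝ) ^ j * (1 / 4 : ℝ) ^ (j - τ)) ≤
      ∑ j ∈ range (τ + 1 + n), ((5 / 4 : ℝ) ^ j * (1 / 4 : ℝ) ^ (j - τ)) := by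
    apply Finset.sum_le_sum_of_subset_of_nonneg
    · exact Finset.range_subset_range.2 (by omega)
    · intro j _ _
      positivity
  have h8 := h2 n
  have h9 : (0 : ℝ) < (5 / 16 : ℝ) ^ n := by positivity
  have h10 : (0 : ℝ) < (5 / 4 : ℝ) ^ τ := by positivity
  nlinarith [mul_pos h10 h9]

/-- the one-dimensional sum in `τ` -/
theorem KerSum_geomTau (w : ℝ) (hw1 : 1 ≤ w) (hw2 : w ≤ 96 / 49) (t n : ℕ) :
    ∑ τ ∈ range n, ((1 / 2 : ℝ) ^ τ * 2 ^ t * (1 / 4 : ℝ) ^ (t - τ) * (w ^ τ * (w⁻¹) ^ t)) ≤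
      50 := by
  have hw0 : 0 < w := by linarith
  set b : ℕ → ℝ := fun τ => (1 / 2 : ℝ) ^ τ * 2 ^ t * (1 / 4 : ℝ) ^ (t - τ) *
    (w ^ τ * (w⁻¹) ^ t) with hb
  have hbpos : ∀ τ, 0 < b τ := by
    intro τ
    simp only [hb]
    positivity
  have hbt : b t = 1 := by
    simp only [hb]
    rw [Nat.sub_self, pow_zero, mul_one, ← mul_pow, ← mul_pow, mul_inv_cancel₀ hw0.ne']
    norm_num
  have hbup : ∀ i, b (t + i) = (w / 2) ^ i := by
    intro i
    simp only [hb]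
    rw [show t - (t + i) = 0 by omega, pow_zero, mul_one, pow_add, pow_add]
    have e1 : (1 / 2 : ℝ) ^ t * 2 ^ t = 1 := by
      rw [← mul_pow]; norm_num
    have e2 : w ^ t * (w⁻¹) ^ t = 1 := by
      rw [← mul_pow, mul_inv_cancel₀ hw0.ne', one_pow]
    calc (1 / 2 : ℝ) ^ t * (1 / 2) ^ i * 2 ^ t * (w ^ t * w ^ i * (w⁻¹) ^ t) =
        ((1 / 2 : ℝ) ^ t * 2 ^ t) * (w ^ t * (w⁻¹) ^ t) * ((1 / 2) ^ i * w ^ i) := by ring
      _ = (w / 2) ^ i := by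
        rw [e1, e2, ← mul_pow]
        ring
  have hstep : ∀ τ, τ < t → 2 * b τ ≤ b (τ + 1) := by
    intro τ hτ
    have e : b (τ + 1) = 2 * w * b τ := by
      simp only [hb]
      rw [show t - τ = (t - (τ + 1)) + 1 by omega, pow_succ, pow_succ, pow_succ]
      ring
    rw [e]
    nlinarith [hbpos τ]
  have hlow : ∀ k, k ≤ t → ∑ τ ∈ range k, b τ ≤ b k := by
    intro k
    induction k with
    | zero =>
      intro _
      simpa using (hbpos 0).le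
    | succ k ih =>
      intro hk
      rw [Finset.sum_range_succ]
      have h1 := ih (by omega)
      have h2 := hstep k (by omega)
      linarith
  have hhigh : ∀ i, ∑ τ ∈ range (t + i), b τ ≤ 1 + 49 * (1 - (w / 2) ^ i) := by
    intro i
    induction i with
    | zero =>
      rw [pow_zero, sub_self, mul_zero, add_zero, add_zero]
      have := hlow t le_rfl
      rwa [hbt] at this
    | succ i ih =>
      rw [← add_assoc, Finset.sum_range_succ, hbup i, pow_succ]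
      have h1 : 0 < (w / 2) ^ i := by positivity
      nlinarith [mul_le_mul_of_nonneg_left hw2 h1.le]
  have h7 : ∑ τ ∈ range n, b τ ≤ ∑ τ ∈ range (t + n), b τ := by
    apply Finset.sum_le_sum_of_subset_of_nonneg
    · exact Finset.range_subset_range.2 (by omega)
    · intro j _ _
      exact (hbpos j).le
  have h8 := hhigh n
  have h9 : 0 < (w / 2) ^ n := by positivity
  linarith

/-- the first bound of `Gh` -/
theorem KerSum_Gh_le (m n' μ : ℕ) (τ : Fin m → ℕ) :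
    Gh m n' μ τ ≤ 6 ^ m * ((5 / 4 : ℝ) ^ (∑ i, τ i) / (5 / 4 : ℝ) ^ μ) := by
  have hz : (0 : ℝ) < (5 / 4 : ℝ) ^ μ := by positivity
  rw [← mul_div_assoc, le_div_iff₀ hz]
  have h1 : Gh m n' μ τ * (5 / 4 : ℝ) ^ μ ≤
      ∑ μ' ∈ Finset.Icc μ n', ∑ t ∈ Finset.piAntidiag (Finset.univ : Finset (Fin m)) μ',
        ∏ i, ((5 / 4 : ℝ) ^ (t i) * (1 / 4 : ℝ) ^ (t i - τ i)) := by
    rw [Gh, Finset.sum_mul]
    refine Finset.sum_le_sum fun μ' hμ' => ?_
    rw [Finset.mem_Icc] at hμ'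
    rw [wh, Finset.sum_mul]
    refine Finset.sum_le_sum fun t ht => ?_
    rw [Finset.mem_piAntidiag] at ht
    have e4 : ∏ i, (5 / 4 : ℝ) ^ (t i) = (5 / 4) ^ μ' := by
      rw [Finset.prod_pow_eq_pow_sum, ht.1]
    rw [Finset.prod_mul_distrib, e4, mul_comm]
    refine mul_le_mul_of_nonneg_right ?_ (Finset.prod_nonneg fun i _ => by positivity)
    exact pow_le_pow_right₀ (by norm_num) hμ'.1
  refine h1.trans ?_
  have h2 : ∑ μ' ∈ Finset.Icc μ n', ∑ t ∈ Finset.piAntidiag (Finset.univ : Finset (Fin m)) μ',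
      ∏ i, ((5 / 4 : ℝ) ^ (t i) * (1 / 4 : ℝ) ^ (t i - τ i)) ≤
      ∑ t ∈ Fintype.piFinset (fun _ : Fin m => range (n' + 1)),
        ∏ i, ((5 / 4 : ℝ) ^ (t i) * (1 / 4 : ℝ) ^ (t i - τ i)) := by
    rw [← Finset.sum_biUnion]
    · apply Finset.sum_le_sum_of_subset_of_nonneg
      · intro t ht
        rw [Finset.mem_biUnion] at ht
        obtain ⟨μ', hμ', ht⟩ := ht
        rw [Finset.mem_Icc] at hμ'
        rw [Finset.mem_piAntidiag] at ht
        rw [Fintype.mem_piFinset]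
        intro i
        have h3 : t i ≤ ∑ j, t j :=
          Finset.single_le_sum (fun j _ => Nat.zero_le _) (Finset.mem_univ _)
        have h4 : ∑ j, t j = μ' := ht.1
        rw [Finset.mem_range]
        omega
      · intro t _ _
        exact Finset.prod_nonneg fun i _ => by positivity
    · intro a _ b _ hab
      rw [Function.onFun, Finset.disjoint_left]
      intro t hta htb
      rw [Finset.mem_piAntidiag] at hta htb
      exact hab (hta.1.symm.trans htb.1)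
  refine h2.trans ?_
  rw [← Finset.prod_univ_sum (fun _ : Fin m => range (n' + 1))
    (fun i j => (5 / 4 : ℝ) ^ j * (1 / 4 : ℝ) ^ (j - τ i))]
  calc ∏ i, ∑ j ∈ range (n' + 1), ((5 / 4 : ℝ) ^ j * (1 / 4 : ℝ) ^ (j - τ i)) ≤
      ∏ i, (6 * (5 / 4 : ℝ) ^ (τ i)) := by
        refine Finset.prod_le_prod (fun i _ => Finset.sum_nonneg fun j _ => by positivity)
          fun i _ => KerSum_geomT _ _
    _ = 6 ^ m * (5 / 4 : ℝ) ^ (∑ i, τ i) := by
        rw [Finset.prod_mul_distrib, Finset.prod_const, Finset.card_univ, Fintype.card_fin,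
          Finset.prod_pow_eq_pow_sum]

theorem KerSum_wh_le (m n' μ : ℕ) (hm : 1 ≤ m) (hμ : μ ≤ n') (τ : Fin m → ℕ) :
    wh m μ τ ≤ ((n' : ℝ) + 1) ^ (m - 1) * (1 / 4 : ℝ) ^ (μ - ∑ i, τ i) := by
  have h1 : wh m μ τ ≤ ∑ _t ∈ Finset.piAntidiag (Finset.univ : Finset (Fin m)) μ,
      (1 / 4 : ℝ) ^ (μ - ∑ i, τ i) := by
    refine Finset.sum_le_sum fun t ht => ?_
    rw [Finset.mem_piAntidiag] at ht
    rw [Finset.prod_pow_eq_pow_sum]
    apply pow_le_pow_of_le_one (by norm_num) (by norm_num)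
    have h2 : ∑ i, t i ≤ ∑ i, (t i - τ i) + ∑ i, τ i := by
      rw [← Finset.sum_add_distrib]
      refine Finset.sum_le_sum fun i _ => ?_
      omega
    have h3 : ∑ i, t i = μ := ht.1
    omega
  refine h1.trans ?_
  rw [Finset.sum_const, nsmul_eq_mul]
  exact mul_le_mul_of_nonneg_right (card_piAntidiag_le m μ n' hm hμ) (by positivity)

/-- a geometric sum -/
theorem KerSum_quarter (s μ n' : ℕ) :
    ∑ μ' ∈ Finset.Icc μ n', (1 / 4 : ℝ) ^ (μ' - s) ≤ ((s - μ : ℕ) : ℝ) + 4 / 3 := by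
  have h0 : ∀ k, ∑ μ' ∈ Finset.Ico μ (μ + k), (1 / 4 : ℝ) ^ (μ' - s) ≤
      ((s - μ : ℕ) : ℝ) + 4 / 3 - (if μ + k ≤ s then ((s - (μ + k) : ℕ) : ℝ) + 4 / 3
        else (1 / 3) * (1 / 4 : ℝ) ^ (μ + k - s - 1)) := by
    intro k
    induction k with
    | zero =>
      rw [add_zero, Finset.Ico_self, Finset.sum_empty]
      split_ifs with h
      · simp
      · have : (1 / 4 : ℝ) ^ (μ - s - 1) ≤ 1 := pow_le_one₀ (by norm_num) (by norm_num)
        have h3 : (0 : ℝ) ≤ ((s - μ : ℕ) : ℝ) := Nat.cast_nonneg _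
        linarith
    | succ k ih =>
      rw [← add_assoc, Finset.sum_Ico_succ_top (by omega)]
      rcases Nat.lt_trichotomy (μ + k) s with h | h | h
      · rw [if_pos (by omega)] at ih
        rw [if_pos (by omega)]
        have e1 : μ + k - s = 0 := by omega
        rw [e1, pow_zero]
        have e2 : ((s - (μ + k) : ℕ) : ℝ) = ((s - (μ + k + 1) : ℕ) : ℝ) + 1 := by
          rw [show s - (μ + k) = (s - (μ + k + 1)) + 1 by omega]
          push_cast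
          ring
        linarith
      · rw [if_pos (by omega)] at ih
        rw [if_neg (by omega)]
        have e1 : μ + k - s = 0 := by omega
        have e2 : s - (μ + k) = 0 := by omega
        have e3 : μ + k + 1 - s - 1 = 0 := by omega
        rw [e2] at ih
        rw [e1, e3, pow_zero]
        push_cast at ih
        linarith
      · rw [if_neg (by omega)] at ih
        rw [if_neg (by omega)]
        have e1 : μ + k + 1 - s - 1 = (μ + k - s - 1) + 1 := by omega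
        have e2 : μ + k - s = (μ + k - s - 1) + 1 := by omega
        rw [e1, pow_succ]
        have e3 : (1 / 4 : ℝ) ^ (μ + k - s) = (1 / 4 : ℝ) ^ (μ + k - s - 1) * (1 / 4) := by
          conv_lhs => rw [e2]
          rw [pow_succ]
        rw [e3]
        linarith
  rcases Nat.lt_or_ge n' μ with h | h
  · rw [Finset.Icc_eq_empty (by omega), Finset.sum_empty]
    positivity
  · have h1 := h0 (n' + 1 - μ)
    have e1 : μ + (n' + 1 - μ) = n' + 1 := by omega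
    rw [e1] at h1
    have e2 : Finset.Icc μ n' = Finset.Ico μ (n' + 1) := by
      ext x
      simp only [Finset.mem_Icc, Finset.mem_Ico]
      omega
    rw [e2]
    refine h1.trans ?_
    have h2 : (0 : ℝ) ≤ (if n' + 1 ≤ s then ((s - (n' + 1) : ℕ) : ℝ) + 4 / 3
        else (1 / 3) * (1 / 4 : ℝ) ^ (n' + 1 - s - 1)) := by
      split_ifs <;> positivity
    linarith

/-- the second bound of `Gh` -/
theorem KerSum_Gh_le2 (m n' μ : ℕ) (hm : 1 ≤ m) (τ : Fin m → ℕ) :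
    Gh m n' μ τ ≤ ((n' : ℝ) + 1) ^ (m - 1) * (((∑ i, τ i - μ : ℕ) : ℝ) + 4 / 3) := by
  have h1 : Gh m n' μ τ ≤ ∑ μ' ∈ Finset.Icc μ n', ((n' : ℝ) + 1) ^ (m - 1) *
      (1 / 4 : ℝ) ^ (μ' - ∑ i, τ i) := by
    refine Finset.sum_le_sum fun μ' hμ' => ?_
    rw [Finset.mem_Icc] at hμ'
    exact KerSum_wh_le m n' μ' hm hμ'.2 τ
  refine h1.trans ?_
  rw [← Finset.mul_sum]
  exact mul_le_mul_of_nonneg_left (KerSum_quarter _ _ _) (by positivity)

theorem KerSum_exp_le (m n' μ : ℕ) (hm : 1 ≤ m) (τ : Fin m → ℕ) :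
    Real.exp (2 * ((1 / 10) / ((n' : ℝ) + 1) ^ (m - 1)) * Gh m n' μ τ) ≤
      2 * (1 + (5 / 4 : ℝ) ^ (∑ i, τ i) / (5 / 4 : ℝ) ^ μ) := by
  have hB : (0 : ℝ) < ((n' : ℝ) + 1) ^ (m - 1) := by positivity
  have h1 : 2 * ((1 / 10) / ((n' : ℝ) + 1) ^ (m - 1)) * Gh m n' μ τ ≤
      (1 / 5) * (((∑ i, τ i - μ : ℕ) : ℝ) + 4 / 3) := by
    have h2 := KerSum_Gh_le2 m n' μ hm τ
    have e : 2 * ((1 / 10) / ((n' : ℝ) + 1) ^ (m - 1)) * Gh m n' μ τ =
        (1 / 5) * (Gh m n' μ τ / ((n' : ℝ) + 1) ^ (m - 1)) := by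
      ring
    rw [e]
    refine mul_le_mul_of_nonneg_left ?_ (by norm_num)
    rw [div_le_iff₀ hB, mul_comm]
    exact h2
  have hexp : Real.exp (1 / 5) ≤ 5 / 4 := by
    have h3 : (1 : ℝ) - 1 / 5 ≤ Real.exp (-(1 / 5)) := by
      have := Real.add_one_le_exp (-(1 / 5 : ℝ))
      linarith
    rw [Real.exp_neg] at h3
    have h4 : 0 < Real.exp (1 / 5) := Real.exp_pos _
    have h5 : (1 - 1 / 5) * Real.exp (1 / 5) ≤ 1 := by
      calc (1 - 1 / 5) * Real.exp (1 / 5) ≤ (Real.exp (1 / 5))⁻¹ * Real.exp (1 / 5) :=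
            mul_le_mul_of_nonneg_right h3 h4.le
        _ = 1 := inv_mul_cancel₀ h4.ne'
    linarith
  have hexp2 : Real.exp (4 / 15) ≤ 2 := by
    have h3 : Real.exp (4 / 15) ≤ Real.exp (1 / 5 + 1 / 5) := Real.exp_le_exp.2 (by norm_num)
    rw [Real.exp_add] at h3
    have h4 : 0 < Real.exp (1 / 5) := Real.exp_pos _
    nlinarith
  set d : ℕ := ∑ i, τ i - μ with hd
  have h6 : Real.exp ((1 / 5) * ((d : ℝ) + 4 / 3)) ≤ 2 * (5 / 4 : ℝ) ^ d := by
    have e : (1 / 5 : ℝ) * ((d : ℝ) + 4 / 3) = 4 / 15 + (d : ℝ) * (1 / 5) := by ring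
    rw [e, Real.exp_add, Real.exp_nat_mul]
    exact mul_le_mul hexp2 (pow_le_pow_left₀ (Real.exp_pos _).le hexp d) (by positivity)
      (by norm_num)
  refine ((Real.exp_le_exp.2 h1).trans h6).trans ?_
  have h7 : (5 / 4 : ℝ) ^ d ≤ 1 + (5 / 4 : ℝ) ^ (∑ i, τ i) / (5 / 4 : ℝ) ^ μ := by
    rcases Nat.le_total (∑ i, τ i) μ with h | h
    · have e : d = 0 := by omega
      rw [e, pow_zero]
      have : (0 : ℝ) ≤ (5 / 4 : ℝ) ^ (∑ i, τ i) / (5 / 4 : ℝ) ^ μ := by positivity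
      linarith
    · have e : (5 / 4 : ℝ) ^ (∑ i, τ i) / (5 / 4 : ℝ) ^ μ = (5 / 4 : ℝ) ^ d := by
        rw [hd, div_eq_iff (by positivity), ← pow_add]
        congr 1
        omega
      rw [e]
      linarith
  linarith

/-- the factorised sum -/
theorem KerSum_factor (m μ N n' : ℕ) (hm : 1 ≤ m) (hμ : μ ≤ n') (w : ℝ) (hw1 : 1 ≤ w)
    (hw2 : w ≤ 96 / 49) :
    ∑ τ : Fin m → Fin (N + 1), ((1 / 2 : ℝ) ^ (∑ i, (τ i : ℕ)) * (2 : ℝ) ^ μ *
      wh m μ (fun i => (τ i : ℕ)) * (w ^ (∑ i, (τ i : ℕ)) * (w⁻¹) ^ μ)) ≤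
      50 ^ m * ((n' : ℝ) + 1) ^ (m - 1) := by
  have hw0 : 0 < w := by linarith
  have h1 : ∀ τ : Fin m → Fin (N + 1), ((1 / 2 : ℝ) ^ (∑ i, (τ i : ℕ)) * (2 : ℝ) ^ μ *
      wh m μ (fun i => (τ i : ℕ)) * (w ^ (∑ i, (τ i : ℕ)) * (w⁻¹) ^ μ)) =
      ∑ t ∈ Finset.piAntidiag (Finset.univ : Finset (Fin m)) μ,
        ∏ i, ((1 / 2 : ℝ) ^ (τ i : ℕ) * 2 ^ (t i) * (1 / 4 : ℝ) ^ (t i - (τ i : ℕ)) *
          (w ^ (τ i : ℕ) * (w⁻¹) ^ (t i))) := by
    intro τ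
    rw [wh, Finset.mul_sum, Finset.sum_mul]
    refine Finset.sum_congr rfl fun t ht => ?_
    rw [Finset.mem_piAntidiag] at ht
    have e4 : ∏ i, (w⁻¹) ^ (t i) = (w⁻¹) ^ μ := by
      rw [Finset.prod_pow_eq_pow_sum, ht.1]
    have e5 : ∏ i, (2 : ℝ) ^ (t i) = 2 ^ μ := by
      rw [Finset.prod_pow_eq_pow_sum, ht.1]
    have e6 : ∏ i, w ^ (τ i : ℕ) = w ^ (∑ i, (τ i : ℕ)) := Finset.prod_pow_eq_pow_sum _ _ _
    have e7 : ∏ i, (1 / 2 : ℝ) ^ (τ i : ℕ) = (1 / 2) ^ (∑ i, (τ i : ℕ)) :=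
      Finset.prod_pow_eq_pow_sum _ _ _
    rw [Finset.prod_mul_distrib, Finset.prod_mul_distrib, Finset.prod_mul_distrib,
      Finset.prod_mul_distrib, e4, e5, e6, e7]
  rw [Finset.sum_congr rfl fun τ _ => h1 τ, Finset.sum_comm]
  have h2 : ∀ t ∈ Finset.piAntidiag (Finset.univ : Finset (Fin m)) μ,
      ∑ τ : Fin m → Fin (N + 1), ∏ i, ((1 / 2 : ℝ) ^ (τ i : ℕ) * 2 ^ (t i) *
        (1 / 4 : ℝ) ^ (t i - (τ i : ℕ)) * (w ^ (τ i : ℕ) * (w⁻¹) ^ (t i))) ≤ 50 ^ m := by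
    intro t _
    have h3 : ∑ τ : Fin m → Fin (N + 1), ∏ i, ((1 / 2 : ℝ) ^ (τ i : ℕ) * 2 ^ (t i) *
        (1 / 4 : ℝ) ^ (t i - (τ i : ℕ)) * (w ^ (τ i : ℕ) * (w⁻¹) ^ (t i))) =
        ∏ i, ∑ j : Fin (N + 1), ((1 / 2 : ℝ) ^ (j : ℕ) * 2 ^ (t i) *
          (1 / 4 : ℝ) ^ (t i - (j : ℕ)) * (w ^ (j : ℕ) * (w⁻¹) ^ (t i))) := by
      rw [Finset.prod_univ_sum (fun _ : Fin m => (Finset.univ : Finset (Fin (N + 1))))
        (fun i j => (1 / 2 : ℝ) ^ (j : ℕ) * 2 ^ (t i) *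
          (1 / 4 : ℝ) ^ (t i - (j : ℕ)) * (w ^ (j : ℕ) * (w⁻¹) ^ (t i))), Fintype.piFinset_univ]
    rw [h3]
    calc ∏ i, ∑ j : Fin (N + 1), ((1 / 2 : ℝ) ^ (j : ℕ) * 2 ^ (t i) *
          (1 / 4 : ℝ) ^ (t i - (j : ℕ)) * (w ^ (j : ℕ) * (w⁻¹) ^ (t i))) ≤
        ∏ _i : Fin m, (50 : ℝ) := by
          refine Finset.prod_le_prod (fun i _ => Finset.sum_nonneg fun j _ => by positivity)
            fun i _ => ?_
          rw [Fin.sum_univ_eq_sum_range (fun j => (1 / 2 : ℝ) ^ j * 2 ^ (t i) *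
            (1 / 4 : ℝ) ^ (t i - j) * (w ^ j * (w⁻¹) ^ (t i))) (N + 1)]
          exact KerSum_geomTau w hw1 hw2 (t i) (N + 1)
      _ = 50 ^ m := by
          rw [Finset.prod_const, Finset.card_univ, Fintype.card_fin]
  refine (Finset.sum_le_sum h2).trans ?_
  rw [Finset.sum_const, nsmul_eq_mul, mul_comm]
  exact mul_le_mul_of_nonneg_left (card_piAntidiag_le m μ n' hm hμ) (by positivity)

theorem KerSum_pow_aux (z : ℝ) (hz : 0 < z) (s μ k : ℕ) :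
    (z ^ k) ^ s * ((z ^ k)⁻¹) ^ μ = (z ^ s / z ^ μ) ^ k := by
  have h : z ^ μ ≠ 0 := by positivity
  rw [inv_pow, ← pow_mul, ← pow_mul, div_pow, ← pow_mul, ← pow_mul, mul_comm k s, mul_comm k μ,
    div_eq_mul_inv]

/-- the kernel sum estimate -/
theorem kernel_sum (m : ℕ) (hm : 1 ≤ m) : ∃ C : ℝ, 0 < C ∧ ∀ n' N : ℕ,
    ∑ μ ∈ range (n' + 1), ∑ τ : Fin m → Fin (N + 1),
      (1 / 2 : ℝ) ^ (∑ i, (τ i : ℕ)) * ((2 : ℝ) ^ μ * wh m μ (fun i => (τ i : ℕ)) *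
        Gh m n' μ (fun i => (τ i : ℕ)) ^ 2 *
        Real.exp (2 * ((1 / 10) / ((n' : ℝ) + 1) ^ (m - 1)) * Gh m n' μ (fun i => (τ i : ℕ))))
      ≤ C * (((n' : ℝ) + 1) * ((n' : ℝ) + 1) ^ (m - 1)) := by
  refine ⟨2 * 36 ^ m * (2 * 50 ^ m), by positivity, fun n' N => ?_⟩
  have hμ : ∀ μ ∈ range (n' + 1), ∑ τ : Fin m → Fin (N + 1),
      (1 / 2 : ℝ) ^ (∑ i, (τ i : ℕ)) * ((2 : ℝ) ^ μ * wh m μ (fun i => (τ i : ℕ)) *
        Gh m n' μ (fun i => (τ i : ℕ)) ^ 2 *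
        Real.exp (2 * ((1 / 10) / ((n' : ℝ) + 1) ^ (m - 1)) * Gh m n' μ (fun i => (τ i : ℕ)))) ≤
      2 * 36 ^ m * (2 * 50 ^ m) * ((n' : ℝ) + 1) ^ (m - 1) := by
    intro μ hμ
    have hμ' : μ ≤ n' := by
      rw [Finset.mem_range] at hμ
      omega
    have h1 : ∀ τ : Fin m → Fin (N + 1),
        (1 / 2 : ℝ) ^ (∑ i, (τ i : ℕ)) * ((2 : ℝ) ^ μ * wh m μ (fun i => (τ i : ℕ)) *
        Gh m n' μ (fun i => (τ i : ℕ)) ^ 2 *
        Real.exp (2 * ((1 / 10) / ((n' : ℝ) + 1) ^ (m - 1)) * Gh m n' μ (fun i => (τ i : ℕ)))) ≤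
        2 * 36 ^ m * (((1 / 2 : ℝ) ^ (∑ i, (τ i : ℕ)) * (2 : ℝ) ^ μ *
          wh m μ (fun i => (τ i : ℕ)) * ((25 / 16) ^ (∑ i, (τ i : ℕ)) * ((25 / 16)⁻¹) ^ μ)) +
          ((1 / 2 : ℝ) ^ (∑ i, (τ i : ℕ)) * (2 : ℝ) ^ μ *
          wh m μ (fun i => (τ i : ℕ)) *
            ((125 / 64) ^ (∑ i, (τ i : ℕ)) * ((125 / 64)⁻¹) ^ μ))) := by
      intro τ
      set s : ℕ := ∑ i, (τ i : ℕ) with hs
      set y : ℝ := (5 / 4 : ℝ) ^ s / (5 / 4 : ℝ) ^ μ with hy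
      have hy0 : 0 ≤ y := by positivity
      have hG := KerSum_Gh_le m n' μ (fun i => (τ i : ℕ))
      have hE := KerSum_exp_le m n' μ hm (fun i => (τ i : ℕ))
      rw [← hs, ← hy] at hG hE
      have hG0 : 0 ≤ Gh m n' μ (fun i => (τ i : ℕ)) :=
        Finset.sum_nonneg fun _ _ => wh_nonneg _ _ _
      have hW := wh_nonneg m μ (fun i => (τ i : ℕ))
      have e2 : (25 / 16 : ℝ) ^ s * ((25 / 16)⁻¹) ^ μ = y ^ 2 := by
        rw [show (25 / 16 : ℝ) = (5 / 4) ^ 2 by norm_num]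
        exact KerSum_pow_aux (5 / 4) (by norm_num) s μ 2
      have e3 : (125 / 64 : ℝ) ^ s * ((125 / 64)⁻¹) ^ μ = y ^ 3 := by
        rw [show (125 / 64 : ℝ) = (5 / 4) ^ 3 by norm_num]
        exact KerSum_pow_aux (5 / 4) (by norm_num) s μ 3
      rw [e2, e3]
      have h2 : Gh m n' μ (fun i => (τ i : ℕ)) ^ 2 *
          Real.exp (2 * ((1 / 10) / ((n' : ℝ) + 1) ^ (m - 1)) *
            Gh m n' μ (fun i => (τ i : ℕ))) ≤ (6 ^ m * y) ^ 2 * (2 * (1 + y)) := by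
        refine mul_le_mul (pow_le_pow_left₀ hG0 hG 2) hE (Real.exp_pos _).le (by positivity)
      have h3 : (0 : ℝ) ≤ (1 / 2 : ℝ) ^ s * ((2 : ℝ) ^ μ * wh m μ (fun i => (τ i : ℕ))) := by
        positivity
      calc (1 / 2 : ℝ) ^ s * ((2 : ℝ) ^ μ * wh m μ (fun i => (τ i : ℕ)) *
          Gh m n' μ (fun i => (τ i : ℕ)) ^ 2 *
          Real.exp (2 * ((1 / 10) / ((n' : ℝ) + 1) ^ (m - 1)) *
            Gh m n' μ (fun i => (τ i : ℕ)))) =
          ((1 / 2 : ℝ) ^ s * ((2 : ℝ) ^ μ * wh m μ (fun i => (τ i : ℕ)))) *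
          (Gh m n' μ (fun i => (τ i : ℕ)) ^ 2 *
          Real.exp (2 * ((1 / 10) / ((n' : ℝ) + 1) ^ (m - 1)) *
            Gh m n' μ (fun i => (τ i : ℕ)))) := by ring
        _ ≤ ((1 / 2 : ℝ) ^ s * ((2 : ℝ) ^ μ * wh m μ (fun i => (τ i : ℕ)))) *
          ((6 ^ m * y) ^ 2 * (2 * (1 + y))) := mul_le_mul_of_nonneg_left h2 h3
        _ = _ := by
          have e6 : ((6 : ℝ) ^ m) ^ 2 = 36 ^ m := by
            rw [← pow_mul, mul_comm m 2, pow_mul]
            norm_num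
          rw [mul_pow, e6]
          ring
    refine (Finset.sum_le_sum fun τ _ => h1 τ).trans ?_
    rw [← Finset.mul_sum, Finset.sum_add_distrib]
    have h4 := KerSum_factor m μ N n' hm hμ' (25 / 16) (by norm_num) (by norm_num)
    have h5 := KerSum_factor m μ N n' hm hμ' (125 / 64) (by norm_num) (by norm_num)
    calc 2 * 36 ^ m * _ ≤ 2 * 36 ^ m * (50 ^ m * ((n' : ℝ) + 1) ^ (m - 1) +
          50 ^ m * ((n' : ℝ) + 1) ^ (m - 1)) :=
          mul_le_mul_of_nonneg_left (add_le_add h4 h5) (by positivity)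
      _ = _ := by ring
  refine (Finset.sum_le_sum hμ).trans ?_
  rw [Finset.sum_const, Finset.card_range, nsmul_eq_mul]
  push_cast
  have : (0 : ℝ) ≤ 2 * 36 ^ m * (2 * 50 ^ m) := by positivity
  nlinarith

end Pool.Agent.LibEnt73
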