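import Pool.Agent.LibEnt73.FejerA
import Pool.Agent.LibEnt73.KerSum

/-! Task FB: Fourier expansion of the kernels, tensor products (uses Chars, FejerA, card_piAntidiag_le). -/

namespace Pool.Agent.LibEnt73

open Finset

/-- number of pairs with a given difference -/
theorem fejerB_card_diff (J : ℕ) (ξ : ℤ) :
    ((((range J) ×ˢ (range J)).filter fun p : ℕ × ℕ => (p.1 : ℤ) - (p.2 : ℤ) = ξ).card : ℝ)
      = max 0 ((J : ℝ) - |(ξ : ℝ)|) := by
  have h1 : (((range J) ×ˢ (range J)).filter fun p : ℕ × ℕ => (p.1 : ℤ) - (p.2 : ℤ) = ξ)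
      = (range (J - ξ.natAbs)).image (fun k : ℕ => (k + ξ.toNat, k + (-ξ).toNat)) := by
    ext ⟨a, b⟩
    simp only [mem_filter, mem_product, mem_range, mem_image, Prod.mk.injEq]
    constructor
    · rintro ⟨⟨ha, hb⟩, hab⟩
      refine ⟨min a b, ?_, ?_, ?_⟩ <;> omega
    · rintro ⟨k, hk, h1, h2⟩
      omega
  rw [h1, Finset.card_image_of_injective _ (by
    intro a b hab
    simp only [Prod.mk.injEq] at hab
    omega), card_range]
  have h2 : |(ξ : ℝ)| = (ξ.natAbs : ℝ) := by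
    rw [← Int.cast_abs, Int.abs_eq_natAbs]; simp
  rw [h2]
  rcases le_total ξ.natAbs J with h | h
  · rw [Nat.cast_sub h, max_eq_right]
    have : (ξ.natAbs : ℝ) ≤ J := by exact_mod_cast h
    linarith
  · rw [Nat.sub_eq_zero_of_le h, max_eq_left]
    · simp
    · have : (J : ℝ) ≤ ξ.natAbs := by exact_mod_cast h
      linarith

/-- Fourier expansion of the one variable kernel -/
theorem VV_eq (N t n' : ℕ) (ht : t ≤ n') (u : ZMod (2 ^ N)) :
    (VV N t u : ℂ) = ∑ ξ ∈ Finset.Ioo (-(2 : ℤ) ^ (n' + 1)) (2 ^ (n' + 1)), (vh t ξ : ℂ) * ee N ξ u := by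
  have hcast : ∀ j : ℕ, (starRingEnd ℂ) (ee N (j : ℤ) u) = ee N (-(j : ℤ)) u := fun j =>
    (ee_neg_left N j u).symm
  have h1 : ((‖∑ j ∈ range (2 ^ (t + 1)), ee N j u‖ ^ 2 : ℝ) : ℂ)
      = ∑ p ∈ (range (2 ^ (t + 1))) ×ˢ (range (2 ^ (t + 1))), ee N ((p.1 : ℤ) - (p.2 : ℤ)) u := by
    rw [← Complex.normSq_eq_norm_sq, Complex.normSq_eq_conj_mul_self, map_sum, Finset.sum_mul_sum,
      Finset.sum_product, Finset.sum_comm]
    refine Finset.sum_congr rfl fun i _ => Finset.sum_congr rfl fun j _ => ?_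
    rw [hcast, ← ee_add_left]
    congr 1
    ring
  have h2 : ∀ p ∈ (range (2 ^ (t + 1))) ×ˢ (range (2 ^ (t + 1))),
      (p.1 : ℤ) - (p.2 : ℤ) ∈ Finset.Ioo (-(2 : ℤ) ^ (n' + 1)) (2 ^ (n' + 1)) := by
    intro p hp
    rw [mem_product, mem_range, mem_range] at hp
    rw [mem_Ioo]
    have h3 : (2 : ℕ) ^ (t + 1) ≤ 2 ^ (n' + 1) := Nat.pow_le_pow_right (by norm_num) (by omega)
    have h4 : ((2 : ℕ) ^ (n' + 1) : ℤ) = (2 : ℤ) ^ (n' + 1) := by push_cast; ring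
    have h5 := hp.1
    have h6 := hp.2
    constructor
    · have : (p.2 : ℤ) < (2 : ℤ) ^ (n' + 1) := by
        have : p.2 < 2 ^ (n' + 1) := lt_of_lt_of_le h6 h3
        exact_mod_cast this
      have : (0 : ℤ) ≤ p.1 := by positivity
      linarith
    · have : (p.1 : ℤ) < (2 : ℤ) ^ (n' + 1) := by
        have : p.1 < 2 ^ (n' + 1) := lt_of_lt_of_le h5 h3
        exact_mod_cast this
      have : (0 : ℤ) ≤ p.2 := by positivity
      linarith
  unfold VV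
  rw [Complex.ofReal_mul, h1, ← Finset.sum_fiberwise_of_maps_to h2, Finset.mul_sum]
  refine Finset.sum_congr rfl fun ξ _ => ?_
  rw [Finset.sum_congr rfl (g := fun _ => ee N ξ u) (by
    intro p hp
    rw [mem_filter] at hp
    rw [hp.2])]
  rw [Finset.sum_const, nsmul_eq_mul]
  unfold vh
  have h7 := fejerB_card_diff (2 ^ (t + 1)) ξ
  have h8 : ((#{p ∈ range (2 ^ (t + 1)) ×ˢ range (2 ^ (t + 1)) | (p.1 : ℤ) - (p.2 : ℤ) = ξ} : ℕ) : ℂ)
      = ((max 0 ((2 : ℝ) ^ (t + 1) - |(ξ : ℝ)|) : ℝ) : ℂ) := by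
    rw [show ((2 : ℝ) ^ (t + 1)) = (((2 ^ (t + 1) : ℕ)) : ℝ) by push_cast; ring, ← h7]
    simp
  rw [h8, Complex.ofReal_mul]
  ring

theorem fejerB_vh_ge_one {t : ℕ} {ξ : ℤ} (h : sz ξ ≤ t) : 1 ≤ vh t ξ := by
  unfold vh
  rw [sz_le_iff, mem_Ioo, ← abs_lt] at h
  have h1 : |(ξ : ℝ)| ≤ 2 ^ t := by
    have : (|ξ| : ℝ) ≤ ((2 ^ t : ℤ) : ℝ) := by
      have := h.le
      exact_mod_cast this
    push_cast at this
    exact this
  have h2 : (2 : ℝ) ^ t ≤ max 0 ((2 : ℝ) ^ (t + 1) - |(ξ : ℝ)|) := by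
    refine le_max_of_le_right ?_
    rw [pow_succ]; linarith
  calc (1 : ℝ) = ((2 : ℝ) ^ t)⁻¹ * 2 ^ t := by rw [inv_mul_cancel₀]; positivity
    _ ≤ _ := by gcongr

theorem Wh_ge_one (m μ : ℕ) (hm : 1 ≤ m) (ξ : Fin m → ℤ) (h : tsz ξ ≤ μ) : 1 ≤ Wh m μ ξ := by
  obtain ⟨m, rfl⟩ : ∃ m', m = m' + 1 := ⟨m - 1, by omega⟩
  set t : Fin (m + 1) → ℕ := fun i => sz (ξ i) + (if i = 0 then μ - tsz ξ else 0) with ht
  have hmem : t ∈ Finset.piAntidiag (Finset.univ : Finset (Fin (m + 1))) μ := by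
    rw [Finset.mem_piAntidiag]
    refine ⟨?_, fun _ _ => Finset.mem_univ _⟩
    rw [ht, Finset.sum_add_distrib, Finset.sum_ite_eq' Finset.univ (0 : Fin (m + 1))]
    simp only [Finset.mem_univ, if_true]
    change tsz ξ + (μ - tsz ξ) = μ
    omega
  have h1 : (1 : ℝ) ≤ ∏ i, vh (t i) (ξ i) := by
    refine Finset.one_le_prod fun i _ => fejerB_vh_ge_one ?_
    exact Nat.le_add_right _ _
  refine h1.trans ?_
  unfold Wh
  exact Finset.single_le_sum (f := fun t : Fin (m + 1) → ℕ => ∏ i, vh (t i) (ξ i))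
    (fun _ _ => Finset.prod_nonneg fun _ _ => vh_nonneg _ _) hmem

theorem Wh_neg (m μ : ℕ) (ξ : Fin m → ℤ) : Wh m μ (-ξ) = Wh m μ ξ := by
  unfold Wh vh
  simp [abs_neg]

theorem fejerB_le_of_mem {m μ : ℕ} {t : Fin m → ℕ}
    (ht : t ∈ Finset.piAntidiag (Finset.univ : Finset (Fin m)) μ) (i : Fin m) : t i ≤ μ := by
  rw [Finset.mem_piAntidiag] at ht
  rw [← ht.1]
  exact Finset.single_le_sum (f := fun i => t i) (fun _ _ => Nat.zero_le _) (Finset.mem_univ i)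

/-- Fourier expansion of the kernel -/
theorem WW_eq (N m μ n' : ℕ) (h : μ ≤ n') (u : Fin m → ZMod (2 ^ N)) :
    (WW N μ u : ℂ) = ∑ ξ ∈ box m (n' + 1), (Wh m μ ξ : ℂ) * eem N ξ u := by
  unfold WW Wh eem
  rw [Complex.ofReal_sum]
  have h1 : ∀ t ∈ Finset.piAntidiag (Finset.univ : Finset (Fin m)) μ,
      ((∏ i, VV N (t i) (u i) : ℝ) : ℂ)
        = ∑ ξ ∈ box m (n' + 1), (∏ i, ((vh (t i) (ξ i) : ℝ) : ℂ)) * ∏ i, ee N (ξ i) (u i) := by
    intro t ht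
    rw [Complex.ofReal_prod]
    rw [Finset.prod_congr rfl fun i _ => VV_eq N (t i) n' ((fejerB_le_of_mem ht i).trans h) (u i)]
    rw [Finset.prod_univ_sum]
    refine Finset.sum_congr rfl fun ξ _ => ?_
    rw [Finset.prod_mul_distrib]
  rw [Finset.sum_congr rfl h1, Finset.sum_comm]
  refine Finset.sum_congr rfl fun ξ _ => ?_
  rw [← Finset.sum_mul, Complex.ofReal_sum]
  simp only [Complex.ofReal_prod]

theorem fejerB_prod_pow {m μ : ℕ} {t : Fin m → ℕ}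
    (ht : t ∈ Finset.piAntidiag (Finset.univ : Finset (Fin m)) μ) :
    ∏ i, (2 : ℝ) ^ (t i + 2) = 4 ^ m * 2 ^ μ := by
  rw [Finset.mem_piAntidiag] at ht
  rw [Finset.prod_pow_eq_pow_sum, Finset.sum_add_distrib, ht.1, pow_add]
  simp only [sum_const, card_univ, Fintype.card_fin, smul_eq_mul]
  rw [mul_comm m 2, pow_mul]
  norm_num
  ring

theorem WW_le (N m μ : ℕ) (h : μ ≤ N) (u : Fin m → ZMod (2 ^ N)) :
    WW N μ u ≤ 4 ^ m * 2 ^ μ * wh m μ (fun i => tau N (u i)) := by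
  unfold WW wh
  rw [Finset.mul_sum]
  refine Finset.sum_le_sum fun t ht => ?_
  calc ∏ i, VV N (t i) (u i)
      ≤ ∏ i, ((2 : ℝ) ^ (t i + 2) * (1 / 4 : ℝ) ^ (t i - tau N (u i))) :=
        Finset.prod_le_prod (fun i _ => VV_nonneg _ _ _) fun i _ =>
          VV_le N (t i) ((fejerB_le_of_mem ht i).trans h) (u i)
    _ = _ := by rw [Finset.prod_mul_distrib, fejerB_prod_pow ht]

theorem WW_zero_le (N m μ n' : ℕ) (hm : 1 ≤ m) (h : μ ≤ n') :
    WW N μ (0 : Fin m → ZMod (2 ^ N)) ≤ 4 ^ m * 2 ^ μ * ((n' : ℝ) + 1) ^ (m - 1) := by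
  unfold WW
  rw [Finset.sum_congr rfl (g := fun _ => (4 : ℝ) ^ m * 2 ^ μ) (by
    intro t ht
    rw [← fejerB_prod_pow ht]
    exact Finset.prod_congr rfl fun i _ => VV_zero N (t i))]
  rw [Finset.sum_const, nsmul_eq_mul, mul_comm]
  have := card_piAntidiag_le m μ n' hm h
  gcongr

end Pool.Agent.LibEnt73
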