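import Pool.Agent.LibEnt73.Base

/-! Task GA: integrals of linear forms under the standard Gaussian measure `gam ι`. -/

namespace Pool.Agent.LibEnt73

open MeasureTheory ProbabilityTheory Finset

variable {ι : Type*} [Fintype ι]

lemma GaussBasic_measurable_dot (a : ι → ℝ) : Measurable (fun g : ι → ℝ => dot a g) := by
  unfold dot
  exact Finset.measurable_sum _ fun i _ => (measurable_pi_apply i).const_mul _

lemma GaussBasic_nsq_nonneg (v : ι → ℝ) : 0 ≤ nsq v := Finset.sum_nonneg fun _ _ => sq_nonneg _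

lemma GaussBasic_cexp (a : ι → ℝ) (t : ℝ) :
    ∫ g, Complex.exp ((t * dot a g : ℝ) * Complex.I) ∂(gam ι) =
      Complex.exp (-(t ^ 2 * nsq a / 2 : ℝ)) := by
  have h1 : (fun g : ι → ℝ => Complex.exp ((t * dot a g : ℝ) * Complex.I)) =
      fun g => ∏ i, Complex.exp (((t * a i : ℝ) : ℂ) * (g i : ℂ) * Complex.I) := by
    ext g
    rw [← Complex.exp_sum]
    congr 1
    rw [← Finset.sum_mul]
    congr 1
    rw [dot, Finset.mul_sum]
    push_cast
    exact Finset.sum_congr rfl fun i _ => by ring
  rw [h1, integral_fintype_prod_eq_prod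
    (f := fun i x => Complex.exp (((t * a i : ℝ) : ℂ) * ((x : ℝ) : ℂ) * Complex.I))]
  have h2 : ∀ i, ∫ x : ℝ, Complex.exp (((t * a i : ℝ) : ℂ) * (x : ℂ) * Complex.I) ∂(gaussianReal 0 1) =
      Complex.exp (-((t * a i) ^ 2 / 2 : ℝ)) := by
    intro i
    rw [← charFun_apply_real, charFun_gaussianReal]
    congr 1
    push_cast
    ring
  simp only [h2]
  rw [← Complex.exp_sum]
  congr 1
  rw [Finset.sum_neg_distrib, nsq, Finset.mul_sum, Finset.sum_div]
  push_cast
  congr 1
  exact Finset.sum_congr rfl fun i _ => by ring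

/-- The law of a linear form. -/
lemma GaussBasic_law (a : ι → ℝ) :
    (gam ι).map (fun g => dot a g) = gaussianReal 0 (nsq a).toNNReal := by
  have hm := GaussBasic_measurable_dot a
  have : IsProbabilityMeasure ((gam ι).map (fun g => dot a g)) :=
    Measure.isProbabilityMeasure_map hm.aemeasurable
  apply Measure.ext_of_charFun
  ext t
  rw [charFun_apply_real, charFun_gaussianReal, integral_map hm.aemeasurable (by fun_prop)]
  have h1 := GaussBasic_cexp a t
  push_cast at h1
  rw [h1]
  congr 1
  rw [Real.coe_toNNReal _ (GaussBasic_nsq_nonneg a)]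
  push_cast
  ring

lemma GaussBasic_integral (a : ι → ℝ) (f : ℝ → ℝ) (hf : Continuous f) :
    ∫ g, f (dot a g) ∂(gam ι) = ∫ x, f x ∂(gaussianReal 0 (nsq a).toNNReal) := by
  rw [← GaussBasic_law, integral_map (GaussBasic_measurable_dot a).aemeasurable
    hf.aestronglyMeasurable]

lemma GaussBasic_integrable (a : ι → ℝ) (f : ℝ → ℝ)
    (h : Integrable f (gaussianReal 0 (nsq a).toNNReal)) :
    Integrable (fun g => f (dot a g)) (gam ι) := by
  rw [← GaussBasic_law] at h
  exact h.comp_measurable (GaussBasic_measurable_dot a)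

theorem gam_cos (a : ι → ℝ) : ∫ g, Real.cos (dot a g) ∂(gam ι) = Real.exp (-(nsq a) / 2) := by
  have h1 := congrArg Complex.re (GaussBasic_cexp a 1)
  have hi : Integrable (fun g : ι → ℝ => Complex.exp ((1 * dot a g : ℝ) * Complex.I)) (gam ι) := by
    refine (integrable_const (1 : ℝ)).mono' ?_ ?_
    · refine Measurable.aestronglyMeasurable ?_
      have := GaussBasic_measurable_dot a
      fun_prop
    · exact Filter.Eventually.of_forall fun g => by rw [Complex.norm_exp_ofReal_mul_I]
  have h2 := Complex.reCLM.integral_comp_comm hi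
  simp only [Complex.reCLM_apply] at h2
  rw [h1] at h2
  simp only [one_mul, Complex.exp_ofReal_mul_I_re, ← Complex.ofReal_neg, Complex.exp_ofReal_re] at h2
  rw [h2]
  congr 1; ring

theorem gam_sin (a : ι → ℝ) : ∫ g, Real.sin (dot a g) ∂(gam ι) = 0 := by
  have h1 := congrArg Complex.im (GaussBasic_cexp a 1)
  have hi : Integrable (fun g : ι → ℝ => Complex.exp ((1 * dot a g : ℝ) * Complex.I)) (gam ι) := by
    refine (integrable_const (1 : ℝ)).mono' ?_ ?_
    · refine Measurable.aestronglyMeasurable ?_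
      have := GaussBasic_measurable_dot a
      fun_prop
    · exact Filter.Eventually.of_forall fun g => by rw [Complex.norm_exp_ofReal_mul_I]
  have h2 := Complex.imCLM.integral_comp_comm hi
  simp only [Complex.imCLM_apply] at h2
  rw [h1] at h2
  simp only [one_mul, Complex.exp_ofReal_mul_I_im, ← Complex.ofReal_neg, Complex.exp_ofReal_im] at h2
  exact h2

lemma GaussBasic_integrable_cos (a : ι → ℝ) : Integrable (fun g => Real.cos (dot a g)) (gam ι) := by
  refine (integrable_const (1 : ℝ)).mono' ?_ ?_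
  · exact (Real.continuous_cos.measurable.comp (GaussBasic_measurable_dot a)).aestronglyMeasurable
  · exact Filter.Eventually.of_forall fun g => by
      rw [Real.norm_eq_abs]; exact Real.abs_cos_le_one _

lemma GaussBasic_dot_add_left (a b g : ι → ℝ) : dot (a + b) g = dot a g + dot b g := by
  simp [dot, add_mul, Finset.sum_add_distrib]

lemma GaussBasic_dot_sub_left (a b g : ι → ℝ) : dot (a - b) g = dot a g - dot b g := by
  simp [dot, sub_mul, Finset.sum_sub_distrib]

lemma GaussBasic_dot_smul_left (c : ℝ) (a v : ι → ℝ) : dot (c • a) v = c * dot a v := by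
  simp [dot, Finset.mul_sum, mul_assoc]

lemma GaussBasic_nsq_add (a b : ι → ℝ) : nsq (a + b) = nsq a + 2 * dot a b + nsq b := by
  simp only [nsq, dot, Finset.mul_sum, ← Finset.sum_add_distrib, Pi.add_apply]
  exact Finset.sum_congr rfl fun i _ => by ring

lemma GaussBasic_nsq_sub (a b : ι → ℝ) : nsq (a - b) = nsq a - 2 * dot a b + nsq b := by
  simp only [nsq, dot, Finset.mul_sum, ← Finset.sum_add_distrib, ← Finset.sum_sub_distrib,
    Pi.sub_apply]
  exact Finset.sum_congr rfl fun i _ => by ring

theorem gam_sin_mul_sin (a b : ι → ℝ) :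
    ∫ g, Real.sin (dot a g) * Real.sin (dot b g) ∂(gam ι)
      = Real.exp (-(nsq a + nsq b) / 2) * Real.sinh (dot a b) := by
  have h1 : ∀ g : ι → ℝ, Real.sin (dot a g) * Real.sin (dot b g) =
      (Real.cos (dot (a - b) g) - Real.cos (dot (a + b) g)) / 2 := by
    intro g
    rw [GaussBasic_dot_add_left, GaussBasic_dot_sub_left, Real.cos_add, Real.cos_sub]
    ring
  simp only [h1]
  rw [integral_div, integral_sub (GaussBasic_integrable_cos _) (GaussBasic_integrable_cos _),
    gam_cos, gam_cos, GaussBasic_nsq_add, GaussBasic_nsq_sub, Real.sinh_eq]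
  have h2 : Real.exp (-(nsq a - 2 * dot a b + nsq b) / 2) =
      Real.exp (-(nsq a + nsq b) / 2) * Real.exp (dot a b) := by
    rw [← Real.exp_add]; ring_nf
  have h3 : Real.exp (-(nsq a + 2 * dot a b + nsq b) / 2) =
      Real.exp (-(nsq a + nsq b) / 2) * Real.exp (-dot a b) := by
    rw [← Real.exp_add]; ring_nf
  rw [h2, h3]; ring

lemma GaussBasic_integrable_pow (a : ι → ℝ) (n : ℕ) :
    Integrable (fun g => dot a g ^ n) (gam ι) := by
  refine GaussBasic_integrable a (fun x => x ^ n) ?_
  have h := memLp_id_gaussianReal (μ := 0) (v := (nsq a).toNNReal) n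
  have h2 := h.integrable_norm_pow'
  refine (integrable_norm_iff (by fun_prop)).1 ?_
  refine h2.congr (Filter.Eventually.of_forall fun x => ?_)
  simp

theorem integrable_dot (a : ι → ℝ) : Integrable (fun g => dot a g) (gam ι) := by
  simpa using GaussBasic_integrable_pow a 1

theorem integrable_dot_mul_dot (a b : ι → ℝ) : Integrable (fun g => dot a g * dot b g) (gam ι) := by
  have h := ((GaussBasic_integrable_pow (a + b) 2).sub (GaussBasic_integrable_pow (a - b) 2)).div_const 4
  refine h.congr (Filter.Eventually.of_forall fun g => ?_)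
  simp only [Pi.sub_apply, GaussBasic_dot_add_left, GaussBasic_dot_sub_left]
  ring

theorem gam_dot (a : ι → ℝ) : ∫ g, dot a g ∂(gam ι) = 0 := by
  rw [GaussBasic_integral a (fun x => x) continuous_id]
  exact integral_id_gaussianReal

lemma GaussBasic_sq (a : ι → ℝ) : ∫ g, dot a g ^ 2 ∂(gam ι) = nsq a := by
  rw [GaussBasic_integral a (fun x => x ^ 2) (continuous_pow 2)]
  have h := variance_fun_id_gaussianReal (μ := 0) (v := (nsq a).toNNReal)
  rw [variance_eq_integral measurable_id'.aemeasurable] at h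
  simp only [integral_id_gaussianReal, sub_zero] at h
  rw [Real.coe_toNNReal _ (GaussBasic_nsq_nonneg a)] at h
  exact h

theorem gam_dot_mul_dot (a b : ι → ℝ) : ∫ g, dot a g * dot b g ∂(gam ι) = dot a b := by
  have h1 : ∀ g : ι → ℝ, dot a g * dot b g = (dot (a + b) g ^ 2 - dot (a - b) g ^ 2) / 4 := by
    intro g
    rw [GaussBasic_dot_add_left, GaussBasic_dot_sub_left]; ring
  simp only [h1]
  rw [integral_div, integral_sub (GaussBasic_integrable_pow _ 2) (GaussBasic_integrable_pow _ 2),
    GaussBasic_sq, GaussBasic_sq, GaussBasic_nsq_add, GaussBasic_nsq_sub]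
  ring

theorem gam_dot_mul_sin (a b : ι → ℝ) :
    ∫ g, dot b g * Real.sin (dot a g) ∂(gam ι) = dot a b * Real.exp (-(nsq a) / 2) := by
  -- differentiate `t ↦ ∫ cos (dot (a + t b) g)` at `0`
  have hm : ∀ c : ι → ℝ, Measurable (fun g : ι → ℝ => dot c g) := GaussBasic_measurable_dot
  have hd := hasDerivAt_integral_of_dominated_loc_of_deriv_le (μ := gam ι) (𝕜 := ℝ)
    (F := fun (t : ℝ) (g : ι → ℝ) => Real.cos (dot a g + t * dot b g))
    (F' := fun (t : ℝ) (g : ι → ℝ) => -Real.sin (dot a g + t * dot b g) * dot b g)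
    (x₀ := (0 : ℝ)) (s := Set.univ) (bound := fun g => |dot b g|) Filter.univ_mem
    (Filter.Eventually.of_forall fun t => by
      refine Measurable.aestronglyMeasurable ?_
      have h1 := hm a
      have h2 := hm b
      fun_prop)
    (by
      refine (GaussBasic_integrable_cos a).congr (Filter.Eventually.of_forall fun g => ?_)
      simp)
    (by
      refine Measurable.aestronglyMeasurable ?_
      have h1 := hm a
      have h2 := hm b
      fun_prop)
    (Filter.Eventually.of_forall fun g t _ => by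
      rw [norm_mul, norm_neg, Real.norm_eq_abs, Real.norm_eq_abs]
      have := Real.abs_sin_le_one (dot a g + t * dot b g)
      nlinarith [abs_nonneg (dot b g)])
    ((integrable_dot b).abs)
    (Filter.Eventually.of_forall fun g t _ => by
      have h1 : HasDerivAt (fun t : ℝ => dot a g + t * dot b g) (dot b g) t := by
        simpa using ((hasDerivAt_id t).mul_const (dot b g)).const_add (dot a g)
      exact h1.cos)
  have h2 := hd.2
  have h3 : (fun t : ℝ => ∫ g, Real.cos (dot a g + t * dot b g) ∂(gam ι)) =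
      fun t => Real.exp (-(nsq a + 2 * t * dot a b + t ^ 2 * nsq b) / 2) := by
    ext t
    have h4 : ∀ g : ι → ℝ, dot a g + t * dot b g = dot (a + t • b) g := by
      intro g
      rw [GaussBasic_dot_add_left, GaussBasic_dot_smul_left]
    simp only [h4]
    rw [gam_cos, GaussBasic_nsq_add]
    have h5 : dot a (t • b) = t * dot a b := by
      simp only [dot, Finset.mul_sum, Pi.smul_apply, smul_eq_mul]
      exact Finset.sum_congr rfl fun i _ => by ring
    have h6 : nsq (t • b) = t ^ 2 * nsq b := by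
      simp only [nsq, Finset.mul_sum, Pi.smul_apply, smul_eq_mul]
      exact Finset.sum_congr rfl fun i _ => by ring
    rw [h5, h6]; ring_nf
  rw [h3] at h2
  have h7 : HasDerivAt (fun t : ℝ => Real.exp (-(nsq a + 2 * t * dot a b + t ^ 2 * nsq b) / 2))
      (Real.exp (-(nsq a) / 2) * (-(dot a b))) 0 := by
    have h8 : HasDerivAt (fun t : ℝ => -(nsq a + 2 * t * dot a b + t ^ 2 * nsq b) / 2)
        (-(dot a b)) 0 := by
      have h9 : HasDerivAt (fun t : ℝ => nsq a + 2 * t * dot a b + t ^ 2 * nsq b)
          (2 * 1 * dot a b + (2 * (0 : ℝ) ^ 1 * 1) * nsq b) 0 := by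
        have e1 : HasDerivAt (fun t : ℝ => nsq a + 2 * t * dot a b) (2 * 1 * dot a b) 0 :=
          (((hasDerivAt_id (0 : ℝ)).const_mul 2).mul_const (dot a b)).const_add (nsq a)
        have e2 : HasDerivAt (fun t : ℝ => t ^ 2 * nsq b) ((2 * (0 : ℝ) ^ 1 * 1) * nsq b) 0 := by
          have := ((hasDerivAt_id (0 : ℝ)).pow 2).mul_const (nsq b)
          simpa using this
        exact e1.add e2
      have h10 := (h9.neg).div_const 2
      have h11 : -(2 * 1 * dot a b + (2 * (0 : ℝ) ^ 1 * 1) * nsq b) / 2 = -(dot a b) := by ring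
      rw [h11] at h10
      exact h10
    have h12 := h8.exp
    simpa using h12
  have h13 := h2.unique h7
  have h14 : ∫ g, dot b g * Real.sin (dot a g) ∂(gam ι) =
      -∫ g, -Real.sin (dot a g + 0 * dot b g) * dot b g ∂(gam ι) := by
    rw [← integral_neg]
    congr 1
    ext g
    rw [zero_mul, add_zero]; ring
  rw [h14, h13]; ring

/-- even moments: crude bound -/
theorem gam_even_moment (r : ℕ) (a : ι → ℝ) :
    Integrable (fun g => dot a g ^ (2 * r)) (gam ι) ∧
    ∫ g, dot a g ^ (2 * r) ∂(gam ι) ≤ 4 * (Nat.factorial (2 * r)) * nsq a ^ r := by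
  refine ⟨GaussBasic_integrable_pow a _, ?_⟩
  rcases (GaussBasic_nsq_nonneg a).eq_or_lt with h0 | h0
  · -- `a = 0`
    have ha : a = 0 := by
      ext i
      have h1 : ∀ i ∈ Finset.univ, a i ^ 2 = 0 := by
        have := (Finset.sum_eq_zero_iff_of_nonneg (s := Finset.univ) (f := fun i => a i ^ 2)
          (fun i _ => sq_nonneg _)).1 h0.symm
        exact this
      have := h1 i (Finset.mem_univ i)
      simpa using this
    have hd : ∀ g : ι → ℝ, dot a g = 0 := fun g => by simp [ha, dot]
    simp only [hd]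
    rcases Nat.eq_zero_or_pos r with hr | hr
    · subst hr; simp
    · rw [zero_pow (by omega), integral_zero]
      rw [← h0]
      positivity
  · set s : ℝ := Real.sqrt (nsq a) with hs
    have hs0 : 0 < s := Real.sqrt_pos.2 h0
    have hs2 : s ^ 2 = nsq a := Real.sq_sqrt h0.le
    -- exponential integrals
    have hexp : ∀ t : ℝ, Integrable (fun g => Real.exp (t * dot a g)) (gam ι) ∧
        ∫ g, Real.exp (t * dot a g) ∂(gam ι) = Real.exp (nsq a * t ^ 2 / 2) := by
      intro t
      constructor
      · exact GaussBasic_integrable a (fun x => Real.exp (t * x))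
          (integrable_exp_mul_gaussianReal t)
      · have h1 := mgf_gaussianReal (GaussBasic_law a) t
        rw [mgf] at h1
        rw [h1, Real.coe_toNNReal _ (GaussBasic_nsq_nonneg a), zero_mul, zero_add]
    have hb : ∀ g : ι → ℝ, dot a g ^ (2 * r) ≤ (Nat.factorial (2 * r)) * s ^ (2 * r) *
        (Real.exp (s⁻¹ * dot a g) + Real.exp (-s⁻¹ * dot a g)) := by
      intro g
      set x := s⁻¹ * dot a g with hx
      have h1 : dot a g = s * x := by rw [hx]; field_simp
      have h2 : -s⁻¹ * dot a g = -x := by rw [hx]; ring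
      rw [h2, h1, mul_pow]
      have h3 : x ^ (2 * r) / (Nat.factorial (2 * r)) ≤ Real.exp |x| := by
        have := Real.pow_div_factorial_le_exp |x| (abs_nonneg x) (2 * r)
        rwa [pow_mul, sq_abs, ← pow_mul] at this
      have h4 : Real.exp |x| ≤ Real.exp x + Real.exp (-x) := by
        rcases abs_cases x with h | h
        · rw [h.1]; linarith [Real.exp_pos (-x)]
        · rw [h.1]; linarith [Real.exp_pos x]
      have h5 : (0 : ℝ) < (Nat.factorial (2 * r)) := by exact_mod_cast Nat.factorial_pos _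
      rw [div_le_iff₀ h5] at h3
      have h6 : 0 < s ^ (2 * r) := by positivity
      calc s ^ (2 * r) * x ^ (2 * r) ≤ s ^ (2 * r) * (Real.exp |x| * (Nat.factorial (2 * r))) := by
            gcongr
        _ ≤ s ^ (2 * r) * ((Real.exp x + Real.exp (-x)) * (Nat.factorial (2 * r))) := by gcongr
        _ = _ := by ring
    have h7 : ∫ g, dot a g ^ (2 * r) ∂(gam ι) ≤ ∫ g, (Nat.factorial (2 * r)) * s ^ (2 * r) *
        (Real.exp (s⁻¹ * dot a g) + Real.exp (-s⁻¹ * dot a g)) ∂(gam ι) :=
      integral_mono (GaussBasic_integrable_pow a _)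
        (((hexp s⁻¹).1.add (hexp (-s⁻¹)).1).const_mul _) hb
    refine h7.trans ?_
    rw [integral_const_mul, integral_add (hexp s⁻¹).1 (hexp (-s⁻¹)).1, (hexp s⁻¹).2,
      (hexp (-s⁻¹)).2]
    have h8 : nsq a * s⁻¹ ^ 2 / 2 = 1 / 2 := by rw [← hs2]; field_simp
    have h9 : nsq a * (-s⁻¹) ^ 2 / 2 = 1 / 2 := by rw [neg_sq, h8]
    rw [h8, h9]
    have h10 : s ^ (2 * r) = nsq a ^ r := by rw [pow_mul, hs2]
    rw [h10]
    have h11 : Real.exp (1 / 2) ≤ 2 := by
      have h12 : Real.exp (1 / 2) ^ 2 = Real.exp 1 := by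
        rw [← Real.exp_nat_mul]; norm_num
      have h13 := Real.exp_one_lt_d9
      have h14 := Real.exp_pos (1 / 2 : ℝ)
      nlinarith
    have h15 : 0 ≤ (Nat.factorial (2 * r) : ℝ) * nsq a ^ r := by positivity
    nlinarith

end Pool.Agent.LibEnt73
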