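import Pool.Agent.LibEnt73.Base

/-! Task GB: shift inequality and dual Sudakov inequality for separated sets. -/

namespace Pool.Agent.LibEnt73

open MeasureTheory ProbabilityTheory Finset

variable {ι : Type*} [Fintype ι]

/-- One dimensional density of a shifted Gaussian. -/
lemma GaussShift_one (m : ℝ) (s : Set ℝ) (hs : MeasurableSet s) :
    ∫ x, s.indicator (fun x => Real.exp (m * x - m ^ 2 / 2)) x ∂(gaussianReal 0 1) =
      (gaussianReal m 1).real s := by
  have h1 : (gaussianReal m 1).real s = ∫ x, s.indicator (fun _ => (1 : ℝ)) x ∂(gaussianReal m 1) := by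
    rw [integral_indicator hs, setIntegral_const]; simp
  rw [h1, integral_gaussianReal_eq_integral_smul one_ne_zero,
    integral_gaussianReal_eq_integral_smul one_ne_zero]
  congr 1
  ext x
  by_cases hx : x ∈ s
  · rw [Set.indicator_of_mem hx, Set.indicator_of_mem hx]
    simp only [gaussianPDFReal, NNReal.coe_one, smul_eq_mul, mul_one, sub_zero]
    rw [mul_assoc, ← Real.exp_add]
    congr 2
    ring
  · rw [Set.indicator_of_notMem hx, Set.indicator_of_notMem hx]
    simp

lemma GaussShift_integrable_one (m : ℝ) :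
    Integrable (fun x => Real.exp (m * x - m ^ 2 / 2)) (gaussianReal 0 1) := by
  have h := (integrable_exp_mul_gaussianReal (μ := 0) (v := 1) m).mul_const (Real.exp (-(m ^ 2 / 2)))
  refine h.congr (Filter.Eventually.of_forall fun x => ?_)
  simp only
  rw [← Real.exp_add]; ring_nf

/-- density of the shifted measure -/
noncomputable def GaussShift_den (m : ι → ℝ) (g : ι → ℝ) : ℝ :=
  ∏ i, Real.exp (m i * g i - m i ^ 2 / 2)

lemma GaussShift_den_eq (m : ι → ℝ) (g : ι → ℝ) :
    GaussShift_den m g = Real.exp (dot m g - nsq m / 2) := by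
  rw [GaussShift_den, ← Real.exp_sum]
  congr 1
  rw [Finset.sum_sub_distrib, dot, nsq, Finset.sum_div]

lemma GaussShift_integrable (m : ι → ℝ) : Integrable (GaussShift_den m) (gam ι) :=
  Integrable.fintype_prod (f := fun i x => Real.exp (m i * x - m i ^ 2 / 2))
    (fun i => GaussShift_integrable_one (m i))

lemma GaussShift_den_pos (m g : ι → ℝ) : 0 < GaussShift_den m g :=
  Finset.prod_pos fun _ _ => Real.exp_pos _

lemma GaussShift_meas (m : ι → ℝ) : Measurable (GaussShift_den m) := by
  unfold GaussShift_den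
  refine Finset.measurable_prod _ fun i _ => ?_
  exact Real.measurable_exp.comp (((measurable_pi_apply i).const_mul _).sub_const _)

lemma GaussShift_pi (m : ι → ℝ) :
    Measure.pi (fun i => gaussianReal (m i) 1) =
      (gam ι).withDensity (fun g => ENNReal.ofReal (GaussShift_den m g)) := by
  symm
  refine (Measure.pi_eq fun s hs => ?_).symm
  rw [withDensity_apply _ (MeasurableSet.univ_pi hs)]
  rw [← ofReal_integral_eq_lintegral_ofReal (GaussShift_integrable m).integrableOn
    (Filter.Eventually.of_forall fun g => (GaussShift_den_pos m g).le)]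
  rw [← integral_indicator (MeasurableSet.univ_pi hs)]
  have h1 : (fun g => (Set.univ.pi s).indicator (GaussShift_den m) g) =
      fun g : ι → ℝ => ∏ i, (s i).indicator (fun x => Real.exp (m i * x - m i ^ 2 / 2)) (g i) := by
    ext g
    by_cases hg : g ∈ Set.univ.pi s
    · rw [Set.indicator_of_mem hg, GaussShift_den]
      refine Finset.prod_congr rfl fun i _ => ?_
      rw [Set.indicator_of_mem (hg i (Set.mem_univ i))]
    · rw [Set.indicator_of_notMem hg]
      symm
      rw [Set.mem_univ_pi] at hg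
      push Not at hg
      obtain ⟨i, hi⟩ := hg
      exact Finset.prod_eq_zero (Finset.mem_univ i) (Set.indicator_of_notMem hi _)
  rw [h1, integral_fintype_prod_eq_prod
    (f := fun i x => (s i).indicator (fun x => Real.exp (m i * x - m i ^ 2 / 2)) x)]
  simp only [GaussShift_one _ _ (hs _)]
  rw [ENNReal.ofReal_prod_of_nonneg (fun i _ => measureReal_nonneg)]
  exact Finset.prod_congr rfl fun i _ => ofReal_measureReal

lemma GaussShift_map (y : ι → ℝ) :
    MeasurePreserving (fun g : ι → ℝ => g + y) (gam ι) (Measure.pi (fun i => gaussianReal (y i) 1)) := by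
  have h := measurePreserving_pi (fun _ : ι => gaussianReal 0 1) (fun i => gaussianReal (y i) 1)
    (f := fun i x => x + y i) (fun i => ⟨measurable_id.add_const _, by
      have := gaussianReal_map_add_const (μ := 0) (v := 1) (y i)
      rwa [zero_add] at this⟩)
  exact h

lemma GaussShift_neg :
    MeasurePreserving (fun g : ι → ℝ => -g) (gam ι) (gam ι) := by
  have h := measurePreserving_pi (fun _ : ι => gaussianReal 0 1) (fun _ : ι => gaussianReal 0 1)
    (f := fun _ x => -x) (fun i => ⟨measurable_neg, by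
      have := gaussianReal_map_neg (μ := 0) (v := 1)
      rwa [neg_zero] at this⟩)
  exact h

lemma GaussShift_real (S : Set (ι → ℝ)) (hS : MeasurableSet S) (y : ι → ℝ) :
    (gam ι).real {g | g + y ∈ S} = ∫ g in S, Real.exp (dot y g - nsq y / 2) ∂(gam ι) := by
  have h1 : (gam ι).real {g | g + y ∈ S} = (Measure.pi (fun i => gaussianReal (y i) 1)).real S := by
    unfold Measure.real
    rw [← (GaussShift_map y).measure_preimage hS.nullMeasurableSet]
    rfl
  rw [h1, GaussShift_pi, Measure.real, withDensity_apply _ hS,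
    ← ofReal_integral_eq_lintegral_ofReal (GaussShift_integrable y).integrableOn
    (Filter.Eventually.of_forall fun g => (GaussShift_den_pos y g).le),
    ENNReal.toReal_ofReal (integral_nonneg fun g => (GaussShift_den_pos y g).le)]
  congr 1
  ext g
  exact GaussShift_den_eq y g

/-- Gaussian measure of a shifted symmetric set. -/
theorem gam_shift (S : Set (ι → ℝ)) (hS : MeasurableSet S) (hsymm : ∀ g ∈ S, -g ∈ S) (y : ι → ℝ) :
    Real.exp (-(nsq y) / 2) * (gam ι).real S ≤ (gam ι).real {g | g - y ∈ S} := by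
  have hneg : ∀ g, -g ∈ S ↔ g ∈ S := fun g =>
    ⟨fun h => by have := hsymm _ h; rwa [neg_neg] at this, hsymm g⟩
  have hnsq : nsq (-y) = nsq y := by simp [nsq]
  have hdot : ∀ g, dot (-y) g = -dot y g := fun g => by simp [dot, Finset.sum_neg_distrib]
  have h1 : (gam ι).real {g | g - y ∈ S} = (gam ι).real {g | g + y ∈ S} := by
    unfold Measure.real
    rw [← GaussShift_neg.measure_preimage
      (s := {g | g + y ∈ S}) ((measurable_id.add_const y) hS).nullMeasurableSet]
    congr 2
    ext g
    show g - y ∈ S ↔ -g + y ∈ S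
    rw [← hneg (-g + y)]
    have : -(-g + y) = g - y := by abel
    rw [this]
  have h2 := GaussShift_real S hS y
  have h3 := GaussShift_real S hS (-y)
  have h4 : (gam ι).real {g | g - y ∈ S} = (gam ι).real {g | g + -y ∈ S} := by
    simp only [sub_eq_add_neg]
  rw [← h4, h1, hnsq] at h3
  rw [h1]
  have hi : ∀ z : ι → ℝ, IntegrableOn (fun g => Real.exp (dot z g - nsq z / 2)) S (gam ι) := by
    intro z
    have := (GaussShift_integrable z).integrableOn (s := S)
    refine this.congr_fun (fun g _ => GaussShift_den_eq z g) hS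
  have hi2 := hi (-y)
  rw [hnsq] at hi2
  have h5 : (gam ι).real {g | g + y ∈ S} =
      ∫ g in S, (Real.exp (dot y g - nsq y / 2) + Real.exp (dot (-y) g - nsq y / 2)) / 2
        ∂(gam ι) := by
    rw [integral_div, integral_add (hi y) hi2, ← h2, ← h3]
    ring
  rw [h5]
  have h6 : Real.exp (-(nsq y) / 2) * (gam ι).real S = ∫ g in S, Real.exp (-(nsq y) / 2) ∂(gam ι) := by
    rw [setIntegral_const, smul_eq_mul, mul_comm]
  rw [h6]
  apply setIntegral_mono_on
  · exact integrableOn_const (by finiteness)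
  · exact ((hi y).add hi2).div_const 2
  · exact hS
  · intro g _
    rw [hdot]
    have h7 : Real.exp (dot y g - nsq y / 2) = Real.exp (dot y g) * Real.exp (-(nsq y) / 2) := by
      rw [← Real.exp_add]; ring_nf
    have h8 : Real.exp (-dot y g - nsq y / 2) = Real.exp (-dot y g) * Real.exp (-(nsq y) / 2) := by
      rw [← Real.exp_add]; ring_nf
    rw [h7, h8]
    have h9 : 1 ≤ Real.cosh (dot y g) := Real.one_le_cosh _
    rw [Real.cosh_eq] at h9
    have h10 := Real.exp_pos (-(nsq y) / 2)
    nlinarith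

/-- Dual Sudakov: `P s v` means `the norm of v is at most s`. -/
theorem dual_sudakov (P : ℝ → (ι → ℝ) → Prop) (S : Set (ι → ℝ)) (hS : MeasurableSet S)
    (hsymm : ∀ g ∈ S, -g ∈ S) (hγ : 1 / 2 ≤ (gam ι).real S) (A0 : ℝ) (hA0 : 0 < A0)
    (h1 : ∀ g ∈ S, P A0 g)
    (h2 : ∀ s t v w, P s v → P t w → P (s + t) (v - w))
    (h3 : ∀ s v (l : ℝ), 0 < l → P s (l • v) → P (s / l) v)
    (R η : ℝ) (hR : 0 < R) (hη : 0 < η) (F : Finset (ι → ℝ))
    (hF : ∀ x ∈ F, nsq x ≤ R ^ 2) (hsep : ∀ x ∈ F, ∀ y ∈ F, x ≠ y → ¬ P η (x - y)) :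
    (F.card : ℝ) ≤ 2 * Real.exp (2 * (A0 * R / η) ^ 2) := by
  set l : ℝ := 2 * A0 / η with hl
  have hl0 : 0 < l := by positivity
  let T : (ι → ℝ) → Set (ι → ℝ) := fun x => {g | g - l • x ∈ S}
  have hT : ∀ x, MeasurableSet (T x) := fun x => (measurable_id.sub_const (l • x)) hS
  have hdisj : (F : Set (ι → ℝ)).PairwiseDisjoint T := by
    intro x hx y hy hxy
    rw [Function.onFun, Set.disjoint_left]
    intro g hgx hgy
    have h4 := h2 _ _ _ _ (h1 _ hgy) (h1 _ hgx)
    have h5 : (g - l • y) - (g - l • x) = l • (x - y) := by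
      rw [smul_sub]; abel
    rw [h5] at h4
    have h6 := h3 _ _ l hl0 h4
    have h7 : (A0 + A0) / l = η := by rw [hl]; field_simp; ring
    rw [h7] at h6
    exact hsep x hx y hy hxy h6
  have h8 : ∑ x ∈ F, (gam ι).real (T x) ≤ 1 := by
    rw [← measureReal_biUnion_finset hdisj (fun x _ => hT x)]
    exact measureReal_le_one
  have h9 : ∀ x ∈ F, Real.exp (-(2 * (A0 * R / η) ^ 2)) / 2 ≤ (gam ι).real (T x) := by
    intro x hx
    have h10 := gam_shift S hS hsymm (l • x)
    have h11 : nsq (l • x) = l ^ 2 * nsq x := by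
      simp only [nsq, Finset.mul_sum, Pi.smul_apply, smul_eq_mul]
      exact Finset.sum_congr rfl fun i _ => by ring
    rw [h11] at h10
    refine le_trans ?_ h10
    have h12 : Real.exp (-(2 * (A0 * R / η) ^ 2)) ≤ Real.exp (-(l ^ 2 * nsq x) / 2) := by
      apply Real.exp_le_exp.2
      have h13 : l ^ 2 * nsq x ≤ l ^ 2 * R ^ 2 := by
        have := hF x hx
        gcongr
      have h14 : l ^ 2 * R ^ 2 = 2 * (2 * (A0 * R / η) ^ 2) := by rw [hl]; ring
      linarith
    have h15 := Real.exp_pos (-(l ^ 2 * nsq x) / 2)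
    calc Real.exp (-(2 * (A0 * R / η) ^ 2)) / 2 ≤ Real.exp (-(l ^ 2 * nsq x) / 2) * (1 / 2) := by
          linarith
      _ ≤ _ := by gcongr
  have h16 := (Finset.card_nsmul_le_sum F _ _ h9).trans h8
  rw [nsmul_eq_mul] at h16
  rw [Real.exp_neg] at h16
  have h17 := Real.exp_pos (2 * (A0 * R / η) ^ 2)
  have h18 : (F.card : ℝ) * ((Real.exp (2 * (A0 * R / η) ^ 2))⁻¹ / 2) =
      F.card / (2 * Real.exp (2 * (A0 * R / η) ^ 2)) := by
    field_simp
  rw [h18, div_le_one (by positivity)] at h16
  exact h16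

end Pool.Agent.LibEnt73
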