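import Pool.Agent.LibEnt73.GaussBasic

/-! Task GU: second moment of the higher part of a Gaussian Riesz product (one path of levels). -/

namespace Pool.Agent.LibEnt73

open MeasureTheory ProbabilityTheory Finset

noncomputable section

variable {B : Type*} [Fintype B]

/-- For independent Gaussian vectors `g 0, …, g k` (each in `B → ℝ`) and coefficient vectors `X j`:
`α_k sin⟨X k, g k⟩ ∏_{j<k} (1 + σ_j α_j sin⟨X j, g j⟩) - θ ⟨X k, g k⟩`. -/
def UU (k : ℕ) (σ α : ℕ → ℝ) (θ : ℝ) (X : ℕ → B → ℝ) (g : ℕ → B → ℝ) : ℝ :=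
  α k * Real.sin (dot (X k) (g k)) * (∏ j ∈ range k, (1 + σ j * α j * Real.sin (dot (X j) (g j))))
    - θ * dot (X k) (g k)

/-- extension of a tuple indexed by `Fin (k+1)` by zero -/
def ext {k : ℕ} (g : Fin (k + 1) → B → ℝ) : ℕ → B → ℝ := fun j => if h : j < k + 1 then g ⟨j, h⟩ else 0

omit [Fintype B] in
theorem gaussU_prod (k : ℕ) (F : ℕ → (B → ℝ) → ℝ) (g : Fin (k + 1) → B → ℝ) :
    ∏ i : Fin (k + 1), F i (g i) = ∏ j ∈ range (k + 1), F j (ext g j) := by
  rw [Finset.prod_range]
  refine Finset.prod_congr rfl fun i _ => ?_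
  unfold ext
  rw [dif_pos i.2]

theorem gaussU_int (k : ℕ) (F : ℕ → (B → ℝ) → ℝ) (G : (B → ℝ) → ℝ)
    (hF : ∀ j, Integrable (F j) (gam B)) (hG : Integrable G (gam B)) :
    Integrable (fun g : Fin (k + 1) → B → ℝ => (∏ j ∈ range k, F j (ext g j)) * G (ext g k))
      (Measure.pi fun _ : Fin (k + 1) => gam B) ∧
    ∫ g : Fin (k + 1) → B → ℝ, (∏ j ∈ range k, F j (ext g j)) * G (ext g k)
      ∂(Measure.pi fun _ : Fin (k + 1) => gam B)
      = (∏ j ∈ range k, ∫ x, F j x ∂(gam B)) * ∫ x, G x ∂(gam B) := by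
  set H : ℕ → (B → ℝ) → ℝ := fun j => if j = k then G else F j with hH
  have h1 : ∀ g : Fin (k + 1) → B → ℝ,
      (∏ j ∈ range k, F j (ext g j)) * G (ext g k) = ∏ i : Fin (k + 1), H i (g i) := by
    intro g
    rw [gaussU_prod, Finset.prod_range_succ]
    have h2 : H k (ext g k) = G (ext g k) := by simp [hH]
    rw [h2]
    congr 1
    refine Finset.prod_congr rfl fun j hj => ?_
    have : j ≠ k := (Finset.mem_range.1 hj).ne
    simp [hH, this]
  have hHi : ∀ j, Integrable (H j) (gam B) := by
    intro j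
    by_cases h : j = k
    · simp only [hH, h, if_true]; exact hG
    · simp only [hH, h, if_false]; exact hF j
  constructor
  · simp_rw [h1]
    exact Integrable.fintype_prod (f := fun (i : Fin (k + 1)) => H i) fun i => hHi i
  · simp_rw [h1]
    rw [integral_fintype_prod_eq_prod (fun (i : Fin (k + 1)) => H i)]
    rw [← Finset.prod_range (fun j => ∫ x, H j x ∂(gam B)), Finset.prod_range_succ]
    have h2 : ∫ x, H k x ∂(gam B) = ∫ x, G x ∂(gam B) := by simp [hH]
    rw [h2]
    congr 1
    refine Finset.prod_congr rfl fun j hj => ?_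
    have : j ≠ k := (Finset.mem_range.1 hj).ne
    simp [hH, this]

theorem gaussU_cont_dot (a : B → ℝ) : Continuous fun g : B → ℝ => dot a g := by
  unfold dot; fun_prop

theorem gaussU_integrable_bdd (f : (B → ℝ) → ℝ) (hf : Continuous f) (C : ℝ) (hC : ∀ x, |f x| ≤ C) :
    Integrable f (gam B) := by
  refine Integrable.of_bound hf.aestronglyMeasurable C (Filter.Eventually.of_forall fun x => ?_)
  rw [Real.norm_eq_abs]
  exact hC x

theorem gaussU_integrable_dot_sin (a b : B → ℝ) :
    Integrable (fun g => dot b g * Real.sin (dot a g)) (gam B) := by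
  refine Integrable.mono (integrable_dot b) ?_ (Filter.Eventually.of_forall fun x => ?_)
  · exact ((gaussU_cont_dot b).mul (Real.continuous_sin.comp (gaussU_cont_dot a))).aestronglyMeasurable
  · rw [norm_mul]
    have : ‖Real.sin (dot a x)‖ ≤ 1 := by rw [Real.norm_eq_abs]; exact Real.abs_sin_le_one _
    calc ‖dot b x‖ * ‖Real.sin (dot a x)‖ ≤ ‖dot b x‖ * 1 := by gcongr
      _ = ‖dot b x‖ := mul_one _

/-- the expectation of one factor -/
theorem gaussU_factor1 (a : B → ℝ) (s : ℝ) :
    Integrable (fun g => 1 + s * Real.sin (dot a g)) (gam B) ∧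
    ∫ g, (1 + s * Real.sin (dot a g)) ∂(gam B) = 1 := by
  have hs : Integrable (fun g => s * Real.sin (dot a g)) (gam B) := by
    refine gaussU_integrable_bdd _ (continuous_const.mul (Real.continuous_sin.comp (gaussU_cont_dot a)))
      |s| fun x => ?_
    rw [abs_mul]
    have := Real.abs_sin_le_one (dot a x)
    have h0 := abs_nonneg s
    nlinarith
  refine ⟨(integrable_const 1).add hs, ?_⟩
  rw [integral_add (integrable_const 1) hs, integral_const_mul, gam_sin]
  simp

theorem gaussU_factor2 (a b : B → ℝ) (s t : ℝ) :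
    Integrable (fun g => (1 + s * Real.sin (dot a g)) * (1 + t * Real.sin (dot b g))) (gam B) ∧
    ∫ g, (1 + s * Real.sin (dot a g)) * (1 + t * Real.sin (dot b g)) ∂(gam B)
      = 1 + s * t * (Real.exp (-(nsq a + nsq b) / 2) * Real.sinh (dot a b)) := by
  have hsin : ∀ c : B → ℝ, Integrable (fun g => Real.sin (dot c g)) (gam B) := fun c =>
    gaussU_integrable_bdd _ (Real.continuous_sin.comp (gaussU_cont_dot c)) 1
      fun x => Real.abs_sin_le_one _
  have hss : Integrable (fun g => Real.sin (dot a g) * Real.sin (dot b g)) (gam B) := by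
    refine gaussU_integrable_bdd _ ((Real.continuous_sin.comp (gaussU_cont_dot a)).mul
      (Real.continuous_sin.comp (gaussU_cont_dot b))) 1 fun x => ?_
    rw [abs_mul]
    have h1 := Real.abs_sin_le_one (dot a x)
    have h2 := Real.abs_sin_le_one (dot b x)
    have h0 := abs_nonneg (Real.sin (dot a x))
    have h3 := abs_nonneg (Real.sin (dot b x))
    nlinarith
  have e : (fun g => (1 + s * Real.sin (dot a g)) * (1 + t * Real.sin (dot b g)))
      = fun g => (1 + s * Real.sin (dot a g)) + (t * Real.sin (dot b g)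
        + s * t * (Real.sin (dot a g) * Real.sin (dot b g))) := by
    funext g; ring
  have i1 := (gaussU_factor1 a s).1
  have i2 : Integrable (fun g => t * Real.sin (dot b g)) (gam B) := (hsin b).const_mul t
  have i3 : Integrable (fun g => s * t * (Real.sin (dot a g) * Real.sin (dot b g))) (gam B) :=
    hss.const_mul _
  have i23 : Integrable (fun g => t * Real.sin (dot b g)
        + s * t * (Real.sin (dot a g) * Real.sin (dot b g))) (gam B) := i2.add i3
  rw [e]
  refine ⟨i1.add i23, ?_⟩
  rw [integral_add i1 i23, integral_add i2 i3, (gaussU_factor1 a s).2, integral_const_mul,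
    integral_const_mul, gam_sin, gam_sin_mul_sin]
  ring

theorem gaussU_sinsin_int (a b : B → ℝ) :
    Integrable (fun g => Real.sin (dot a g) * Real.sin (dot b g)) (gam B) := by
  refine gaussU_integrable_bdd _ ((Real.continuous_sin.comp (gaussU_cont_dot a)).mul
      (Real.continuous_sin.comp (gaussU_cont_dot b))) 1 fun x => ?_
  rw [abs_mul]
  have h1 := Real.abs_sin_le_one (dot a x)
  have h2 := Real.abs_sin_le_one (dot b x)
  have h0 := abs_nonneg (Real.sin (dot a x))
  have h3 := abs_nonneg (Real.sin (dot b x))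
  nlinarith

theorem UU_second_moment (k : ℕ) (σ α v : ℕ → ℝ) (c2 : ℝ) (hσ : ∀ j, σ j ^ 2 = 1)
    (hα : ∀ j, α j = Real.exp ((v j - c2) / 2)) (X Y : ℕ → B → ℝ)
    (hX : ∀ j, nsq (X j) = v j) (hY : ∀ j, nsq (Y j) = v j) :
    Integrable (fun g : Fin (k + 1) → B → ℝ =>
      UU k σ α (Real.exp (-c2 / 2)) X (ext g) * UU k σ α (Real.exp (-c2 / 2)) Y (ext g))
      (Measure.pi fun _ : Fin (k + 1) => gam B) ∧
    ∫ g : Fin (k + 1) → B → ℝ,
      UU k σ α (Real.exp (-c2 / 2)) X (ext g) * UU k σ α (Real.exp (-c2 / 2)) Y (ext g)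
      ∂(Measure.pi fun _ : Fin (k + 1) => gam B)
      = Real.exp (-c2) * (Real.sinh (dot (X k) (Y k)) *
          (∏ j ∈ range k, (1 + Real.exp (-c2) * Real.sinh (dot (X j) (Y j)))) - dot (X k) (Y k)) := by
  set θ := Real.exp (-c2 / 2) with hθ
  -- the four terms
  set T1 : (Fin (k + 1) → B → ℝ) → ℝ := fun g =>
    (∏ j ∈ range k, ((1 + σ j * α j * Real.sin (dot (X j) (ext g j))) *
      (1 + σ j * α j * Real.sin (dot (Y j) (ext g j))))) *
      (Real.sin (dot (X k) (ext g k)) * Real.sin (dot (Y k) (ext g k))) with hT1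
  set T2 : (Fin (k + 1) → B → ℝ) → ℝ := fun g =>
    (∏ j ∈ range k, (1 + σ j * α j * Real.sin (dot (X j) (ext g j)))) *
      (dot (Y k) (ext g k) * Real.sin (dot (X k) (ext g k))) with hT2
  set T3 : (Fin (k + 1) → B → ℝ) → ℝ := fun g =>
    (∏ j ∈ range k, (1 + σ j * α j * Real.sin (dot (Y j) (ext g j)))) *
      (dot (X k) (ext g k) * Real.sin (dot (Y k) (ext g k))) with hT3
  set T4 : (Fin (k + 1) → B → ℝ) → ℝ := fun g =>
    (∏ j ∈ range k, (1 + 0 * Real.sin (dot (Y j) (ext g j)))) *
      (dot (X k) (ext g k) * dot (Y k) (ext g k)) with hT4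
  have expand : (fun g : Fin (k + 1) → B → ℝ => UU k σ α θ X (ext g) * UU k σ α θ Y (ext g))
      = fun g => (α k ^ 2 * T1 g - θ * α k * T2 g) - (θ * α k * T3 g - θ ^ 2 * T4 g) := by
    funext g
    simp only [UU, hT1, hT2, hT3, hT4, Finset.prod_mul_distrib, zero_mul, add_zero,
      Finset.prod_const_one, one_mul]
    ring
  have r1 := gaussU_int k (fun j x => (1 + σ j * α j * Real.sin (dot (X j) x)) *
      (1 + σ j * α j * Real.sin (dot (Y j) x)))
      (fun x => Real.sin (dot (X k) x) * Real.sin (dot (Y k) x))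
      (fun j => (gaussU_factor2 (X j) (Y j) (σ j * α j) (σ j * α j)).1)
      (gaussU_sinsin_int _ _)
  have r2 := gaussU_int k (fun j x => (1 + σ j * α j * Real.sin (dot (X j) x)))
      (fun x => dot (Y k) x * Real.sin (dot (X k) x))
      (fun j => (gaussU_factor1 (X j) (σ j * α j)).1)
      (gaussU_integrable_dot_sin _ _)
  have r3 := gaussU_int k (fun j x => (1 + σ j * α j * Real.sin (dot (Y j) x)))
      (fun x => dot (X k) x * Real.sin (dot (Y k) x))
      (fun j => (gaussU_factor1 (Y j) (σ j * α j)).1)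
      (gaussU_integrable_dot_sin _ _)
  have r4 := gaussU_int k (fun j x => (1 + 0 * Real.sin (dot (Y j) x)))
      (fun x => dot (X k) x * dot (Y k) x)
      (fun j => (gaussU_factor1 (Y j) 0).1)
      (integrable_dot_mul_dot _ _)
  have j1 : Integrable (fun g => α k ^ 2 * T1 g) (Measure.pi fun _ : Fin (k + 1) => gam B) :=
    r1.1.const_mul (α k ^ 2)
  have j2 : Integrable (fun g => θ * α k * T2 g) (Measure.pi fun _ : Fin (k + 1) => gam B) :=
    r2.1.const_mul (θ * α k)
  have j3 : Integrable (fun g => θ * α k * T3 g) (Measure.pi fun _ : Fin (k + 1) => gam B) :=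
    r3.1.const_mul (θ * α k)
  have j4 : Integrable (fun g => θ ^ 2 * T4 g) (Measure.pi fun _ : Fin (k + 1) => gam B) :=
    r4.1.const_mul (θ ^ 2)
  have i12 : Integrable (fun g => α k ^ 2 * T1 g - θ * α k * T2 g)
    (Measure.pi fun _ : Fin (k + 1) => gam B) := j1.sub j2
  have i34 : Integrable (fun g => θ * α k * T3 g - θ ^ 2 * T4 g)
    (Measure.pi fun _ : Fin (k + 1) => gam B) := j3.sub j4
  have hint := i12.sub i34
  rw [expand]
  refine ⟨hint, ?_⟩
  have hval : ∫ g, ((α k ^ 2 * T1 g - θ * α k * T2 g) - (θ * α k * T3 g - θ ^ 2 * T4 g))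
      ∂(Measure.pi fun _ : Fin (k + 1) => gam B)
      = (α k ^ 2 * ∫ g, T1 g ∂(Measure.pi fun _ : Fin (k + 1) => gam B)
          - θ * α k * ∫ g, T2 g ∂(Measure.pi fun _ : Fin (k + 1) => gam B))
        - (θ * α k * ∫ g, T3 g ∂(Measure.pi fun _ : Fin (k + 1) => gam B)
          - θ ^ 2 * ∫ g, T4 g ∂(Measure.pi fun _ : Fin (k + 1) => gam B)) := by
    rw [integral_sub i12 i34, integral_sub j1 j2, integral_sub j3 j4, integral_const_mul,
      integral_const_mul, integral_const_mul, integral_const_mul]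
  rw [hval]
  have v1 : ∫ g, T1 g ∂(Measure.pi fun _ : Fin (k + 1) => gam B)
      = (∏ j ∈ range k, (1 + Real.exp (-c2) * Real.sinh (dot (X j) (Y j)))) *
        (Real.exp (-v k) * Real.sinh (dot (X k) (Y k))) := by
    rw [hT1, r1.2, gam_sin_mul_sin, hX, hY]
    congr 1
    · refine Finset.prod_congr rfl fun j _ => ?_
      rw [(gaussU_factor2 (X j) (Y j) (σ j * α j) (σ j * α j)).2, hX, hY]
      have h1 : σ j * α j * (σ j * α j) = Real.exp (v j - c2) := by
        have : σ j * α j * (σ j * α j) = σ j ^ 2 * (α j * α j) := by ring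
        rw [this, hσ, hα, ← Real.exp_add, one_mul]
        congr 1; ring
      rw [h1, ← mul_assoc, ← Real.exp_add]
      congr 3; ring
    · congr 2; ring
  have v2 : ∫ g, T2 g ∂(Measure.pi fun _ : Fin (k + 1) => gam B)
      = dot (X k) (Y k) * Real.exp (-(v k) / 2) := by
    rw [hT2, r2.2, gam_dot_mul_sin, hX]
    rw [Finset.prod_congr rfl fun j _ => (gaussU_factor1 (X j) (σ j * α j)).2]
    simp
  have dc : dot (Y k) (X k) = dot (X k) (Y k) := by
    unfold dot; exact Finset.sum_congr rfl fun i _ => mul_comm _ _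
  have v3 : ∫ g, T3 g ∂(Measure.pi fun _ : Fin (k + 1) => gam B)
      = dot (X k) (Y k) * Real.exp (-(v k) / 2) := by
    rw [hT3, r3.2, gam_dot_mul_sin, hY]
    rw [Finset.prod_congr rfl fun j _ => (gaussU_factor1 (Y j) (σ j * α j)).2, dc]
    simp
  have v4 : ∫ g, T4 g ∂(Measure.pi fun _ : Fin (k + 1) => gam B) = dot (X k) (Y k) := by
    rw [hT4, r4.2, gam_dot_mul_dot]
    rw [Finset.prod_congr rfl fun j _ => (gaussU_factor1 (Y j) 0).2]
    simp
  rw [v1, v2, v3, v4]
  have e1 : α k ^ 2 * Real.exp (-v k) = Real.exp (-c2) := by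
    rw [hα, sq, ← Real.exp_add, ← Real.exp_add]; congr 1; ring
  have e2 : θ * α k * Real.exp (-(v k) / 2) = Real.exp (-c2) := by
    rw [hα, hθ, ← Real.exp_add, ← Real.exp_add]; congr 1; ring
  have e3 : θ ^ 2 = Real.exp (-c2) := by
    rw [hθ, sq, ← Real.exp_add]; congr 1; ring
  set S := Real.sinh (dot (X k) (Y k))
  set P := ∏ j ∈ range k, (1 + Real.exp (-c2) * Real.sinh (dot (X j) (Y j)))
  set D := dot (X k) (Y k)
  calc (α k ^ 2 * (P * (Real.exp (-v k) * S)) - θ * α k * (D * Real.exp (-(v k) / 2)))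
        - (θ * α k * (D * Real.exp (-(v k) / 2)) - θ ^ 2 * D)
      = (α k ^ 2 * Real.exp (-v k)) * (P * S) - 2 * (θ * α k * Real.exp (-(v k) / 2)) * D + θ ^ 2 * D := by ring
    _ = _ := by rw [e1, e2, e3]; ring

/-- Marginals of the Gaussian measure: along an injection `e : Fin (k+1) × B → ι` the vector
`j ↦ b ↦ g (e (j,b))` has the law of independent Gaussian vectors. -/
theorem gam_marginal {ι : Type*} [Fintype ι] (k : ℕ) (e : Fin (k + 1) × B → ι)
    (he : Function.Injective e) :
    MeasurePreserving (fun (g : ι → ℝ) (j : Fin (k + 1)) (b : B) => g (e (j, b)))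
      (gam ι) (Measure.pi fun _ : Fin (k + 1) => gam B) := by
  classical
  have hmeas : Measurable (fun (g : ι → ℝ) (j : Fin (k + 1)) (b : B) => g (e (j, b))) := by
    refine measurable_pi_lambda _ fun j => measurable_pi_lambda _ fun b => measurable_pi_apply _
  refine ⟨hmeas, ?_⟩
  symm
  refine Measure.pi_eq_generateFrom
    (C := fun _ : Fin (k + 1) => Set.pi Set.univ '' Set.pi Set.univ fun _ : B => {s : Set ℝ | MeasurableSet s})
    (fun _ => generateFrom_pi) (fun _ => isPiSystem_pi) (fun j => ?_) ?_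
  · refine ⟨fun _ => Set.univ, fun _ => ?_, fun _ => measure_lt_top _ _, Set.iUnion_const _⟩
    refine ⟨fun _ => Set.univ, ?_, by simp⟩
    intro i _
    exact (MeasurableSet.univ : MeasurableSet (Set.univ : Set ℝ))
  · intro s hs
    choose t ht hts using hs
    have ht' : ∀ j b, MeasurableSet (t j b) := fun j b => ht j b (Set.mem_univ b)
    have hsm : ∀ j, MeasurableSet (s j) := fun j => by
      rw [← hts j]; exact MeasurableSet.univ_pi (ht' j)
    rw [Measure.map_apply hmeas (MeasurableSet.univ_pi hsm)]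
    set u : ι → Set ℝ := fun i => if h : ∃ p, e p = i then t h.choose.1 h.choose.2 else Set.univ with hu
    have hue : ∀ p, u (e p) = t p.1 p.2 := by
      intro p
      have h : ∃ q, e q = e p := ⟨p, rfl⟩
      have h2 : h.choose = p := he h.choose_spec
      simp only [hu]
      rw [dif_pos h, h2]
    have hpre : (fun (g : ι → ℝ) (j : Fin (k + 1)) (b : B) => g (e (j, b))) ⁻¹' Set.pi Set.univ s
        = Set.pi Set.univ u := by
      ext g
      simp only [Set.mem_preimage, Set.mem_pi, Set.mem_univ, true_implies]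
      constructor
      · intro h i
        by_cases hi : ∃ p, e p = i
        · obtain ⟨p, rfl⟩ := hi
          rw [hue]
          have := h p.1
          rw [← hts p.1] at this
          exact this p.2 (Set.mem_univ _)
        · simp only [hu]
          rw [dif_neg hi]
          exact Set.mem_univ _
      · intro h j
        rw [← hts j]
        intro b _
        have := h (e (j, b))
        rw [hue] at this
        exact this
    rw [hpre, Measure.pi_pi]
    have h1 : ∏ i, gaussianReal 0 1 (u i) = ∏ p : Fin (k + 1) × B, gaussianReal 0 1 (u (e p)) := by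
      rw [← Finset.prod_image (s := Finset.univ) (g := e) (f := fun i => gaussianReal 0 1 (u i))
        (fun a _ b _ h => he h)]
      symm
      refine Finset.prod_subset (Finset.subset_univ _) fun i _ hi => ?_
      have : ¬ ∃ p, e p = i := by
        rintro ⟨p, rfl⟩
        exact hi (Finset.mem_image_of_mem _ (Finset.mem_univ _))
      simp only [hu]
      rw [dif_neg this]
      exact measure_univ
    rw [h1, Fintype.prod_prod_type]
    refine Finset.prod_congr rfl fun j _ => ?_
    rw [← hts j, Measure.pi_pi]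
    exact Finset.prod_congr rfl fun b _ => by rw [hue]

end

end Pool.Agent.LibEnt73
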