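import Pool.Agent.LibEnt73.Base

/-! Task HA: Haar coefficients: telescoping and Jensen (no Fourier analysis). -/

namespace Pool.Agent.LibEnt73

open MeasureTheory ProbabilityTheory Finset

lemma haarA_card (N : ℕ) : (Fintype.card (ZMod (2 ^ N)) : ℝ) = 2 ^ N := by
  rw [ZMod.card]; push_cast; rfl

lemma haarA_sum_range {E : Type*} [AddCommMonoid E] (N : ℕ) (f : ZMod (2 ^ N) → E) :
    ∑ x, f x = ∑ n ∈ range (2 ^ N), f (n : ZMod (2 ^ N)) := by
  symm
  apply Finset.sum_bij' (fun n _ => ((n : ℕ) : ZMod (2 ^ N))) (fun x _ => x.val)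
  · intro a _; exact mem_univ _
  · intro a _; exact mem_range.2 (ZMod.val_lt a)
  · intro a ha; exact ZMod.val_natCast_of_lt (mem_range.1 ha)
  · intro a _; exact ZMod.natCast_zmod_val a
  · intro a _; rfl

lemma haarA_range_mul {E : Type*} [AddCommMonoid E] (A L : ℕ) (f : ℕ → E) :
    ∑ n ∈ range (A * L), f n = ∑ a ∈ range A, ∑ i ∈ range L, f (a * L + i) := by
  induction A with
  | zero => simp
  | succ A ih =>
    rw [sum_range_succ, ← ih, Nat.succ_mul, sum_range_add]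

lemma haarA_pow (N K : ℕ) (hK : K ≤ N) : 2 ^ K * 2 ^ (N - K) = 2 ^ N := by
  rw [← pow_add]; congr 1; omega

/-- sum over all points by blocks of level `K` -/
lemma haarA_sum_blocks {E : Type*} [AddCommMonoid E] (N K : ℕ) (hK : K ≤ N)
    (f : ZMod (2 ^ N) → E) :
    ∑ x, f x = ∑ a ∈ range (2 ^ K), ∑ i ∈ range (2 ^ (N - K)),
      f ((a * 2 ^ (N - K) + i : ℕ) : ZMod (2 ^ N)) := by
  rw [haarA_sum_range]
  have h : range (2 ^ N) = range (2 ^ K * 2 ^ (N - K)) := by rw [haarA_pow N K hK]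
  rw [h, haarA_range_mul _ _ (fun n => f (n : ZMod (2 ^ N)))]

lemma haarA_val (N K a i : ℕ) (hK : K ≤ N) (ha : a < 2 ^ K) (hi : i < 2 ^ (N - K)) :
    (((a * 2 ^ (N - K) + i : ℕ) : ZMod (2 ^ N))).val = a * 2 ^ (N - K) + i := by
  apply ZMod.val_natCast_of_lt
  calc a * 2 ^ (N - K) + i < a * 2 ^ (N - K) + 2 ^ (N - K) := by omega
    _ = (a + 1) * 2 ^ (N - K) := by ring
    _ ≤ 2 ^ K * 2 ^ (N - K) := Nat.mul_le_mul_right _ ha
    _ = 2 ^ N := haarA_pow N K hK

lemma haarA_blk (N K a i : ℕ) (hK : K ≤ N) (ha : a < 2 ^ K) (hi : i < 2 ^ (N - K)) :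
    blk N K ((a * 2 ^ (N - K) + i : ℕ) : ZMod (2 ^ N)) = a := by
  unfold blk
  rw [haarA_val N K a i hK ha hi, add_comm, Nat.add_mul_div_right _ _ (by positivity),
    Nat.div_eq_of_lt hi, zero_add]

/-- sum over one block -/
lemma haarA_sum_blk {E : Type*} [AddCommMonoid E] (N K a : ℕ) (hK : K ≤ N) (ha : a < 2 ^ K)
    (f : ZMod (2 ^ N) → E) :
    ∑ x, (if blk N K x = a then f x else 0) =
      ∑ i ∈ range (2 ^ (N - K)), f ((a * 2 ^ (N - K) + i : ℕ) : ZMod (2 ^ N)) := by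
  rw [haarA_sum_blocks N K hK]
  rw [Finset.sum_eq_single a]
  · apply Finset.sum_congr rfl
    intro i hi
    rw [haarA_blk N K a i hK ha (mem_range.1 hi), if_pos rfl]
  · intro b hb hba
    apply Finset.sum_eq_zero
    intro i hi
    rw [haarA_blk N K b i hK (mem_range.1 hb) (mem_range.1 hi), if_neg hba]
  · intro h; exact absurd (mem_range.2 ha) h

lemma haarA_blk_succ (N K : ℕ) (hK : K + 1 ≤ N) (x : ZMod (2 ^ N)) :
    blk N K x = blk N (K + 1) x / 2 := by
  unfold blk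
  rw [Nat.div_div_eq_div_mul]
  congr 1
  rw [← pow_succ]; congr 1; omega

lemma haarA_rsgn (N K : ℕ) (x : ZMod (2 ^ N)) :
    rsgn N K x = if blk N (K + 1) x % 2 = 0 then 1 else -1 := by
  unfold rsgn blk
  rw [show N - K - 1 = N - (K + 1) by omega]

lemma haarA_range_two {E : Type*} [AddCommMonoid E] (A : ℕ) (f : ℕ → E) :
    ∑ n ∈ range (2 * A), f n = ∑ a ∈ range A, (f (2 * a) + f (2 * a + 1)) := by
  rw [mul_comm, haarA_range_mul]
  apply Finset.sum_congr rfl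
  intro a _
  rw [Finset.sum_range_succ, Finset.sum_range_one, mul_comm a 2]
  rfl

lemma haarA_avg_add {α : Type*} [Fintype α] (f g : α → ℂ) :
    avg (fun x => f x + g x) = avg f + avg g := by
  unfold avg; rw [Finset.sum_add_distrib, smul_add]

lemma haarA_avg_sub {α : Type*} [Fintype α] (f g : α → ℂ) :
    avg (fun x => f x - g x) = avg f - avg g := by
  unfold avg; rw [Finset.sum_sub_distrib, smul_sub]

lemma haarA_step (N K : ℕ) (hK : K + 1 ≤ N) (φ : ZMod (2 ^ N) → ℂ) :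
    hE N K φ + (2 : ℝ) ^ K * ∑ a ∈ range (2 ^ K), ‖hc N K a φ‖ ^ 2 = hE N (K + 1) φ := by
  unfold hE
  rw [pow_succ, mul_comm (2 ^ K) 2, haarA_range_two, Finset.mul_sum, ← Finset.sum_add_distrib]
  apply Finset.sum_congr rfl
  intro a _
  set p : ℂ := avg fun x => if blk N (K + 1) x = 2 * a then φ x else 0 with hp
  set q : ℂ := avg fun x => if blk N (K + 1) x = 2 * a + 1 then φ x else 0 with hq
  have h1 : (avg fun x => if blk N K x = a then φ x else 0) = p + q := by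
    rw [hp, hq, ← haarA_avg_add]
    congr 1
    funext x
    rw [haarA_blk_succ N K hK x]
    set b := blk N (K + 1) x
    by_cases h0 : b = 2 * a
    · have e1 : b / 2 = a := by omega
      have e3 : b ≠ 2 * a + 1 := by omega
      rw [if_pos e1, if_pos h0, if_neg e3, add_zero]
    · by_cases h2 : b = 2 * a + 1
      · have e1 : b / 2 = a := by omega
        rw [if_pos e1, if_neg h0, if_pos h2, zero_add]
      · have e1 : ¬ b / 2 = a := by omega
        rw [if_neg e1, if_neg h0, if_neg h2, add_zero]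
  have h2 : hc N K a φ = p - q := by
    unfold hc
    rw [hp, hq, ← haarA_avg_sub]
    congr 1
    funext x
    rw [haarA_blk_succ N K hK x, haarA_rsgn]
    set b := blk N (K + 1) x
    by_cases h0 : b = 2 * a
    · have e1 : b / 2 = a := by omega
      have e2 : b % 2 = 0 := by omega
      have e3 : b ≠ 2 * a + 1 := by omega
      rw [if_pos e1, if_pos e2, if_pos h0, if_neg e3]; simp
    · by_cases h2 : b = 2 * a + 1
      · have e1 : b / 2 = a := by omega
        have e2 : ¬ b % 2 = 0 := by omega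
        rw [if_pos e1, if_neg e2, if_neg h0, if_pos h2]; simp
      · have e1 : ¬ b / 2 = a := by omega
        rw [if_neg e1, if_neg h0, if_neg h2, sub_zero]
  rw [h1, h2]
  have h3 := parallelogram_law_with_norm ℝ p q
  have h4 : ‖p + q‖ ^ 2 + ‖p - q‖ ^ 2 = 2 * (‖p‖ ^ 2 + ‖q‖ ^ 2) := by
    nlinarith [h3]
  rw [pow_succ]
  linear_combination (2 : ℝ) ^ K * h4

/-- telescoping -/
theorem haar_telescope (N K : ℕ) (hK : K ≤ N) (φ : ZMod (2 ^ N) → ℂ) :
    ‖avg φ‖ ^ 2 + ∑ k ∈ range K, (2 : ℝ) ^ k * ∑ a ∈ range (2 ^ k), ‖hc N k a φ‖ ^ 2 = hE N K φ := by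
  induction K with
  | zero =>
    unfold hE
    simp only [Finset.range_zero, Finset.sum_empty, add_zero, pow_zero, Finset.range_one,
      Finset.sum_singleton, one_mul]
    congr 2
    apply congrArg
    funext x
    rw [if_pos]
    unfold blk
    rw [Nat.sub_zero]
    exact Nat.div_eq_of_lt (ZMod.val_lt x)
  | succ K ih =>
    rw [Finset.sum_range_succ, ← add_assoc, ih (by omega), haarA_step N K hK φ]

lemma haarA_hE_top (N : ℕ) (φ : ZMod (2 ^ N) → ℂ) : hE N N φ = avg fun x => ‖φ x‖ ^ 2 := by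
  unfold hE
  have h : ∀ a ∈ range (2 ^ N), (2 : ℝ) ^ N * ‖avg fun x => if blk N N x = a then φ x else 0‖ ^ 2
      = (1 / (2 : ℝ) ^ N) * ‖φ (a : ZMod (2 ^ N))‖ ^ 2 := by
    intro a ha
    have h1 : (avg fun x => if blk N N x = a then φ x else 0)
        = (1 / (2 : ℝ) ^ N) • φ (a : ZMod (2 ^ N)) := by
      unfold avg
      rw [haarA_card, haarA_sum_blk N N a le_rfl (mem_range.1 ha)]
      simp
    rw [h1, norm_smul, mul_pow, Real.norm_of_nonneg (by positivity)]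
    have h2 : (2 : ℝ) ^ N ≠ 0 := by positivity
    field_simp
  rw [Finset.sum_congr rfl h, ← Finset.mul_sum]
  unfold avg
  rw [haarA_card, haarA_sum_range, smul_eq_mul]

theorem hE_le (N K : ℕ) (hK : K ≤ N) (φ : ZMod (2 ^ N) → ℂ) : hE N K φ ≤ avg fun x => ‖φ x‖ ^ 2 := by
  rw [← haarA_hE_top, ← haar_telescope N K hK, ← haar_telescope N N le_rfl]
  have : ∑ k ∈ range K, (2 : ℝ) ^ k * ∑ a ∈ range (2 ^ k), ‖hc N k a φ‖ ^ 2
      ≤ ∑ k ∈ range N, (2 : ℝ) ^ k * ∑ a ∈ range (2 ^ k), ‖hc N k a φ‖ ^ 2 := by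
    apply Finset.sum_le_sum_of_subset_of_nonneg
    · intro k hk; rw [mem_range] at *; omega
    · intro k _ _; positivity
  linarith

lemma haarA_cs (L : ℕ) (g : ℕ → ℂ) : ‖∑ i ∈ range L, g i‖ ^ 2 ≤ L * ∑ i ∈ range L, ‖g i‖ ^ 2 := by
  have h1 : ‖∑ i ∈ range L, g i‖ ≤ ∑ i ∈ range L, ‖g i‖ := norm_sum_le _ _
  have h2 : (∑ i ∈ range L, ‖g i‖) ^ 2 ≤ (range L).card * ∑ i ∈ range L, ‖g i‖ ^ 2 :=
    sq_sum_le_card_mul_sum_sq
  rw [card_range] at h2
  exact le_trans (pow_le_pow_left₀ (norm_nonneg _) h1 2) h2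

/-- difference bound for the Haar coefficients of level `k`: half blocks have length `2^(N-k-1)`. -/
theorem haar_diff (N k : ℕ) (hk : k < N) (φ : ZMod (2 ^ N) → ℂ) :
    (2 : ℝ) ^ k * ∑ a ∈ range (2 ^ k), ‖hc N k a φ‖ ^ 2
      ≤ (1 / 2) * avg fun x => ‖φ (x + ((2 ^ (N - k - 1) : ℕ) : ZMod (2 ^ N))) - φ x‖ ^ 2 := by
  set L := 2 ^ (N - k - 1) with hL
  have hL' : 2 ^ (N - (k + 1)) = L := by rw [hL]; congr 1
  set ψ : ZMod (2 ^ N) → ℝ := fun x => ‖φ (x + (L : ZMod (2 ^ N))) - φ x‖ ^ 2 with hψ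
  have key : ∀ a ∈ range (2 ^ k), ‖hc N k a φ‖ ^ 2 ≤ (1 / (2 : ℝ) ^ N) ^ 2 * (L *
      ∑ i ∈ range L, ψ (((2 * a) * L + i : ℕ) : ZMod (2 ^ N))) := by
    intro a ha
    rw [mem_range] at ha
    have ha2 : 2 * a + 1 < 2 ^ (k + 1) := by rw [pow_succ]; omega
    have h1 : hc N k a φ = (1 / (2 : ℝ) ^ N) •
        (∑ i ∈ range L, (φ (((2 * a) * L + i : ℕ) : ZMod (2 ^ N)) -
          φ ((((2 * a) * L + i : ℕ) : ZMod (2 ^ N)) + (L : ZMod (2 ^ N))))) := by
      unfold hc avg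
      rw [haarA_card]
      congr 1
      have e1 : ∀ x : ZMod (2 ^ N), (if blk N k x = a then (rsgn N k x : ℂ) * φ x else 0)
          = (if blk N (k + 1) x = 2 * a then φ x else 0)
            - (if blk N (k + 1) x = 2 * a + 1 then φ x else 0) := by
        intro x
        rw [haarA_blk_succ N k hk x, haarA_rsgn]
        set b := blk N (k + 1) x
        by_cases h0 : b = 2 * a
        · have e1 : b / 2 = a := by omega
          have e2 : b % 2 = 0 := by omega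
          have e3 : b ≠ 2 * a + 1 := by omega
          rw [if_pos e1, if_pos e2, if_pos h0, if_neg e3]; simp
        · by_cases h2 : b = 2 * a + 1
          · have e1 : b / 2 = a := by omega
            have e2 : ¬ b % 2 = 0 := by omega
            rw [if_pos e1, if_neg e2, if_neg h0, if_pos h2]; simp
          · have e1 : ¬ b / 2 = a := by omega
            rw [if_neg e1, if_neg h0, if_neg h2, sub_zero]
      rw [Finset.sum_congr rfl (fun x _ => e1 x), Finset.sum_sub_distrib,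
        haarA_sum_blk N (k + 1) (2 * a) hk (by omega), haarA_sum_blk N (k + 1) (2 * a + 1) hk ha2,
        hL', ← Finset.sum_sub_distrib]
      apply Finset.sum_congr rfl
      intro i _
      congr 2
      push_cast
      ring
    rw [h1, norm_smul, mul_pow, Real.norm_of_nonneg (by positivity)]
    apply mul_le_mul_of_nonneg_left _ (by positivity)
    refine le_trans (haarA_cs L _) ?_
    apply le_of_eq
    congr 1
    apply Finset.sum_congr rfl
    intro i _
    rw [hψ]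
    simp only
    rw [norm_sub_rev]
  have hsum : ∑ a ∈ range (2 ^ k), ∑ i ∈ range L, ψ (((2 * a) * L + i : ℕ) : ZMod (2 ^ N))
      ≤ ∑ x, ψ x := by
    rw [haarA_sum_blocks N (k + 1) hk, hL', pow_succ, mul_comm (2 ^ k) 2, haarA_range_two]
    apply Finset.sum_le_sum
    intro a _
    have : 0 ≤ ∑ i ∈ range L, ψ ((((2 * a + 1) * L + i : ℕ)) : ZMod (2 ^ N)) := by
      apply Finset.sum_nonneg; intro i _; rw [hψ]; positivity
    linarith
  have hM : (2 : ℝ) ^ k * (L : ℝ) * 2 = 2 ^ N := by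
    rw [hL]; push_cast
    rw [mul_assoc, ← pow_succ, ← pow_add]; congr 1; omega
  calc (2 : ℝ) ^ k * ∑ a ∈ range (2 ^ k), ‖hc N k a φ‖ ^ 2
      ≤ (2 : ℝ) ^ k * ∑ a ∈ range (2 ^ k), (1 / (2 : ℝ) ^ N) ^ 2 * (L *
      ∑ i ∈ range L, ψ (((2 * a) * L + i : ℕ) : ZMod (2 ^ N))) := by
        apply mul_le_mul_of_nonneg_left (Finset.sum_le_sum key) (by positivity)
    _ = (1 / 2) * ((1 / (2 : ℝ) ^ N) * ∑ a ∈ range (2 ^ k), ∑ i ∈ range L,
          ψ (((2 * a) * L + i : ℕ) : ZMod (2 ^ N))) := by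
        rw [← Finset.mul_sum, ← Finset.mul_sum]
        rw [← hM]
        have : (2 : ℝ) ^ k ≠ 0 := by positivity
        have h3 : (L : ℝ) ≠ 0 := by rw [hL]; positivity
        field_simp
    _ ≤ (1 / 2) * ((1 / (2 : ℝ) ^ N) * ∑ x, ψ x) := by
        apply mul_le_mul_of_nonneg_left _ (by norm_num)
        apply mul_le_mul_of_nonneg_left hsum (by positivity)
    _ = (1 / 2) * avg ψ := by
        unfold avg; rw [haarA_card, smul_eq_mul]

/-- variance identity -/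
lemma haarA_var (L : ℕ) (g : ℕ → ℂ) :
    L * ∑ i ∈ range L, ‖g i‖ ^ 2 - ‖∑ i ∈ range L, g i‖ ^ 2
      = ∑ i ∈ range L, ∑ j ∈ range i, ‖g i - g j‖ ^ 2 := by
  induction L with
  | zero => simp
  | succ L ih =>
    rw [Finset.sum_range_succ (fun i => ∑ j ∈ range i, ‖g i - g j‖ ^ 2), ← ih]
    rw [Finset.sum_range_succ, Finset.sum_range_succ (fun i => g i)]
    have h1 : ∀ z w : ℂ, ‖z + w‖ ^ 2 = ‖z‖ ^ 2 + 2 * (z * (starRingEnd ℂ) w).re + ‖w‖ ^ 2 := by
      intro z w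
      rw [← Complex.normSq_eq_norm_sq, ← Complex.normSq_eq_norm_sq, ← Complex.normSq_eq_norm_sq,
        Complex.normSq_add]
      ring
    have h2 : ∀ z w : ℂ, ‖z - w‖ ^ 2 = ‖z‖ ^ 2 - 2 * (w * (starRingEnd ℂ) z).re + ‖w‖ ^ 2 := by
      intro z w
      rw [← Complex.normSq_eq_norm_sq, ← Complex.normSq_eq_norm_sq, ← Complex.normSq_eq_norm_sq,
        Complex.normSq_sub]
      have : (w * (starRingEnd ℂ) z).re = (z * (starRingEnd ℂ) w).re := by
        simp only [Complex.mul_re, Complex.conj_re, Complex.conj_im]; ring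
      rw [this]; ring
    rw [h1]
    have h3 : ∑ j ∈ range L, ‖g L - g j‖ ^ 2 = L * ‖g L‖ ^ 2
        - 2 * ((∑ j ∈ range L, g j) * (starRingEnd ℂ) (g L)).re + ∑ j ∈ range L, ‖g j‖ ^ 2 := by
      rw [Finset.sum_congr rfl (fun j _ => h2 (g L) (g j)), Finset.sum_add_distrib,
        Finset.sum_sub_distrib, Finset.sum_const, card_range, nsmul_eq_mul, ← Finset.mul_sum,
        Finset.sum_mul, Complex.re_sum]
    rw [h3]
    push_cast
    ring

/-- the loss of energy in block averages is controlled by shifts. -/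
theorem hE_diff (N K : ℕ) (hK : K ≤ N) (φ : ZMod (2 ^ N) → ℂ) (D : ℝ)
    (hD : ∀ j : ℕ, j < 2 ^ (N - K) → (avg fun x => ‖φ (x + (j : ZMod (2 ^ N))) - φ x‖ ^ 2) ≤ D) :
    (avg fun x => ‖φ x‖ ^ 2) - D ≤ hE N K φ := by
  set L := 2 ^ (N - K) with hL
  have hLpos : (0 : ℝ) < L := by rw [hL]; positivity
  have hM : (2 : ℝ) ^ K * (L : ℝ) = 2 ^ N := by
    rw [hL]; push_cast
    rw [← pow_add]; congr 1; omega
  have h2K : (0 : ℝ) < 2 ^ K := by positivity
  have h2N : (0 : ℝ) < 2 ^ N := by positivity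
  -- exact formula
  have h1 : ∀ a ∈ range (2 ^ K),
      (1 / (2 : ℝ) ^ N) * ∑ i ∈ range L, ‖φ ((a * L + i : ℕ) : ZMod (2 ^ N))‖ ^ 2
        - (2 : ℝ) ^ K * ‖avg fun x => if blk N K x = a then φ x else 0‖ ^ 2
      = (1 / (2 : ℝ) ^ N) * (1 / L) * ∑ i ∈ range L, ∑ j ∈ range i,
        ‖φ ((a * L + i : ℕ) : ZMod (2 ^ N)) - φ ((a * L + j : ℕ) : ZMod (2 ^ N))‖ ^ 2 := by
    intro a ha
    rw [← haarA_var L (fun i => φ ((a * L + i : ℕ) : ZMod (2 ^ N)))]
    unfold avg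
    rw [haarA_card, haarA_sum_blk N K a hK (mem_range.1 ha), ← hL, norm_smul, mul_pow,
      Real.norm_of_nonneg (by positivity), ← hM]
    field_simp
  have h2 : (avg fun x => ‖φ x‖ ^ 2) - hE N K φ
      = (1 / (2 : ℝ) ^ N) * (1 / L) * ∑ a ∈ range (2 ^ K), ∑ i ∈ range L, ∑ j ∈ range i,
        ‖φ ((a * L + i : ℕ) : ZMod (2 ^ N)) - φ ((a * L + j : ℕ) : ZMod (2 ^ N))‖ ^ 2 := by
    have h0 : (avg fun x => ‖φ x‖ ^ 2) = ∑ a ∈ range (2 ^ K), (1 / (2 : ℝ) ^ N) *
        ∑ i ∈ range L, ‖φ ((a * L + i : ℕ) : ZMod (2 ^ N))‖ ^ 2 := by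
      unfold avg
      rw [haarA_card, haarA_sum_blocks N K hK, smul_eq_mul, ← hL, Finset.mul_sum]
    rw [h0]
    unfold hE
    rw [← Finset.sum_sub_distrib, Finset.mul_sum]
    apply Finset.sum_congr rfl
    intro a ha
    exact h1 a ha
  -- reindex by the difference
  have h3 : ∀ a : ℕ, ∑ i ∈ range L, ∑ j ∈ range i,
        ‖φ ((a * L + i : ℕ) : ZMod (2 ^ N)) - φ ((a * L + j : ℕ) : ZMod (2 ^ N))‖ ^ 2
      ≤ ∑ t ∈ range L, ∑ j ∈ range L,
        ‖φ (((a * L + j : ℕ) : ZMod (2 ^ N)) + (t : ZMod (2 ^ N)))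
          - φ ((a * L + j : ℕ) : ZMod (2 ^ N))‖ ^ 2 := by
    intro a
    have e1 : ∀ i ∈ range L, ∑ j ∈ range i,
        ‖φ ((a * L + i : ℕ) : ZMod (2 ^ N)) - φ ((a * L + j : ℕ) : ZMod (2 ^ N))‖ ^ 2
        = ∑ j ∈ range L, if j < i then
          ‖φ ((a * L + i : ℕ) : ZMod (2 ^ N)) - φ ((a * L + j : ℕ) : ZMod (2 ^ N))‖ ^ 2 else 0 := by
      intro i hi
      rw [← Finset.sum_filter]
      congr 1
      ext j
      rw [mem_range, mem_filter, mem_range]
      have := mem_range.1 hi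
      constructor
      · intro h; exact ⟨by omega, h⟩
      · exact fun h => h.2
    rw [Finset.sum_congr rfl e1, Finset.sum_comm]
    rw [Finset.sum_comm (f := fun (t j : ℕ) => ‖φ (((a * L + j : ℕ) : ZMod (2 ^ N)) +
          (t : ZMod (2 ^ N))) - φ ((a * L + j : ℕ) : ZMod (2 ^ N))‖ ^ 2)]
    apply Finset.sum_le_sum
    intro j hj
    rw [← Finset.sum_filter]
    have e2 : ∑ i ∈ (range L).filter (fun i => j < i),
        ‖φ ((a * L + i : ℕ) : ZMod (2 ^ N)) - φ ((a * L + j : ℕ) : ZMod (2 ^ N))‖ ^ 2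
        = ∑ t ∈ ((range L).filter (fun i => j < i)).image (fun i => i - j),
          ‖φ (((a * L + j : ℕ) : ZMod (2 ^ N)) + (t : ZMod (2 ^ N)))
          - φ ((a * L + j : ℕ) : ZMod (2 ^ N))‖ ^ 2 := by
      rw [Finset.sum_image]
      · apply Finset.sum_congr rfl
        intro i hi
        rw [mem_filter] at hi
        have : (((a * L + j : ℕ) : ZMod (2 ^ N)) + ((i - j : ℕ) : ZMod (2 ^ N)))
            = ((a * L + i : ℕ) : ZMod (2 ^ N)) := by
          rw [← Nat.cast_add]; congr 1; omega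
        rw [this]
      · intro x hx y hy hxy
        simp only [coe_filter, Set.mem_ofPred_eq] at hx hy
        simp only at hxy
        omega
    rw [e2]
    apply Finset.sum_le_sum_of_subset_of_nonneg
    · intro t ht
      rw [mem_image] at ht
      obtain ⟨i, hi, rfl⟩ := ht
      rw [mem_filter, mem_range] at hi
      rw [mem_range]; omega
    · intro t _ _; positivity
  have h4 : ∑ a ∈ range (2 ^ K), ∑ t ∈ range L, ∑ j ∈ range L,
        ‖φ (((a * L + j : ℕ) : ZMod (2 ^ N)) + (t : ZMod (2 ^ N)))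
          - φ ((a * L + j : ℕ) : ZMod (2 ^ N))‖ ^ 2
      = ∑ t ∈ range L, ∑ x : ZMod (2 ^ N), ‖φ (x + (t : ZMod (2 ^ N))) - φ x‖ ^ 2 := by
    rw [Finset.sum_comm]
    apply Finset.sum_congr rfl
    intro t _
    rw [haarA_sum_blocks N K hK]
  have h5 : ∀ t ∈ range L, ∑ x : ZMod (2 ^ N), ‖φ (x + (t : ZMod (2 ^ N))) - φ x‖ ^ 2
      ≤ 2 ^ N * D := by
    intro t ht
    have := hD t (mem_range.1 ht)
    unfold avg at this
    rw [haarA_card, smul_eq_mul, one_div, inv_mul_le_iff₀ h2N] at this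
    exact this
  have h6 : (avg fun x => ‖φ x‖ ^ 2) - hE N K φ ≤ D := by
    rw [h2]
    calc (1 / (2 : ℝ) ^ N) * (1 / L) * ∑ a ∈ range (2 ^ K), ∑ i ∈ range L, ∑ j ∈ range i,
        ‖φ ((a * L + i : ℕ) : ZMod (2 ^ N)) - φ ((a * L + j : ℕ) : ZMod (2 ^ N))‖ ^ 2
        ≤ (1 / (2 : ℝ) ^ N) * (1 / L) * ∑ a ∈ range (2 ^ K), ∑ t ∈ range L, ∑ j ∈ range L,
        ‖φ (((a * L + j : ℕ) : ZMod (2 ^ N)) + (t : ZMod (2 ^ N)))
          - φ ((a * L + j : ℕ) : ZMod (2 ^ N))‖ ^ 2 := by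
          apply mul_le_mul_of_nonneg_left (Finset.sum_le_sum (fun a _ => h3 a)) (by positivity)
      _ ≤ (1 / (2 : ℝ) ^ N) * (1 / L) * ∑ t ∈ range L, (2 ^ N * D) := by
          rw [h4]
          apply mul_le_mul_of_nonneg_left (Finset.sum_le_sum h5) (by positivity)
      _ = D := by
          rw [Finset.sum_const, card_range, nsmul_eq_mul]
          field_simp
  linarith

end Pool.Agent.LibEnt73
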