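import Pool.Agent.LibEnt73.HaarA
import Pool.Agent.LibEnt73.Chars

/-! Task HB: Haar coefficients of trigonometric polynomials in one variable (uses HaarA, Chars). -/

namespace Pool.Agent.LibEnt73

open MeasureTheory ProbabilityTheory Finset

lemma haarB_avg_mono {α : Type*} [Fintype α] {f g : α → ℝ} (h : ∀ x, f x ≤ g x) :
    avg f ≤ avg g := by
  unfold avg
  rw [smul_eq_mul, smul_eq_mul]
  apply mul_le_mul_of_nonneg_left (Finset.sum_le_sum (fun x _ => h x)) (by positivity)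

lemma haarB_ee_nat (N : ℕ) (ξ : ℤ) (j : ℕ) :
    ee N ξ ((j : ℕ) : ZMod (2 ^ N)) =
      Complex.exp (Complex.I * ((2 * Real.pi * ξ * j / 2 ^ N : ℝ) : ℂ)) := by
  unfold ee
  have h1 : ((ξ : ZMod (2 ^ N)) * ((j : ℕ) : ZMod (2 ^ N))) = ((ξ * j : ℤ) : ZMod (2 ^ N)) := by
    push_cast; rfl
  rw [h1, ZMod.stdAddChar_coe]
  congr 1
  push_cast
  ring

lemma haarB_ee_sub_one (N q : ℕ) (ξ : ℤ) (hξ : ξ ∈ Finset.Ioo (-(2 : ℤ) ^ q) (2 ^ q)) (j : ℕ) :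
    ‖ee N ξ ((j : ℕ) : ZMod (2 ^ N)) - 1‖ ≤ 2 * Real.pi * 2 ^ q * j / 2 ^ N := by
  rw [haarB_ee_nat]
  refine le_trans (Real.norm_exp_I_mul_ofReal_sub_one_le) ?_
  rw [Real.norm_eq_abs, abs_div, abs_mul, abs_mul, abs_mul, abs_two, abs_of_pos Real.pi_pos,
    abs_of_nonneg (Nat.cast_nonneg j : (0 : ℝ) ≤ j), abs_of_pos (by positivity : (0 : ℝ) < 2 ^ N)]
  have h1 : |(ξ : ℝ)| ≤ 2 ^ q := by
    rw [mem_Ioo] at hξ
    rw [abs_le]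
    constructor
    · exact_mod_cast hξ.1.le
    · exact_mod_cast hξ.2.le
  have hpi := Real.pi_pos
  gcongr

/-- shift bound -/
theorem shift_bound (N q : ℕ) (hq : q < N) (c : ℤ → ℂ) (j : ℕ) :
    avg (fun x : ZMod (2 ^ N) =>
      ‖(∑ ξ ∈ Finset.Ioo (-(2 : ℤ) ^ q) (2 ^ q), c ξ * ee N ξ (x + j))
        - ∑ ξ ∈ Finset.Ioo (-(2 : ℤ) ^ q) (2 ^ q), c ξ * ee N ξ x‖ ^ 2)
      ≤ (2 * Real.pi * 2 ^ q * j / 2 ^ N) ^ 2 * ∑ ξ ∈ Finset.Ioo (-(2 : ℤ) ^ q) (2 ^ q), ‖c ξ‖ ^ 2 := by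
  have h1 : (fun x : ZMod (2 ^ N) =>
      ‖(∑ ξ ∈ Finset.Ioo (-(2 : ℤ) ^ q) (2 ^ q), c ξ * ee N ξ (x + j))
        - ∑ ξ ∈ Finset.Ioo (-(2 : ℤ) ^ q) (2 ^ q), c ξ * ee N ξ x‖ ^ 2)
      = (fun x : ZMod (2 ^ N) =>
      ‖∑ ξ ∈ Finset.Ioo (-(2 : ℤ) ^ q) (2 ^ q),
        (fun ξ : ℤ => c ξ * (ee N ξ ((j : ℕ) : ZMod (2 ^ N)) - 1)) ξ * ee N ξ x‖ ^ 2) := by
    funext x
    rw [← Finset.sum_sub_distrib]
    congr 2
    apply Finset.sum_congr rfl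
    intro ξ _
    rw [ee_add_right]
    ring
  rw [h1, parseval_one N q hq, Finset.mul_sum]
  apply Finset.sum_le_sum
  intro ξ hξ
  rw [norm_mul, mul_pow, mul_comm]
  apply mul_le_mul_of_nonneg_right _ (by positivity)
  exact pow_le_pow_left₀ (norm_nonneg _) (haarB_ee_sub_one N q ξ hξ j) 2

/-- the energy of level `k` -/
noncomputable def haarB_E (N q : ℕ) (c : ℤ → ℂ) (k : ℕ) : ℝ :=
  (2 : ℝ) ^ k * ∑ a ∈ range (2 ^ k),
      ‖hc N k a (fun x => ∑ ξ ∈ Finset.Ioo (-(2 : ℤ) ^ q) (2 ^ q), c ξ * ee N ξ x)‖ ^ 2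

lemma haarB_E_nonneg (N q : ℕ) (c : ℤ → ℂ) (k : ℕ) : 0 ≤ haarB_E N q c k := by
  unfold haarB_E; positivity

lemma haarB_low (N q K : ℕ) (hq : q < N) (hK : K ≤ N) (c : ℤ → ℂ) :
    ∑ k ∈ range K, haarB_E N q c k ≤ ∑ ξ ∈ Finset.Ioo (-(2 : ℤ) ^ q) (2 ^ q), ‖c ξ‖ ^ 2 := by
  have h1 := haar_telescope N K hK (fun x => ∑ ξ ∈ Finset.Ioo (-(2 : ℤ) ^ q) (2 ^ q), c ξ * ee N ξ x)
  have h2 := hE_le N K hK (fun x => ∑ ξ ∈ Finset.Ioo (-(2 : ℤ) ^ q) (2 ^ q), c ξ * ee N ξ x)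
  rw [parseval_one N q hq] at h2
  have h3 : 0 ≤ ‖avg (fun x : ZMod (2 ^ N) =>
    ∑ ξ ∈ Finset.Ioo (-(2 : ℤ) ^ q) (2 ^ q), c ξ * ee N ξ x)‖ ^ 2 := by positivity
  have h4 : ∑ k ∈ range K, haarB_E N q c k = ∑ k ∈ range K, (2 : ℝ) ^ k * ∑ a ∈ range (2 ^ k),
      ‖hc N k a (fun x => ∑ ξ ∈ Finset.Ioo (-(2 : ℤ) ^ q) (2 ^ q), c ξ * ee N ξ x)‖ ^ 2 := rfl
  linarith

lemma haarB_pi_sq : Real.pi ^ 2 ≤ 10 := by
  have h1 := Real.pi_lt_d2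
  have h2 := Real.pi_pos
  nlinarith

lemma haarB_high (N q k : ℕ) (hq : q < N) (hk : k < N) (hqk : q ≤ k) (c : ℤ → ℂ) :
    haarB_E N q c k ≤ 5 * (1 / 4) ^ (k - q) *
      ∑ ξ ∈ Finset.Ioo (-(2 : ℤ) ^ q) (2 ^ q), ‖c ξ‖ ^ 2 := by
  set C := ∑ ξ ∈ Finset.Ioo (-(2 : ℤ) ^ q) (2 ^ q), ‖c ξ‖ ^ 2 with hC
  have hC0 : 0 ≤ C := by rw [hC]; positivity
  have h1 := haar_diff N k hk (fun x => ∑ ξ ∈ Finset.Ioo (-(2 : ℤ) ^ q) (2 ^ q), c ξ * ee N ξ x)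
  have h2 := shift_bound N q hq c (2 ^ (N - k - 1))
  rw [← hC] at h2
  have h3 : (2 * Real.pi * 2 ^ q * ((2 ^ (N - k - 1) : ℕ) : ℝ) / 2 ^ N) = Real.pi * (1 / 2) ^ (k - q) := by
    have e1 : (2 : ℝ) ^ N = 2 * 2 ^ q * 2 ^ (k - q) * 2 ^ (N - k - 1) := by
      rw [mul_assoc, mul_assoc, ← pow_add, ← pow_add, ← pow_succ']; congr 1; omega
    rw [e1]
    push_cast
    rw [one_div, inv_pow]
    have p1 : (2 : ℝ) ^ q ≠ 0 := by positivity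
    have p2 : (2 : ℝ) ^ (k - q) ≠ 0 := by positivity
    have p3 : (2 : ℝ) ^ (N - k - 1) ≠ 0 := by positivity
    field_simp
  rw [h3] at h2
  have h4 : (Real.pi * (1 / 2) ^ (k - q)) ^ 2 = Real.pi ^ 2 * (1 / 4) ^ (k - q) := by
    rw [mul_pow, ← pow_mul, mul_comm (k - q) 2, pow_mul]; norm_num
  rw [h4] at h2
  have h5 : haarB_E N q c k ≤ (1 / 2) * (Real.pi ^ 2 * (1 / 4) ^ (k - q) * C) := by
    refine le_trans h1 ?_
    exact mul_le_mul_of_nonneg_left h2 (by norm_num)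
  refine le_trans h5 ?_
  have h6 : 0 ≤ (1 / 4 : ℝ) ^ (k - q) * C := by positivity
  have := haarB_pi_sq
  nlinarith

lemma haarB_geom (n : ℕ) : ∑ i ∈ range n, (1 / 2 : ℝ) ^ (i + 1) ≤ 1 := by
  have : ∀ n : ℕ, ∑ i ∈ range n, (1 / 2 : ℝ) ^ (i + 1) = 1 - (1 / 2) ^ n := by
    intro n
    induction n with
    | zero => simp
    | succ n ih => rw [sum_range_succ, ih]; ring
  rw [this]
  have : (0 : ℝ) ≤ (1 / 2) ^ n := by positivity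
  linarith

/-- weighted upper bound -/
theorem haar_upper (N q K : ℕ) (hq : q < N) (hK : K ≤ N) (c : ℤ → ℂ) :
    ∑ k ∈ range K, (2 : ℝ) ^ (k - q) * ((2 : ℝ) ^ k * ∑ a ∈ range (2 ^ k),
      ‖hc N k a (fun x => ∑ ξ ∈ Finset.Ioo (-(2 : ℤ) ^ q) (2 ^ q), c ξ * ee N ξ x)‖ ^ 2)
      ≤ 11 * ∑ ξ ∈ Finset.Ioo (-(2 : ℤ) ^ q) (2 ^ q), ‖c ξ‖ ^ 2 := by
  set C := ∑ ξ ∈ Finset.Ioo (-(2 : ℤ) ^ q) (2 ^ q), ‖c ξ‖ ^ 2 with hC
  have hC0 : 0 ≤ C := by rw [hC]; positivity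
  change ∑ k ∈ range K, (2 : ℝ) ^ (k - q) * haarB_E N q c k ≤ 11 * C
  -- bound the sum over `range N`, split at `q + 1`
  have h0 : ∑ k ∈ range K, (2 : ℝ) ^ (k - q) * haarB_E N q c k
      ≤ ∑ k ∈ range N, (2 : ℝ) ^ (k - q) * haarB_E N q c k := by
    apply Finset.sum_le_sum_of_subset_of_nonneg
    · intro k hk; rw [mem_range] at *; omega
    · intro k _ _
      have := haarB_E_nonneg N q c k
      positivity
  refine le_trans h0 ?_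
  obtain ⟨n, rfl⟩ : ∃ n, N = (q + 1) + n := ⟨N - (q + 1), by omega⟩
  rw [Finset.sum_range_add]
  have h1 : ∑ k ∈ range (q + 1), (2 : ℝ) ^ (k - q) * haarB_E (q + 1 + n) q c k ≤ C := by
    have e : ∀ k ∈ range (q + 1), (2 : ℝ) ^ (k - q) * haarB_E (q + 1 + n) q c k
        = haarB_E (q + 1 + n) q c k := by
      intro k hk
      rw [mem_range] at hk
      rw [Nat.sub_eq_zero_of_le (by omega), pow_zero, one_mul]
    rw [Finset.sum_congr rfl e]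
    exact haarB_low (q + 1 + n) q (q + 1) (by omega) (by omega) c
  have h2 : ∑ i ∈ range n, (2 : ℝ) ^ (q + 1 + i - q) * haarB_E (q + 1 + n) q c (q + 1 + i) ≤ 5 * C := by
    calc ∑ i ∈ range n, (2 : ℝ) ^ (q + 1 + i - q) * haarB_E (q + 1 + n) q c (q + 1 + i)
        ≤ ∑ i ∈ range n, (5 * C) * (1 / 2 : ℝ) ^ (i + 1) := by
          apply Finset.sum_le_sum
          intro i hi
          rw [mem_range] at hi
          have h := haarB_high (q + 1 + n) q (q + 1 + i) (by omega) (by omega) (by omega) c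
          rw [← hC] at h
          have e : q + 1 + i - q = i + 1 := by omega
          rw [e] at h ⊢
          calc (2 : ℝ) ^ (i + 1) * haarB_E (q + 1 + n) q c (q + 1 + i)
              ≤ (2 : ℝ) ^ (i + 1) * (5 * (1 / 4) ^ (i + 1) * C) :=
                mul_le_mul_of_nonneg_left h (by positivity)
            _ = (5 * C) * ((2 : ℝ) ^ (i + 1) * (1 / 4) ^ (i + 1)) := by ring
            _ = (5 * C) * (1 / 2 : ℝ) ^ (i + 1) := by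
                rw [← mul_pow]; norm_num
      _ = (5 * C) * ∑ i ∈ range n, (1 / 2 : ℝ) ^ (i + 1) := by
          rw [← Finset.mul_sum (range n) (fun i => (1 / 2 : ℝ) ^ (i + 1)) (5 * C)]
      _ ≤ (5 * C) * 1 := mul_le_mul_of_nonneg_left (haarB_geom n) (by positivity)
      _ = 5 * C := by ring
  linarith

/-- lower bound (frame property) -/
theorem haar_lower (N q : ℕ) (hq : q + 3 ≤ N) (c : ℤ → ℂ) :
    (1 / 3) * ∑ ξ ∈ Finset.Ioo (-(2 : ℤ) ^ q) (2 ^ q), ‖c ξ‖ ^ 2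
      ≤ ‖avg fun x : ZMod (2 ^ N) => ∑ ξ ∈ Finset.Ioo (-(2 : ℤ) ^ q) (2 ^ q), c ξ * ee N ξ x‖ ^ 2 +
        ∑ k ∈ range (q + 3), (2 : ℝ) ^ k * ∑ a ∈ range (2 ^ k),
          ‖hc N k a (fun x => ∑ ξ ∈ Finset.Ioo (-(2 : ℤ) ^ q) (2 ^ q), c ξ * ee N ξ x)‖ ^ 2 := by
  set C := ∑ ξ ∈ Finset.Ioo (-(2 : ℤ) ^ q) (2 ^ q), ‖c ξ‖ ^ 2 with hC
  have hC0 : 0 ≤ C := by rw [hC]; positivity
  rw [haar_telescope N (q + 3) hq]
  have h1 := hE_diff N (q + 3) hq (fun x => ∑ ξ ∈ Finset.Ioo (-(2 : ℤ) ^ q) (2 ^ q), c ξ * ee N ξ x)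
    ((Real.pi / 4) ^ 2 * C) (by
      intro j hj
      refine le_trans (shift_bound N q (by omega) c j) ?_
      rw [← hC]
      apply mul_le_mul_of_nonneg_right _ hC0
      apply pow_le_pow_left₀ (by positivity)
      have hj' : (j : ℝ) ≤ 2 ^ (N - (q + 3)) := by exact_mod_cast hj.le
      have e1 : (2 : ℝ) ^ N = 8 * (2 ^ q * 2 ^ (N - (q + 3))) := by
        have : (8 : ℝ) = 2 ^ 3 := by norm_num
        rw [this, ← pow_add, ← pow_add]; congr 1; omega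
      rw [e1, div_le_div_iff₀ (by positivity) (by positivity)]
      have hpi := Real.pi_pos
      have : 2 * Real.pi * 2 ^ q * (j : ℝ) ≤ 2 * Real.pi * 2 ^ q * 2 ^ (N - (q + 3)) :=
        mul_le_mul_of_nonneg_left hj' (by positivity)
      nlinarith)
  rw [parseval_one N q (by omega), ← hC] at h1
  refine le_trans ?_ h1
  have h2 := Real.pi_lt_d2
  have h3 := Real.pi_pos
  have h4 : (Real.pi / 4) ^ 2 ≤ 2 / 3 := by nlinarith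
  nlinarith

end Pool.Agent.LibEnt73
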