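import Pool.Agent.LibEnt73.Base

/-! Definitions for the kernel estimates. -/

namespace Pool.Agent.LibEnt73

open Finset

noncomputable section

/-- `∑_{|t| = μ} ∏ (1/4)^{(t_i - τ_i)_+}` -/
def wh (m μ : ℕ) (τ : Fin m → ℕ) : ℝ :=
  ∑ t ∈ Finset.piAntidiag (Finset.univ : Finset (Fin m)) μ, ∏ i, (1 / 4 : ℝ) ^ (t i - τ i)

/-- `∑_{μ ≤ μ' ≤ n'} wh μ'` -/
def Gh (m n' μ : ℕ) (τ : Fin m → ℕ) : ℝ := ∑ μ' ∈ Finset.Icc μ n', wh m μ' τ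

theorem wh_nonneg (m μ : ℕ) (τ : Fin m → ℕ) : 0 ≤ wh m μ τ := by
  unfold wh
  exact Finset.sum_nonneg fun t _ => Finset.prod_nonneg fun i _ => by positivity

/-- Fourier coefficients of the one variable kernel -/
def vh (t : ℕ) (ξ : ℤ) : ℝ := ((2 : ℝ) ^ t)⁻¹ * max 0 ((2 : ℝ) ^ (t + 1) - |(ξ : ℝ)|)

/-- one variable kernel -/
def VV (N t : ℕ) (u : ZMod (2 ^ N)) : ℝ := ((2 : ℝ) ^ t)⁻¹ * ‖∑ j ∈ range (2 ^ (t + 1)), ee N j u‖ ^ 2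

/-- Fourier coefficients of the kernel of size `μ` -/
def Wh (m μ : ℕ) (ξ : Fin m → ℤ) : ℝ :=
  ∑ t ∈ Finset.piAntidiag (Finset.univ : Finset (Fin m)) μ, ∏ i, vh (t i) (ξ i)

/-- kernel of size `μ` -/
def WW (N : ℕ) {m : ℕ} (μ : ℕ) (u : Fin m → ZMod (2 ^ N)) : ℝ :=
  ∑ t ∈ Finset.piAntidiag (Finset.univ : Finset (Fin m)) μ, ∏ i, VV N (t i) (u i)

theorem tau_le (N : ℕ) (u : ZMod (2 ^ N)) : tau N u ≤ N := Nat.sub_le _ _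

theorem VV_nonneg (N t : ℕ) (u : ZMod (2 ^ N)) : 0 ≤ VV N t u := by
  unfold VV; positivity

theorem vh_nonneg (t : ℕ) (ξ : ℤ) : 0 ≤ vh t ξ := by
  unfold vh; positivity

theorem Wh_nonneg (m μ : ℕ) (ξ : Fin m → ℤ) : 0 ≤ Wh m μ ξ :=
  Finset.sum_nonneg fun _ _ => Finset.prod_nonneg fun _ _ => vh_nonneg _ _

theorem WW_nonneg (N m μ : ℕ) (u : Fin m → ZMod (2 ^ N)) : 0 ≤ WW N μ u :=
  Finset.sum_nonneg fun _ _ => Finset.prod_nonneg fun _ _ => VV_nonneg _ _ _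

/-- `κ²` -/
def kap2 (m n' : ℕ) : ℝ := (1 / 10) / (2 ^ n' * 4 ^ m * ((n' : ℝ) + 1) ^ (m - 1))

/-- covariance kernel of level `k` -/
def rk (N : ℕ) {m : ℕ} (n' k : ℕ) (u : Fin m → ZMod (2 ^ N)) : ℝ :=
  kap2 m n' * 2 ^ k * WW N (n' - k) u

/-- `Λ_k` -/
def lam (N : ℕ) {m : ℕ} (n' k : ℕ) (u : Fin m → ZMod (2 ^ N)) : ℝ :=
  ∑ i ∈ range (k + 1), (1 / 2 : ℝ) ^ i * WW N (n' - k + i) u

/-- `β_k` -/
def bet (N : ℕ) {m : ℕ} (n' k : ℕ) (u : Fin m → ZMod (2 ^ N)) : ℝ :=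
  Real.exp (-(1 / 10)) * (Real.sinh (rk N n' k u) *
    (∏ j ∈ range k, (1 + Real.exp (-(1 / 10)) * Real.sinh (rk N n' j u))) - rk N n' k u)

theorem kap2_pos (m n' : ℕ) : 0 < kap2 m n' := by unfold kap2; positivity

theorem rk_nonneg (N m n' k : ℕ) (u : Fin m → ZMod (2 ^ N)) : 0 ≤ rk N n' k u := by
  unfold rk
  have := WW_nonneg N m (n' - k) u
  have := (kap2_pos m n').le
  positivity

end

end Pool.Agent.LibEnt73
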