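import Pool.Agent.LibEnt73.FejerB

/-! Task KE: the kernel estimate (R6) (uses KerSum, FejerA, FejerB). -/

namespace Pool.Agent.LibEnt73

open Finset

theorem rk_zero_le (N m n' k : ℕ) (hm : 1 ≤ m) (hk : k ≤ n') :
    rk N n' k (0 : Fin m → ZMod (2 ^ N)) ≤ 1 / 10 := by
  unfold rk
  have h1 := WW_zero_le N m (n' - k) n' hm (Nat.sub_le _ _)
  have h2 : kap2 m n' * 2 ^ k * (4 ^ m * 2 ^ (n' - k) * ((n' : ℝ) + 1) ^ (m - 1)) = 1 / 10 := by
    have h3 : (2 : ℝ) ^ k * 2 ^ (n' - k) = 2 ^ n' := by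
      rw [← pow_add]; congr 1; omega
    unfold kap2
    rw [← h3]
    have : ((n' : ℝ) + 1) ^ (m - 1) ≠ 0 := by positivity
    field_simp
  rw [← h2]
  have := (kap2_pos m n').le
  gcongr

theorem kerEst_wh_le (m μ n' : ℕ) (hm : 1 ≤ m) (h : μ ≤ n') (τ : Fin m → ℕ) :
    wh m μ τ ≤ ((n' : ℝ) + 1) ^ (m - 1) := by
  refine le_trans ?_ (card_piAntidiag_le m μ n' hm h)
  unfold wh
  calc ∑ t ∈ Finset.piAntidiag (Finset.univ : Finset (Fin m)) μ, ∏ i, (1 / 4 : ℝ) ^ (t i - τ i)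
      ≤ ∑ t ∈ Finset.piAntidiag (Finset.univ : Finset (Fin m)) μ, 1 := by
        refine Finset.sum_le_sum fun t _ => Finset.prod_le_one (fun i _ => by positivity) fun i _ => ?_
        exact pow_le_one₀ (by norm_num) (by norm_num)
    _ = _ := by simp

/-- `rk` in terms of `wh` -/
theorem kerEst_rk_le (N m n' k : ℕ) (hk : k ≤ n') (hN : n' ≤ N) (u : Fin m → ZMod (2 ^ N)) :
    rk N n' k u ≤ (1 / 10) / ((n' : ℝ) + 1) ^ (m - 1) * wh m (n' - k) (fun i => tau N (u i)) := by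
  unfold rk
  have h1 := WW_le N m (n' - k) (by omega) u
  have h2 : kap2 m n' * 2 ^ k * (4 ^ m * 2 ^ (n' - k) * wh m (n' - k) (fun i => tau N (u i)))
      = (1 / 10) / ((n' : ℝ) + 1) ^ (m - 1) * wh m (n' - k) (fun i => tau N (u i)) := by
    have h3 : (2 : ℝ) ^ k * 2 ^ (n' - k) = 2 ^ n' := by
      rw [← pow_add]; congr 1; omega
    unfold kap2
    rw [← h3]
    have : ((n' : ℝ) + 1) ^ (m - 1) ≠ 0 := by positivity
    field_simp
  rw [← h2]
  have := (kap2_pos m n').le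
  gcongr

theorem rk_le (N m n' k : ℕ) (hm : 1 ≤ m) (hk : k ≤ n') (hN : n' ≤ N) (u : Fin m → ZMod (2 ^ N)) :
    rk N n' k u ≤ 1 / 10 := by
  refine (kerEst_rk_le N m n' k hk hN u).trans ?_
  have h1 := kerEst_wh_le m (n' - k) n' hm (Nat.sub_le _ _) (fun i => tau N (u i))
  calc (1 / 10) / ((n' : ℝ) + 1) ^ (m - 1) * wh m (n' - k) (fun i => tau N (u i))
      ≤ (1 / 10) / ((n' : ℝ) + 1) ^ (m - 1) * ((n' : ℝ) + 1) ^ (m - 1) := by gcongr
    _ = 1 / 10 := by
      have : ((n' : ℝ) + 1) ^ (m - 1) ≠ 0 := by positivity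
      field_simp

/-- `sinh ρ ≤ ρ + ρ²` for `0 ≤ ρ ≤ 1` -/
theorem kerEst_sinh_le {ρ : ℝ} (h0 : 0 ≤ ρ) (h1 : ρ ≤ 1) : Real.sinh ρ ≤ ρ + ρ ^ 2 := by
  have h2 := Real.exp_bound_div_one_sub_of_interval (x := ρ) h0
  have h3 : Real.exp ρ ≤ 1 + ρ + ρ ^ 2 := by
    have := Real.abs_exp_sub_one_sub_id_le (x := ρ) (by rw [abs_of_nonneg h0]; exact h1)
    have := (abs_le.1 this).2
    linarith
  have h4 : 1 - ρ ≤ Real.exp (-ρ) := by
    have := Real.add_one_le_exp (-ρ)
    linarith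
  rw [Real.sinh_eq]
  nlinarith

theorem kerEst_sinh_nonneg {ρ : ℝ} (h0 : 0 ≤ ρ) : 0 ≤ Real.sinh ρ := Real.sinh_nonneg_iff.2 h0

/-- pointwise bound of `β_k` -/
theorem bet_le (N m n' k : ℕ) (hm : 1 ≤ m) (hk : k ≤ n') (hN : n' ≤ N) (u : Fin m → ZMod (2 ^ N)) :
    bet N n' k u ≤ 4 * rk N n' k u * (∑ j ∈ range (k + 1), rk N n' j u) *
      Real.exp (2 * ∑ j ∈ range (k + 1), rk N n' j u) := by
  set r : ℕ → ℝ := fun j => rk N n' j u with hr
  have hr0 : ∀ j, 0 ≤ r j := fun j => rk_nonneg N m n' j u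
  have hr1 : ∀ j, j ≤ k → r j ≤ 1 := fun j hj =>
    (rk_le N m n' j hm (hj.trans hk) hN u).trans (by norm_num)
  have hc0 : 0 < Real.exp (-(1 / 10 : ℝ)) := Real.exp_pos _
  have hc1 : Real.exp (-(1 / 10 : ℝ)) ≤ 1 := Real.exp_le_one_iff.2 (by norm_num)
  set c : ℝ := Real.exp (-(1 / 10 : ℝ)) with hc
  set S' : ℝ := ∑ j ∈ range k, r j with hS'
  have hS'0 : 0 ≤ S' := Finset.sum_nonneg fun j _ => hr0 j
  set P : ℝ := ∏ j ∈ range k, (1 + c * Real.sinh (r j)) with hP
  have hPle : P ≤ Real.exp (2 * S') := by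
    rw [hS', Finset.mul_sum, Real.exp_sum]
    refine Finset.prod_le_prod (fun j _ => ?_) fun j hj => ?_
    · have := kerEst_sinh_nonneg (hr0 j)
      positivity
    · have h1 := kerEst_sinh_le (hr0 j) (hr1 j (mem_range.1 hj).le)
      have h2 : c * Real.sinh (r j) ≤ 2 * r j := by
        have h3 := kerEst_sinh_nonneg (hr0 j)
        have h4 := hr1 j (mem_range.1 hj).le
        calc c * Real.sinh (r j) ≤ 1 * Real.sinh (r j) := by gcongr
          _ ≤ 2 * r j := by nlinarith [hr0 j]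
      calc 1 + c * Real.sinh (r j) ≤ 2 * r j + 1 := by linarith
        _ ≤ _ := Real.add_one_le_exp _
  have hPsub : P - 1 ≤ 2 * S' * Real.exp (2 * S') := by
    have h1 := Real.add_one_le_exp (-(2 * S'))
    have h2 : Real.exp (2 * S') * Real.exp (-(2 * S')) = 1 := by rw [← Real.exp_add]; simp
    have h3 := Real.exp_pos (2 * S')
    nlinarith
  have hP1 : 1 ≤ P := by
    rw [hP]
    refine Finset.one_le_prod fun j _ => ?_
    have := kerEst_sinh_nonneg (hr0 j)
    have : 0 ≤ c * Real.sinh (r j) := by positivity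
    linarith
  have hsum : ∑ j ∈ range (k + 1), rk N n' j u = S' + r k := Finset.sum_range_succ _ _
  rw [hsum]
  have hk0 := hr0 k
  have hk1 := hr1 k le_rfl
  have hs1 := kerEst_sinh_le hk0 hk1
  have hs0 := kerEst_sinh_nonneg hk0
  have hE : Real.exp (2 * S') ≤ Real.exp (2 * (S' + r k)) := Real.exp_le_exp.2 (by linarith)
  have hE1 : 1 ≤ Real.exp (2 * (S' + r k)) := Real.one_le_exp (by positivity)
  have hmain : Real.sinh (r k) * P - r k ≤ 4 * r k * (S' + r k) * Real.exp (2 * (S' + r k)) := by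
    have h1 : Real.sinh (r k) * P - r k = Real.sinh (r k) * (P - 1) + (Real.sinh (r k) - r k) := by ring
    rw [h1]
    have h2 : Real.sinh (r k) * (P - 1) ≤ 2 * r k * (2 * S' * Real.exp (2 * (S' + r k))) := by
      have h3 : Real.sinh (r k) ≤ 2 * r k := by nlinarith
      have h4 : P - 1 ≤ 2 * S' * Real.exp (2 * (S' + r k)) := hPsub.trans (by gcongr)
      have h5 : 0 ≤ P - 1 := by linarith
      gcongr
    have h6 : Real.sinh (r k) - r k ≤ 4 * r k * r k * Real.exp (2 * (S' + r k)) := by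
      have : 4 * r k * r k * 1 ≤ 4 * r k * r k * Real.exp (2 * (S' + r k)) := by gcongr
      nlinarith
    nlinarith
  have hnn : 0 ≤ 4 * r k * (S' + r k) * Real.exp (2 * (S' + r k)) := by positivity
  change c * (Real.sinh (r k) * P - r k) ≤ 4 * r k * (S' + r k) * Real.exp (2 * (S' + r k))
  calc c * (Real.sinh (r k) * P - r k)
      ≤ c * (4 * r k * (S' + r k) * Real.exp (2 * (S' + r k))) := by gcongr
    _ ≤ 1 * (4 * r k * (S' + r k) * Real.exp (2 * (S' + r k))) := by gcongr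
    _ = _ := one_mul _

theorem kerEst_Gh_nonneg (m n' μ : ℕ) (τ : Fin m → ℕ) : 0 ≤ Gh m n' μ τ :=
  Finset.sum_nonneg fun _ _ => wh_nonneg _ _ _

/-- `lam` in terms of `Gh` -/
theorem kerEst_lam_le (N m n' k : ℕ) (hk : k ≤ n') (hN : n' ≤ N) (u : Fin m → ZMod (2 ^ N)) :
    lam N n' k u ≤ 4 ^ m * 2 ^ (n' - k) * Gh m n' (n' - k) (fun i => tau N (u i)) := by
  unfold lam Gh
  have h0 : ∑ μ' ∈ Finset.Icc (n' - k) n', wh m μ' (fun i => tau N (u i))
      = ∑ i ∈ range (k + 1), wh m (n' - k + i) (fun i => tau N (u i)) := by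
    rw [← Finset.Ico_add_one_right_eq_Icc, Finset.sum_Ico_eq_sum_range]
    congr 2
    omega
  rw [h0, Finset.mul_sum]
  refine Finset.sum_le_sum fun i hi => ?_
  rw [mem_range] at hi
  have h1 := WW_le N m (n' - k + i) (by omega) u
  calc (1 / 2 : ℝ) ^ i * WW N (n' - k + i) u
      ≤ (1 / 2 : ℝ) ^ i * (4 ^ m * 2 ^ (n' - k + i) * wh m (n' - k + i) (fun i => tau N (u i))) := by
        gcongr
    _ = (((1 / 2 : ℝ) ^ i * 2 ^ i) * (4 ^ m * 2 ^ (n' - k) * wh m (n' - k + i) (fun i => tau N (u i)))) := by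
        rw [pow_add]; ring
    _ = _ := by rw [← mul_pow]; norm_num

/-- sum of `rk` in terms of `Gh` -/
theorem kerEst_sum_rk_le (N m n' k : ℕ) (hk : k ≤ n') (hN : n' ≤ N) (u : Fin m → ZMod (2 ^ N)) :
    ∑ j ∈ range (k + 1), rk N n' j u ≤
      (1 / 10) / ((n' : ℝ) + 1) ^ (m - 1) * Gh m n' (n' - k) (fun i => tau N (u i)) := by
  unfold Gh
  have h0 : ∑ μ' ∈ Finset.Icc (n' - k) n', wh m μ' (fun i => tau N (u i))
      = ∑ j ∈ range (k + 1), wh m (n' - j) (fun i => tau N (u i)) := by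
    rw [← Finset.Ico_add_one_right_eq_Icc, Finset.sum_Ico_eq_sum_range]
    rw [show n' + 1 - (n' - k) = k + 1 by omega]
    rw [← Finset.sum_range_reflect]
    refine Finset.sum_congr rfl fun j hj => ?_
    rw [mem_range] at hj
    congr 1
    omega
  rw [h0, Finset.mul_sum]
  refine Finset.sum_le_sum fun j hj => ?_
  rw [mem_range] at hj
  exact kerEst_rk_le N m n' j (by omega) hN u

/-- summation over the level sets of `tau` -/
theorem kerEst_avg_le (N m : ℕ) (F : (Fin m → ℕ) → ℝ) (hF : ∀ τ, 0 ≤ F τ) :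
    avg (fun u : Fin m → ZMod (2 ^ N) => F (fun i => tau N (u i))) ≤
      ∑ τ : Fin m → Fin (N + 1), (1 / 2 : ℝ) ^ (∑ i, (τ i : ℕ)) * F (fun i => (τ i : ℕ)) := by
  unfold avg
  rw [smul_eq_mul]
  set T : (Fin m → ZMod (2 ^ N)) → (Fin m → Fin (N + 1)) := fun u i =>
    ⟨tau N (u i), Nat.lt_succ_of_le (tau_le N (u i))⟩ with hT
  have h1 : ∑ u : Fin m → ZMod (2 ^ N), F (fun i => tau N (u i))
      = ∑ τ : Fin m → Fin (N + 1), ∑ u ∈ Finset.univ.filter (fun u => T u = τ),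
          F (fun i => tau N (u i)) :=
    (Finset.sum_fiberwise_of_maps_to (fun _ _ => Finset.mem_univ _) _).symm
  rw [h1, Finset.mul_sum]
  refine Finset.sum_le_sum fun τ _ => ?_
  have h2 : ∑ u ∈ Finset.univ.filter (fun u => T u = τ), F (fun i => tau N (u i))
      = ((Finset.univ.filter (fun u => T u = τ)).card : ℝ) * F (fun i => (τ i : ℕ)) := by
    rw [← nsmul_eq_mul, ← Finset.sum_const]
    refine Finset.sum_congr rfl fun u hu => ?_
    rw [mem_filter] at hu
    congr 1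
    funext i
    rw [← hu.2]
  have h3 : (Finset.univ.filter (fun u => T u = τ))
      = Fintype.piFinset fun i => Finset.univ.filter fun v : ZMod (2 ^ N) => tau N v = (τ i : ℕ) := by
    ext u
    simp only [mem_filter, mem_univ, true_and, Fintype.mem_piFinset]
    constructor
    · intro h i
      rw [← h]
    · intro h
      funext i
      exact Fin.ext (h i)
  have h4 : ((Finset.univ.filter (fun u => T u = τ)).card : ℝ) ≤ ∏ i, (2 : ℝ) ^ (N - (τ i : ℕ)) := by
    rw [h3, Fintype.card_piFinset]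
    push_cast
    refine Finset.prod_le_prod (fun i _ => by positivity) fun i _ => ?_
    have := card_tau_le N (τ i : ℕ) (Nat.le_of_lt_succ (τ i).2)
    exact_mod_cast this
  have h5 : (Fintype.card (Fin m → ZMod (2 ^ N)) : ℝ) = ∏ _i : Fin m, (2 : ℝ) ^ N := by
    rw [Fintype.card_fun, ZMod.card, Finset.prod_const, Finset.card_univ]
    push_cast
    rfl
  rw [h2, ← mul_assoc]
  refine mul_le_mul_of_nonneg_right ?_ (hF _)
  rw [h5, one_div, ← Finset.prod_inv_distrib]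
  calc (∏ _i : Fin m, ((2 : ℝ) ^ N)⁻¹) * ((Finset.univ.filter (fun u => T u = τ)).card : ℝ)
      ≤ (∏ _i : Fin m, ((2 : ℝ) ^ N)⁻¹) * ∏ i, (2 : ℝ) ^ (N - (τ i : ℕ)) := by
        refine mul_le_mul_of_nonneg_left h4 (Finset.prod_nonneg fun i _ => by positivity)
    _ = ∏ i : Fin m, (1 / 2 : ℝ) ^ (τ i : ℕ) := by
        rw [← Finset.prod_mul_distrib]
        refine Finset.prod_congr rfl fun i _ => ?_
        have h6 : (2 : ℝ) ^ N = 2 ^ (N - (τ i : ℕ)) * 2 ^ (τ i : ℕ) := by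
          rw [← pow_add]; congr 1
          have := (τ i).2
          omega
        rw [h6, one_div, inv_pow]
        field_simp
    _ = _ := by rw [Finset.prod_pow_eq_pow_sum]

/-- the kernel estimate -/
theorem kernel_estimate (m : ℕ) (hm : 2 ≤ m) : ∃ C : ℝ, 0 < C ∧ ∀ n' N : ℕ, n' ≤ N →
    ∑ k ∈ range (n' + 1), avg (fun u : Fin m → ZMod (2 ^ N) => bet N n' k u * lam N n' k u) ≤ C := by
  obtain ⟨C, hC, hsum⟩ := kernel_sum m (by omega)
  refine ⟨4 ^ (m + 1) * C, by positivity, fun n' N hN => ?_⟩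
  set B : ℝ := ((n' : ℝ) + 1) ^ (m - 1) with hB
  have hB0 : 0 < B := by positivity
  set q : ℝ := (1 / 10) / B with hq
  have hq0 : 0 < q := by positivity
  set F : ℕ → (Fin m → ℕ) → ℝ := fun μ τ =>
    (2 : ℝ) ^ μ * wh m μ τ * Gh m n' μ τ ^ 2 * Real.exp (2 * q * Gh m n' μ τ) with hF
  have hF0 : ∀ μ τ, 0 ≤ F μ τ := fun μ τ => by
    have := wh_nonneg m μ τ
    simp only [hF]
    positivity
  have h1 : ∀ k ∈ range (n' + 1),
      avg (fun u : Fin m → ZMod (2 ^ N) => bet N n' k u * lam N n' k u)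
        ≤ 4 ^ (m + 1) * q ^ 2 * ∑ τ : Fin m → Fin (N + 1), (1 / 2 : ℝ) ^ (∑ i, (τ i : ℕ)) *
            F (n' - k) (fun i => (τ i : ℕ)) := by
    intro k hk
    rw [mem_range] at hk
    have hk' : k ≤ n' := by omega
    have h2 : ∀ u : Fin m → ZMod (2 ^ N), bet N n' k u * lam N n' k u ≤
        4 ^ (m + 1) * q ^ 2 * F (n' - k) (fun i => tau N (u i)) := by
      intro u
      set W := wh m (n' - k) (fun i => tau N (u i)) with hW
      set G := Gh m n' (n' - k) (fun i => tau N (u i)) with hG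
      have hW0 : 0 ≤ W := wh_nonneg _ _ _
      have hG0 : 0 ≤ G := kerEst_Gh_nonneg _ _ _ _
      have hrk0 := rk_nonneg N m n' k u
      have hrk : rk N n' k u ≤ q * W := kerEst_rk_le N m n' k hk' hN u
      have hS : ∑ j ∈ range (k + 1), rk N n' j u ≤ q * G := kerEst_sum_rk_le N m n' k hk' hN u
      have hS0 : 0 ≤ ∑ j ∈ range (k + 1), rk N n' j u :=
        Finset.sum_nonneg fun j _ => rk_nonneg N m n' j u
      have hlam : lam N n' k u ≤ 4 ^ m * 2 ^ (n' - k) * G := kerEst_lam_le N m n' k hk' hN u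
      have hlam0 : 0 ≤ lam N n' k u := by
        unfold lam
        refine Finset.sum_nonneg fun i _ => ?_
        have := WW_nonneg N m (n' - k + i) u
        positivity
      have hbet := bet_le N m n' k (by omega) hk' hN u
      calc bet N n' k u * lam N n' k u
          ≤ (4 * rk N n' k u * (∑ j ∈ range (k + 1), rk N n' j u) *
              Real.exp (2 * ∑ j ∈ range (k + 1), rk N n' j u)) * lam N n' k u := by gcongr
        _ ≤ (4 * (q * W) * (q * G) * Real.exp (2 * (q * G))) * (4 ^ m * 2 ^ (n' - k) * G) := by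
            gcongr
        _ = 4 ^ (m + 1) * q ^ 2 * F (n' - k) (fun i => tau N (u i)) := by
            simp only [hF]
            rw [pow_succ]
            rw [show 2 * (q * G) = 2 * q * G by ring]
            ring
    calc avg (fun u : Fin m → ZMod (2 ^ N) => bet N n' k u * lam N n' k u)
        ≤ avg (fun u : Fin m → ZMod (2 ^ N) =>
            4 ^ (m + 1) * q ^ 2 * F (n' - k) (fun i => tau N (u i))) := by
          unfold avg
          rw [smul_eq_mul, smul_eq_mul]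
          refine mul_le_mul_of_nonneg_left (Finset.sum_le_sum fun u _ => h2 u) (by positivity)
      _ = 4 ^ (m + 1) * q ^ 2 * avg (fun u : Fin m → ZMod (2 ^ N) =>
            F (n' - k) (fun i => tau N (u i))) := by
          unfold avg
          rw [smul_eq_mul, smul_eq_mul, ← Finset.mul_sum]
          ring
      _ ≤ _ := by
          have := kerEst_avg_le N m (F (n' - k)) (hF0 _)
          gcongr
  calc ∑ k ∈ range (n' + 1), avg (fun u : Fin m → ZMod (2 ^ N) => bet N n' k u * lam N n' k u)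
      ≤ ∑ k ∈ range (n' + 1), 4 ^ (m + 1) * q ^ 2 * ∑ τ : Fin m → Fin (N + 1),
          (1 / 2 : ℝ) ^ (∑ i, (τ i : ℕ)) * F (n' - k) (fun i => (τ i : ℕ)) :=
        Finset.sum_le_sum h1
    _ = 4 ^ (m + 1) * q ^ 2 * ∑ μ ∈ range (n' + 1), ∑ τ : Fin m → Fin (N + 1),
          (1 / 2 : ℝ) ^ (∑ i, (τ i : ℕ)) * F μ (fun i => (τ i : ℕ)) := by
        rw [← Finset.mul_sum]
        congr 1
        rw [← Finset.sum_range_reflect]
        refine Finset.sum_congr rfl fun k hk => ?_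
        rw [mem_range] at hk
        rw [show n' - (n' + 1 - 1 - k) = k by omega]
    _ ≤ 4 ^ (m + 1) * q ^ 2 * (C * (((n' : ℝ) + 1) * B)) := by
        have := hsum n' N
        gcongr
    _ ≤ 4 ^ (m + 1) * C := by
        have h3 : (n' : ℝ) + 1 ≤ B := by
          calc (n' : ℝ) + 1 = ((n' : ℝ) + 1) ^ 1 := (pow_one _).symm
            _ ≤ _ := pow_le_pow_right₀ (by linarith [show (0 : ℝ) ≤ n' by positivity]) (by omega)
        have h4 : q ^ 2 * (((n' : ℝ) + 1) * B) ≤ 1 := by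
          calc q ^ 2 * (((n' : ℝ) + 1) * B) ≤ q ^ 2 * (B * B) := by gcongr
            _ = 1 / 100 := by rw [hq]; field_simp; norm_num
            _ ≤ 1 := by norm_num
        calc 4 ^ (m + 1) * q ^ 2 * (C * (((n' : ℝ) + 1) * B))
            = 4 ^ (m + 1) * C * (q ^ 2 * (((n' : ℝ) + 1) * B)) := by ring
          _ ≤ 4 ^ (m + 1) * C * 1 := by gcongr
          _ = _ := mul_one _

end Pool.Agent.LibEnt73
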