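import Pool.Agent.LibEnt73.MWDefs
import Pool.Agent.LibEnt73.FejerB

/-! Task MF: the frame property (uses haar_lower, Wh_ge_one, Chars), cardinality of `Q`. -/

namespace Pool.Agent.LibEnt73

open MeasureTheory ProbabilityTheory Finset

/-! ### averages -/

theorem mwFrame_avg_prod {α β : Type*} [Fintype α] [Fintype β] (f : α → β → ℂ) :
    avg (fun p : α × β => f p.1 p.2) = avg (fun x => avg (fun y => f x y)) := by
  unfold avg
  rw [Fintype.sum_prod_type, Fintype.card_prod, ← Finset.smul_sum, smul_smul]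
  congr 1
  push_cast
  rw [one_div_mul_one_div]

theorem mwFrame_avg_add {α : Type*} [Fintype α] (f g : α → ℂ) :
    avg (fun x => f x + g x) = avg f + avg g := by
  unfold avg
  rw [Finset.sum_add_distrib, smul_add]

theorem mwFrame_avg_smul {α : Type*} [Fintype α] (r : ℝ) (f : α → ℂ) :
    avg (fun x => r • f x) = r • avg f := by
  unfold avg
  rw [← Finset.smul_sum, smul_comm]

theorem mwFrame_avg_mul_left {α : Type*} [Fintype α] (r : ℂ) (f : α → ℂ) :
    avg (fun x => r * f x) = r * avg f := by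
  unfold avg
  rw [← Finset.mul_sum, mul_smul_comm]

theorem mwFrame_avg_sum {α ι : Type*} [Fintype α] (s : Finset ι) (f : ι → α → ℂ) :
    avg (fun x => ∑ i ∈ s, f i x) = ∑ i ∈ s, avg (f i) := by
  unfold avg
  rw [Finset.sum_comm, Finset.smul_sum]

theorem mwFrame_avg_real {α : Type*} [Fintype α] (r : ℝ) (f : α → ℝ) :
    r * avg f = avg (fun x => r * f x) := by
  unfold avg
  rw [← Finset.mul_sum, mul_smul_comm]

theorem mwFrame_avg_re {α : Type*} [Fintype α] (f : α → ℂ) :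
    (avg f).re = avg (fun x => (f x).re) := by
  unfold avg
  rw [Complex.smul_re, Complex.re_sum]

theorem mwFrame_avg_im {α : Type*} [Fintype α] (f : α → ℂ) :
    (avg f).im = avg (fun x => (f x).im) := by
  unfold avg
  rw [Complex.smul_im, Complex.im_sum]

/-! ### linearity in the coefficients -/

theorem mwFrame_fsplit_add {m : ℕ} (N n : ℕ) (c c' : ℤ → (Fin m → ℤ) → ℂ) (x : ZMod (2 ^ N))
    (y : Fin m → ZMod (2 ^ N)) :
    fsplit N n (c + c') x y = fsplit N n c x y + fsplit N n c' x y := by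
  unfold fsplit
  rw [← Finset.sum_add_distrib]
  refine Finset.sum_congr rfl fun η _ => ?_
  rw [← add_mul, ← Finset.sum_add_distrib]
  congr 1
  refine Finset.sum_congr rfl fun ξ _ => ?_
  simp only [Pi.add_apply]
  ring

theorem mwFrame_fsplit_smul {m : ℕ} (N n : ℕ) (r : ℝ) (c : ℤ → (Fin m → ℤ) → ℂ) (x : ZMod (2 ^ N))
    (y : Fin m → ZMod (2 ^ N)) :
    fsplit N n (r • c) x y = r • fsplit N n c x y := by
  unfold fsplit
  rw [Finset.smul_sum]
  refine Finset.sum_congr rfl fun η _ => ?_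
  rw [← smul_mul_assoc, Finset.smul_sum]
  congr 1
  refine Finset.sum_congr rfl fun ξ _ => ?_
  simp only [Pi.smul_apply, smul_mul_assoc]

/-! ### linearity in the Gaussians -/

theorem mwFrame_dot_add {ι : Type*} [Fintype ι] (v w w' : ι → ℝ) :
    dot v (w + w') = dot v w + dot v w' := by
  unfold dot
  rw [← Finset.sum_add_distrib]
  refine Finset.sum_congr rfl fun i _ => ?_
  simp only [Pi.add_apply]
  ring

theorem mwFrame_dot_smul {ι : Type*} [Fintype ι] (v w : ι → ℝ) (r : ℝ) :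
    dot v (r • w) = r * dot v w := by
  unfold dot
  rw [Finset.mul_sum]
  refine Finset.sum_congr rfl fun i _ => ?_
  simp only [Pi.smul_apply, smul_eq_mul]
  ring

theorem mwFrame_gg_add {m n : ℕ} (g g' : GI m n → ℝ) (k a : ℕ) :
    gg (g + g') k a = gg g k a + gg g' k a := by
  funext b
  simp only [gg, Pi.add_apply]
  split_ifs <;> simp

theorem mwFrame_gg_smul {m n : ℕ} (r : ℝ) (g : GI m n → ℝ) (k a : ℕ) :
    gg (r • g) k a = r • gg g k a := by
  funext b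
  simp only [gg, Pi.smul_apply, smul_eq_mul]
  split_ifs <;> simp

theorem mwFrame_Zk_add {m n : ℕ} (g g' : GI m n → ℝ) (k a : ℕ) (y : Fin m → ZMod (2 ^ (n + 4))) :
    Zk (g + g') k a y = Zk g k a y + Zk g' k a y := by
  unfold Zk
  rw [mwFrame_gg_add, mwFrame_dot_add]

theorem mwFrame_Zk_smul {m n : ℕ} (r : ℝ) (g : GI m n → ℝ) (k a : ℕ)
    (y : Fin m → ZMod (2 ^ (n + 4))) :
    Zk (r • g) k a y = r * Zk g k a y := by
  unfold Zk
  rw [mwFrame_gg_smul, mwFrame_dot_smul]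

theorem mwFrame_Y0_add {m n : ℕ} (g g' : GI m n → ℝ) (y : Fin m → ZMod (2 ^ (n + 4))) :
    Y0 (g + g') y = Y0 g y + Y0 g' y := by
  unfold Y0
  rw [← mwFrame_dot_add]
  rfl

theorem mwFrame_Y0_smul {m n : ℕ} (r : ℝ) (g : GI m n → ℝ) (y : Fin m → ZMod (2 ^ (n + 4))) :
    Y0 (r • g) y = r * Y0 g y := by
  unfold Y0
  rw [← mwFrame_dot_smul]
  rfl

/-- the real weight of the pairing -/
noncomputable def mwFrame_wt {m n : ℕ} (g : GI m n → ℝ)
    (p : ZMod (2 ^ (n + 4)) × (Fin m → ZMod (2 ^ (n + 4)))) : ℝ :=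
  (Real.sqrt (kap2 m (n + 2)))⁻¹ *
    (∑ k ∈ range (n + 3), rsgn (n + 4) k p.1 * Zk g k (blk (n + 4) k p.1) p.2) + Y0 g p.2

theorem mwFrame_pairF {m n : ℕ} (g : GI m n → ℝ) (c : ℤ → (Fin m → ℤ) → ℂ) :
    pairF g c = avg (fun p => fsplit (n + 4) n c p.1 p.2 * ((mwFrame_wt g p : ℝ) : ℂ)) := rfl

theorem mwFrame_wt_add {m n : ℕ} (g g' : GI m n → ℝ)
    (p : ZMod (2 ^ (n + 4)) × (Fin m → ZMod (2 ^ (n + 4)))) :
    mwFrame_wt (g + g') p = mwFrame_wt g p + mwFrame_wt g' p := by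
  unfold mwFrame_wt
  simp only [mwFrame_Zk_add, mwFrame_Y0_add, mul_add, Finset.sum_add_distrib]
  ring

theorem mwFrame_wt_smul {m n : ℕ} (r : ℝ) (g : GI m n → ℝ)
    (p : ZMod (2 ^ (n + 4)) × (Fin m → ZMod (2 ^ (n + 4)))) :
    mwFrame_wt (r • g) p = r * mwFrame_wt g p := by
  unfold mwFrame_wt
  simp only [mwFrame_Zk_smul, mwFrame_Y0_smul]
  rw [mul_add]
  congr 1
  rw [mul_left_comm]
  congr 1
  rw [Finset.mul_sum]
  refine Finset.sum_congr rfl fun k _ => ?_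
  ring

theorem mwFrame_pairF_add_right {m n : ℕ} (g : GI m n → ℝ) (c c' : ℤ → (Fin m → ℤ) → ℂ) :
    pairF g (c + c') = pairF g c + pairF g c' := by
  rw [mwFrame_pairF, mwFrame_pairF, mwFrame_pairF, ← mwFrame_avg_add]
  congr 1
  funext p
  rw [mwFrame_fsplit_add]
  ring

theorem mwFrame_pairF_smul_right {m n : ℕ} (r : ℝ) (g : GI m n → ℝ) (c : ℤ → (Fin m → ℤ) → ℂ) :
    pairF g (r • c) = r • pairF g c := by
  rw [mwFrame_pairF, mwFrame_pairF, ← mwFrame_avg_smul]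
  congr 1
  funext p
  rw [mwFrame_fsplit_smul, smul_mul_assoc]

theorem mwFrame_pairF_add_left {m n : ℕ} (g g' : GI m n → ℝ) (c : ℤ → (Fin m → ℤ) → ℂ) :
    pairF (g + g') c = pairF g c + pairF g' c := by
  rw [mwFrame_pairF, mwFrame_pairF, mwFrame_pairF, ← mwFrame_avg_add]
  congr 1
  funext p
  rw [mwFrame_wt_add]
  push_cast
  ring

theorem mwFrame_pairF_smul_left {m n : ℕ} (r : ℝ) (g : GI m n → ℝ) (c : ℤ → (Fin m → ℤ) → ℂ) :
    pairF (r • g) c = r • pairF g c := by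
  rw [mwFrame_pairF, mwFrame_pairF, ← mwFrame_avg_smul]
  congr 1
  funext p
  rw [mwFrame_wt_smul, Complex.real_smul]
  push_cast
  ring

/-- the linear map in the Gaussians -/
noncomputable def mwFrame_lin {m n : ℕ} (c : ℤ → (Fin m → ℤ) → ℂ) : (GI m n → ℝ) →ₗ[ℝ] ℂ where
  toFun g := pairF g c
  map_add' g g' := mwFrame_pairF_add_left g g' c
  map_smul' r g := mwFrame_pairF_smul_left r g c

/-- unit vectors -/
noncomputable def mwFrame_unit {ι : Type*} (i : ι) : ι → ℝ := fun j =>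
  @ite ℝ (j = i) (Classical.propDecidable _) 1 0

theorem mwFrame_unit_self {ι : Type*} (i : ι) : mwFrame_unit i i = 1 := by
  unfold mwFrame_unit
  rw [if_pos rfl]

theorem mwFrame_unit_ne {ι : Type*} {i j : ι} (h : j ≠ i) : mwFrame_unit i j = 0 := by
  unfold mwFrame_unit
  rw [if_neg h]

theorem mwFrame_dot_unit {ι : Type*} [Fintype ι] (v : ι → ℝ) (i : ι) :
    dot v (mwFrame_unit i) = v i := by
  unfold dot
  rw [Finset.sum_eq_single i]
  · rw [mwFrame_unit_self, mul_one]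
  · intro j _ hj
    rw [mwFrame_unit_ne hj, mul_zero]
  · intro h
    exact absurd (Finset.mem_univ i) h

theorem mwFrame_generic {ι : Type*} [Fintype ι] (G : (ι → ℝ) →ₗ[ℝ] ℂ)
    (g : ι → ℝ) : dot (fun i => (G (mwFrame_unit i)).re) g = (G g).re := by
  classical
  have h := LinearMap.pi_apply_eq_sum_univ G g
  have h2 : G g = ∑ i, g i • G (mwFrame_unit i) := by
    rw [h]
    refine Finset.sum_congr rfl fun i _ => ?_
    congr 2
    funext j
    by_cases hj : i = j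
    · subst hj
      rw [if_pos rfl, mwFrame_unit_self]
    · rw [if_neg hj, mwFrame_unit_ne (Ne.symm hj)]
  rw [h2, Complex.re_sum]
  unfold dot
  refine Finset.sum_congr rfl fun i _ => ?_
  rw [Complex.smul_re, smul_eq_mul, mul_comm]

/-- the frame map -/
noncomputable def mwFrame_L (m n : ℕ) : (ℤ → (Fin m → ℤ) → ℂ) →ₗ[ℝ] (GI m n → ℝ) where
  toFun c i := (pairF (mwFrame_unit i) c).re
  map_add' c c' := by
    funext i
    rw [mwFrame_pairF_add_right, Complex.add_re]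
    rfl
  map_smul' r c := by
    funext i
    rw [mwFrame_pairF_smul_right, Complex.smul_re]
    rfl

theorem mwFrame_L_apply (m n : ℕ) (c : ℤ → (Fin m → ℤ) → ℂ) (i : GI m n) :
    mwFrame_L m n c i = (pairF (mwFrame_unit i) c).re := rfl

theorem mwFrame_dot_L {m n : ℕ} (c : ℤ → (Fin m → ℤ) → ℂ) (g : GI m n → ℝ) :
    dot (mwFrame_L m n c) g = (pairF g c).re :=
  mwFrame_generic (mwFrame_lin (m := m) (n := n) c) g

/-! ### the weights of the unit vectors -/

theorem mwFrame_gg_eq {m n : ℕ} (k : Fin (n + 3)) (a : Fin (2 ^ (n + 2))) (b : BB m n) :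
    gg (mwFrame_unit (Sum.inl ((k, a), b) : GI m n)) k.val a.val = mwFrame_unit b := by
  funext b'
  unfold gg
  rw [dif_pos ⟨k.2, a.2⟩]
  by_cases hb : b' = b
  · subst hb
    rw [mwFrame_unit_self]
    exact (mwFrame_unit_self _).symm
  · rw [mwFrame_unit_ne hb, mwFrame_unit_ne]
    intro h
    apply hb
    have := Sum.inl.inj h
    exact (Prod.mk.inj this).2

theorem mwFrame_gg_ne {m n : ℕ} (k : Fin (n + 3)) (a : Fin (2 ^ (n + 2))) (b : BB m n)
    (k' a' : ℕ) (h : ¬ (k' = k.val ∧ a' = a.val)) :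
    gg (mwFrame_unit (Sum.inl ((k, a), b) : GI m n)) k' a' = 0 := by
  funext b'
  unfold gg
  split_ifs with hlt
  · rw [mwFrame_unit_ne]
    · rfl
    · intro heq
      apply h
      have h1 := (Prod.mk.inj (Prod.mk.inj (Sum.inl.inj heq)).1)
      exact ⟨by rw [← h1.1], by rw [← h1.2]⟩
  · rfl

theorem mwFrame_gg_inr {m n : ℕ} (b : B0 m n) (k' a' : ℕ) :
    gg (mwFrame_unit (Sum.inr b : GI m n)) k' a' = 0 := by
  funext b'
  unfold gg
  split_ifs with hlt
  · rw [mwFrame_unit_ne]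
    · rfl
    · intro heq
      exact absurd heq (by simp)
  · rfl

theorem mwFrame_dot_zero {ι : Type*} [Fintype ι] (v : ι → ℝ) : dot v 0 = 0 := by
  unfold dot
  simp

theorem mwFrame_wt_inl {m n : ℕ} (k : Fin (n + 3)) (a : Fin (2 ^ (n + 2))) (b : BB m n)
    (p : ZMod (2 ^ (n + 4)) × (Fin m → ZMod (2 ^ (n + 4)))) :
    mwFrame_wt (mwFrame_unit (Sum.inl ((k, a), b) : GI m n)) p =
      (Real.sqrt (kap2 m (n + 2)))⁻¹ * (rsgn (n + 4) k.val p.1 *
        (if blk (n + 4) k.val p.1 = a.val then Ek m n k.val p.2 b else 0)) := by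
  unfold mwFrame_wt
  have h0 : Y0 (mwFrame_unit (Sum.inl ((k, a), b) : GI m n)) p.2 = 0 := by
    unfold Y0
    have : (fun b' : B0 m n => mwFrame_unit (Sum.inl ((k, a), b) : GI m n) (Sum.inr b')) = 0 := by
      funext b'
      exact mwFrame_unit_ne (by simp)
    rw [this, mwFrame_dot_zero]
  rw [h0, add_zero]
  congr 1
  rw [Finset.sum_eq_single k.val]
  · congr 1
    unfold Zk
    split_ifs with h
    · rw [h, mwFrame_gg_eq, mwFrame_dot_unit]
    · rw [mwFrame_gg_ne _ _ _ _ _ (fun hh => h hh.2), mwFrame_dot_zero]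
  · intro k' _ hk'
    unfold Zk
    rw [mwFrame_gg_ne _ _ _ _ _ (fun hh => hk' hh.1), mwFrame_dot_zero, mul_zero]
  · intro h
    exact absurd (Finset.mem_range.2 k.2) h

theorem mwFrame_wt_inr {m n : ℕ} (b : B0 m n)
    (p : ZMod (2 ^ (n + 4)) × (Fin m → ZMod (2 ^ (n + 4)))) :
    mwFrame_wt (mwFrame_unit (Sum.inr b : GI m n)) p = E0 m n p.2 b := by
  unfold mwFrame_wt
  have h0 : ∀ k a, Zk (mwFrame_unit (Sum.inr b : GI m n)) k a p.2 = 0 := by
    intro k a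
    unfold Zk
    rw [mwFrame_gg_inr, mwFrame_dot_zero]
  have h1 : Y0 (mwFrame_unit (Sum.inr b : GI m n)) p.2 = E0 m n p.2 b := by
    unfold Y0
    have : (fun b' : B0 m n => mwFrame_unit (Sum.inr b : GI m n) (Sum.inr b')) =
        mwFrame_unit b := by
      funext b'
      by_cases hb : b' = b
      · subst hb
        rw [mwFrame_unit_self, mwFrame_unit_self]
      · rw [mwFrame_unit_ne hb, mwFrame_unit_ne]
        intro h
        exact hb (Sum.inr.inj h)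
    rw [this, mwFrame_dot_unit]
  rw [h1]
  simp only [h0, mul_zero, Finset.sum_const_zero, zero_add]

/-! ### evaluation of the coordinates -/

/-- the polynomial in the first variable attached to the frequency `η` -/
noncomputable def mwFrame_phi (n : ℕ) {m : ℕ} (c : ℤ → (Fin m → ℤ) → ℂ) (η : Fin m → ℤ)
    (x : ZMod (2 ^ (n + 4))) : ℂ :=
  ∑ ξ ∈ Finset.Ioo (-(2 : ℤ) ^ (n - tsz η)) (2 ^ (n - tsz η)), c ξ η * ee (n + 4) ξ x

theorem mwFrame_box_of_Q {m n : ℕ} {η : Fin m → ℤ} (h : η ∈ Q m n) : η ∈ box m n := by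
  unfold Q at h
  exact (Finset.mem_filter.1 h).1

theorem mwFrame_avg_fsplit {m n : ℕ} (c : ℤ → (Fin m → ℤ) → ℂ) (w : ZMod (2 ^ (n + 4)) → ℂ)
    (ξ : Fin m → ℤ) (hξ : ξ ∈ Q m n) :
    avg (fun p : ZMod (2 ^ (n + 4)) × (Fin m → ZMod (2 ^ (n + 4))) =>
      fsplit (n + 4) n c p.1 p.2 * w p.1 * (starRingEnd ℂ) (eem (n + 4) ξ p.2)) =
    avg (fun x => w x * mwFrame_phi n c ξ x) := by
  rw [mwFrame_avg_prod (fun x y => fsplit (n + 4) n c x y * w x *
    (starRingEnd ℂ) (eem (n + 4) ξ y))]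
  congr 1
  funext x
  have h1 : (fun y : Fin m → ZMod (2 ^ (n + 4)) => fsplit (n + 4) n c x y * w x *
      (starRingEnd ℂ) (eem (n + 4) ξ y)) =
      fun y => ∑ η ∈ Q m n, (w x * mwFrame_phi n c η x) *
        (eem (n + 4) η y * (starRingEnd ℂ) (eem (n + 4) ξ y)) := by
    funext y
    unfold fsplit mwFrame_phi
    rw [Finset.sum_mul, Finset.sum_mul]
    refine Finset.sum_congr rfl fun η _ => ?_
    ring
  rw [h1, mwFrame_avg_sum]
  have h2 : ∀ η ∈ Q m n, avg (fun y => (w x * mwFrame_phi n c η x) *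
        (eem (n + 4) η y * (starRingEnd ℂ) (eem (n + 4) ξ y))) =
      if η = ξ then w x * mwFrame_phi n c η x else 0 := by
    intro η hη
    rw [mwFrame_avg_mul_left, avg_eem_mul_conj (n + 4) n (by omega) η ξ (mwFrame_box_of_Q hη)
      (mwFrame_box_of_Q hξ)]
    split_ifs <;> simp
  rw [Finset.sum_congr rfl h2, Finset.sum_ite_eq' (Q m n) ξ, if_pos hξ]

/-- for a real function the cosine and sine coordinates give the complex coefficient -/
theorem mwFrame_cos_sin {m n : ℕ} (c : ℤ → (Fin m → ℤ) → ℂ) (hc : RealOn m n c)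
    (w : ZMod (2 ^ (n + 4)) → ℝ) (K : ℝ) (ξ : Fin m → ℤ) :
    (avg (fun p : ZMod (2 ^ (n + 4)) × (Fin m → ZMod (2 ^ (n + 4))) =>
      fsplit (n + 4) n c p.1 p.2 * ((K * w p.1 * (eem (n + 4) ξ p.2).re : ℝ) : ℂ))).re ^ 2 +
    (avg (fun p : ZMod (2 ^ (n + 4)) × (Fin m → ZMod (2 ^ (n + 4))) =>
      fsplit (n + 4) n c p.1 p.2 * ((K * w p.1 * (eem (n + 4) ξ p.2).im : ℝ) : ℂ))).re ^ 2 =
    K ^ 2 * ‖avg (fun p : ZMod (2 ^ (n + 4)) × (Fin m → ZMod (2 ^ (n + 4))) =>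
      fsplit (n + 4) n c p.1 p.2 * (w p.1 : ℂ) * (starRingEnd ℂ) (eem (n + 4) ξ p.2))‖ ^ 2 := by
  set T := avg (fun p : ZMod (2 ^ (n + 4)) × (Fin m → ZMod (2 ^ (n + 4))) =>
      fsplit (n + 4) n c p.1 p.2 * (w p.1 : ℂ) * (starRingEnd ℂ) (eem (n + 4) ξ p.2)) with hT
  have h1 : (avg (fun p : ZMod (2 ^ (n + 4)) × (Fin m → ZMod (2 ^ (n + 4))) =>
      fsplit (n + 4) n c p.1 p.2 * ((K * w p.1 * (eem (n + 4) ξ p.2).re : ℝ) : ℂ))).re =
      K * T.re := by
    rw [hT, mwFrame_avg_re, mwFrame_avg_re, mwFrame_avg_real]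
    congr 1
    funext p
    have := hc p.1 p.2
    simp only [Complex.mul_re, Complex.mul_im, Complex.ofReal_re, Complex.ofReal_im, this,
      Complex.conj_re, Complex.conj_im]
    ring
  have h2 : (avg (fun p : ZMod (2 ^ (n + 4)) × (Fin m → ZMod (2 ^ (n + 4))) =>
      fsplit (n + 4) n c p.1 p.2 * ((K * w p.1 * (eem (n + 4) ξ p.2).im : ℝ) : ℂ))).re =
      (-K) * T.im := by
    rw [hT, mwFrame_avg_re, mwFrame_avg_im, mwFrame_avg_real]
    congr 1
    funext p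
    have := hc p.1 p.2
    simp only [Complex.mul_re, Complex.mul_im, Complex.ofReal_re, Complex.ofReal_im, this,
      Complex.conj_re, Complex.conj_im]
    ring
  rw [h1, h2, ← Complex.normSq_eq_norm_sq, Complex.normSq_apply]
  ring

theorem mwFrame_inl {m n : ℕ} (c : ℤ → (Fin m → ℤ) → ℂ) (hreal : RealOn m n c)
    (k : Fin (n + 3)) (a : Fin (2 ^ (n + 2))) (ξ : ↥(box m (n + 3))) (hξ : (ξ : Fin m → ℤ) ∈ Q m n) :
    ∑ b : Fin 2, mwFrame_L m n c (Sum.inl ((k, a), (ξ, b))) ^ 2 =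
      2 ^ k.val * Wh m (n + 2 - k.val) ξ *
        ‖hc (n + 4) k.val a.val (mwFrame_phi n c ξ)‖ ^ 2 := by
  set w : ZMod (2 ^ (n + 4)) → ℝ := fun x =>
    if blk (n + 4) k.val x = a.val then rsgn (n + 4) k.val x else 0 with hw
  set K : ℝ := (Real.sqrt (kap2 m (n + 2)))⁻¹ *
    Real.sqrt (kap2 m (n + 2) * 2 ^ k.val * Wh m (n + 2 - k.val) ξ) with hK
  have h0 : mwFrame_L m n c (Sum.inl ((k, a), (ξ, 0))) =
      (avg (fun p : ZMod (2 ^ (n + 4)) × (Fin m → ZMod (2 ^ (n + 4))) =>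
      fsplit (n + 4) n c p.1 p.2 * ((K * w p.1 * (eem (n + 4) ξ p.2).re : ℝ) : ℂ))).re := by
    rw [mwFrame_L_apply, mwFrame_pairF]
    congr 2
    funext p
    rw [mwFrame_wt_inl]
    congr 2
    simp only [hw, hK, Ek, if_true]
    split_ifs <;> ring
  have h1 : mwFrame_L m n c (Sum.inl ((k, a), (ξ, 1))) =
      (avg (fun p : ZMod (2 ^ (n + 4)) × (Fin m → ZMod (2 ^ (n + 4))) =>
      fsplit (n + 4) n c p.1 p.2 * ((K * w p.1 * (eem (n + 4) ξ p.2).im : ℝ) : ℂ))).re := by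
    rw [mwFrame_L_apply, mwFrame_pairF]
    congr 2
    funext p
    rw [mwFrame_wt_inl]
    congr 2
    simp only [hw, hK, Ek, one_ne_zero, if_false]
    split_ifs <;> ring
  rw [Fin.sum_univ_two, h0, h1, mwFrame_cos_sin c hreal w K ξ,
    mwFrame_avg_fsplit c (fun x => (w x : ℂ)) ξ hξ]
  have hK2 : K ^ 2 = 2 ^ k.val * Wh m (n + 2 - k.val) ξ := by
    have hp := kap2_pos m (n + 2)
    have hW := Wh_nonneg m (n + 2 - k.val) ξ
    rw [hK, mul_pow, inv_pow, Real.sq_sqrt hp.le, Real.sq_sqrt (by positivity)]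
    field_simp
  rw [hK2]
  congr 3
  unfold hc
  congr 1
  funext x
  simp only [hw]
  split_ifs <;> simp

theorem mwFrame_inr {m n : ℕ} (c : ℤ → (Fin m → ℤ) → ℂ) (hreal : RealOn m n c)
    (ξ : ↥(Q m n)) :
    ∑ b : Fin 2, mwFrame_L m n c (Sum.inr (ξ, b)) ^ 2 =
      ‖avg (mwFrame_phi n c (ξ : Fin m → ℤ))‖ ^ 2 := by
  have h0 : mwFrame_L m n c (Sum.inr (ξ, 0)) =
      (avg (fun p : ZMod (2 ^ (n + 4)) × (Fin m → ZMod (2 ^ (n + 4))) =>
      fsplit (n + 4) n c p.1 p.2 * ((1 * 1 * (eem (n + 4) ξ p.2).re : ℝ) : ℂ))).re := by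
    rw [mwFrame_L_apply, mwFrame_pairF]
    congr 2
    funext p
    rw [mwFrame_wt_inr]
    simp [E0]
  have h1 : mwFrame_L m n c (Sum.inr (ξ, 1)) =
      (avg (fun p : ZMod (2 ^ (n + 4)) × (Fin m → ZMod (2 ^ (n + 4))) =>
      fsplit (n + 4) n c p.1 p.2 * ((1 * 1 * (eem (n + 4) ξ p.2).im : ℝ) : ℂ))).re := by
    rw [mwFrame_L_apply, mwFrame_pairF]
    congr 2
    funext p
    rw [mwFrame_wt_inr]
    simp [E0]
  rw [Fin.sum_univ_two, h0, h1, mwFrame_cos_sin c hreal (fun _ => 1) 1 ξ,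
    mwFrame_avg_fsplit c (fun _ => ((1 : ℝ) : ℂ)) ξ ξ.2]
  simp

theorem frame (m n : ℕ) (hm : 1 ≤ m) : ∃ L : (ℤ → (Fin m → ℤ) → ℂ) →ₗ[ℝ] (GI m n → ℝ),
    (∀ c g, dot (L c) g = (pairF g c).re) ∧
    ∀ c, RealOn m n c → (1 / 3) * csq n c ≤ nsq (L c) := by
  classical
  refine ⟨mwFrame_L m n, fun c g => mwFrame_dot_L c g, fun c hreal => ?_⟩
  -- the energy of one frequency
  have hlow : ∀ ξ ∈ Q m n, (1 / 3) * ∑ ζ ∈ Finset.Ioo (-(2 : ℤ) ^ (n - tsz ξ)) (2 ^ (n - tsz ξ)),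
      ‖c ζ ξ‖ ^ 2 ≤ ‖avg (mwFrame_phi n c ξ)‖ ^ 2 + ∑ k ∈ range (n - tsz ξ + 3), (2 : ℝ) ^ k *
        ∑ a ∈ range (2 ^ k), ‖hc (n + 4) k a (mwFrame_phi n c ξ)‖ ^ 2 := by
    intro ξ _
    exact haar_lower (n + 4) (n - tsz ξ) (by omega) (fun ζ => c ζ ξ)
  have hcsq : (1 / 3) * csq n c ≤ ∑ ξ ∈ Q m n, ‖avg (mwFrame_phi n c ξ)‖ ^ 2 +
      ∑ ξ ∈ Q m n, ∑ k ∈ range (n - tsz ξ + 3), (2 : ℝ) ^ k *
        ∑ a ∈ range (2 ^ k), ‖hc (n + 4) k a (mwFrame_phi n c ξ)‖ ^ 2 := by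
    unfold csq
    rw [Finset.mul_sum, ← Finset.sum_add_distrib]
    exact Finset.sum_le_sum hlow
  refine hcsq.trans ?_
  unfold nsq
  rw [Fintype.sum_sum_type, add_comm]
  refine add_le_add ?_ ?_
  · -- the Haar part
    set G : ℕ → ℕ → (Fin m → ℤ) → ℝ := fun k a ξ =>
      if ξ ∈ Q m n ∧ k < n - tsz ξ + 3 ∧ a < 2 ^ k then
        2 ^ k * ‖hc (n + 4) k a (mwFrame_phi n c ξ)‖ ^ 2 else 0 with hG
    have hG0 : ∀ k a ξ, 0 ≤ G k a ξ := by
      intro k a ξ
      simp only [hG]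
      split_ifs <;> positivity
    have hpt : ∀ (k : Fin (n + 3)) (a : Fin (2 ^ (n + 2))) (ξ : ↥(box m (n + 3))),
        G k.val a.val ξ ≤ ∑ b : Fin 2, mwFrame_L m n c (Sum.inl ((k, a), (ξ, b))) ^ 2 := by
      intro k a ξ
      simp only [hG]
      split_ifs with h
      · rw [mwFrame_inl c hreal k a ξ h.1]
        have hW : 1 ≤ Wh m (n + 2 - k.val) ξ := by
          apply Wh_ge_one m _ hm
          have hq := mem_Q.1 h.1
          have := h.2.1
          omega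
        have h3 : (0 : ℝ) ≤ ‖hc (n + 4) k.val a.val (mwFrame_phi n c ξ)‖ ^ 2 := by positivity
        have h4 : (2 : ℝ) ^ k.val ≤ 2 ^ k.val * Wh m (n + 2 - k.val) ξ := by
          have : (0 : ℝ) < 2 ^ k.val := by positivity
          nlinarith
        exact mul_le_mul_of_nonneg_right h4 h3
      · exact Finset.sum_nonneg fun b _ => sq_nonneg _
    have hR : ∑ i : (Fin (n + 3) × Fin (2 ^ (n + 2))) × BB m n,
        mwFrame_L m n c (Sum.inl i) ^ 2 =
        ∑ k : Fin (n + 3), ∑ a : Fin (2 ^ (n + 2)), ∑ ξ : ↥(box m (n + 3)), ∑ b : Fin 2,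
          mwFrame_L m n c (Sum.inl ((k, a), (ξ, b))) ^ 2 := by
      rw [Fintype.sum_prod_type, Fintype.sum_prod_type]
      refine Finset.sum_congr rfl fun k _ => Finset.sum_congr rfl fun a _ => ?_
      rw [Fintype.sum_prod_type]
    rw [hR]
    have hS : ∑ k : Fin (n + 3), ∑ a : Fin (2 ^ (n + 2)), ∑ ξ : ↥(box m (n + 3)),
        G k.val a.val ξ ≤ ∑ k : Fin (n + 3), ∑ a : Fin (2 ^ (n + 2)), ∑ ξ : ↥(box m (n + 3)),
        ∑ b : Fin 2, mwFrame_L m n c (Sum.inl ((k, a), (ξ, b))) ^ 2 :=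
      Finset.sum_le_sum fun k _ => Finset.sum_le_sum fun a _ => Finset.sum_le_sum fun ξ _ =>
        hpt k a ξ
    refine le_trans ?_ hS
    have hT : ∑ k : Fin (n + 3), ∑ a : Fin (2 ^ (n + 2)), ∑ ξ : ↥(box m (n + 3)),
        G k.val a.val ξ = ∑ ξ ∈ box m (n + 3), ∑ k ∈ range (n + 3), ∑ a ∈ range (2 ^ (n + 2)),
          G k a ξ := by
      have e1 : ∀ k a : ℕ, ∑ ξ : ↥(box m (n + 3)), G k a ξ = ∑ ξ ∈ box m (n + 3), G k a ξ :=
        fun k a => Finset.sum_coe_sort (box m (n + 3)) (fun ξ => G k a ξ)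
      simp only [e1]
      have e2 : ∀ k : ℕ, ∑ a : Fin (2 ^ (n + 2)), ∑ ξ ∈ box m (n + 3), G k a.val ξ =
          ∑ a ∈ range (2 ^ (n + 2)), ∑ ξ ∈ box m (n + 3), G k a ξ :=
        fun k => Fin.sum_univ_eq_sum_range (fun a => ∑ ξ ∈ box m (n + 3), G k a ξ) _
      simp only [e2]
      rw [Fin.sum_univ_eq_sum_range (fun k => ∑ a ∈ range (2 ^ (n + 2)),
        ∑ ξ ∈ box m (n + 3), G k a ξ) (n + 3)]
      rw [Finset.sum_comm' (s := range (n + 3)) (t := fun _ => box m (n + 3))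
        (t' := box m (n + 3)) (s' := fun _ => range (n + 3)) (f := fun k ξ =>
          ∑ a ∈ range (2 ^ (n + 2)), G k a ξ) (by intro x y; tauto) |>.symm]
      refine Finset.sum_congr rfl fun k _ => ?_
      rw [Finset.sum_comm]
    rw [hT]
    have hsub : Q m n ⊆ box m (n + 3) := by
      intro ξ hξ
      unfold box
      rw [Fintype.mem_piFinset]
      intro i
      rw [← sz_le_iff]
      exact ((sz_le_tsz ξ i).trans (mem_Q.1 hξ)).trans (by omega)
    refine le_trans ?_ (Finset.sum_le_sum_of_subset_of_nonneg hsub fun ξ _ _ =>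
      Finset.sum_nonneg fun k _ => Finset.sum_nonneg fun a _ => hG0 k a ξ)
    refine Finset.sum_le_sum fun ξ hξ => ?_
    have hsub2 : range (n - tsz ξ + 3) ⊆ range (n + 3) := Finset.range_subset_range.2 (by omega)
    refine le_trans ?_ (Finset.sum_le_sum_of_subset_of_nonneg hsub2 fun k _ _ =>
      Finset.sum_nonneg fun a _ => hG0 k a ξ)
    refine Finset.sum_le_sum fun k hk => ?_
    have hkn : k ≤ n + 2 := by
      have := Finset.mem_range.1 hk
      omega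
    have hsub3 : range (2 ^ k) ⊆ range (2 ^ (n + 2)) :=
      Finset.range_subset_range.2 (Nat.pow_le_pow_right (by norm_num) hkn)
    refine le_trans ?_ (Finset.sum_le_sum_of_subset_of_nonneg hsub3 fun a _ _ => hG0 k a ξ)
    rw [Finset.mul_sum]
    refine Finset.sum_le_sum fun a ha => ?_
    simp only [hG]
    rw [if_pos ⟨hξ, Finset.mem_range.1 hk, Finset.mem_range.1 ha⟩]
  · rw [Fintype.sum_prod_type]
    rw [← Finset.sum_coe_sort (Q m n) (fun ξ => ‖avg (mwFrame_phi n c ξ)‖ ^ 2)]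
    refine Finset.sum_le_sum fun ξ _ => ?_
    rw [mwFrame_inr c hreal ξ]

/-! ### cardinality of the hyperbolic cross -/

theorem mwFrame_card_sz (t : ℕ) :
    ((Finset.Ioo (-(2 : ℤ) ^ t) (2 ^ t)).filter fun v => sz v = t).card ≤ 2 ^ t := by
  cases t with
  | zero =>
    refine (Finset.card_filter_le _ _).trans ?_
    simp [Int.card_Ioo]
  | succ s =>
    have hsub : (Finset.Ioo (-(2 : ℤ) ^ (s + 1)) (2 ^ (s + 1))).filter (fun v => sz v = s + 1) ⊆
        Finset.Ioo (-(2 : ℤ) ^ (s + 1)) (2 ^ (s + 1)) \ Finset.Ioo (-(2 : ℤ) ^ s) (2 ^ s) := by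
      intro v hv
      rw [Finset.mem_filter] at hv
      rw [Finset.mem_sdiff]
      refine ⟨hv.1, fun h => ?_⟩
      have := sz_le_iff.2 h
      omega
    refine (Finset.card_le_card hsub).trans ?_
    have hss : Finset.Ioo (-(2 : ℤ) ^ s) (2 ^ s) ⊆
        Finset.Ioo (-(2 : ℤ) ^ (s + 1)) (2 ^ (s + 1)) := by
      intro v hv
      rw [← sz_le_iff] at hv ⊢
      omega
    rw [Finset.card_sdiff_of_subset hss, Int.card_Ioo, Int.card_Ioo]
    have h1 : (2 : ℤ) ^ (s + 1) - -(2 : ℤ) ^ (s + 1) - 1 = ((2 * 2 ^ (s + 1) - 1 : ℕ) : ℤ) := by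
      have : 1 ≤ 2 * 2 ^ (s + 1) := by
        have := Nat.one_le_two_pow (n := s + 1)
        omega
      push_cast [Nat.cast_sub this]
      ring
    have h2 : (2 : ℤ) ^ s - -(2 : ℤ) ^ s - 1 = ((2 * 2 ^ s - 1 : ℕ) : ℤ) := by
      have : 1 ≤ 2 * 2 ^ s := by
        have := Nat.one_le_two_pow (n := s)
        omega
      push_cast [Nat.cast_sub this]
      ring
    rw [h1, h2, Int.toNat_natCast, Int.toNat_natCast]
    have h3 : 1 ≤ 2 ^ s := Nat.one_le_two_pow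
    rw [pow_succ]
    omega

theorem mwFrame_card_dQ (m l : ℕ) :
    (dQ m l).card ≤ (Finset.piAntidiag (Finset.univ : Finset (Fin m)) l).card * 2 ^ l := by
  classical
  have hmaps : ∀ ξ ∈ dQ m l, (fun i => sz (ξ i)) ∈
      Finset.piAntidiag (Finset.univ : Finset (Fin m)) l := by
    intro ξ hξ
    rw [Finset.mem_piAntidiag]
    exact ⟨mem_dQ.1 hξ, fun i _ => Finset.mem_univ i⟩
  refine Finset.card_le_mul_card_image_of_maps_to hmaps (2 ^ l) ?_ |>.trans ?_
  · intro t ht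
    have ht' : ∑ i, t i = l := (Finset.mem_piAntidiag.1 ht).1
    have hsub : (dQ m l).filter (fun ξ => (fun i => sz (ξ i)) = t) ⊆
        Fintype.piFinset fun i => (Finset.Ioo (-(2 : ℤ) ^ (t i)) (2 ^ (t i))).filter
          fun v => sz v = t i := by
      intro ξ hξ
      rw [Finset.mem_filter] at hξ
      rw [Fintype.mem_piFinset]
      intro i
      have hi : sz (ξ i) = t i := congrFun hξ.2 i
      rw [Finset.mem_filter, ← sz_le_iff]
      exact ⟨hi.le, hi⟩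
    refine (Finset.card_le_card hsub).trans ?_
    rw [Fintype.card_piFinset]
    refine (Finset.prod_le_prod' fun i _ => mwFrame_card_sz (t i)).trans ?_
    rw [Finset.prod_pow_eq_pow_sum, ht']
  · rw [mul_comm]

theorem card_Q_le (m n : ℕ) (hm : 1 ≤ m) : ((Q m n).card : ℝ) ≤ 2 ^ (n + 1) * ((n : ℝ) + 1) ^ (m - 1) := by
  classical
  have h1 : Q m n ⊆ (range (n + 1)).biUnion fun l => dQ m l := by
    intro ξ hξ
    rw [Finset.mem_biUnion]
    exact ⟨tsz ξ, Finset.mem_range.2 (by have := mem_Q.1 hξ; omega), mem_dQ.2 rfl⟩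
  have h2 : (Q m n).card ≤ ∑ l ∈ range (n + 1), (dQ m l).card :=
    (Finset.card_le_card h1).trans Finset.card_biUnion_le
  have h3 : ((Q m n).card : ℝ) ≤ ∑ l ∈ range (n + 1), ((n : ℝ) + 1) ^ (m - 1) * 2 ^ l := by
    calc ((Q m n).card : ℝ) ≤ ((∑ l ∈ range (n + 1), (dQ m l).card : ℕ) : ℝ) := by exact_mod_cast h2
      _ = ∑ l ∈ range (n + 1), ((dQ m l).card : ℝ) := by push_cast; rfl
      _ ≤ _ := by
        refine Finset.sum_le_sum fun l hl => ?_
        have hl' : l ≤ n := by have := Finset.mem_range.1 hl; omega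
        calc ((dQ m l).card : ℝ)
            ≤ (((Finset.piAntidiag (Finset.univ : Finset (Fin m)) l).card * 2 ^ l : ℕ) : ℝ) := by
              exact_mod_cast mwFrame_card_dQ m l
          _ = ((Finset.piAntidiag (Finset.univ : Finset (Fin m)) l).card : ℝ) * 2 ^ l := by
              push_cast; rfl
          _ ≤ _ := mul_le_mul_of_nonneg_right (card_piAntidiag_le m l n hm hl') (by positivity)
  refine h3.trans ?_
  rw [← Finset.mul_sum, mul_comm]
  refine mul_le_mul_of_nonneg_right ?_ (by positivity)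
  have h4 : ∑ l ∈ range (n + 1), (2 : ℝ) ^ l = 2 ^ (n + 1) - 1 := by
    rw [geom_sum_eq (by norm_num)]
    norm_num
  rw [h4]
  linarith

end Pool.Agent.LibEnt73
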