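import Pool.Agent.LibEnt73.MWDefs
import Pool.Agent.LibEnt73.KerEst

/-! Task MP: the deterministic inequality and the mean part (uses RieszA, RieszB, rk_zero_le). -/

namespace Pool.Agent.LibEnt73

open MeasureTheory ProbabilityTheory Finset

theorem MWPair_avg_add {α E : Type*} [Fintype α] [AddCommMonoid E] [Module ℝ E] (f g : α → E) :
    avg (fun x => f x + g x) = avg f + avg g := by
  unfold avg
  rw [Finset.sum_add_distrib, smul_add]

theorem MWPair_avg_mul_left {α : Type*} [Fintype α] (c : ℂ) (f : α → ℂ) :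
    avg (fun x => c * f x) = c * avg f := by
  unfold avg
  rw [← Finset.mul_sum, mul_smul_comm]

theorem MWPair_norm_avg_le {α : Type*} [Fintype α] (f : α → ℂ) : ‖avg f‖ ≤ avg fun x => ‖f x‖ := by
  unfold avg
  rw [norm_smul, smul_eq_mul, Real.norm_of_nonneg (by positivity)]
  gcongr
  exact norm_sum_le _ _

theorem MWPair_avg_mono {α : Type*} [Fintype α] (f g : α → ℝ) (h : ∀ x, f x ≤ g x) :
    avg f ≤ avg g := by
  unfold avg
  rw [smul_eq_mul, smul_eq_mul]
  gcongr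
  exact h _

theorem MWPair_avg_const {α : Type*} [Fintype α] [Nonempty α] (c : ℝ) : avg (fun _ : α => c) = c := by
  unfold avg
  rw [Finset.sum_const, Finset.card_univ, smul_eq_mul, nsmul_eq_mul]
  have : (Fintype.card α : ℝ) ≠ 0 := by exact_mod_cast Fintype.card_ne_zero
  field_simp

theorem MWPair_avg_prod {α β : Type*} [Fintype α] [Fintype β] (f : α × β → ℝ) :
    avg f = avg fun y => avg fun x => f (x, y) := by
  unfold avg
  simp only [smul_eq_mul]
  rw [Fintype.sum_prod_type_right, Fintype.card_prod, ← Finset.mul_sum, ← mul_assoc]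
  push_cast
  congr 1
  rw [one_div, one_div, one_div, mul_inv, mul_comm]

theorem MWPair_avg_snd {α β : Type*} [Fintype α] [Fintype β] [Nonempty α] (f : β → ℝ) :
    avg (fun p : α × β => f p.2) = avg f := by
  rw [MWPair_avg_prod]
  congr 1
  funext y
  exact MWPair_avg_const (α := α) (f y)

theorem MWPair_avg_sq_le {α : Type*} [Fintype α] [Nonempty α] (f : α → ℝ) :
    (avg f) ^ 2 ≤ avg fun x => f x ^ 2 := by
  unfold avg
  simp only [smul_eq_mul]
  have h := sq_sum_le_card_mul_sum_sq (s := (Finset.univ : Finset α)) (f := f)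
  rw [Finset.card_univ] at h
  have hc : (0 : ℝ) < Fintype.card α := by exact_mod_cast Fintype.card_pos
  rw [mul_pow, one_div]
  calc ((Fintype.card α : ℝ)⁻¹) ^ 2 * (∑ x, f x) ^ 2
      ≤ ((Fintype.card α : ℝ)⁻¹) ^ 2 * ((Fintype.card α : ℝ) * ∑ x, f x ^ 2) := by gcongr
    _ = _ := by field_simp

/-- the Riesz product -/
noncomputable def MWPair_F {m n : ℕ} (g : GI m n → ℝ) (x : ZMod (2 ^ (n + 4)))
    (y : Fin m → ZMod (2 ^ (n + 4))) : ℝ :=
  ∏ k ∈ range (n + 3), (1 + rsgn (n + 4) k x * (al m n k * Real.sin (Zk g k (blk (n + 4) k x) y)))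

theorem MWPair_abs_rsgn (N k : ℕ) (x : ZMod (2 ^ N)) : |rsgn N k x| = 1 := by
  unfold rsgn
  split_ifs <;> simp

theorem MWPair_F_nonneg {m n : ℕ} (hm : 1 ≤ m) (g : GI m n → ℝ) (x : ZMod (2 ^ (n + 4)))
    (y : Fin m → ZMod (2 ^ (n + 4))) : 0 ≤ MWPair_F g x y := by
  unfold MWPair_F
  refine Finset.prod_nonneg fun k hk => ?_
  have hk' : k ≤ n + 2 := by
    have := Finset.mem_range.1 hk; omega
  have hv : vk m n k ≤ 1 / 10 := rk_zero_le (n + 4) m (n + 2) k hm hk'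
  have hal : al m n k ≤ 1 := by
    unfold al
    rw [Real.exp_le_one_iff]; linarith
  have hal0 : 0 ≤ al m n k := (Real.exp_pos _).le
  have h1 : |rsgn (n + 4) k x * (al m n k * Real.sin (Zk g k (blk (n + 4) k x) y))| ≤ 1 := by
    rw [abs_mul, MWPair_abs_rsgn, one_mul, abs_mul, abs_of_nonneg hal0]
    exact mul_le_one₀ hal (abs_nonneg _) (Real.abs_sin_le_one _)
  have := (abs_le.1 h1).1
  linarith

theorem MWPair_F_avg {m n : ℕ} (g : GI m n → ℝ) :
    avg (fun p : ZMod (2 ^ (n + 4)) × (Fin m → ZMod (2 ^ (n + 4))) => MWPair_F g p.1 p.2) = 1 := by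
  rw [MWPair_avg_prod]
  have : (fun y => avg fun x => MWPair_F g (x, y).1 (x, y).2) =
      fun _ : Fin m → ZMod (2 ^ (n + 4)) => (1 : ℝ) := by
    funext y
    exact riesz_avg (n + 4) (n + 3) (by omega)
      (fun k a => al m n k * Real.sin (Zk g k a y))
  rw [this, MWPair_avg_const]

theorem MWPair_F_expand {m n : ℕ} (g : GI m n → ℝ) (x : ZMod (2 ^ (n + 4)))
    (y : Fin m → ZMod (2 ^ (n + 4))) :
    MWPair_F g x y = 1 + (∑ k ∈ range (n + 2 + 1), rsgn (n + 4) k x * Uk g k (blk (n + 4) k x) y)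
      + th * ∑ k ∈ range (n + 3), rsgn (n + 4) k x * Zk g k (blk (n + 4) k x) y := by
  have h := riesz_expand (n + 4) (n + 3) (by omega)
      (fun k a => al m n k * Real.sin (Zk g k a y)) x
  unfold MWPair_F
  rw [h, add_assoc]
  congr 1
  rw [Finset.mul_sum, ← Finset.sum_add_distrib]
  refine Finset.sum_congr rfl fun k _ => ?_
  unfold Uk UU Zk
  simp only [Nat.sub_self, pow_zero, Nat.div_one]
  have h2 : ∏ j ∈ range k, (1 + sg k j (blk (n + 4) k x) *
        (al m n j * Real.sin (dot (Ek m n j y) (gg g j (blk (n + 4) k x / 2 ^ (k - j))))))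
      = ∏ j ∈ range k, (1 + sg k j (blk (n + 4) k x) * al m n j *
        Real.sin (dot (Ek m n j y) (gg g j (blk (n + 4) k x / 2 ^ (k - j))))) := by
    refine Finset.prod_congr rfl fun j _ => ?_
    ring
  rw [h2]
  ring

theorem pair_le (m n : ℕ) (hm : 1 ≤ m) (c : ℤ → (Fin m → ℤ) → ℂ) (hc : RealOn m n c)
    (h1 : ∀ x y, ‖fsplit (n + 4) n c x y‖ ≤ 1) (g : GI m n → ℝ) :
    (pairF g c).re ≤ (Real.sqrt (kap2 m (n + 2)))⁻¹ * th⁻¹ * (2 + Real.sqrt (11 * Rg g)) +
      Real.sqrt (avg fun y => Y0 g y ^ 2) := by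
  have hth : 0 < th := Real.exp_pos _
  set κ : ℝ := (Real.sqrt (kap2 m (n + 2)))⁻¹ with hκ
  have hκ0 : 0 ≤ κ := by positivity
  let f : ZMod (2 ^ (n + 4)) × (Fin m → ZMod (2 ^ (n + 4))) → ℂ := fun p => fsplit (n + 4) n c p.1 p.2
  let P : ZMod (2 ^ (n + 4)) × (Fin m → ZMod (2 ^ (n + 4))) → ℝ := fun p =>
    ∑ k ∈ range (n + 3), rsgn (n + 4) k p.1 * Zk g k (blk (n + 4) k p.1) p.2
  let R : ZMod (2 ^ (n + 4)) × (Fin m → ZMod (2 ^ (n + 4))) → ℝ := fun p =>
    ∑ k ∈ range (n + 2 + 1), rsgn (n + 4) k p.1 * Uk g k (blk (n + 4) k p.1) p.2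
  have hf1 : ∀ p, ‖f p‖ ≤ 1 := fun p => h1 p.1 p.2
  -- the four pieces
  have hF : ‖avg fun p => f p * ((MWPair_F g p.1 p.2 : ℝ) : ℂ)‖ ≤ 1 := by
    refine (MWPair_norm_avg_le _).trans ?_
    rw [← MWPair_F_avg g]
    refine MWPair_avg_mono _ _ fun p => ?_
    rw [norm_mul, Complex.norm_real, Real.norm_of_nonneg (MWPair_F_nonneg hm g _ _)]
    exact mul_le_of_le_one_left (MWPair_F_nonneg hm g _ _) (hf1 p)
  have hone : ‖avg fun p => f p * ((1 : ℝ) : ℂ)‖ ≤ 1 := by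
    refine (MWPair_norm_avg_le _).trans ?_
    have h2 : (1 : ℝ) = avg fun _ : ZMod (2 ^ (n + 4)) × (Fin m → ZMod (2 ^ (n + 4))) => (1 : ℝ) :=
      (MWPair_avg_const _).symm
    refine le_trans (MWPair_avg_mono _ _ fun p => ?_) h2.symm.le
    rw [Complex.ofReal_one, mul_one]
    exact hf1 p
  have hcsq : csq n c ≤ 1 := by
    rw [← parseval_split (n + 4) n (by omega) c]
    have h2 : (1 : ℝ) = avg fun _ : ZMod (2 ^ (n + 4)) × (Fin m → ZMod (2 ^ (n + 4))) => (1 : ℝ) :=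
      (MWPair_avg_const _).symm
    refine le_trans (MWPair_avg_mono _ _ fun p => ?_) h2.symm.le
    exact pow_le_one₀ (norm_nonneg _) (hf1 p)
  have hRg : 0 ≤ Rg g := by
    unfold Rg RR
    positivity
  have hU : ‖avg fun p => f p * ((R p : ℝ) : ℂ)‖ ≤ Real.sqrt (11 * Rg g) := by
    apply Real.le_sqrt_of_sq_le
    have h2 := pairing_bound (N := n + 4) (n := n) (n' := n + 2) (by omega) (by omega) c (Uk g)
    have h3 : (fun p : ZMod (2 ^ (n + 4)) × (Fin m → ZMod (2 ^ (n + 4))) => f p * ((R p : ℝ) : ℂ))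
        = fun p => fsplit (n + 4) n c p.1 p.2 * ∑ k ∈ range (n + 2 + 1),
          ((rsgn (n + 4) k p.1 * Uk g k (blk (n + 4) k p.1) p.2 : ℝ) : ℂ) := by
      funext p
      show fsplit (n + 4) n c p.1 p.2 * ((∑ k ∈ range (n + 2 + 1),
        rsgn (n + 4) k p.1 * Uk g k (blk (n + 4) k p.1) p.2 : ℝ) : ℂ) = _
      rw [Complex.ofReal_sum]
    rw [h3]
    refine h2.trans ?_
    have : RR (n + 4) n (n + 2) (Uk g) = Rg g := rfl
    rw [this]
    have h4 : 11 * csq n c ≤ 11 := by linarith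
    nlinarith
  have hP : ‖avg fun p => f p * ((P p : ℝ) : ℂ)‖ ≤ th⁻¹ * (2 + Real.sqrt (11 * Rg g)) := by
    have h2 : (fun p => f p * ((MWPair_F g p.1 p.2 : ℝ) : ℂ)) =
        fun p => (f p * ((1 : ℝ) : ℂ) + f p * ((R p : ℝ) : ℂ)) + (th : ℂ) * (f p * ((P p : ℝ) : ℂ)) := by
      funext p
      rw [MWPair_F_expand]
      show f p * ((1 + R p + th * P p : ℝ) : ℂ) = _
      push_cast
      ring
    have h3 : avg (fun p => f p * ((MWPair_F g p.1 p.2 : ℝ) : ℂ)) =
        avg (fun p => (f p * ((1 : ℝ) : ℂ) + f p * ((R p : ℝ) : ℂ)) + (th : ℂ) * (f p * ((P p : ℝ) : ℂ))) :=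
      congrArg (fun F : ZMod (2 ^ (n + 4)) × (Fin m → ZMod (2 ^ (n + 4))) → ℂ => avg F) h2
    rw [MWPair_avg_add, MWPair_avg_add, MWPair_avg_mul_left] at h3
    have h4 : (th : ℂ) * avg (fun p => f p * ((P p : ℝ) : ℂ)) =
        avg (fun p => f p * ((MWPair_F g p.1 p.2 : ℝ) : ℂ)) - avg (fun p => f p * ((1 : ℝ) : ℂ))
          - avg (fun p => f p * ((R p : ℝ) : ℂ)) := by
      rw [h3]; ring
    have h5 : th * ‖avg fun p => f p * ((P p : ℝ) : ℂ)‖ ≤ 2 + Real.sqrt (11 * Rg g) := by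
      have h6 : ‖(th : ℂ) * avg (fun p => f p * ((P p : ℝ) : ℂ))‖
          = th * ‖avg fun p => f p * ((P p : ℝ) : ℂ)‖ := by
        rw [norm_mul, Complex.norm_real, Real.norm_of_nonneg hth.le]
      rw [← h6, h4]
      refine (norm_sub_le _ _).trans ?_
      refine (add_le_add (norm_sub_le _ _) le_rfl).trans ?_
      linarith
    rw [inv_mul_eq_div, le_div_iff₀ hth, mul_comm]
    exact h5
  have hY : ‖avg fun p => f p * ((Y0 g p.2 : ℝ) : ℂ)‖ ≤ Real.sqrt (avg fun y => Y0 g y ^ 2) := by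
    refine (MWPair_norm_avg_le _).trans ?_
    apply Real.le_sqrt_of_sq_le
    have h2 : (avg fun y => Y0 g y ^ 2) =
        avg fun p : ZMod (2 ^ (n + 4)) × (Fin m → ZMod (2 ^ (n + 4))) => Y0 g p.2 ^ 2 :=
      (MWPair_avg_snd _).symm
    rw [h2]
    refine (MWPair_avg_sq_le _).trans ?_
    refine MWPair_avg_mono _ _ fun p => ?_
    rw [norm_mul, Complex.norm_real, Real.norm_eq_abs, mul_pow, sq_abs]
    exact mul_le_of_le_one_left (sq_nonneg _) (pow_le_one₀ (norm_nonneg _) (hf1 p))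
  -- assemble
  have hsplit : pairF g c = (κ : ℂ) * avg (fun p => f p * ((P p : ℝ) : ℂ)) +
      avg (fun p => f p * ((Y0 g p.2 : ℝ) : ℂ)) := by
    unfold pairF
    rw [← MWPair_avg_mul_left, ← MWPair_avg_add]
    congr 1
    funext p
    show f p * (((κ * P p + Y0 g p.2 : ℝ)) : ℂ) = _
    push_cast
    ring
  calc (pairF g c).re ≤ ‖pairF g c‖ := Complex.re_le_norm _
    _ ≤ κ * ‖avg (fun p => f p * ((P p : ℝ) : ℂ))‖ + ‖avg (fun p => f p * ((Y0 g p.2 : ℝ) : ℂ))‖ := by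
        rw [hsplit]
        refine (norm_add_le _ _).trans ?_
        rw [norm_mul, Complex.norm_real, Real.norm_of_nonneg hκ0]
    _ ≤ κ * (th⁻¹ * (2 + Real.sqrt (11 * Rg g))) + Real.sqrt (avg fun y => Y0 g y ^ 2) := by
        gcongr
    _ = _ := by ring

/-- coefficient vector of `Y0` in the full index set -/
noncomputable def MWPair_vec (m n : ℕ) (y : Fin m → ZMod (2 ^ (n + 4))) : GI m n → ℝ :=
  Sum.elim (fun _ => 0) (E0 m n y)

theorem MWPair_Y0_eq {m n : ℕ} (g : GI m n → ℝ) (y : Fin m → ZMod (2 ^ (n + 4))) :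
    Y0 g y = dot (MWPair_vec m n y) g := by
  unfold Y0 dot MWPair_vec
  rw [Fintype.sum_sum_type]
  simp

theorem MWPair_nsq_vec (m n : ℕ) (y : Fin m → ZMod (2 ^ (n + 4))) :
    dot (MWPair_vec m n y) (MWPair_vec m n y) = ((Q m n).card : ℝ) := by
  unfold dot MWPair_vec
  rw [Fintype.sum_sum_type]
  simp only [Sum.elim_inl, mul_zero, Finset.sum_const_zero, zero_add, Sum.elim_inr]
  rw [Fintype.sum_prod_type]
  have h : ∀ ξ : ↥(Q m n), ∑ i : Fin 2, E0 m n y (ξ, i) * E0 m n y (ξ, i) = 1 := by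
    intro ξ
    rw [Fin.sum_univ_two]
    unfold E0
    simp only [if_true, one_ne_zero, if_false]
    have h2 := norm_eem (n + 4) (ξ : Fin m → ℤ) y
    have h3 := Complex.sq_norm (eem (n + 4) (ξ : Fin m → ℤ) y)
    rw [h2, Complex.normSq_apply] at h3
    linarith
  rw [Finset.sum_congr rfl fun ξ _ => h ξ]
  simp

theorem integral_Y0 (m n : ℕ) :
    Integrable (fun g : GI m n → ℝ => avg fun y => Y0 g y ^ 2) (gam (GI m n)) ∧
    ∫ g : GI m n → ℝ, (avg fun y => Y0 g y ^ 2) ∂(gam (GI m n)) = ((Q m n).card : ℝ) := by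
  have hint : ∀ y : Fin m → ZMod (2 ^ (n + 4)),
      Integrable (fun g : GI m n → ℝ => Y0 g y ^ 2) (gam (GI m n)) := by
    intro y
    have h := integrable_dot_mul_dot (MWPair_vec m n y) (MWPair_vec m n y)
    refine h.congr (ae_of_all _ fun g => ?_)
    simp only [MWPair_Y0_eq]
    ring
  have hval : ∀ y : Fin m → ZMod (2 ^ (n + 4)),
      ∫ g : GI m n → ℝ, Y0 g y ^ 2 ∂(gam (GI m n)) = ((Q m n).card : ℝ) := by
    intro y
    rw [← MWPair_nsq_vec m n y, ← gam_dot_mul_dot]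
    refine integral_congr_ae (ae_of_all _ fun g => ?_)
    simp only [MWPair_Y0_eq]
    ring
  unfold avg
  simp only [smul_eq_mul]
  constructor
  · exact (integrable_finsetSum _ fun y _ => hint y).const_mul _
  · rw [integral_const_mul, integral_finsetSum _ fun y _ => hint y]
    rw [Finset.sum_congr rfl fun y _ => hval y, Finset.sum_const, Finset.card_univ, nsmul_eq_mul]
    have : (Fintype.card (Fin m → ZMod (2 ^ (n + 4))) : ℝ) ≠ 0 := by exact_mod_cast Fintype.card_ne_zero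
    field_simp

end Pool.Agent.LibEnt73
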