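import Pool.Agent.LibEnt73.MWCov
import Pool.Agent.LibEnt73.MWPair
import Pool.Agent.LibEnt73.MWFrame

/-! Task MM: the mean width theorem. -/

namespace Pool.Agent.LibEnt73

open MeasureTheory ProbabilityTheory Finset

theorem mw_measurePreserving_neg {ι : Type*} [Fintype ι] :
    MeasurePreserving (fun g : ι → ℝ => -g) (gam ι) (gam ι) := by
  have h : ∀ i : ι, MeasurePreserving (fun x : ℝ => -x) (gaussianReal 0 1) (gaussianReal 0 1) := by
    intro i
    refine ⟨measurable_neg, ?_⟩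
    rw [gaussianReal_map_neg, neg_zero]
  exact measurePreserving_pi (fun _ : ι => gaussianReal 0 1) (fun _ => gaussianReal 0 1) h

theorem mw_continuous_gg {m n : ℕ} (k a : ℕ) : Continuous fun g : GI m n → ℝ => gg g k a := by
  refine continuous_pi fun b => ?_
  unfold gg
  split_ifs with h
  · exact continuous_apply _
  · exact continuous_const

theorem mw_continuous_dot {ι X : Type*} [Fintype ι] [TopologicalSpace X] (v : ι → ℝ) (f : X → ι → ℝ)
    (hf : Continuous f) : Continuous fun x => dot v (f x) := by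
  unfold dot
  exact continuous_finsetSum _ fun i _ => continuous_const.mul ((continuous_apply i).comp hf)

theorem mw_continuous_Uk {m n : ℕ} (k a : ℕ) (y : Fin m → ZMod (2 ^ (n + 4))) :
    Continuous fun g : GI m n → ℝ => Uk g k a y := by
  unfold Uk UU
  have h : ∀ j b : ℕ, Continuous fun g : GI m n → ℝ => dot (Ek m n j y) (gg g j b) := fun j b =>
    mw_continuous_dot _ _ (mw_continuous_gg j b)
  refine Continuous.sub ?_ (continuous_const.mul (h _ _))
  refine (continuous_const.mul (Real.continuous_sin.comp (h _ _))).mul ?_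
  refine continuous_finsetProd _ fun j _ => ?_
  exact continuous_const.add (continuous_const.mul (Real.continuous_sin.comp (h _ _)))

theorem mw_continuous_Rg {m n : ℕ} : Continuous fun g : GI m n → ℝ => Rg g := by
  unfold Rg RR avg
  refine continuous_finsetSum _ fun k _ => continuous_finsetSum _ fun η _ => continuous_const.mul ?_
  refine continuous_const.mul (continuous_finsetSum _ fun a _ => ?_)
  refine (Continuous.norm ?_).pow 2
  refine Continuous.const_smul ?_ _
  refine continuous_finsetSum _ fun y _ => ?_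
  exact (Complex.continuous_ofReal.comp (mw_continuous_Uk k a y)).mul continuous_const

theorem mw_continuous_Y0 {m n : ℕ} : Continuous fun g : GI m n → ℝ => avg fun y => Y0 g y ^ 2 := by
  have h : Continuous fun g : GI m n → ℝ => ∑ y, Y0 g y ^ 2 := by
    refine continuous_finsetSum _ fun y _ => ?_
    have h : Continuous fun g : GI m n → ℝ => dot (E0 m n y) (fun b => g (Sum.inr b)) :=
      mw_continuous_dot _ _ (continuous_pi fun b => continuous_apply _)
    exact h.pow 2
  have h2 := h.const_smul (1 / (Fintype.card (Fin m → ZMod (2 ^ (n + 4))) : ℝ))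
  exact h2

theorem mw_Rg_nonneg {m n : ℕ} (g : GI m n → ℝ) : 0 ≤ Rg g := by
  unfold Rg RR
  positivity

theorem mw_Y0_nonneg {m n : ℕ} (g : GI m n → ℝ) : 0 ≤ avg fun y => Y0 g y ^ 2 := by
  unfold avg
  simp only [smul_eq_mul]
  positivity

theorem mw_Y0_neg {m n : ℕ} (g : GI m n → ℝ) : (avg fun y => Y0 (-g) y ^ 2) = avg fun y => Y0 g y ^ 2 := by
  unfold Y0 dot
  congr 1
  funext y
  simp only [Pi.neg_apply, mul_neg, Finset.sum_neg_distrib, neg_sq]

theorem mw_kap (m n : ℕ) : (Real.sqrt (kap2 m (n + 2)))⁻¹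
    ≤ Real.sqrt (40 * 4 ^ m * 3 ^ (m - 1)) * Real.sqrt (2 ^ n * ((n : ℝ) + 1) ^ (m - 1)) := by
  rw [← Real.sqrt_inv, ← Real.sqrt_mul (by positivity)]
  apply Real.sqrt_le_sqrt
  unfold kap2
  rw [one_div, inv_div]
  have h3 : (((n + 2 : ℕ) : ℝ) + 1) ^ (m - 1) ≤ 3 ^ (m - 1) * ((n : ℝ) + 1) ^ (m - 1) := by
    rw [← mul_pow]
    apply pow_le_pow_left₀ (by positivity)
    push_cast; nlinarith [Nat.cast_nonneg (α := ℝ) n]
  have h2 : (2 : ℝ) ^ (n + 2) = 4 * 2 ^ n := by rw [pow_add]; ring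
  rw [h2]
  have : 4 * 2 ^ n * 4 ^ m * (((n + 2 : ℕ) : ℝ) + 1) ^ (m - 1) / (10 : ℝ)⁻¹
      = 40 * 2 ^ n * 4 ^ m * (((n + 2 : ℕ) : ℝ) + 1) ^ (m - 1) := by
    field_simp; ring
  rw [this]
  calc 40 * 2 ^ n * 4 ^ m * (((n + 2 : ℕ) : ℝ) + 1) ^ (m - 1)
      ≤ 40 * 2 ^ n * 4 ^ m * (3 ^ (m - 1) * ((n : ℝ) + 1) ^ (m - 1)) := by gcongr
    _ = _ := by ring

theorem mean_width (m : ℕ) (hm : 2 ≤ m) : ∃ C : ℝ, 0 < C ∧ ∀ n : ℕ,
    ∃ (L : (ℤ → (Fin m → ℤ) → ℂ) →ₗ[ℝ] (GI m n → ℝ)) (S : Set (GI m n → ℝ)),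
      MeasurableSet S ∧ (∀ g ∈ S, -g ∈ S) ∧ 3 / 4 ≤ (gam (GI m n)).real S ∧
      (∀ c, RealOn m n c → (∀ x y, ‖fsplit (n + 4) n c x y‖ ≤ 1) → ∀ g ∈ S,
        dot (L c) g ≤ C * Real.sqrt (2 ^ n * ((n : ℝ) + 1) ^ (m - 1))) ∧
      ∀ c, RealOn m n c → (1 / 3) * csq n c ≤ nsq (L c) := by
  obtain ⟨C, hC, hR⟩ := integral_Rg m hm
  refine ⟨Real.sqrt (40 * 4 ^ m * 3 ^ (m - 1)) * th⁻¹ * (2 + Real.sqrt (11 * (16 * C))) + Real.sqrt 32,
    ?_, fun n => ?_⟩
  · have : 0 < th := Real.exp_pos _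
    positivity
  obtain ⟨L, hL1, hL2⟩ := frame m n (by omega)
  set q : ℝ := ((Q m n).card : ℝ) with hq
  have hq0 : 0 < q := by
    have : (0 : Fin m → ℤ) ∈ Q m n := by
      rw [mem_Q]; simp [tsz, sz]
    rw [hq]
    exact_mod_cast Finset.card_pos.2 ⟨_, this⟩
  let S : Set (GI m n → ℝ) :=
    {g | Rg g < 16 * C ∧ Rg (-g) < 16 * C ∧ (avg fun y => Y0 g y ^ 2) < 16 * q}
  have hneg : Continuous fun g : GI m n → ℝ => -g := continuous_neg
  have hS : MeasurableSet S := by
    refine MeasurableSet.inter ?_ (MeasurableSet.inter ?_ ?_)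
    · exact measurableSet_lt mw_continuous_Rg.measurable measurable_const
    · exact measurableSet_lt (mw_continuous_Rg.comp hneg).measurable measurable_const
    · exact measurableSet_lt mw_continuous_Y0.measurable measurable_const
  refine ⟨L, S, hS, ?_, ?_, ?_, hL2⟩
  · rintro g ⟨h1, h2, h3⟩
    exact ⟨h2, by simpa using h1, by rw [mw_Y0_neg]; exact h3⟩
  · -- measure
    have e1 : (gam (GI m n)).real {g | 16 * C ≤ Rg g} ≤ 1 / 16 := by
      have h := mul_meas_ge_le_integral_of_nonneg (μ := gam (GI m n)) (f := fun g => Rg g)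
        (ae_of_all _ fun g => mw_Rg_nonneg g) (hR n).1 (16 * C)
      have h' := h.trans (hR n).2
      have : (gam (GI m n)).real {g | 16 * C ≤ Rg g} * (16 * C) ≤ C := by
        rw [mul_comm]; exact h'
      rw [le_div_iff₀ (by norm_num)]
      nlinarith [measureReal_nonneg (μ := gam (GI m n)) (s := {g | 16 * C ≤ Rg g})]
    have e2 : (gam (GI m n)).real {g | 16 * C ≤ Rg (-g)} ≤ 1 / 16 := by
      have hmp := mw_measurePreserving_neg (ι := GI m n)
      have hmeas : MeasurableSet {g : GI m n → ℝ | 16 * C ≤ Rg g} :=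
        measurableSet_le measurable_const mw_continuous_Rg.measurable
      have : (gam (GI m n)) {g | 16 * C ≤ Rg (-g)} = (gam (GI m n)) {g | 16 * C ≤ Rg g} :=
        hmp.measure_preimage hmeas.nullMeasurableSet
      unfold Measure.real at e1 ⊢
      rw [this]; exact e1
    have e3 : (gam (GI m n)).real {g | 16 * q ≤ (avg fun y => Y0 g y ^ 2)} ≤ 1 / 16 := by
      have h := mul_meas_ge_le_integral_of_nonneg (μ := gam (GI m n))
        (f := fun g => avg fun y => Y0 g y ^ 2)
        (ae_of_all _ fun g => mw_Y0_nonneg g) (integral_Y0 m n).1 (16 * q)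
      rw [(integral_Y0 m n).2] at h
      rw [le_div_iff₀ (by norm_num)]
      nlinarith [measureReal_nonneg (μ := gam (GI m n)) (s := {g | 16 * q ≤ (avg fun y => Y0 g y ^ 2)})]
    have hcompl : Sᶜ ⊆ {g | 16 * C ≤ Rg g} ∪ ({g | 16 * C ≤ Rg (-g)} ∪
        {g | 16 * q ≤ (avg fun y => Y0 g y ^ 2)}) := by
      intro g hg
      by_contra hcon
      simp only [Set.mem_union, Set.mem_ofPred_eq, not_or, not_le] at hcon
      exact hg ⟨hcon.1, hcon.2.1, hcon.2.2⟩
    have hle : (gam (GI m n)).real Sᶜ ≤ 3 / 16 := by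
      refine (measureReal_mono hcompl).trans ?_
      refine (measureReal_union_le _ _).trans ?_
      have := measureReal_union_le (μ := gam (GI m n)) {g | 16 * C ≤ Rg (-g)}
        {g | 16 * q ≤ (avg fun y => Y0 g y ^ 2)}
      linarith
    have htot : (gam (GI m n)).real S + (gam (GI m n)).real Sᶜ = 1 := by
      rw [measureReal_add_measureReal_compl hS]; simp
    linarith
  · intro c hc h1 g hg
    rw [hL1]
    refine (pair_le m n (by omega) c hc h1 g).trans ?_
    rw [add_mul]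
    refine add_le_add ?_ ?_
    · have hth : 0 < th := Real.exp_pos _
      calc (Real.sqrt (kap2 m (n + 2)))⁻¹ * th⁻¹ * (2 + Real.sqrt (11 * Rg g))
          ≤ (Real.sqrt (40 * 4 ^ m * 3 ^ (m - 1)) * Real.sqrt (2 ^ n * ((n : ℝ) + 1) ^ (m - 1))) *
              th⁻¹ * (2 + Real.sqrt (11 * (16 * C))) := by
            gcongr
            · exact mw_kap m n
            · exact hg.1.le
        _ = _ := by ring
    · rw [← Real.sqrt_mul (by norm_num)]
      apply Real.sqrt_le_sqrt
      refine hg.2.2.le.trans ?_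
      have := card_Q_le m n (by omega)
      rw [hq]
      calc 16 * ((Q m n).card : ℝ) ≤ 16 * (2 ^ (n + 1) * ((n : ℝ) + 1) ^ (m - 1)) := by gcongr
        _ = 32 * (2 ^ n * ((n : ℝ) + 1) ^ (m - 1)) := by rw [pow_succ]; ring

end Pool.Agent.LibEnt73
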