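import Pool.Agent.LibEnt73.GaussShift
import Pool.Agent.LibEnt73.GaussBasic

/-! Task GE: colourings from separated sets; Sudakov inequality. -/

namespace Pool.Agent.LibEnt73

open MeasureTheory ProbabilityTheory Finset

/-- If every finite pairwise `¬ close` subset of `A` has at most `K` points, there is a colouring with
`K` colours such that points of `A` with the same colour are both close to a common centre in `A`. -/
theorem exists_colouring {V : Type*} (A : Set V) (hA : A.Nonempty) (close : V → V → Prop)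
    (hrefl : ∀ v, close v v) (K : ℕ)
    (hK : ∀ F : Finset V, (∀ x ∈ F, x ∈ A) → (∀ x ∈ F, ∀ y ∈ F, x ≠ y → ¬ close x y) → F.card ≤ K) :
    ∃ (χ : V → Fin K) (z : Fin K → V), (∀ i, z i ∈ A) ∧ ∀ v ∈ A, close v (z (χ v)) ∨ close (z (χ v)) v := by
  classical
  obtain ⟨a0, ha0⟩ := hA
  let sep : Finset V → Prop := fun F =>
    (∀ x ∈ F, x ∈ A) ∧ (∀ x ∈ F, ∀ y ∈ F, x ≠ y → ¬ close x y)
  let Pn : ℕ → Prop := fun n => ∃ F : Finset V, sep F ∧ F.card = n
  have hsing : sep {a0} := by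
    refine ⟨fun x hx => ?_, fun x hx y hy hxy => ?_⟩
    · rw [Finset.mem_singleton] at hx; rw [hx]; exact ha0
    · rw [Finset.mem_singleton] at hx hy; exact absurd (hx.trans hy.symm) hxy
  have hK1 : 1 ≤ K := by
    have := hK {a0} hsing.1 hsing.2
    simpa using this
  have hP1 : Pn 1 := ⟨{a0}, hsing, by simp⟩
  have hspec := Nat.findGreatest_spec (P := Pn) hK1 hP1
  set M := Nat.findGreatest Pn K with hM
  obtain ⟨F, hF, hFM⟩ := hspec
  have hmax : ∀ F' : Finset V, sep F' → F'.card ≤ M := by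
    intro F' hF'
    exact Nat.le_findGreatest (hK F' hF'.1 hF'.2) ⟨F', hF', rfl⟩
  have hcov : ∀ v ∈ A, ∃ x ∈ F, close v x ∨ close x v := by
    intro v hv
    by_contra hcon
    push Not at hcon
    have hvF : v ∉ F := fun h => (hcon v h).1 (hrefl v)
    have h1 : sep (insert v F) := by
      refine ⟨fun x hx => ?_, fun x hx y hy hxy => ?_⟩
      · rw [Finset.mem_insert] at hx
        rcases hx with rfl | hx
        · exact hv
        · exact hF.1 x hx
      · rw [Finset.mem_insert] at hx hy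
        rcases hx with rfl | hx <;> rcases hy with rfl | hy
        · exact absurd rfl hxy
        · exact (hcon y hy).1
        · exact (hcon x hx).2
        · exact hF.2 x hx y hy hxy
    have h2 := hmax _ h1
    rw [Finset.card_insert_of_notMem hvF, hFM] at h2
    omega
  have hFK : F.card ≤ K := hK F hF.1 hF.2
  let e := F.equivFin
  let z : Fin K → V := fun i => if h : (i : ℕ) < F.card then (e.symm ⟨i, h⟩ : V) else a0
  let c : V → V := fun v => if h : v ∈ A then (hcov v h).choose else a0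
  let χ : V → Fin K := fun v =>
    if h : c v ∈ F then ⟨e ⟨c v, h⟩, lt_of_lt_of_le (e ⟨c v, h⟩).2 hFK⟩ else ⟨0, hK1⟩
  refine ⟨χ, z, fun i => ?_, fun v hv => ?_⟩
  · simp only [z]
    split_ifs with h
    · exact hF.1 _ (e.symm ⟨i, h⟩).2
    · exact ha0
  · have hc : c v = (hcov v hv).choose := by simp only [c, dif_pos hv]
    obtain ⟨h1, h2⟩ := (hcov v hv).choose_spec
    rw [← hc] at h1 h2
    have h3 : z (χ v) = c v := by
      have h4 : ((χ v : Fin K) : ℕ) = (e ⟨c v, h1⟩ : ℕ) := by simp only [χ, dif_pos h1]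
      have h5 : ((χ v : Fin K) : ℕ) < F.card := by rw [h4]; exact (e ⟨c v, h1⟩).2
      simp only [z, dif_pos h5]
      have h6 : (⟨((χ v : Fin K) : ℕ), h5⟩ : Fin F.card) = e ⟨c v, h1⟩ := Fin.ext h4
      rw [h6, Equiv.symm_apply_apply]
    rw [h3]
    exact h2

variable {ι : Type*} [Fintype ι]

lemma Sudakov_dot_neg (a v : ι → ℝ) : dot (-a) v = -dot a v := by
  simp [dot, Finset.sum_neg_distrib]

lemma Sudakov_dot_smul_left (c : ℝ) (a v : ι → ℝ) : dot (c • a) v = c * dot a v := by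
  simp [dot, Finset.mul_sum, mul_assoc]

lemma Sudakov_dot_smul_right (c : ℝ) (a v : ι → ℝ) : dot a (c • v) = c * dot a v := by
  simp only [dot, Finset.mul_sum, Pi.smul_apply, smul_eq_mul]
  exact Finset.sum_congr rfl fun i _ => by ring

lemma Sudakov_dot_sub_right (a v w : ι → ℝ) : dot a (v - w) = dot a v - dot a w := by
  simp [dot, mul_sub, Finset.sum_sub_distrib]

lemma Sudakov_dot_self (v : ι → ℝ) : dot v v = nsq v := by
  simp only [dot, nsq]
  exact Finset.sum_congr rfl fun i _ => by ring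

lemma Sudakov_nsq_smul (c : ℝ) (v : ι → ℝ) : nsq (c • v) = c ^ 2 * nsq v := by
  simp only [nsq, Finset.mul_sum, Pi.smul_apply, smul_eq_mul]
  exact Finset.sum_congr rfl fun i _ => by ring

lemma Sudakov_nsq_nonneg (v : ι → ℝ) : 0 ≤ nsq v := Finset.sum_nonneg fun _ _ => sq_nonneg _

lemma Sudakov_nsq_sub_le (v w : ι → ℝ) : nsq (v - w) ≤ 2 * nsq v + 2 * nsq w := by
  simp only [nsq, Finset.mul_sum, ← Finset.sum_add_distrib]
  refine Finset.sum_le_sum fun i _ => ?_
  rw [Pi.sub_apply]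
  nlinarith [sq_nonneg (v i + w i)]

lemma Sudakov_measurable_dot (a : ι → ℝ) : Measurable (fun g : ι → ℝ => dot a g) := by
  unfold dot
  exact Finset.measurable_sum _ fun i _ => (measurable_pi_apply i).const_mul _

/-- radius bound -/
theorem radius_bound (v : ι → ℝ) (S : Set (ι → ℝ)) (hS : MeasurableSet S)
    (hγ : 3 / 4 ≤ (gam ι).real S) (A0 : ℝ) (hA0 : 0 < A0) (h : ∀ g ∈ S, |dot v g| ≤ A0) :
    nsq v ≤ 8 * A0 ^ 2 := by
  have h1 := gam_cos ((1 / (2 * A0)) • v)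
  rw [Sudakov_nsq_smul] at h1
  have hint : Integrable (fun g => Real.cos (dot ((1 / (2 * A0)) • v) g)) (gam ι) := by
    refine (integrable_const (1 : ℝ)).mono' ?_ ?_
    · exact (Real.continuous_cos.measurable.comp (Sudakov_measurable_dot _)).aestronglyMeasurable
    · exact Filter.Eventually.of_forall fun g => by
        rw [Real.norm_eq_abs]; exact Real.abs_cos_le_one _
  have hlow : ∫ g, (S.indicator (fun _ => (15 / 8 : ℝ)) g - 1) ∂(gam ι) ≤
      ∫ g, Real.cos (dot ((1 / (2 * A0)) • v) g) ∂(gam ι) := by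
    apply integral_mono
    · exact ((integrable_const _).indicator hS).sub (integrable_const _)
    · exact hint
    · intro g
      simp only
      by_cases hg : g ∈ S
      · rw [Set.indicator_of_mem hg]
        have h2 := h g hg
        rw [Sudakov_dot_smul_left]
        have h3 : |1 / (2 * A0) * dot v g| ≤ 1 / 2 := by
          rw [abs_mul, abs_of_pos (by positivity)]
          calc 1 / (2 * A0) * |dot v g| ≤ 1 / (2 * A0) * A0 := by gcongr
            _ = 1 / 2 := by field_simp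
        have h4 := Real.one_sub_sq_div_two_le_cos (x := 1 / (2 * A0) * dot v g)
        have h5 : (1 / (2 * A0) * dot v g) ^ 2 ≤ 1 / 4 := by
          rw [← sq_abs]
          nlinarith [abs_nonneg (1 / (2 * A0) * dot v g)]
        linarith
      · rw [Set.indicator_of_notMem hg]
        have := Real.neg_one_le_cos (dot ((1 / (2 * A0)) • v) g)
        linarith
  rw [integral_sub ((integrable_const _).indicator hS) (integrable_const _),
    integral_indicator hS, setIntegral_const, integral_const, h1] at hlow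
  simp only [probReal_univ, smul_eq_mul, mul_one] at hlow
  by_contra hcon
  push Not at hcon
  have h6 : Real.exp (-((1 / (2 * A0)) ^ 2 * nsq v) / 2) ≤ Real.exp (-1) := by
    apply Real.exp_le_exp.2
    have h7 : (1 / (2 * A0)) ^ 2 * nsq v ≥ (1 / (2 * A0)) ^ 2 * (8 * A0 ^ 2) := by gcongr
    have h8 : (1 / (2 * A0)) ^ 2 * (8 * A0 ^ 2) = 2 := by field_simp; norm_num
    linarith
  have h9 : Real.exp (-1) < 0.3678794412 := Real.exp_neg_one_lt_d9
  have h10 : (45 / 32 : ℝ) ≤ (gam ι).real S * (15 / 8) := by linarith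
  norm_num at h9
  linarith

lemma Sudakov_base (A : Set (ι → ℝ)) (hsymmA : ∀ a ∈ A, -a ∈ A)
    (S : Set (ι → ℝ)) (hS : MeasurableSet S)
    (hγ : 3 / 4 ≤ (gam ι).real S) (A0 : ℝ) (hA0 : 0 < A0)
    (hA : ∀ g ∈ S, ∀ a ∈ A, dot a g ≤ A0) (ε : ℝ) (hε : 6 * A0 ≤ ε) :
    ∀ a ∈ A, ∀ b ∈ A, nsq (a - b) ≤ ε ^ 2 := by
  have hr : ∀ a ∈ A, nsq a ≤ 8 * A0 ^ 2 := by
    intro a ha
    refine radius_bound a S hS hγ A0 hA0 fun g hg => ?_
    rw [abs_le]
    have h1 := hA g hg (-a) (hsymmA a ha)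
    rw [Sudakov_dot_neg] at h1
    exact ⟨by linarith, hA g hg a ha⟩
  intro a ha b hb
  have h1 := Sudakov_nsq_sub_le a b
  have h2 := hr a ha
  have h3 := hr b hb
  nlinarith

lemma Sudakov_step (A : Set (ι → ℝ)) (hsymmA : ∀ a ∈ A, -a ∈ A)
    (hconv : ∀ a ∈ A, ∀ b ∈ A, (1 / 2 : ℝ) • (a + b) ∈ A)
    (S : Set (ι → ℝ)) (hS : MeasurableSet S)
    (hsymm : ∀ g ∈ S, -g ∈ S) (hγ : 3 / 4 ≤ (gam ι).real S) (A0 : ℝ) (hA0 : 0 < A0)
    (hA : ∀ g ∈ S, ∀ a ∈ A, dot a g ≤ A0) (ε : ℝ) (hε : 0 < ε)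
    (K1 : ℕ) (χ1 : (ι → ℝ) → Fin K1)
    (h1 : ∀ a ∈ A, ∀ b ∈ A, χ1 a = χ1 b → nsq (a - b) ≤ (2 * ε) ^ 2) :
    ∃ (K : ℕ) (χ : (ι → ℝ) → Fin K), (K : ℝ) ≤ K1 * (2 * Real.exp (128 * (A0 / ε) ^ 2)) ∧
      ∀ a ∈ A, ∀ b ∈ A, χ a = χ b → nsq (a - b) ≤ ε ^ 2 := by
  classical
  let P : ℝ → (ι → ℝ) → Prop := fun s v => ∀ a ∈ A, dot a v ≤ s
  have hP2 : ∀ s t v w, P s v → P t w → P (s + t) (v - w) := by
    intro s t v w hv hw a ha
    rw [Sudakov_dot_sub_right]
    have h2 := hv a ha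
    have h3 := hw (-a) (hsymmA a ha)
    rw [Sudakov_dot_neg] at h3
    linarith
  have hP3 : ∀ s v (l : ℝ), 0 < l → P s (l • v) → P (s / l) v := by
    intro s v l hl hv a ha
    have h2 := hv a ha
    rw [Sudakov_dot_smul_right] at h2
    rw [le_div_iff₀ hl]
    linarith
  have hPneg : ∀ s v, P s v → P s (-v) := by
    intro s v hv a ha
    have h3 := hv (-a) (hsymmA a ha)
    rw [Sudakov_dot_neg] at h3
    have : dot a (-v) = -dot a v := by
      simp [dot, Finset.sum_neg_distrib]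
    rw [this]; exact h3
  set η : ℝ := ε ^ 2 / 4 with hη
  have hη0 : 0 < η := by positivity
  set B : ℝ := 2 * Real.exp (128 * (A0 / ε) ^ 2) with hB
  have hB1 : 1 ≤ B := by
    have : 1 ≤ Real.exp (128 * (A0 / ε) ^ 2) := Real.one_le_exp (by positivity)
    linarith
  set K2 : ℕ := ⌊B⌋₊ with hK2
  have hK2pos : 0 < K2 := Nat.floor_pos.2 hB1
  have hcol : ∀ i : Fin K1, ∃ (χ : (ι → ℝ) → Fin K2) (z : Fin K2 → (ι → ℝ)),
      ∀ v ∈ A, χ1 v = i → P η (v - z (χ v)) := by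
    intro i
    by_cases hne : ({a | a ∈ A ∧ χ1 a = i} : Set (ι → ℝ)).Nonempty
    · obtain ⟨b, hb⟩ := hne
      obtain ⟨χ, z, -, hz⟩ := exists_colouring {a | a ∈ A ∧ χ1 a = i} ⟨b, hb⟩
        (fun v w => P η (v - w)) (fun v => by
          intro a _
          rw [sub_self]
          have : dot a (0 : ι → ℝ) = 0 := by simp [dot]
          rw [this]; exact hη0.le) K2 (by
        intro F hFA hFsep
        have hds := dual_sudakov P S hS hsymm (by linarith) A0 hA0 (fun g hg a ha => hA g hg a ha)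
          hP2 hP3 (2 * ε) η (by positivity) hη0 (F.image (fun x => x - b)) (by
            intro x hx
            obtain ⟨y, hy, rfl⟩ := Finset.mem_image.1 hx
            exact h1 y (hFA y hy).1 b hb.1 ((hFA y hy).2.trans hb.2.symm)) (by
            intro x hx y hy hxy
            obtain ⟨x', hx', rfl⟩ := Finset.mem_image.1 hx
            obtain ⟨y', hy', rfl⟩ := Finset.mem_image.1 hy
            rw [sub_sub_sub_cancel_right]
            exact hFsep x' hx' y' hy' (fun h => hxy (by rw [h])))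
        rw [Finset.card_image_of_injective _ (sub_left_injective)] at hds
        apply Nat.le_floor
        refine hds.trans (le_of_eq ?_)
        rw [hB]
        congr 2
        rw [hη]
        field_simp
        ring)
      refine ⟨χ, z, fun v hv hvi => ?_⟩
      rcases hz v ⟨hv, hvi⟩ with h2 | h2
      · exact h2
      · have := hPneg _ _ h2
        rwa [neg_sub] at this
    · refine ⟨fun _ => ⟨0, hK2pos⟩, fun _ => 0, fun v hv hvi => ?_⟩
      exact absurd ⟨v, hv, hvi⟩ hne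
  choose χ2 z hz using hcol
  refine ⟨K1 * K2, fun v => finProdFinEquiv (χ1 v, χ2 (χ1 v) v), ?_, ?_⟩
  · push_cast
    gcongr
    exact Nat.floor_le (by linarith)
  · intro a ha b hb hab
    have h2 := finProdFinEquiv.injective hab
    rw [Prod.mk.injEq] at h2
    obtain ⟨h3, h4⟩ := h2
    have ha1 := hz (χ1 a) a ha rfl
    have hb1 := hz (χ1 b) b hb rfl
    rw [← h3, ← (show χ2 (χ1 a) a = χ2 (χ1 a) b by rw [h4, h3])] at hb1
    have h5 := hP2 _ _ _ _ ha1 hb1
    rw [sub_sub_sub_cancel_right] at h5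
    have h6 := h5 _ (hconv a ha (-b) (hsymmA b hb))
    rw [← sub_eq_add_neg, Sudakov_dot_smul_left, Sudakov_dot_self] at h6
    rw [hη] at h6
    linarith

/-- Sudakov's inequality (colouring form). -/
theorem sudakov (A : Set (ι → ℝ)) (hsymmA : ∀ a ∈ A, -a ∈ A)
    (hconv : ∀ a ∈ A, ∀ b ∈ A, (1 / 2 : ℝ) • (a + b) ∈ A)
    (S : Set (ι → ℝ)) (hS : MeasurableSet S)
    (hsymm : ∀ g ∈ S, -g ∈ S) (hγ : 3 / 4 ≤ (gam ι).real S) (A0 : ℝ) (hA0 : 0 < A0)
    (hA : ∀ g ∈ S, ∀ a ∈ A, dot a g ≤ A0) (ε : ℝ) (hε : 0 < ε) :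
    ∃ (K : ℕ) (χ : (ι → ℝ) → Fin K), (K : ℝ) ≤ Real.exp (200 * (A0 / ε) ^ 2) ∧
      ∀ a ∈ A, ∀ b ∈ A, χ a = χ b → nsq (a - b) ≤ ε ^ 2 := by
  have hln2 : (2 : ℝ) ≤ Real.exp 2 := by
    have := Real.add_one_le_exp (2 : ℝ); linarith
  have hone : ∀ ε : ℝ, 6 * A0 ≤ ε →
      ∃ (K : ℕ) (χ : (ι → ℝ) → Fin K), (K : ℝ) ≤ 1 ∧
      ∀ a ∈ A, ∀ b ∈ A, χ a = χ b → nsq (a - b) ≤ ε ^ 2 := fun ε h6 =>
    ⟨1, fun _ => 0, by simp, fun a ha b hb _ =>
      Sudakov_base A hsymmA S hS hγ A0 hA0 hA ε h6 a ha b hb⟩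
  have key : ∀ J : ℕ, ∀ ε : ℝ, 0 < ε → 6 * A0 ≤ 2 ^ J * ε →
      ∃ (K : ℕ) (χ : (ι → ℝ) → Fin K), (K : ℝ) ≤ Real.exp (200 * (A0 / ε) ^ 2) ∧
      ∀ a ∈ A, ∀ b ∈ A, χ a = χ b → nsq (a - b) ≤ ε ^ 2 := by
    intro J
    induction J with
    | zero =>
      intro ε hε h6
      obtain ⟨K, χ, hK, hχ⟩ := hone ε (by simpa using h6)
      exact ⟨K, χ, hK.trans (Real.one_le_exp (by positivity)), hχ⟩
    | succ J ih =>
      intro ε hε h6
      by_cases hc1 : 6 * A0 ≤ ε
      · obtain ⟨K, χ, hK, hχ⟩ := hone ε hc1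
        exact ⟨K, χ, hK.trans (Real.one_le_exp (by positivity)), hχ⟩
      push Not at hc1
      by_cases hc2 : 6 * A0 ≤ 2 * ε
      · obtain ⟨K1, χ1, hK1, hχ1⟩ := hone (2 * ε) hc2
        obtain ⟨K, χ, hK, hχ⟩ := Sudakov_step A hsymmA hconv S hS hsymm hγ A0 hA0 hA ε hε K1 χ1 hχ1
        refine ⟨K, χ, hK.trans ?_, hχ⟩
        have ht : 1 / 6 ≤ A0 / ε := by
          rw [div_le_div_iff₀ (by norm_num) hε]; linarith
        calc (K1 : ℝ) * (2 * Real.exp (128 * (A0 / ε) ^ 2))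
            ≤ 1 * (Real.exp 2 * Real.exp (128 * (A0 / ε) ^ 2)) := by gcongr
          _ = Real.exp (2 + 128 * (A0 / ε) ^ 2) := by rw [one_mul, Real.exp_add]
          _ ≤ _ := Real.exp_le_exp.2 (by nlinarith)
      · push Not at hc2
        obtain ⟨K1, χ1, hK1, hχ1⟩ := ih (2 * ε) (by positivity) (by rw [pow_succ] at h6; linarith)
        obtain ⟨K, χ, hK, hχ⟩ := Sudakov_step A hsymmA hconv S hS hsymm hγ A0 hA0 hA ε hε K1 χ1 hχ1
        refine ⟨K, χ, hK.trans ?_, hχ⟩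
        have ht : 1 / 3 ≤ A0 / ε := by
          rw [div_le_div_iff₀ (by norm_num) hε]; linarith
        have h7 : (A0 / (2 * ε)) ^ 2 = (A0 / ε) ^ 2 / 4 := by field_simp; norm_num
        rw [h7] at hK1
        calc (K1 : ℝ) * (2 * Real.exp (128 * (A0 / ε) ^ 2))
            ≤ Real.exp (200 * ((A0 / ε) ^ 2 / 4)) *
              (Real.exp 2 * Real.exp (128 * (A0 / ε) ^ 2)) := by gcongr
          _ = Real.exp (200 * ((A0 / ε) ^ 2 / 4) + (2 + 128 * (A0 / ε) ^ 2)) := by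
            rw [Real.exp_add, Real.exp_add]
          _ ≤ _ := Real.exp_le_exp.2 (by nlinarith)
  obtain ⟨J, hJ⟩ := pow_unbounded_of_one_lt (6 * A0 / ε) (one_lt_two)
  exact key J ε hε (by rw [div_lt_iff₀ hε] at hJ; exact hJ.le)

end Pool.Agent.LibEnt73
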