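import Pool.Agent.LibEnt73.Torus
import Pool.Agent.LibEnt73.MW
import Pool.Agent.LibEnt73.Sudakov

/-! Task L2: covering of the bounded hyperbolic cross polynomials in `L_2`. -/

namespace Pool.Agent.LibEnt73

open MeasureTheory ProbabilityTheory Finset UnitAddTorus

/-- split form of the coefficients -/
def l2c_split (m : ℕ) (c : (Fin (m + 1) → ℤ) → ℂ) : ℤ → (Fin m → ℤ) → ℂ := fun ξ η => c (Fin.cons ξ η)

theorem l2c_grid (m n : ℕ) (c : (Fin (m + 1) → ℤ) → ℂ) (x : ZMod (2 ^ (n + 4)))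
    (y : Fin m → ZMod (2 ^ (n + 4))) :
    fsplit (n + 4) n (l2c_split m c) x y =
      tp n c (Fin.cons (((x.val : ℝ) / 2 ^ (n + 4) : ℝ) : UnitAddCircle)
        (fun i => (((y i).val : ℝ) / 2 ^ (n + 4) : ℝ)) : UnitAddTorus (Fin (m + 1))) := by
  rw [tp_grid]; rfl

theorem l2c_csq (m n : ℕ) (c c' : (Fin (m + 1) → ℤ) → ℂ) :
    csq n (l2c_split m (c - c')) = cdist n c c' := by
  unfold csq cdist
  rw [sum_Q_split]; rfl

theorem l2c_tp_add {d : ℕ} (n : ℕ) (c c' : (Fin d → ℤ) → ℂ) (x : UnitAddTorus (Fin d)) :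
    tp n (c + c') x = tp n c x + tp n c' x := by
  unfold tp
  rw [← Finset.sum_add_distrib]
  exact Finset.sum_congr rfl fun ξ _ => by rw [Pi.add_apply, add_mul]

theorem l2c_tp_smul {d : ℕ} (n : ℕ) (r : ℝ) (c : (Fin d → ℤ) → ℂ) (x : UnitAddTorus (Fin d)) :
    tp n (r • c) x = (r : ℂ) * tp n c x := by
  unfold tp
  rw [Finset.mul_sum]
  exact Finset.sum_congr rfl fun ξ _ => by rw [Pi.smul_apply, Complex.real_smul, mul_assoc]

theorem l2c_tp_sub {d : ℕ} (n : ℕ) (c c' : (Fin d → ℤ) → ℂ) (x : UnitAddTorus (Fin d)) :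
    tp n (c - c') x = tp n c x - tp n c' x := by
  unfold tp
  rw [← Finset.sum_sub_distrib]
  exact Finset.sum_congr rfl fun ξ _ => by rw [Pi.sub_apply, sub_mul]

theorem l2c_neg_mem {d n : ℕ} {c : (Fin d → ℤ) → ℂ} (h : c ∈ KR d n) : -c ∈ KR d n := by
  have e : ∀ x, tp n (-c) x = -tp n c x := by
    intro x
    have := l2c_tp_smul n (-1) c x
    rw [neg_one_smul] at this
    rw [this]; push_cast; ring
  refine ⟨fun x => ?_, fun x => ?_⟩
  · rw [e, Complex.neg_im, h.1 x, neg_zero]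
  · rw [e, norm_neg]; exact h.2 x

theorem l2c_mid_mem {d n : ℕ} {c c' : (Fin d → ℤ) → ℂ} (h : c ∈ KR d n) (h' : c' ∈ KR d n) :
    (1 / 2 : ℝ) • (c + c') ∈ KR d n := by
  have e : ∀ x, tp n ((1 / 2 : ℝ) • (c + c')) x = ((1 / 2 : ℝ) : ℂ) * (tp n c x + tp n c' x) := by
    intro x
    rw [l2c_tp_smul, l2c_tp_add]
  refine ⟨fun x => ?_, fun x => ?_⟩
  · rw [e, Complex.im_ofReal_mul, Complex.add_im, h.1 x, h'.1 x]; ring
  · rw [e, norm_mul, Complex.norm_real]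
    have h1 := norm_add_le (tp n c x) (tp n c' x)
    have h2 := h.2 x
    have h3 := h'.2 x
    rw [Real.norm_of_nonneg (by norm_num)]
    linarith

/-- real case -/
theorem l2_colouring_real (d : ℕ) (hd : 3 ≤ d) : ∃ C : ℝ, 0 < C ∧ ∀ (n : ℕ) (ε : ℝ), 0 < ε →
    ∃ (K : ℕ) (χ : ((Fin d → ℤ) → ℂ) → Fin K),
      (K : ℝ) ≤ Real.exp (C * (2 ^ n * ((n : ℝ) + 1) ^ (d - 2)) / ε ^ 2) ∧
      ∀ c ∈ KR d n, ∀ c' ∈ KR d n, χ c = χ c' → cdist n c c' ≤ ε ^ 2 := by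
  obtain ⟨m, rfl⟩ : ∃ m, d = m + 1 := ⟨d - 1, by omega⟩
  obtain ⟨C, hC, h⟩ := mean_width m (by omega)
  refine ⟨600 * C ^ 2, by positivity, fun n ε hε => ?_⟩
  obtain ⟨L, S, hS, hsymm, hγ, hL, hF⟩ := h n
  set P : ℝ := 2 ^ n * ((n : ℝ) + 1) ^ (m - 1) with hP
  have hP0 : 0 < P := by positivity
  have hreal : ∀ c ∈ KR (m + 1) n, RealOn m n (l2c_split m c) := fun c hc x y => by
    rw [l2c_grid]; exact hc.1 _
  have hbd : ∀ c ∈ KR (m + 1) n, ∀ x y, ‖fsplit (n + 4) n (l2c_split m c) x y‖ ≤ 1 := fun c hc x y => by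
    rw [l2c_grid]; exact hc.2 _
  let A : Set (GI m n → ℝ) := {v | ∃ c ∈ KR (m + 1) n, v = L (l2c_split m c)}
  have hlin : ∀ c c' : (Fin (m + 1) → ℤ) → ℂ, L (l2c_split m (c - c')) =
      L (l2c_split m c) - L (l2c_split m c') := by
    intro c c'
    rw [← map_sub]; rfl
  obtain ⟨K, χ, hK, hχ⟩ := sudakov A
    (by
      rintro v ⟨c, hc, rfl⟩
      refine ⟨-c, l2c_neg_mem hc, ?_⟩
      rw [← map_neg]; rfl)
    (by
      rintro v ⟨c, hc, rfl⟩ w ⟨c', hc', rfl⟩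
      refine ⟨(1 / 2 : ℝ) • (c + c'), l2c_mid_mem hc hc', ?_⟩
      rw [← map_add, ← map_smul]; rfl)
    S hS hsymm hγ (C * Real.sqrt P) (by positivity)
    (by
      rintro g hg v ⟨c, hc, rfl⟩
      exact hL _ (hreal c hc) (hbd c hc) g hg)
    (ε / Real.sqrt 3) (by positivity)
  refine ⟨K, fun c => χ (L (l2c_split m c)), ?_, ?_⟩
  · refine hK.trans (le_of_eq ?_)
    congr 1
    have h3 : Real.sqrt 3 ^ 2 = 3 := Real.sq_sqrt (by norm_num)
    have hPs : Real.sqrt P ^ 2 = P := Real.sq_sqrt hP0.le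
    have : (C * Real.sqrt P / (ε / Real.sqrt 3)) ^ 2 = 3 * C ^ 2 * P / ε ^ 2 := by
      rw [div_pow, div_pow, mul_pow, h3, hPs]
      field_simp
    rw [this]
    have : m + 1 - 2 = m - 1 := by omega
    rw [this, ← hP]
    ring
  · intro c hc c' hc' hcol
    have h1 := hχ _ ⟨c, hc, rfl⟩ _ ⟨c', hc', rfl⟩ hcol
    rw [← hlin] at h1
    have hR : RealOn m n (l2c_split m (c - c')) := by
      intro x y
      rw [l2c_grid, l2c_tp_sub, Complex.sub_im, hc.1, hc'.1, sub_zero]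
    have h2 := hF _ hR
    rw [l2c_csq] at h2
    have h3 : (ε / Real.sqrt 3) ^ 2 = ε ^ 2 / 3 := by
      rw [div_pow, Real.sq_sqrt (by norm_num)]
    rw [h3] at h1
    linarith

end Pool.Agent.LibEnt73
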