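import Pool.Agent.LibEnt73.Torus
import Pool.Agent.LibEnt73.Sudakov

/-! Task LQ: `L_q` covering of Euclidean balls, `q = 2 r` even (dual Sudakov); interpolation. -/

namespace Pool.Agent.LibEnt73

open MeasureTheory ProbabilityTheory Finset UnitAddTorus

/-- index set of the real coefficients -/
abbrev LayerLq_ix (d n : ℕ) : Type := {ξ : Fin d → ℤ // ξ ∈ Q d n} × Fin 2

/-- the linear form `v ↦ (polynomial with coefficients v) (x)` -/
noncomputable def LayerLq_a (d n : ℕ) (x : UnitAddTorus (Fin d)) : LayerLq_ix d n → ℝ := fun p =>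
  if p.2 = 0 then (mFourier p.1.1 x).re else -(mFourier p.1.1 x).im

/-- real coefficients -/
noncomputable def LayerLq_v (d n : ℕ) (c : (Fin d → ℤ) → ℂ) : LayerLq_ix d n → ℝ := fun p =>
  if p.2 = 0 then (c p.1.1).re else (c p.1.1).im

lemma LayerLq_sum {E : Type*} [AddCommMonoid E] (d n : ℕ) (f : LayerLq_ix d n → E) :
    ∑ p, f p = ∑ ξ : {ξ : Fin d → ℤ // ξ ∈ Q d n}, (f (ξ, 0) + f (ξ, 1)) := by
  rw [Fintype.sum_prod_type]
  exact Finset.sum_congr rfl fun ξ _ => Fin.sum_univ_two _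

lemma LayerLq_dot (d n : ℕ) (c : (Fin d → ℤ) → ℂ) (x : UnitAddTorus (Fin d)) :
    dot (LayerLq_a d n x) (LayerLq_v d n c) = (tp n c x).re := by
  rw [dot, LayerLq_sum, tp, Complex.re_sum, ← Finset.sum_coe_sort (Q d n)]
  refine Finset.sum_congr rfl fun ξ _ => ?_
  simp [LayerLq_a, LayerLq_v]
  ring

lemma LayerLq_nsq_v (d n : ℕ) (c : (Fin d → ℤ) → ℂ) :
    nsq (LayerLq_v d n c) = ∑ ξ ∈ Q d n, ‖c ξ‖ ^ 2 := by
  rw [nsq, LayerLq_sum, ← Finset.sum_coe_sort (Q d n)]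
  refine Finset.sum_congr rfl fun ξ _ => ?_
  rw [← Complex.normSq_eq_norm_sq, Complex.normSq_apply]
  simp [LayerLq_v]
  ring

lemma LayerLq_norm (d : ℕ) (ξ : Fin d → ℤ) (x : UnitAddTorus (Fin d)) : ‖mFourier ξ x‖ = 1 := by
  simp only [mFourier, fourier_apply, ContinuousMap.coe_mk, norm_prod, Circle.norm_coe,
    Finset.prod_const_one]

lemma LayerLq_nsq_a (d n : ℕ) (x : UnitAddTorus (Fin d)) :
    nsq (LayerLq_a d n x) = ((Q d n).card : ℝ) := by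
  rw [nsq, LayerLq_sum]
  have h : ∀ ξ : {ξ : Fin d → ℤ // ξ ∈ Q d n},
      (LayerLq_a d n x (ξ, 0) ^ 2 + LayerLq_a d n x (ξ, 1) ^ 2) = 1 := by
    intro ξ
    have h1 := LayerLq_norm d ξ.1 x
    have h2 : ‖mFourier ξ.1 x‖ ^ 2 = 1 := by rw [h1]; norm_num
    rw [← Complex.normSq_eq_norm_sq, Complex.normSq_apply] at h2
    simp [LayerLq_a]
    linarith
  rw [Finset.sum_congr rfl fun ξ _ => h ξ]
  simp

lemma LayerLq_continuous (d n : ℕ) :
    Continuous (fun p : (LayerLq_ix d n → ℝ) × UnitAddTorus (Fin d) =>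
      dot (LayerLq_a d n p.2) p.1) := by
  unfold dot
  refine continuous_finsetSum _ fun p _ => ?_
  refine Continuous.mul ?_ ((continuous_apply p).comp continuous_fst)
  unfold LayerLq_a
  split_ifs
  · exact Complex.continuous_re.comp ((mFourier p.1.1).continuous.comp continuous_snd)
  · exact (Complex.continuous_im.comp ((mFourier p.1.1).continuous.comp continuous_snd)).neg

/-- the `2 r`-th power of the norm -/
noncomputable def LayerLq_F (d n r : ℕ) (g : LayerLq_ix d n → ℝ) : ENNReal :=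
  ∫⁻ x, ENNReal.ofReal (dot (LayerLq_a d n x) g ^ (2 * r)) ∂(muT d)

lemma LayerLq_meas (d n r : ℕ) : Measurable (LayerLq_F d n r) := by
  have h : Measurable (fun p : (LayerLq_ix d n → ℝ) × UnitAddTorus (Fin d) =>
      ENNReal.ofReal (dot (LayerLq_a d n p.2) p.1 ^ (2 * r))) :=
    ENNReal.measurable_ofReal.comp ((LayerLq_continuous d n).pow _).measurable
  exact h.lintegral_prod_right'

lemma LayerLq_eLpNorm {d : ℕ} (r : ℕ) (hr : 1 ≤ r) (f : UnitAddTorus (Fin d) → ℝ) (s : ℝ)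
    (hs : 0 ≤ s) (h : ∫⁻ x, ENNReal.ofReal (f x ^ (2 * r)) ∂(muT d) ≤ ENNReal.ofReal (s ^ (2 * r))) :
    eLpNorm f ((2 * r : ℕ) : ENNReal) (muT d) ≤ ENNReal.ofReal s := by
  have h2r : (2 * r) ≠ 0 := by omega
  rw [eLpNorm_eq_lintegral_rpow_enorm_toReal (by exact_mod_cast h2r) (ENNReal.natCast_ne_top _)]
  rw [ENNReal.toReal_natCast]
  have h1 : ∀ x, ‖f x‖ₑ ^ ((2 * r : ℕ) : ℝ) = ENNReal.ofReal (f x ^ (2 * r)) := by
    intro x
    rw [ENNReal.rpow_natCast, Real.enorm_eq_ofReal_abs, ← ENNReal.ofReal_pow (abs_nonneg _),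
      pow_mul |f x|, sq_abs, ← pow_mul]
  simp only [h1]
  have hpos : (0 : ℝ) < ((2 * r : ℕ) : ℝ) := by exact_mod_cast Nat.pos_of_ne_zero h2r
  calc _ ≤ (ENNReal.ofReal (s ^ (2 * r))) ^ (1 / ((2 * r : ℕ) : ℝ)) :=
        ENNReal.rpow_le_rpow h (by positivity)
    _ = ENNReal.ofReal s := by
      rw [ENNReal.ofReal_rpow_of_nonneg (by positivity) (by positivity), one_div,
        Real.pow_rpow_inv_natCast hs h2r]

theorem LayerLq_moment (d n r : ℕ) :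
    ∫⁻ g, LayerLq_F d n r g ∂(gam (LayerLq_ix d n)) ≤
      ENNReal.ofReal (4 * (Nat.factorial (2 * r)) * ((Q d n).card : ℝ) ^ r) := by
  unfold LayerLq_F
  have h : Measurable (fun p : (LayerLq_ix d n → ℝ) × UnitAddTorus (Fin d) =>
      ENNReal.ofReal (dot (LayerLq_a d n p.2) p.1 ^ (2 * r))) :=
    ENNReal.measurable_ofReal.comp ((LayerLq_continuous d n).pow _).measurable
  rw [lintegral_lintegral_swap h.aemeasurable]
  have h1 : ∀ x, ∫⁻ g, ENNReal.ofReal (dot (LayerLq_a d n x) g ^ (2 * r))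
      ∂(gam (LayerLq_ix d n)) ≤
      ENNReal.ofReal (4 * (Nat.factorial (2 * r)) * ((Q d n).card : ℝ) ^ r) := by
    intro x
    obtain ⟨h2, h3⟩ := gam_even_moment r (LayerLq_a d n x)
    rw [← ofReal_integral_eq_lintegral_ofReal h2 (Filter.Eventually.of_forall fun g => by
      simp only [Pi.zero_apply]
      rw [pow_mul]; positivity)]
    apply ENNReal.ofReal_le_ofReal
    rw [LayerLq_nsq_a] at h3
    exact h3
  refine (lintegral_mono h1).trans ?_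
  rw [lintegral_const, measure_univ, mul_one]

/-- the real polynomial with coefficients `g` -/
noncomputable def LayerLq_Th (d n : ℕ) (g : LayerLq_ix d n → ℝ) (x : UnitAddTorus (Fin d)) : ℝ :=
  dot (LayerLq_a d n x) g

lemma LayerLq_Th_cont (d n : ℕ) (g : LayerLq_ix d n → ℝ) : Continuous (LayerLq_Th d n g) := by
  unfold LayerLq_Th dot
  refine continuous_finsetSum _ fun p _ => ?_
  refine Continuous.mul ?_ continuous_const
  unfold LayerLq_a
  split_ifs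
  · exact Complex.continuous_re.comp (mFourier p.1.1).continuous
  · exact (Complex.continuous_im.comp (mFourier p.1.1).continuous).neg

/-- the norm is at most `s` -/
def LayerLq_P (d n r : ℕ) (s : ℝ) (v : LayerLq_ix d n → ℝ) : Prop :=
  0 ≤ s ∧ eLpNorm (LayerLq_Th d n v) ((2 * r : ℕ) : ENNReal) (muT d) ≤ ENNReal.ofReal s

lemma LayerLq_P2 (d n r : ℕ) (hr : 1 ≤ r) : ∀ s t v w, LayerLq_P d n r s v →
    LayerLq_P d n r t w → LayerLq_P d n r (s + t) (v - w) := by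
  have hle1 : (1 : ENNReal) ≤ ((2 * r : ℕ) : ENNReal) := by
    exact_mod_cast (by omega : 1 ≤ 2 * r)
  rintro s t v w ⟨hs, hv⟩ ⟨ht, hw⟩
  refine ⟨add_nonneg hs ht, ?_⟩
  have h1 : LayerLq_Th d n (v - w) = LayerLq_Th d n v - LayerLq_Th d n w := by
    ext x
    exact Sudakov_dot_sub_right _ _ _
  rw [h1, ENNReal.ofReal_add hs ht]
  exact (eLpNorm_sub_le (LayerLq_Th_cont d n v).aestronglyMeasurable
    (LayerLq_Th_cont d n w).aestronglyMeasurable hle1).trans (add_le_add hv hw)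

lemma LayerLq_P3 (d n r : ℕ) : ∀ s v (l : ℝ), 0 < l → LayerLq_P d n r s (l • v) →
    LayerLq_P d n r (s / l) v := by
  rintro s v l hl ⟨hs, hv⟩
  refine ⟨div_nonneg hs hl.le, ?_⟩
  have h1 : LayerLq_Th d n v = l⁻¹ • LayerLq_Th d n (l • v) := by
    ext x
    rw [Pi.smul_apply, smul_eq_mul]
    unfold LayerLq_Th
    rw [Sudakov_dot_smul_right, ← mul_assoc, inv_mul_cancel₀ hl.ne', one_mul]
  have hl' : 0 ≤ l⁻¹ := by positivity
  rw [h1, eLpNorm_const_smul, div_eq_inv_mul, ENNReal.ofReal_mul hl', Real.enorm_eq_ofReal hl']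
  gcongr

lemma LayerLq_Psymm (d n r : ℕ) (s : ℝ) (v w : LayerLq_ix d n → ℝ)
    (h : LayerLq_P d n r s (v - w)) : LayerLq_P d n r s (w - v) := by
  obtain ⟨hs, hv⟩ := h
  refine ⟨hs, ?_⟩
  have h1 : LayerLq_Th d n (w - v) = -LayerLq_Th d n (v - w) := by
    ext x
    rw [Pi.neg_apply]
    unfold LayerLq_Th
    rw [Sudakov_dot_sub_right, Sudakov_dot_sub_right]; ring
  rw [h1, eLpNorm_neg]; exact hv

lemma LayerLq_Prefl (d n r : ℕ) (s : ℝ) (hs : 0 ≤ s) (v : LayerLq_ix d n → ℝ) :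
    LayerLq_P d n r s (v - v) := by
  refine ⟨hs, ?_⟩
  have h1 : LayerLq_Th d n (v - v) = 0 := by
    ext x
    simp [LayerLq_Th, dot]
  rw [h1, eLpNorm_zero]
  exact zero_le

/-- the good set -/
def LayerLq_S (d n r : ℕ) (A0 : ℝ) : Set (LayerLq_ix d n → ℝ) :=
  {g | LayerLq_F d n r g < ENNReal.ofReal (A0 ^ (2 * r))}

lemma LayerLq_S_meas (d n r : ℕ) (A0 : ℝ) : MeasurableSet (LayerLq_S d n r A0) :=
  measurableSet_lt (LayerLq_meas d n r) measurable_const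

lemma LayerLq_S_symm (d n r : ℕ) (A0 : ℝ) : ∀ g ∈ LayerLq_S d n r A0, -g ∈ LayerLq_S d n r A0 := by
  intro g hg
  have h1 : LayerLq_F d n r (-g) = LayerLq_F d n r g := by
    unfold LayerLq_F
    congr 1
    ext x
    have h2 : dot (LayerLq_a d n x) (-g) = -dot (LayerLq_a d n x) g := by
      simp [dot, Finset.sum_neg_distrib]
    rw [h2, pow_mul, neg_sq, ← pow_mul]
  show LayerLq_F d n r (-g) < _
  rw [h1]; exact hg

lemma LayerLq_S_gam (d n r : ℕ) (A0 : ℝ) (hA0 : 0 < A0)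
    (hpow : A0 ^ (2 * r) = 8 * (Nat.factorial (2 * r) : ℝ) * ((Q d n).card : ℝ) ^ r) :
    1 / 2 ≤ (gam (LayerLq_ix d n)).real (LayerLq_S d n r A0) := by
  have hM : (0 : ℝ) < A0 ^ (2 * r) := by positivity
  have h1 := meas_ge_le_lintegral_div (μ := gam (LayerLq_ix d n))
    (LayerLq_meas d n r).aemeasurable (ε := ENNReal.ofReal (A0 ^ (2 * r)))
    (by rw [Ne, ENNReal.ofReal_eq_zero, not_le]; exact hM) ENNReal.ofReal_ne_top
  have h2 : (∫⁻ g, LayerLq_F d n r g ∂(gam (LayerLq_ix d n))) / ENNReal.ofReal (A0 ^ (2 * r)) ≤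
      ENNReal.ofReal (1 / 2) := by
    have h0 := ENNReal.div_le_div_right (LayerLq_moment d n r) (ENNReal.ofReal (A0 ^ (2 * r)))
    rw [← ENNReal.ofReal_div_of_pos hM] at h0
    have h6 : 4 * (Nat.factorial (2 * r) : ℝ) * ((Q d n).card : ℝ) ^ r / A0 ^ (2 * r) ≤ 1 / 2 := by
      rw [div_le_iff₀ hM]
      linarith
    exact h0.trans (ENNReal.ofReal_le_ofReal h6)
  have h3 := h1.trans h2
  have h4 : (LayerLq_S d n r A0)ᶜ = {g | ENNReal.ofReal (A0 ^ (2 * r)) ≤ LayerLq_F d n r g} := by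
    ext g
    simp [LayerLq_S]
  rw [← h4] at h3
  have h5 : (gam (LayerLq_ix d n)).real (LayerLq_S d n r A0)ᶜ ≤ 1 / 2 := by
    rw [Measure.real]
    exact ENNReal.toReal_le_of_le_ofReal (by norm_num) h3
  rw [probReal_compl_eq_one_sub (LayerLq_S_meas d n r A0)] at h5
  linarith

lemma LayerLq_transfer (d n r : ℕ) (c c' : (Fin d → ℤ) → ℂ) (hc : ∀ x, (tp n c x).im = 0)
    (hc' : ∀ x, (tp n c' x).im = 0) :
    eLpNorm (tp n c - tp n c') ((2 * r : ℕ) : ENNReal) (muT d) =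
      eLpNorm (LayerLq_Th d n (LayerLq_v d n c - LayerLq_v d n c')) ((2 * r : ℕ) : ENNReal)
        (muT d) := by
  apply eLpNorm_congr_norm_ae
  refine Filter.Eventually.of_forall fun x => ?_
  have h5 : LayerLq_Th d n (LayerLq_v d n c - LayerLq_v d n c') x =
      (tp n c x).re - (tp n c' x).re := by
    unfold LayerLq_Th
    rw [Sudakov_dot_sub_right, LayerLq_dot, LayerLq_dot]
  have h6 : tp n c x - tp n c' x = (((tp n c x).re - (tp n c' x).re : ℝ) : ℂ) := by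
    apply Complex.ext
    · simp
    · simp [hc x, hc' x]
  rw [h5, Pi.sub_apply, h6, Complex.norm_real]

/-- The colouring of the real coefficient space. -/
lemma LayerLq_real (d n r : ℕ) (hr : 1 ≤ r) (C1 A0 R η : ℝ) (hA0 : 0 < A0)
    (hR : 0 < R) (hη : 0 < η) (hsq : A0 ^ 2 = C1 ^ 2 * ((Q d n).card : ℝ))
    (hpow : A0 ^ (2 * r) = 8 * (Nat.factorial (2 * r) : ℝ) * ((Q d n).card : ℝ) ^ r) :
    ∃ (K : ℕ) (χ : (LayerLq_ix d n → ℝ) → Fin K),
      (K : ℝ) ≤ 2 * Real.exp (8 * C1 ^ 2 * (R ^ 2 * ((Q d n).card : ℝ) / η ^ 2)) ∧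
      ∀ v w, nsq v ≤ R ^ 2 → nsq w ≤ R ^ 2 → χ v = χ w → LayerLq_P d n r η (v - w) := by
  have hη2 : 0 < η / 2 := by positivity
  have hcard : ∀ F : Finset (LayerLq_ix d n → ℝ), (∀ x ∈ F, nsq x ≤ R ^ 2) →
      (∀ x ∈ F, ∀ y ∈ F, x ≠ y → ¬ LayerLq_P d n r (η / 2) (x - y)) →
      F.card ≤ ⌊2 * Real.exp (8 * C1 ^ 2 * (R ^ 2 * ((Q d n).card : ℝ) / η ^ 2))⌋₊ := by
    intro F hF hsep
    apply Nat.le_floor
    have h1 := dual_sudakov (LayerLq_P d n r) (LayerLq_S d n r A0) (LayerLq_S_meas d n r A0)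
      (LayerLq_S_symm d n r A0) (LayerLq_S_gam d n r A0 hA0 hpow) A0 hA0
      (fun g hg => ⟨hA0.le, LayerLq_eLpNorm r hr _ A0 hA0.le (le_of_lt hg)⟩)
      (LayerLq_P2 d n r hr) (LayerLq_P3 d n r) R (η / 2) hR hη2 F hF hsep
    have h2 : 2 * (A0 * R / (η / 2)) ^ 2 = 8 * C1 ^ 2 * (R ^ 2 * ((Q d n).card : ℝ) / η ^ 2) := by
      rw [div_pow, mul_pow, hsq]
      field_simp
      ring
    rw [h2] at h1
    exact h1
  have h0 : nsq (0 : LayerLq_ix d n → ℝ) ≤ R ^ 2 := by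
    have : nsq (0 : LayerLq_ix d n → ℝ) = 0 := by simp [nsq]
    rw [this]; positivity
  obtain ⟨χ, z, -, hz⟩ := exists_colouring {v : LayerLq_ix d n → ℝ | nsq v ≤ R ^ 2}
    ⟨0, h0⟩ (fun v w => LayerLq_P d n r (η / 2) (v - w))
    (fun v => LayerLq_Prefl d n r _ hη2.le v) _ hcard
  refine ⟨_, χ, Nat.floor_le (by positivity), fun v w hv hw hχ => ?_⟩
  have hor : ∀ v : LayerLq_ix d n → ℝ, nsq v ≤ R ^ 2 → LayerLq_P d n r (η / 2) (v - z (χ v)) := by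
    intro v hv
    rcases hz v hv with h1 | h1
    · exact h1
    · exact LayerLq_Psymm _ _ _ _ _ _ h1
  have h1 := hor v hv
  have h2 := hor w hw
  rw [← hχ] at h2
  have h3 := LayerLq_P2 d n r hr _ _ _ _ h1 h2
  rw [sub_sub_sub_cancel_right, add_halves] at h3
  exact h3

theorem lq_colouring (d : ℕ) (r : ℕ) (hr : 1 ≤ r) : ∃ C : ℝ, 0 < C ∧
    ∀ (n : ℕ) (R η : ℝ), 0 < R → 0 < η →
    ∃ (K : ℕ) (χ : ((Fin d → ℤ) → ℂ) → Fin K),
      (K : ℝ) ≤ 2 * Real.exp (C * (R ^ 2 * ((Q d n).card : ℝ) / η ^ 2)) ∧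
      ∀ c c' : (Fin d → ℤ) → ℂ, (∀ x, (tp n c x).im = 0) → (∀ x, (tp n c' x).im = 0) →
        ∑ ξ ∈ Q d n, ‖c ξ‖ ^ 2 ≤ R ^ 2 → ∑ ξ ∈ Q d n, ‖c' ξ‖ ^ 2 ≤ R ^ 2 → χ c = χ c' →
        eLpNorm (tp n c - tp n c') (2 * r : ℕ) (muT d) ≤ ENNReal.ofReal η := by
  have h2r : (2 * r) ≠ 0 := by omega
  have hfac : (0 : ℝ) < 8 * (Nat.factorial (2 * r) : ℝ) := by
    have : (0 : ℝ) < (Nat.factorial (2 * r) : ℝ) := by exact_mod_cast Nat.factorial_pos _
    linarith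
  obtain ⟨C1, hC1pos, hC1pow⟩ : ∃ C1 : ℝ, 0 < C1 ∧ C1 ^ (2 * r) =
      8 * (Nat.factorial (2 * r) : ℝ) :=
    ⟨_, Real.rpow_pos_of_pos hfac _, Real.rpow_inv_natCast_pow hfac.le h2r⟩
  have hC : 0 < 8 * C1 ^ 2 := by positivity
  refine ⟨8 * C1 ^ 2, hC, fun n R η hR hη => ?_⟩
  have hQpos : (0 : ℝ) < ((Q d n).card : ℝ) := by
    have : (0 : Fin d → ℤ) ∈ Q d n := by
      rw [mem_Q]
      have : tsz (0 : Fin d → ℤ) = 0 := by simp [tsz, sz]
      omega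
    exact_mod_cast Finset.card_pos.2 ⟨_, this⟩
  have hA0pos : 0 < C1 * Real.sqrt ((Q d n).card : ℝ) := mul_pos hC1pos (Real.sqrt_pos.2 hQpos)
  have hA0pow : (C1 * Real.sqrt ((Q d n).card : ℝ)) ^ (2 * r) =
      8 * (Nat.factorial (2 * r) : ℝ) * ((Q d n).card : ℝ) ^ r := by
    rw [mul_pow, hC1pow, pow_mul (Real.sqrt _), Real.sq_sqrt hQpos.le]
  have hA0sq : (C1 * Real.sqrt ((Q d n).card : ℝ)) ^ 2 = C1 ^ 2 * ((Q d n).card : ℝ) := by
    rw [mul_pow, Real.sq_sqrt hQpos.le]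
  obtain ⟨K, χ, hK, hχ⟩ := LayerLq_real d n r hr C1 _ R η hA0pos hR hη hA0sq hA0pow
  refine ⟨K, fun c => χ (LayerLq_v d n c), hK, ?_⟩
  intro c c' hc hc' hcR hcR' hcol
  rw [LayerLq_transfer d n r c c' hc hc']
  exact (hχ _ _ (by rw [LayerLq_nsq_v]; exact hcR) (by rw [LayerLq_nsq_v]; exact hcR') hcol).2

end Pool.Agent.LibEnt73
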