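import Pool.Agent.LibEnt73.L2Col
import Pool.Agent.LibEnt73.LayerLq
import Pool.Agent.LibEnt73.MWFrame

/-! Task LL: few bits (uses l2_colouring_real, lq_colouring, card_Q_le, Torus). -/

namespace Pool.Agent.LibEnt73

open MeasureTheory ProbabilityTheory Finset UnitAddTorus

/-- interpolation between `L_2` and `L_q` -/
theorem interp (d : ℕ) (p q l : ℝ) (hp : 2 < p) (hq : p < q) (hl : 1 / p = (1 - l) / 2 + l / q)
    (f : UnitAddTorus (Fin d) → ℂ) (hf : Continuous f) :
    eLpNorm f (ENNReal.ofReal p) (muT d) ≤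
      eLpNorm f 2 (muT d) ^ (1 - l) * eLpNorm f (ENNReal.ofReal q) (muT d) ^ l := by
  have hp0 : 0 < p := by linarith
  have hq0 : 0 < q := by linarith
  have hq2 : 0 < q - 2 := by linarith
  have hl' : l * (p * (q - 2)) = q * (p - 2) := by
    field_simp at hl
    linarith
  set θ : ℝ := (q - p) / (q - 2) with hθ
  have hθ0 : 0 ≤ θ := div_nonneg (by linarith) hq2.le
  have hθ1 : 0 ≤ 1 - θ := by
    rw [hθ, sub_nonneg, div_le_one hq2]
    linarith
  have e1 : 2 * θ / p = 1 - l := by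
    rw [hθ]
    field_simp
    linarith
  have e2 : q * (1 - θ) / p = l := by
    rw [hθ]
    field_simp
    linarith
  have e3 : p = 2 * θ + q * (1 - θ) := by
    rw [hθ]
    field_simp
    ring
  have hfm : AEStronglyMeasurable f (muT d) := hf.aestronglyMeasurable
  rw [eLpNorm_eq_lintegral_rpow_enorm_toReal (by simpa using hp0) ENNReal.ofReal_ne_top,
    eLpNorm_eq_lintegral_rpow_enorm_toReal (by norm_num) (by norm_num),
    eLpNorm_eq_lintegral_rpow_enorm_toReal (by simpa using hq0) ENNReal.ofReal_ne_top,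
    ENNReal.toReal_ofReal hp0.le, ENNReal.toReal_ofReal hq0.le, ENNReal.toReal_ofNat]
  have hmain : ∫⁻ x, ‖f x‖ₑ ^ p ∂(muT d) ≤
      (∫⁻ x, ‖f x‖ₑ ^ (2 : ℝ) ∂(muT d)) ^ θ * (∫⁻ x, ‖f x‖ₑ ^ q ∂(muT d)) ^ (1 - θ) := by
    have := ENNReal.lintegral_mul_norm_pow_le (μ := muT d) (f := fun x => ‖f x‖ₑ ^ (2 : ℝ))
      (g := fun x => ‖f x‖ₑ ^ q) (hfm.enorm.pow_const _) (hfm.enorm.pow_const _) hθ0 hθ1 (by ring)
    refine le_trans (le_of_eq ?_) this
    apply lintegral_congr
    intro x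
    show ‖f x‖ₑ ^ p = (‖f x‖ₑ ^ (2 : ℝ)) ^ θ * (‖f x‖ₑ ^ q) ^ (1 - θ)
    rw [← ENNReal.rpow_mul, ← ENNReal.rpow_mul, ← ENNReal.rpow_add_of_nonneg _ _ (by positivity)
      (by positivity), ← e3]
  calc (∫⁻ x, ‖f x‖ₑ ^ p ∂(muT d)) ^ (1 / p)
      ≤ ((∫⁻ x, ‖f x‖ₑ ^ (2 : ℝ) ∂(muT d)) ^ θ *
          (∫⁻ x, ‖f x‖ₑ ^ q ∂(muT d)) ^ (1 - θ)) ^ (1 / p) :=
        ENNReal.rpow_le_rpow hmain (by positivity)
    _ = _ := by
        rw [ENNReal.mul_rpow_of_nonneg _ _ (by positivity), ← ENNReal.rpow_mul,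
          ← ENNReal.rpow_mul, ← ENNReal.rpow_mul, ← ENNReal.rpow_mul]
        congr 2
        · rw [← e1]; ring
        · rw [← e2]
          field_simp

/-- coefficients of the real part -/
noncomputable def layLow_re {d : ℕ} (c : (Fin d → ℤ) → ℂ) : (Fin d → ℤ) → ℂ :=
  fun ξ => (c ξ + (starRingEnd ℂ) (c (-ξ))) / 2

theorem layLow_neg_mem {d n : ℕ} {ξ : Fin d → ℤ} (h : ξ ∈ Q d n) : -ξ ∈ Q d n := by
  rw [mem_Q] at *
  have : tsz (-ξ) = tsz ξ := by
    unfold tsz sz
    apply Finset.sum_congr rfl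
    intro i _
    rw [Pi.neg_apply, Int.natAbs_neg]
  rw [this]; exact h

theorem layLow_tp_re {d : ℕ} (n : ℕ) (c : (Fin d → ℤ) → ℂ) (x : UnitAddTorus (Fin d)) :
    tp n (layLow_re c) x = ((tp n c x).re : ℂ) := by
  rw [Complex.re_eq_add_conj]
  unfold tp layLow_re
  have h1 : (starRingEnd ℂ) (∑ ξ ∈ Q d n, c ξ * mFourier ξ x) =
      ∑ ξ ∈ Q d n, (starRingEnd ℂ) (c (-ξ)) * mFourier ξ x := by
    rw [map_sum]
    apply Finset.sum_nbij' (fun ξ => -ξ) (fun ξ => -ξ)
    · intro ξ h; exact layLow_neg_mem h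
    · intro ξ h; exact layLow_neg_mem h
    · intro ξ _; exact neg_neg ξ
    · intro ξ _; exact neg_neg ξ
    · intro ξ _
      rw [map_mul, neg_neg, mFourier_neg]
  rw [h1, ← Finset.sum_add_distrib, Finset.sum_div]
  apply Finset.sum_congr rfl
  intro ξ _
  ring

theorem layLow_tp_mul {d : ℕ} (n : ℕ) (z : ℂ) (c : (Fin d → ℤ) → ℂ) (x : UnitAddTorus (Fin d)) :
    tp n (fun ξ => z * c ξ) x = z * tp n c x := by
  unfold tp
  rw [Finset.mul_sum]
  exact Finset.sum_congr rfl fun ξ _ => by ring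

theorem layLow_re_mem {d n : ℕ} {c : (Fin d → ℤ) → ℂ} (h : c ∈ KC d n) : layLow_re c ∈ KR d n := by
  refine ⟨fun x => ?_, fun x => ?_⟩
  · rw [layLow_tp_re, Complex.ofReal_im]
  · rw [layLow_tp_re, Complex.norm_real, Real.norm_eq_abs]
    exact (Complex.abs_re_le_norm _).trans (h x)

theorem layLow_mul_mem {d n : ℕ} {c : (Fin d → ℤ) → ℂ} (h : c ∈ KC d n) :
    (fun ξ => -Complex.I * c ξ) ∈ KC d n := by
  intro x
  rw [layLow_tp_mul, norm_mul, norm_neg, Complex.norm_I, one_mul]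
  exact h x

theorem layLow_l2 {d : ℕ} (n : ℕ) (c c' : (Fin d → ℤ) → ℂ) (ε : ℝ) (hε : 0 ≤ ε)
    (h : cdist n c c' ≤ ε ^ 2) :
    eLpNorm (tp n c - tp n c') 2 (muT d) ≤ ENNReal.ofReal ε := by
  have e : tp n c - tp n c' = tp n (c - c') := by
    funext x
    rw [l2c_tp_sub]; rfl
  rw [e]
  have hm : MemLp (tp n (c - c')) 2 (muT d) :=
    (continuous_tp n (c - c')).memLp_of_hasCompactSupport (HasCompactSupport.of_compactSpace _)
  rw [hm.eLpNorm_eq_integral_rpow_norm (by norm_num) (by norm_num)]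
  apply ENNReal.ofReal_le_ofReal
  have h2 : ∫ a, ‖tp n (c - c') a‖ ^ (2 : ENNReal).toReal ∂(muT d) = cdist n c c' := by
    rw [ENNReal.toReal_ofNat]
    have : ∀ a, ‖tp n (c - c') a‖ ^ (2 : ℝ) = ‖tp n (c - c') a‖ ^ 2 := fun a => by
      rw [← Real.rpow_natCast]; norm_num
    simp_rw [this]
    rw [parseval_tp]; rfl
  rw [h2, ENNReal.toReal_ofNat]
  have h0 : 0 ≤ cdist n c c' := Finset.sum_nonneg fun _ _ => by positivity
  calc cdist n c c' ^ ((2 : ℝ)⁻¹) ≤ (ε ^ 2) ^ ((2 : ℝ)⁻¹) := Real.rpow_le_rpow h0 h (by norm_num)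
    _ = ε := by
      rw [← Real.rpow_natCast, ← Real.rpow_mul hε]
      norm_num

theorem layLow_DD_pos (d n : ℕ) : 0 < DD d n := by unfold DD; positivity

/-- the real case for all `k` -/
theorem layLow_real (d : ℕ) (hd : 3 ≤ d) (p : ℝ) (hp : 1 ≤ p) (γ : ℝ) (h1 : 1 / 2 < γ)
    (h2 : 1 - 1 / p < γ) : ∃ C : ℝ, 0 < C ∧ ∀ n k : ℕ, 1 ≤ k → (k : ℝ) ≤ DD d n →
    ∃ (K : ℕ) (χ : ((Fin d → ℤ) → ℂ) → Fin K), (K : ℝ) ≤ 2 * Real.exp (3 / 8 * Real.log 2 * k) ∧
      ∀ c ∈ KR d n, ∀ c' ∈ KR d n, χ c = χ c' →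
      eLpNorm (tp n c - tp n c') (ENNReal.ofReal p) (muT d) ≤
        ENNReal.ofReal (C * ((n : ℝ) + 1) ^ (-(1 / 2) : ℝ) * (DD d n / k) ^ γ) := by
  obtain ⟨C1, hC1, hcol2⟩ := l2_colouring_real d hd
  have hlog : 0 < Real.log 2 := Real.log_pos (by norm_num)
  set a1 : ℝ := 4 * C1 / Real.log 2 with ha1
  have ha1p : 0 < a1 := by positivity
  -- the `L_2` colouring with `exp (k log 2 / 4)` colours
  have hL2 : ∀ n k : ℕ, 1 ≤ k → ∃ (K : ℕ) (χ : ((Fin d → ℤ) → ℂ) → Fin K),
      (K : ℝ) ≤ Real.exp (1 / 4 * Real.log 2 * k) ∧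
      ∀ c ∈ KR d n, ∀ c' ∈ KR d n, χ c = χ c' →
        cdist n c c' ≤ (Real.sqrt a1 * ((n : ℝ) + 1) ^ (-(1 / 2) : ℝ) *
          (DD d n / k) ^ (1 / 2 : ℝ)) ^ 2 := by
    intro n k hk
    have hk0 : (0 : ℝ) < k := by exact_mod_cast hk
    have hD := layLow_DD_pos d n
    set ε : ℝ := Real.sqrt a1 * ((n : ℝ) + 1) ^ (-(1 / 2) : ℝ) * (DD d n / k) ^ (1 / 2 : ℝ) with hε
    have hε0 : 0 < ε := by positivity
    obtain ⟨K, χ, hK, hχ⟩ := hcol2 n ε hε0
    refine ⟨K, χ, hK.trans (le_of_eq ?_), hχ⟩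
    congr 1
    have e1 : ε ^ 2 = a1 * (((n : ℝ) + 1)⁻¹ * (DD d n / k)) := by
      rw [hε, mul_pow, mul_pow, Real.sq_sqrt ha1p.le, ← Real.rpow_natCast (((n : ℝ) + 1) ^ _),
        ← Real.rpow_natCast ((DD d n / k) ^ _), ← Real.rpow_mul (by positivity),
        ← Real.rpow_mul (by positivity)]
      norm_num
      rw [Real.rpow_neg_one]
      ring
    rw [e1]
    have e2 : DD d n = (2 ^ n * ((n : ℝ) + 1) ^ (d - 2)) * ((n : ℝ) + 1) := by
      unfold DD
      have : d - 1 = (d - 2) + 1 := by omega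
      rw [this, pow_succ]; ring
    rw [e2, ha1]
    field_simp
  have hmono : ∀ (n k : ℕ) (s : ℝ), 1 ≤ k → (k : ℝ) ≤ DD d n → s ≤ γ →
      (DD d n / k) ^ s ≤ (DD d n / k) ^ γ := by
    intro n k s hk hkD hs
    have hk0 : (0 : ℝ) < k := by exact_mod_cast hk
    apply Real.rpow_le_rpow_of_exponent_le _ hs
    rwa [le_div_iff₀ hk0, one_mul]
  by_cases hp2 : p ≤ 2
  · refine ⟨Real.sqrt a1, by positivity, fun n k hk hkD => ?_⟩
    have hk0 : (0 : ℝ) < k := by exact_mod_cast hk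
    have hD := layLow_DD_pos d n
    obtain ⟨K, χ, hK, hχ⟩ := hL2 n k hk
    refine ⟨K, χ, hK.trans ?_, fun c hc c' hc' hcc => ?_⟩
    · have : Real.exp (1 / 4 * Real.log 2 * k) ≤ Real.exp (3 / 8 * Real.log 2 * k) := by
        apply Real.exp_le_exp.2
        have : 0 ≤ Real.log 2 * k := by positivity
        nlinarith
      have h3 := Real.exp_pos (3 / 8 * Real.log 2 * k)
      linarith
    · have hb := layLow_l2 n c c' _ (by positivity) (hχ c hc c' hc' hcc)
      have hexp : ENNReal.ofReal p ≤ 2 := by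
        rw [show (2 : ENNReal) = ENNReal.ofReal 2 by simp]
        exact ENNReal.ofReal_le_ofReal hp2
      refine (eLpNorm_le_eLpNorm_of_exponent_le hexp
        ((continuous_tp n c).sub (continuous_tp n c')).aestronglyMeasurable).trans (hb.trans ?_)
      apply ENNReal.ofReal_le_ofReal
      have := hmono n k (1 / 2) hk hkD h1.le
      gcongr
  · push Not at hp2
    set δ : ℝ := 2 * γ - 1 - (1 - 2 / p) with hδ
    have hp0 : 0 < p := by linarith
    have hδ0 : 0 < δ := by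
      rw [hδ]
      have : 2 / p = 2 * (1 / p) := by ring
      rw [this]; linarith
    obtain ⟨r, hr⟩ := exists_nat_ge (max (1 + 1 / δ) p)
    have hr1 : 1 + 1 / δ ≤ r := (le_max_left _ _).trans hr
    have hr2 : p ≤ r := (le_max_right _ _).trans hr
    have hrpos : 1 ≤ r := by
      have : (1 : ℝ) ≤ r := by linarith
      exact_mod_cast this
    set q : ℝ := ((2 * r : ℕ) : ℝ) with hq
    have hqr : q = 2 * r := by rw [hq]; push_cast; ring
    have hqp : p < q := by rw [hqr]; linarith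
    have hq2 : 0 < q - 2 := by linarith
    have hq0 : 0 < q := by linarith
    have hqδ : 2 / (q - 2) ≤ δ := by
      rw [div_le_iff₀ hq2, hqr]
      have : δ * (1 / δ) = 1 := by field_simp
      nlinarith
    set l : ℝ := q * (p - 2) / (p * (q - 2)) with hl
    have hl0 : 0 ≤ l := by
      rw [hl]
      have : 0 < p - 2 := by linarith
      positivity
    have hl1 : l ≤ 2 * γ - 1 := by
      have e : l = (1 - 2 / p) * (1 + 2 / (q - 2)) := by
        rw [hl]; field_simp; ring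
      have hlt : 1 - 2 / p < 1 := by
        have : 0 < 2 / p := by positivity
        linarith
      have hge : 0 < 1 - 2 / p := by
        rw [sub_pos, div_lt_one hp0]; exact hp2
      have h3 : 0 < 2 / (q - 2) := by positivity
      rw [e]
      nlinarith
    have hlle : l ≤ 1 := by
      rw [hl, div_le_one (by positivity)]
      nlinarith
    have hrel : 1 / p = (1 - l) / 2 + l / q := by
      rw [hl]; field_simp; ring
    obtain ⟨C2, hC2, hcolq⟩ := lq_colouring d r hrpos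
    set a2 : ℝ := 16 * C2 / Real.log 2 with ha2
    have ha2p : 0 < a2 := by positivity
    refine ⟨Real.sqrt a1 * a2 ^ (l / 2), by positivity, fun n k hk hkD => ?_⟩
    have hk0 : (0 : ℝ) < k := by exact_mod_cast hk
    have hD := layLow_DD_pos d n
    set Dk : ℝ := DD d n / k with hDk
    have hDk0 : 0 < Dk := by positivity
    set N1 : ℝ := ((n : ℝ) + 1) ^ (-(1 / 2) : ℝ) with hN1
    have hN10 : 0 < N1 := by positivity
    obtain ⟨K2, χ2, hK2, hχ2⟩ := hL2 n k hk
    set ε : ℝ := Real.sqrt a1 * N1 * Dk ^ (1 / 2 : ℝ) with hε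
    have hε0 : 0 < ε := by positivity
    set η : ℝ := ε * (a2 * Dk) ^ (1 / 2 : ℝ) with hη
    have hη0 : 0 < η := by positivity
    obtain ⟨Kq, χq, hKq, hχq⟩ := hcolq n ε η hε0 hη0
    classical
    -- representatives
    let z : Fin K2 → ((Fin d → ℤ) → ℂ) := fun i =>
      if h : ∃ c ∈ KR d n, χ2 c = i then h.choose else 0
    have hz : ∀ c ∈ KR d n, z (χ2 c) ∈ KR d n ∧ χ2 (z (χ2 c)) = χ2 c := by
      intro c hc
      have h : ∃ c' ∈ KR d n, χ2 c' = χ2 c := ⟨c, hc, rfl⟩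
      have e : z (χ2 c) = h.choose := by
        show (if h : ∃ c' ∈ KR d n, χ2 c' = χ2 c then h.choose else 0) = _
        rw [dif_pos h]
      rw [e]
      exact h.choose_spec
    refine ⟨K2 * Kq, fun c => finProdFinEquiv (χ2 c, χq (c - z (χ2 c))), ?_, ?_⟩
    · have hQ := card_Q_le d n (by omega)
      have hQ' : ((Q d n).card : ℝ) ≤ 2 * DD d n := by
        refine hQ.trans (le_of_eq ?_)
        unfold DD; rw [pow_succ]; ring
      have hη2 : η ^ 2 = ε ^ 2 * (a2 * Dk) := by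
        rw [hη, mul_pow, ← Real.rpow_natCast ((a2 * Dk) ^ (1 / 2 : ℝ)),
          ← Real.rpow_mul (by positivity)]
        norm_num
      have hle : C2 * (ε ^ 2 * ((Q d n).card : ℝ) / η ^ 2) ≤ 1 / 8 * Real.log 2 * k := by
        rw [hη2]
        calc C2 * (ε ^ 2 * ((Q d n).card : ℝ) / (ε ^ 2 * (a2 * Dk)))
            ≤ C2 * (ε ^ 2 * (2 * DD d n) / (ε ^ 2 * (a2 * Dk))) := by gcongr
          _ = 1 / 8 * Real.log 2 * k := by
              rw [ha2, hDk]
              field_simp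
              ring
      have hKq' : (Kq : ℝ) ≤ 2 * Real.exp (1 / 8 * Real.log 2 * k) := by
        refine hKq.trans ?_
        have := Real.exp_le_exp.2 hle
        linarith
      push_cast
      calc (K2 : ℝ) * Kq ≤ Real.exp (1 / 4 * Real.log 2 * k) *
            (2 * Real.exp (1 / 8 * Real.log 2 * k)) := by gcongr
        _ = 2 * (Real.exp (1 / 4 * Real.log 2 * k) * Real.exp (1 / 8 * Real.log 2 * k)) := by ring
        _ = 2 * Real.exp (3 / 8 * Real.log 2 * k) := by
            rw [← Real.exp_add]; congr 2; ring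
    · intro c hc c' hc' hcc
      have hpair := finProdFinEquiv.injective hcc
      rw [Prod.mk.injEq] at hpair
      obtain ⟨hp1, hp2'⟩ := hpair
      obtain ⟨hzm, hzc⟩ := hz c hc
      rw [← hp1] at hp2'
      set w := z (χ2 c) with hw
      have hcw : cdist n c w ≤ ε ^ 2 := hχ2 c hc w hzm hzc.symm
      have hcw' : cdist n c' w ≤ ε ^ 2 := hχ2 c' hc' w hzm (by rw [hzc, hp1])
      have him : ∀ b ∈ KR d n, ∀ x, (tp n (b - w) x).im = 0 := by
        intro b hb x
        rw [l2c_tp_sub, Complex.sub_im, hb.1, hzm.1, sub_zero]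
      have hEq := hχq (c - w) (c' - w) (him c hc) (him c' hc') hcw hcw' hp2'
      have hsub : tp n (c - w) - tp n (c' - w) = tp n c - tp n c' := by
        funext x
        rw [Pi.sub_apply, Pi.sub_apply, l2c_tp_sub, l2c_tp_sub]
        ring
      rw [hsub] at hEq
      have hE2 := layLow_l2 n c c' ε hε0.le (hχ2 c hc c' hc' hp1)
      have hcont : Continuous (tp n c - tp n c') := (continuous_tp n c).sub (continuous_tp n c')
      have hI := interp d p q l hp2 hqp hrel _ hcont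
      have hq' : ENNReal.ofReal q = ((2 * r : ℕ) : ENNReal) := by
        rw [hq, ENNReal.ofReal_natCast]
      rw [hq'] at hI
      refine hI.trans ?_
      have h1l : 0 ≤ 1 - l := by linarith
      calc eLpNorm (tp n c - tp n c') 2 (muT d) ^ (1 - l) *
            eLpNorm (tp n c - tp n c') ((2 * r : ℕ) : ENNReal) (muT d) ^ l
          ≤ ENNReal.ofReal ε ^ (1 - l) * ENNReal.ofReal η ^ l := by gcongr
        _ = ENNReal.ofReal (ε ^ (1 - l) * η ^ l) := by
            rw [ENNReal.ofReal_rpow_of_nonneg hε0.le h1l, ENNReal.ofReal_rpow_of_nonneg hη0.le hl0,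
              ENNReal.ofReal_mul (by positivity)]
        _ ≤ _ := by
            apply ENNReal.ofReal_le_ofReal
            have e1 : ε ^ (1 - l) * η ^ l = ε * (a2 * Dk) ^ (l / 2) := by
              rw [hη, Real.mul_rpow hε0.le (by positivity), ← Real.rpow_mul (by positivity),
                ← mul_assoc, ← Real.rpow_add hε0]
              congr 1
              · rw [sub_add_cancel, Real.rpow_one]
              · congr 1; ring
            rw [e1, Real.mul_rpow ha2p.le hDk0.le, hε]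
            have e2 : Real.sqrt a1 * N1 * Dk ^ (1 / 2 : ℝ) * (a2 ^ (l / 2) * Dk ^ (l / 2)) =
                Real.sqrt a1 * a2 ^ (l / 2) * N1 * (Dk ^ (1 / 2 : ℝ) * Dk ^ (l / 2)) := by ring
            rw [e2, ← Real.rpow_add hDk0]
            have := hmono n k (1 / 2 + l / 2) hk hkD (by linarith)
            gcongr

/-- few bits -/
theorem low_bits (d : ℕ) (hd : 3 ≤ d) (p : ℝ) (hp : 1 ≤ p) (γ : ℝ) (h1 : 1 / 2 < γ)
    (h2 : 1 - 1 / p < γ) : ∃ C : ℝ, 0 < C ∧ ∀ n k : ℕ, 1 ≤ k → (k : ℝ) ≤ DD d n →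
    ∃ χ : ((Fin d → ℤ) → ℂ) → Fin (2 ^ k), ∀ c ∈ KC d n, ∀ c' ∈ KC d n, χ c = χ c' →
      eLpNorm (tp n c - tp n c') (ENNReal.ofReal p) (muT d) ≤
        ENNReal.ofReal (C * ((n : ℝ) + 1) ^ (-(1 / 2) : ℝ) * (DD d n / k) ^ γ) := by
  obtain ⟨C, hC, hreal⟩ := layLow_real d hd p hp γ h1 h2
  have hlog : 0 < Real.log 2 := Real.log_pos (by norm_num)
  refine ⟨2 * C + 2 * Real.sqrt 8, by positivity, fun n k hk hkD => ?_⟩
  have hk0 : (0 : ℝ) < k := by exact_mod_cast hk
  have hD := layLow_DD_pos d n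
  by_cases hk8 : 8 ≤ k
  · obtain ⟨K, χ, hK, hχ⟩ := hreal n k hk hkD
    have hKK : K * K ≤ 2 ^ k := by
      have h3 : (K : ℝ) * K ≤ 2 ^ k := by
        calc (K : ℝ) * K ≤ (2 * Real.exp (3 / 8 * Real.log 2 * k)) *
              (2 * Real.exp (3 / 8 * Real.log 2 * k)) := by gcongr
          _ = 4 * Real.exp (3 / 4 * Real.log 2 * k) := by
              have : Real.exp (3 / 4 * Real.log 2 * k) = Real.exp (3 / 8 * Real.log 2 * k) *
                  Real.exp (3 / 8 * Real.log 2 * k) := by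
                rw [← Real.exp_add]; congr 1; ring
              rw [this]; ring
          _ ≤ Real.exp (2 * Real.log 2) * Real.exp (3 / 4 * Real.log 2 * k) := by
              have : Real.exp (2 * Real.log 2) = 4 := by
                rw [show (2 : ℝ) * Real.log 2 = Real.log 2 + Real.log 2 by ring, Real.exp_add,
                  Real.exp_log (by norm_num)]
                norm_num
              rw [this]
          _ = Real.exp (2 * Real.log 2 + 3 / 4 * Real.log 2 * k) := by rw [Real.exp_add]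
          _ ≤ Real.exp (k * Real.log 2) := by
              apply Real.exp_le_exp.2
              have : (8 : ℝ) ≤ k := by exact_mod_cast hk8
              nlinarith
          _ = 2 ^ k := by
              rw [Real.exp_nat_mul, Real.exp_log (by norm_num)]
      exact_mod_cast h3
    refine ⟨fun c => Fin.castLE hKK (finProdFinEquiv (χ (layLow_re c),
      χ (layLow_re (fun ξ => -Complex.I * c ξ)))), fun c hc c' hc' hcc => ?_⟩
    have hpair := finProdFinEquiv.injective (Fin.castLE_injective hKK hcc)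
    rw [Prod.mk.injEq] at hpair
    obtain ⟨hR, hI⟩ := hpair
    have hbR := hχ _ (layLow_re_mem hc) _ (layLow_re_mem hc') hR
    have hbI := hχ _ (layLow_re_mem (layLow_mul_mem hc)) _ (layLow_re_mem (layLow_mul_mem hc')) hI
    set fR := tp n (layLow_re c) - tp n (layLow_re c') with hfR
    set fI := tp n (layLow_re (fun ξ => -Complex.I * c ξ)) -
      tp n (layLow_re (fun ξ => -Complex.I * c' ξ)) with hfI
    have hsplit : tp n c - tp n c' = fR + Complex.I • fI := by
      funext x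
      rw [hfR, hfI]
      simp only [Pi.sub_apply, Pi.add_apply, Pi.smul_apply, smul_eq_mul]
      rw [layLow_tp_re, layLow_tp_re, layLow_tp_re, layLow_tp_re, layLow_tp_mul, layLow_tp_mul]
      apply Complex.ext
      · simp
      · simp
    have hcR : Continuous fR := (continuous_tp n _).sub (continuous_tp n _)
    have hcI : Continuous fI := (continuous_tp n _).sub (continuous_tp n _)
    have hp1 : 1 ≤ ENNReal.ofReal p := by
      rw [← ENNReal.ofReal_one]; exact ENNReal.ofReal_le_ofReal hp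
    rw [hsplit]
    refine (eLpNorm_add_le hcR.aestronglyMeasurable
      (hcI.const_smul Complex.I).aestronglyMeasurable hp1).trans ?_
    have hsm : eLpNorm (Complex.I • fI) (ENNReal.ofReal p) (muT d) =
        eLpNorm fI (ENNReal.ofReal p) (muT d) := by
      rw [eLpNorm_const_smul]
      have : ‖Complex.I‖ₑ = 1 := by
        rw [← ofReal_norm, Complex.norm_I, ENNReal.ofReal_one]
      rw [this, one_mul]
    rw [hsm]
    refine (add_le_add hbR hbI).trans ?_
    rw [← ENNReal.ofReal_add (by positivity) (by positivity)]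
    apply ENNReal.ofReal_le_ofReal
    have : 0 ≤ Real.sqrt 8 * (((n : ℝ) + 1) ^ (-(1 / 2) : ℝ) * (DD d n / k) ^ γ) := by positivity
    nlinarith
  · push Not at hk8
    refine ⟨fun _ => ⟨0, by positivity⟩, fun c hc c' hc' _ => ?_⟩
    have hb : ∀ᵐ x ∂(muT d), ‖(tp n c - tp n c') x‖ ≤ 2 := by
      refine Filter.Eventually.of_forall fun x => ?_
      rw [Pi.sub_apply]
      have := norm_sub_le (tp n c x) (tp n c' x)
      have h3 := hc x
      have h4 := hc' x
      linarith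
    refine (eLpNorm_le_of_ae_bound hb).trans ?_
    rw [measure_univ, ENNReal.one_rpow, one_mul]
    apply ENNReal.ofReal_le_ofReal
    have hDn : (n : ℝ) + 1 ≤ DD d n := by
      unfold DD
      have h3 : (1 : ℝ) ≤ 2 ^ n := one_le_pow₀ (by norm_num)
      have h4 : (n : ℝ) + 1 ≤ ((n : ℝ) + 1) ^ (d - 1) := by
        have : (1 : ℝ) ≤ (n : ℝ) + 1 := by
          have : (0 : ℝ) ≤ n := Nat.cast_nonneg n
          linarith
        exact le_self_pow₀ this (by omega)
      have h5 : (0 : ℝ) ≤ ((n : ℝ) + 1) ^ (d - 1) := by positivity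
      nlinarith
    have h3 : (((n : ℝ) + 1) / 8) ^ (1 / 2 : ℝ) ≤ (DD d n / k) ^ γ := by
      have hk8' : (k : ℝ) ≤ 8 := by exact_mod_cast hk8.le
      calc (((n : ℝ) + 1) / 8) ^ (1 / 2 : ℝ) ≤ (DD d n / k) ^ (1 / 2 : ℝ) := by gcongr
        _ ≤ (DD d n / k) ^ γ := by
            apply Real.rpow_le_rpow_of_exponent_le _ h1.le
            rwa [le_div_iff₀ hk0, one_mul]
    have h4 : ((n : ℝ) + 1) ^ (-(1 / 2) : ℝ) * (((n : ℝ) + 1) / 8) ^ (1 / 2 : ℝ) =
        (Real.sqrt 8)⁻¹ := by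
      rw [Real.div_rpow (by positivity) (by norm_num), ← mul_div_assoc,
        ← Real.rpow_add (by positivity)]
      norm_num
      rw [Real.sqrt_eq_rpow]
    have h5 : (Real.sqrt 8)⁻¹ ≤ ((n : ℝ) + 1) ^ (-(1 / 2) : ℝ) * (DD d n / k) ^ γ := by
      rw [← h4]; gcongr
    have h8 : 0 < Real.sqrt 8 := by positivity
    have h6 : 1 ≤ Real.sqrt 8 * (((n : ℝ) + 1) ^ (-(1 / 2) : ℝ) * (DD d n / k) ^ γ) := by
      calc (1 : ℝ) = Real.sqrt 8 * (Real.sqrt 8)⁻¹ := by field_simp
        _ ≤ _ := by gcongr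
    have h7 : 0 ≤ C * (((n : ℝ) + 1) ^ (-(1 / 2) : ℝ) * (DD d n / k) ^ γ) := by positivity
    nlinarith

end Pool.Agent.LibEnt73
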