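import Pool.Agent.LibEnt73.Torus

/-! Task LV: refinement of cells in the finite dimensional space of polynomials (volume argument,
`Besicovitch.card_le_of_separated` may help). -/

namespace Pool.Agent.LibEnt73

open MeasureTheory ProbabilityTheory Finset UnitAddTorus

theorem layerVol_net {E : Type*} [NormedAddCommGroup E] [NormedSpace ℝ E] [FiniteDimensional ℝ E]
    (D : ℕ) (hD : Module.finrank ℝ E ≤ D) :
    ∃ N : Fin (5 ^ D) → E, ∀ y : E, ‖y‖ ≤ 1 → ∃ i, ‖y - N i‖ ≤ 1 / 2 := by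
  classical
  let P : ℕ → Prop := fun m => ∃ s : Finset E, s.card = m ∧ (∀ c ∈ s, ‖c‖ ≤ 2) ∧
    ∀ c ∈ s, ∀ d ∈ s, c ≠ d → 1 ≤ ‖c - d‖
  have hP0 : P 0 := ⟨∅, by simp⟩
  have hbd : ∀ m, P m → m ≤ 5 ^ D := by
    rintro m ⟨s, rfl, h1, h2⟩
    exact (Besicovitch.card_le_of_separated s h1 h2).trans (Nat.pow_le_pow_right (by norm_num) hD)
  obtain ⟨s, hs, h1, h2⟩ : P (Nat.findGreatest P (5 ^ D)) :=
    Nat.findGreatest_spec (Nat.zero_le _) hP0
  have hmax : ∀ y : E, ‖y‖ ≤ 2 → ∃ c ∈ s, ‖y - c‖ ≤ 1 := by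
    intro y hy
    by_contra hcon
    push Not at hcon
    have hys : y ∉ s := fun h => by
      have := hcon y h
      simp at this
      linarith
    have hP' : P (s.card + 1) := by
      refine ⟨insert y s, Finset.card_insert_of_notMem hys, ?_, ?_⟩
      · intro c hc
        rcases Finset.mem_insert.1 hc with rfl | hc
        · exact hy
        · exact h1 c hc
      · intro c hc e he hce
        rcases Finset.mem_insert.1 hc with hc1 | hc1
        · subst hc1
          rcases Finset.mem_insert.1 he with he1 | he1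
          · exact absurd he1.symm hce
          · exact (hcon e he1).le
        · rcases Finset.mem_insert.1 he with he1 | he1
          · subst he1
            rw [norm_sub_rev]
            exact (hcon c hc1).le
          · exact h2 c hc1 e he1 hce
    have := Nat.le_findGreatest (hbd _ hP') hP'
    omega
  have hcard : s.card ≤ 5 ^ D := hbd _ ⟨s, rfl, h1, h2⟩
  obtain ⟨c₀, hc₀, -⟩ := hmax 0 (by simp)
  have : Nonempty s := ⟨⟨c₀, hc₀⟩⟩
  obtain ⟨e⟩ : Nonempty (s ↪ Fin (5 ^ D)) := Function.Embedding.nonempty_of_card_le (by simpa using hcard)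
  refine ⟨fun i => (1 / 2 : ℝ) • ((Function.invFun e i : s) : E), fun y hy => ?_⟩
  obtain ⟨c, hc, hyc⟩ := hmax ((2 : ℝ) • y) (by rw [norm_smul]; norm_num; linarith)
  refine ⟨e ⟨c, hc⟩, ?_⟩
  dsimp only
  rw [Function.leftInverse_invFun e.injective]
  have : y - (1 / 2 : ℝ) • c = (1 / 2 : ℝ) • ((2 : ℝ) • y - c) := by
    rw [smul_sub, smul_smul]; norm_num
  rw [this, norm_smul]
  norm_num
  linarith

theorem layerVol_iter {E : Type*} [NormedAddCommGroup E] [NormedSpace ℝ E] [FiniteDimensional ℝ E]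
    (D : ℕ) (hD : Module.finrank ℝ E ≤ D) (ρ : ℝ) (hρ : 0 < ρ) (j : ℕ) :
    ∃ (χ : E → Fin (5 ^ (D * j))) (ctr : Fin (5 ^ (D * j)) → E),
      ∀ y : E, ‖y‖ ≤ ρ → ‖y - ctr (χ y)‖ ≤ ρ * (1 / 2) ^ j := by
  obtain ⟨N, hN⟩ := layerVol_net D hD
  induction j with
  | zero => exact ⟨fun _ => ⟨0, by simp⟩, fun _ => 0, fun y hy => by simpa using hy⟩
  | succ j ih =>
    obtain ⟨χ, ctr, h⟩ := ih
    obtain ⟨ρ', hρ'def⟩ : ∃ ρ' : ℝ, ρ' = ρ * (1 / 2) ^ j := ⟨_, rfl⟩
    rw [← hρ'def] at h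
    have hρ' : 0 < ρ' := by rw [hρ'def]; positivity
    have hex : ∀ z : E, ∃ i, ‖z‖ ≤ ρ' → ‖z - ρ' • N i‖ ≤ ρ' / 2 := by
      intro z
      by_cases hz : ‖z‖ ≤ ρ'
      · obtain ⟨i, hi⟩ := hN (ρ'⁻¹ • z) (by
          rw [norm_smul, norm_inv, Real.norm_of_nonneg hρ'.le, inv_mul_le_iff₀ hρ', mul_one]
          exact hz)
        refine ⟨i, fun _ => ?_⟩
        have : z - ρ' • N i = ρ' • (ρ'⁻¹ • z - N i) := by rw [smul_sub, smul_inv_smul₀ hρ'.ne']
        rw [this, norm_smul, Real.norm_of_nonneg hρ'.le]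
        nlinarith
      · exact ⟨⟨0, by positivity⟩, fun h => absurd h hz⟩
    choose g hg using hex
    have hcast : 5 ^ (D * j) * 5 ^ D = 5 ^ (D * (j + 1)) := by rw [← pow_add]; ring_nf
    refine ⟨fun y => Fin.cast hcast (finProdFinEquiv (χ y, g (y - ctr (χ y)))), fun k =>
      ctr (finProdFinEquiv.symm (Fin.cast hcast.symm k)).1 +
        ρ' • N (finProdFinEquiv.symm (Fin.cast hcast.symm k)).2, fun y hy => ?_⟩
    have e1 : finProdFinEquiv.symm (Fin.cast hcast.symm (Fin.cast hcast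
        (finProdFinEquiv (χ y, g (y - ctr (χ y)))))) = (χ y, g (y - ctr (χ y))) := by
      simp
    dsimp only
    rw [e1, ← sub_sub]
    refine (hg _ (h y hy)).trans (le_of_eq ?_)
    rw [hρ'def, pow_succ]
    ring

/-- the polynomial with coefficients `v` -/
noncomputable def layerVol_fun {d : ℕ} (n : ℕ) (v : (Q d n) → ℂ) (x : UnitAddTorus (Fin d)) : ℂ :=
  ∑ ξ : Q d n, v ξ * mFourier (ξ : Fin d → ℤ) x

theorem layerVol_fun_eq {d : ℕ} (n : ℕ) (c : (Fin d → ℤ) → ℂ) :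
    layerVol_fun n (fun ξ : Q d n => c ξ) = tp n c := by
  funext x
  unfold layerVol_fun tp
  exact Finset.sum_coe_sort (Q d n) (fun ξ => c ξ * mFourier ξ x)

theorem layerVol_memLp {d : ℕ} (n : ℕ) (v : (Q d n) → ℂ) (p : ENNReal) :
    MemLp (layerVol_fun n v) p (muT d) := by
  have hc : Continuous (layerVol_fun n v) := by
    unfold layerVol_fun
    exact continuous_finsetSum _ fun ξ _ => continuous_const.mul (mFourier _).continuous
  refine MemLp.of_bound hc.aestronglyMeasurable (∑ ξ : Q d n, ‖v ξ‖) (ae_of_all _ fun x => ?_)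
  unfold layerVol_fun
  refine (norm_sum_le _ _).trans (Finset.sum_le_sum fun ξ _ => ?_)
  rw [norm_mul]
  have : ‖mFourier (ξ : Fin d → ℤ) x‖ ≤ 1 := by
    have := (mFourier (ξ : Fin d → ℤ)).norm_coe_le_norm x
    rwa [mFourier_norm] at this
  exact mul_le_of_le_one_right (norm_nonneg _) this

/-- the linear map to `L_p` -/
noncomputable def layerVol_lin {d : ℕ} (n : ℕ) (p : ENNReal) [Fact (1 ≤ p)] :
    ((Q d n) → ℂ) →ₗ[ℝ] Lp ℂ p (muT d) where
  toFun v := (layerVol_memLp n v p).toLp _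
  map_add' v w := by
    rw [← MemLp.toLp_add]
    congr 1
    funext x
    simp only [layerVol_fun, Pi.add_apply, add_mul, Finset.sum_add_distrib]
  map_smul' r v := by
    rw [RingHom.id_apply, ← MemLp.toLp_const_smul]
    congr 1
    funext x
    simp only [layerVol_fun, Pi.smul_apply, Finset.smul_sum, smul_mul_assoc]

theorem vol_colouring (d : ℕ) (p : ℝ) (hp : 1 ≤ p) (n j : ℕ) (ρ : ℝ) (hρ : 0 < ρ) :
    ∃ χ : ((Fin d → ℤ) → ℂ) → Fin (5 ^ (2 * (Q d n).card * j)),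
      ∀ c c' : (Fin d → ℤ) → ℂ,
        eLpNorm (tp n c) (ENNReal.ofReal p) (muT d) ≤ ENNReal.ofReal ρ →
        eLpNorm (tp n c') (ENNReal.ofReal p) (muT d) ≤ ENNReal.ofReal ρ → χ c = χ c' →
        eLpNorm (tp n c - tp n c') (ENNReal.ofReal p) (muT d) ≤ ENNReal.ofReal (2 * ρ * (1 / 2) ^ j) := by
  have : Fact (1 ≤ ENNReal.ofReal p) := ⟨by simpa using hp⟩
  set A := layerVol_lin (d := d) n (ENNReal.ofReal p) with hA
  have hdim : Module.finrank ℝ (LinearMap.range A) ≤ 2 * (Q d n).card := by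
    refine (LinearMap.finrank_range_le A).trans ?_
    rw [Module.finrank_pi_fintype]
    simp [Complex.finrank_real_complex, mul_comm]
  obtain ⟨χ, ctr, h⟩ := layerVol_iter (E := LinearMap.range A) (2 * (Q d n).card) hdim ρ hρ j
  set y : ((Fin d → ℤ) → ℂ) → LinearMap.range A := fun c => ⟨A (fun ξ : Q d n => c ξ), ⟨_, rfl⟩⟩ with hy
  have hnorm : ∀ c, ‖y c‖ = (eLpNorm (tp n c) (ENNReal.ofReal p) (muT d)).toReal := by
    intro c
    rw [Submodule.coe_norm]
    change ‖(layerVol_memLp n (fun ξ : Q d n => c ξ) (ENNReal.ofReal p)).toLp _‖ = _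
    rw [Lp.norm_toLp, layerVol_fun_eq]
  have hsub : ∀ c c', ‖y c - y c'‖ = (eLpNorm (tp n c - tp n c') (ENNReal.ofReal p) (muT d)).toReal := by
    intro c c'
    have e1 : y c - y c' = y (c - c') := by
      apply Subtype.ext
      change A _ - A _ = A _
      rw [← map_sub]
      rfl
    have e2 : tp n c - tp n c' = tp n (c - c') := by
      funext x
      simp only [tp, Pi.sub_apply, sub_mul, Finset.sum_sub_distrib]
    rw [e1, e2, hnorm]
  have hfin : ∀ c c', eLpNorm (tp n c - tp n c') (ENNReal.ofReal p) (muT d) ≠ ⊤ := by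
    intro c c'
    have h1 := layerVol_memLp n (fun ξ : Q d n => c ξ) (ENNReal.ofReal p)
    have h2 := layerVol_memLp n (fun ξ : Q d n => c' ξ) (ENNReal.ofReal p)
    rw [layerVol_fun_eq] at h1 h2
    exact (h1.sub h2).2.ne
  refine ⟨fun c => χ (y c), fun c c' hc hc' hχ => ?_⟩
  have h1 : ‖y c‖ ≤ ρ := by
    rw [hnorm]
    exact ENNReal.toReal_le_of_le_ofReal hρ.le hc
  have h2 : ‖y c'‖ ≤ ρ := by
    rw [hnorm]
    exact ENNReal.toReal_le_of_le_ofReal hρ.le hc'
  have h3 : ‖y c - y c'‖ ≤ 2 * ρ * (1 / 2) ^ j := by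
    have e1 := h _ h1
    have e2 := h _ h2
    dsimp only at hχ
    rw [← hχ] at e2
    calc ‖y c - y c'‖ = ‖(y c - ctr (χ (y c))) - (y c' - ctr (χ (y c)))‖ := by congr 1; abel
      _ ≤ ‖y c - ctr (χ (y c))‖ + ‖y c' - ctr (χ (y c))‖ := norm_sub_le _ _
      _ ≤ _ := by linarith
  rw [hsub] at h3
  rw [← ENNReal.ofReal_toReal (hfin c c')]
  exact ENNReal.ofReal_le_ofReal h3

end Pool.Agent.LibEnt73
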