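import Pool.Agent.LibEnt73.LayerLow
import Pool.Agent.LibEnt73.LayerVol

/-! Task SL: the single scale theorem (uses low_bits, vol_colouring, card_Q_le). -/

namespace Pool.Agent.LibEnt73

open MeasureTheory ProbabilityTheory Finset UnitAddTorus

/-- representatives of the colours -/
theorem layerSL_rep {A κ : Type*} [Fintype κ] (S : Set A) (χ : A → κ) :
    ∃ Y : Finset A, Y.card ≤ Fintype.card κ ∧ (∀ y ∈ Y, y ∈ S) ∧ ∀ c ∈ S, ∃ y ∈ Y, χ y = χ c := by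
  classical
  rcases S.eq_empty_or_nonempty with h | ⟨c0, hc0⟩
  · exact ⟨∅, by simp, by simp, fun c hc => by simp [h] at hc⟩
  · have hr : ∀ i : κ, ∃ c ∈ S, (∃ c' ∈ S, χ c' = i) → χ c = i := by
      intro i
      by_cases hi : ∃ c' ∈ S, χ c' = i
      · obtain ⟨c', h1, h2⟩ := hi
        exact ⟨c', h1, fun _ => h2⟩
      · exact ⟨c0, hc0, fun h => absurd h hi⟩
    choose r hrS hr using hr
    refine ⟨Finset.univ.image r, Finset.card_image_le, ?_, ?_⟩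
    · intro y hy
      obtain ⟨i, -, rfl⟩ := Finset.mem_image.1 hy
      exact hrS i
    · intro c hc
      exact ⟨r (χ c), Finset.mem_image_of_mem r (Finset.mem_univ _), hr (χ c) ⟨c, hc, rfl⟩⟩

theorem layerSL_tp_sub {d : ℕ} (n : ℕ) (c z : (Fin d → ℤ) → ℂ) : tp n (c - z) = tp n c - tp n z := by
  funext x
  simp [tp, sub_mul, Finset.sum_sub_distrib]

theorem layerSL_D_ge (d n : ℕ) : 1 ≤ DD d n := by
  unfold DD
  have h1 : (1 : ℝ) ≤ 2 ^ n := one_le_pow₀ (by norm_num)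
  have h2 : (1 : ℝ) ≤ ((n : ℝ) + 1) ^ (d - 1) := one_le_pow₀ (by linarith [Nat.cast_nonneg (α := ℝ) n])
  nlinarith

/-- `t ^ γ` is bounded by an exponential -/
theorem layerSL_exp (γ : ℝ) (hγ : 0 < γ) (t : ℝ) (ht : 0 < t) :
    t ^ γ ≤ (24 * γ / Real.log 2) ^ γ * (2 : ℝ) ^ (t / 24) := by
  have hl : 0 < Real.log 2 := Real.log_pos (by norm_num)
  have h1 : t * Real.log 2 / (24 * γ) ≤ Real.exp (t * Real.log 2 / (24 * γ)) := by
    linarith [Real.add_one_le_exp (t * Real.log 2 / (24 * γ))]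
  have h2 : (t * Real.log 2 / (24 * γ)) ^ γ ≤ (Real.exp (t * Real.log 2 / (24 * γ))) ^ γ :=
    Real.rpow_le_rpow (by positivity) h1 hγ.le
  have h3 : (Real.exp (t * Real.log 2 / (24 * γ))) ^ γ = (2 : ℝ) ^ (t / 24) := by
    rw [← Real.exp_mul, Real.rpow_def_of_pos (by norm_num : (0 : ℝ) < 2)]
    congr 1
    field_simp
  have h4 : t ^ γ = (24 * γ / Real.log 2) ^ γ * (t * Real.log 2 / (24 * γ)) ^ γ := by
    rw [← Real.mul_rpow (by positivity) (by positivity)]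
    congr 1
    field_simp
  rw [h4, ← h3]
  exact mul_le_mul_of_nonneg_left h2 (by positivity)

theorem single_layer (d : ℕ) (hd : 3 ≤ d) (p : ℝ) (hp : 1 ≤ p) (γ : ℝ) (h1 : 1 / 2 < γ)
    (h2 : 1 - 1 / p < γ) : ∃ C c₀ : ℝ, 0 < C ∧ 0 < c₀ ∧ ∀ n k : ℕ, 1 ≤ k →
    ∃ Y : Finset ((Fin d → ℤ) → ℂ), Y.card ≤ 2 ^ k ∧ ∀ c ∈ KC d n, ∃ y ∈ Y,
      eLpNorm (tp n c - tp n y) (ENNReal.ofReal p) (muT d) ≤
        ENNReal.ofReal (C * ((n : ℝ) + 1) ^ (-(1 / 2) : ℝ) * (DD d n / k) ^ γ *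
          (2 : ℝ) ^ (-(c₀ * k / DD d n))) := by
  obtain ⟨C₁, hC₁, hlow⟩ := low_bits d hd p hp γ h1 h2
  have hγ : 0 < γ := by linarith
  have hl : 0 < Real.log 2 := Real.log_pos (by norm_num)
  set C₂ : ℝ := (24 * γ / Real.log 2) ^ γ with hC₂
  have hC₂0 : 0 < C₂ := by positivity
  refine ⟨2 * C₁ + 8 * C₁ * 2 ^ γ * C₂, 1 / 24, by positivity, by norm_num, fun n k hk => ?_⟩
  have hD := layerSL_D_ge d n
  have hD0 : 0 < DD d n := by linarith
  have hk0 : (0 : ℝ) < k := by exact_mod_cast hk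
  have hn0 : (0 : ℝ) < ((n : ℝ) + 1) ^ (-(1 / 2) : ℝ) := by positivity
  rcases le_or_gt (k : ℝ) (DD d n) with hkD | hkD
  · obtain ⟨χ, hχ⟩ := hlow n k hk hkD
    obtain ⟨Y, hY, hYS, hYc⟩ := layerSL_rep (KC d n) χ
    refine ⟨Y, by simpa using hY, fun c hc => ?_⟩
    obtain ⟨y, hy, hyc⟩ := hYc c hc
    refine ⟨y, hy, (hχ c hc y (hYS y hy) hyc.symm).trans (ENNReal.ofReal_le_ofReal ?_)⟩
    have h3 : (1 : ℝ) / 2 ≤ (2 : ℝ) ^ (-(1 / 24 * k / DD d n)) := by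
      have h4 : (1 : ℝ) / 2 = (2 : ℝ) ^ (-1 : ℝ) := by
        rw [Real.rpow_neg_one]
        norm_num
      rw [h4]
      refine Real.rpow_le_rpow_of_exponent_le (by norm_num) ?_
      have h5 : 1 / 24 * (k : ℝ) / DD d n ≤ 1 := by
        rw [div_le_one hD0]
        linarith
      linarith
    have h6 : 0 < (DD d n / k) ^ γ := Real.rpow_pos_of_pos (by positivity) _
    calc C₁ * ((n : ℝ) + 1) ^ (-(1 / 2) : ℝ) * (DD d n / k) ^ γ
        = (2 * C₁ * ((n : ℝ) + 1) ^ (-(1 / 2) : ℝ) * (DD d n / k) ^ γ) * (1 / 2) := by ring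
      _ ≤ (2 * C₁ * ((n : ℝ) + 1) ^ (-(1 / 2) : ℝ) * (DD d n / k) ^ γ) *
          (2 : ℝ) ^ (-(1 / 24 * k / DD d n)) := mul_le_mul_of_nonneg_left h3 (by positivity)
      _ ≤ (2 * C₁ + 8 * C₁ * 2 ^ γ * C₂) * ((n : ℝ) + 1) ^ (-(1 / 2) : ℝ) * (DD d n / k) ^ γ *
          (2 : ℝ) ^ (-(1 / 24 * k / DD d n)) := by
        have h7 : 2 * C₁ ≤ 2 * C₁ + 8 * C₁ * 2 ^ γ * C₂ := by
          have : 0 ≤ 8 * C₁ * 2 ^ γ * C₂ := by positivity
          linarith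
        gcongr
  · -- many bits
    obtain ⟨k₁, hk₁⟩ : ∃ k₁ : ℕ, k₁ = ⌊DD d n⌋₊ := ⟨_, rfl⟩
    have hk₁D : (k₁ : ℝ) ≤ DD d n := hk₁ ▸ Nat.floor_le hD0.le
    have hk₁1 : 1 ≤ k₁ := by
      rw [hk₁]
      exact Nat.le_floor (by exact_mod_cast hD)
    have hk₁h : DD d n / k₁ ≤ 2 := by
      have h3 : DD d n < k₁ + 1 := hk₁ ▸ Nat.lt_floor_add_one _
      have h4 : (1 : ℝ) ≤ k₁ := by exact_mod_cast hk₁1
      rw [div_le_iff₀ (by linarith)]
      linarith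
    have hk₁k : k₁ ≤ k := by
      have : (k₁ : ℝ) ≤ k := hk₁D.trans hkD.le
      exact_mod_cast this
    obtain ⟨χ, hχ⟩ := hlow n k₁ hk₁1 hk₁D
    obtain ⟨ρ, hρ⟩ : ∃ ρ : ℝ, ρ = C₁ * ((n : ℝ) + 1) ^ (-(1 / 2) : ℝ) * (DD d n / k₁) ^ γ := ⟨_, rfl⟩
    have hk₁0 : (0 : ℝ) < k₁ := by exact_mod_cast hk₁1
    have hρ0 : 0 < ρ := by
      rw [hρ]
      have : 0 < (DD d n / k₁) ^ γ := Real.rpow_pos_of_pos (by positivity) _
      positivity
    obtain ⟨j, hj⟩ : ∃ j : ℕ, j = ⌊((k : ℝ) - k₁) / (12 * DD d n)⌋₊ := ⟨_, rfl⟩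
    have hnn : 0 ≤ ((k : ℝ) - k₁) / (12 * DD d n) :=
      div_nonneg (by linarith) (by linarith)
    have hjle : (j : ℝ) ≤ ((k : ℝ) - k₁) / (12 * DD d n) := hj ▸ Nat.floor_le hnn
    have hjgt : ((k : ℝ) - k₁) / (12 * DD d n) < j + 1 := hj ▸ Nat.lt_floor_add_one _
    obtain ⟨χ₂, hχ₂⟩ := vol_colouring d p hp n j ρ hρ0
    -- representatives of the first colouring
    have hz : ∀ i, ∃ z : (Fin d → ℤ) → ℂ, (∃ c ∈ KC d n, χ c = i) → z ∈ KC d n ∧ χ z = i := by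
      intro i
      by_cases hi : ∃ c ∈ KC d n, χ c = i
      · obtain ⟨c, hc, hci⟩ := hi
        exact ⟨c, fun _ => ⟨hc, hci⟩⟩
      · exact ⟨0, fun h => absurd h hi⟩
    choose z hz using hz
    obtain ⟨Y, hY, hYS, hYc⟩ := layerSL_rep (KC d n) (fun c => (χ c, χ₂ (c - z (χ c))))
    refine ⟨Y, ?_, fun c hc => ?_⟩
    · refine hY.trans ?_
      rw [Fintype.card_prod, Fintype.card_fin, Fintype.card_fin]
      have hQ := card_Q_le d n (by omega)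
      have hQ' : ((Q d n).card : ℝ) ≤ 2 * DD d n := by
        refine hQ.trans (le_of_eq ?_)
        unfold DD
        rw [pow_succ]
        ring
      have h5 : 5 * (Q d n).card * j ≤ k - k₁ := by
        have h6 : (5 : ℝ) * (Q d n).card * j ≤ k - k₁ := by
          calc (5 : ℝ) * (Q d n).card * j ≤ 5 * (2 * DD d n) * (((k : ℝ) - k₁) / (12 * DD d n)) := by
                gcongr
            _ = 10 / 12 * ((k : ℝ) - k₁) := by
                field_simp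
                ring
            _ ≤ k - k₁ := by linarith
        have h7 : ((5 * (Q d n).card * j : ℕ) : ℝ) ≤ ((k - k₁ : ℕ) : ℝ) := by
          push_cast [Nat.cast_sub hk₁k]
          exact h6
        exact_mod_cast h7
      calc 2 ^ k₁ * 5 ^ (2 * (Q d n).card * j) = 2 ^ k₁ * 25 ^ ((Q d n).card * j) := by
            rw [mul_assoc 2, pow_mul]
            norm_num
        _ ≤ 2 ^ k₁ * 32 ^ ((Q d n).card * j) := by gcongr; norm_num
        _ = 2 ^ (k₁ + 5 * (Q d n).card * j) := by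
            have h32 : (2 : ℕ) ^ (5 * ((Q d n).card * j)) = 32 ^ ((Q d n).card * j) := by
              rw [pow_mul]
              norm_num
            rw [pow_add, mul_assoc 5, h32]
        _ ≤ 2 ^ k := Nat.pow_le_pow_right (by norm_num) (by omega)
    · obtain ⟨y, hy, hyc⟩ := hYc c hc
      have hyc1 : χ y = χ c := congrArg Prod.fst hyc
      have hyc2 : χ₂ (y - z (χ y)) = χ₂ (c - z (χ c)) := congrArg Prod.snd hyc
      obtain ⟨hzK, hzχ⟩ := hz (χ c) ⟨c, hc, rfl⟩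
      rw [hyc1] at hyc2
      refine ⟨y, hy, ?_⟩
      have hc1 := hχ c hc (z (χ c)) hzK hzχ.symm
      have hy1 := hχ y (hYS y hy) (z (χ c)) hzK (hyc1.trans hzχ.symm)
      rw [← layerSL_tp_sub, ← hρ] at hc1 hy1
      have h8 := hχ₂ (c - z (χ c)) (y - z (χ c)) hc1 hy1 hyc2.symm
      rw [layerSL_tp_sub, layerSL_tp_sub, sub_sub_sub_cancel_right] at h8
      refine h8.trans (ENNReal.ofReal_le_ofReal ?_)
      obtain ⟨t, ht⟩ : ∃ t : ℝ, t = k / DD d n := ⟨_, rfl⟩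
      have ht0 : 0 < t := by rw [ht]; positivity
      have hρle : ρ ≤ C₁ * ((n : ℝ) + 1) ^ (-(1 / 2) : ℝ) * 2 ^ γ := by
        rw [hρ]
        have : (DD d n / k₁) ^ γ ≤ 2 ^ γ := Real.rpow_le_rpow (by positivity) hk₁h hγ.le
        gcongr
      have hjt : t / 12 - 2 ≤ (j : ℝ) := by
        have h9 : ((k : ℝ) - DD d n) / (12 * DD d n) ≤ ((k : ℝ) - k₁) / (12 * DD d n) := by
          gcongr
        have h10 : ((k : ℝ) - DD d n) / (12 * DD d n) = t / 12 - 1 / 12 := by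
          rw [ht]
          field_simp
        linarith
      have hpow : ((1 : ℝ) / 2) ^ j ≤ 4 * (2 : ℝ) ^ (-(t / 12)) := by
        have h11 : ((1 : ℝ) / 2) ^ j = (2 : ℝ) ^ (-(j : ℝ)) := by
          rw [Real.rpow_neg (by norm_num), Real.rpow_natCast, one_div, inv_pow]
        have h12 : (4 : ℝ) * (2 : ℝ) ^ (-(t / 12)) = (2 : ℝ) ^ (2 - t / 12) := by
          rw [sub_eq_add_neg, Real.rpow_add (by norm_num)]
          norm_num
        rw [h11, h12]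
        exact Real.rpow_le_rpow_of_exponent_le (by norm_num) (by linarith)
      have hexp := layerSL_exp γ hγ t ht0
      rw [← hC₂] at hexp
      have htγ : 0 < t ^ γ := Real.rpow_pos_of_pos ht0 _
      have hDk : (DD d n / k) ^ γ = (t ^ γ)⁻¹ := by
        rw [ht, ← Real.inv_rpow (by positivity), inv_div]
      have h13 : (2 : ℝ) ^ (-(t / 12)) ≤ C₂ * (DD d n / k) ^ γ * (2 : ℝ) ^ (-(1 / 24 * k / DD d n)) := by
        have h14 : (2 : ℝ) ^ (-(1 / 24 * k / DD d n)) = (2 : ℝ) ^ (-(t / 24)) := by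
          congr 1
          rw [ht]
          ring
        have h15 : (2 : ℝ) ^ (-(t / 12)) = (2 : ℝ) ^ (-(t / 24)) * (2 : ℝ) ^ (-(t / 24)) := by
          rw [← Real.rpow_add (by norm_num)]
          congr 1
          ring
        have h16 : (2 : ℝ) ^ (-(t / 24)) ≤ C₂ * (t ^ γ)⁻¹ := by
          rw [Real.rpow_neg (by norm_num), ← div_eq_mul_inv, le_div_iff₀ htγ, inv_mul_le_iff₀ (by positivity)]
          linarith
        rw [h14, h15, hDk]
        exact mul_le_mul_of_nonneg_right h16 (by positivity)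
      have h17 : 0 < (DD d n / k) ^ γ := Real.rpow_pos_of_pos (by positivity) _
      calc 2 * ρ * (1 / 2) ^ j ≤ 2 * (C₁ * ((n : ℝ) + 1) ^ (-(1 / 2) : ℝ) * 2 ^ γ) *
            (4 * (2 : ℝ) ^ (-(t / 12))) := by gcongr
        _ ≤ 2 * (C₁ * ((n : ℝ) + 1) ^ (-(1 / 2) : ℝ) * 2 ^ γ) *
            (4 * (C₂ * (DD d n / k) ^ γ * (2 : ℝ) ^ (-(1 / 24 * k / DD d n)))) := by gcongr
        _ = (8 * C₁ * 2 ^ γ * C₂) * ((n : ℝ) + 1) ^ (-(1 / 2) : ℝ) * (DD d n / k) ^ γ *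
            (2 : ℝ) ^ (-(1 / 24 * k / DD d n)) := by ring
        _ ≤ (2 * C₁ + 8 * C₁ * 2 ^ γ * C₂) * ((n : ℝ) + 1) ^ (-(1 / 2) : ℝ) * (DD d n / k) ^ γ *
            (2 : ℝ) ^ (-(1 / 24 * k / DD d n)) := by
          have h18 : 8 * C₁ * 2 ^ γ * C₂ ≤ 2 * C₁ + 8 * C₁ * 2 ^ γ * C₂ := by linarith
          gcongr

end Pool.Agent.LibEnt73
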