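import Pool.Agent.LibEnt73.LowerDefs

/-! Task LA: cardinality of the layer, Hamming balls. -/

namespace Pool.Agent.LibEnt73

open MeasureTheory Finset UnitAddTorus

theorem lowerA_mem {d n : ℕ} {ξ : Fin d → ℤ} : ξ ∈ PP d n ↔ tsz ξ = n ∧ ∀ i, 0 ≤ ξ i := by
  unfold PP
  rw [Finset.mem_filter, mem_dQ]

/-- nonnegative integers of dyadic size `s` -/
noncomputable def lowerA_A (s : ℕ) : Finset ℤ := Finset.Ico (if s = 0 then 0 else 2 ^ (s - 1)) (2 ^ s)

theorem lowerA_mem_A {s : ℕ} {v : ℤ} : v ∈ lowerA_A s ↔ sz v = s ∧ 0 ≤ v := by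
  unfold lowerA_A sz
  rw [Finset.mem_Ico]
  constructor
  · rintro ⟨h1, h2⟩
    have h0 : 0 ≤ v := by
      refine le_trans ?_ h1
      split_ifs
      · exact le_rfl
      · positivity
    obtain ⟨m, rfl⟩ := Int.eq_ofNat_of_zero_le h0
    refine ⟨?_, h0⟩
    rw [Int.natAbs_natCast]
    apply le_antisymm
    · rw [Nat.size_le]; exact_mod_cast h2
    · by_cases hs : s = 0
      · omega
      · rw [if_neg hs] at h1
        have : s - 1 < Nat.size m := by
          rw [Nat.lt_size]; exact_mod_cast h1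
        omega
  · rintro ⟨h1, h0⟩
    obtain ⟨m, rfl⟩ := Int.eq_ofNat_of_zero_le h0
    rw [Int.natAbs_natCast] at h1
    constructor
    · by_cases hs : s = 0
      · rw [if_pos hs]; exact h0
      · rw [if_neg hs]
        have : s - 1 < Nat.size m := by omega
        rw [Nat.lt_size] at this
        exact_mod_cast this
    · have : m < 2 ^ s := Nat.size_le.1 h1.le
      exact_mod_cast this

theorem lowerA_card_A (s : ℕ) : (lowerA_A s).card = if s = 0 then 1 else 2 ^ (s - 1) := by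
  unfold lowerA_A
  rw [Int.card_Ico]
  by_cases hs : s = 0
  · subst hs; simp
  · rw [if_neg hs, if_neg hs]
    obtain ⟨t, rfl⟩ : ∃ t, s = t + 1 := ⟨s - 1, by omega⟩
    rw [Nat.add_sub_cancel]
    have : (2 : ℤ) ^ (t + 1) - 2 ^ t = ((2 ^ t : ℕ) : ℤ) := by
      push_cast; ring
    rw [this, Int.toNat_natCast]

theorem lowerA_card_A_le (s : ℕ) : ((lowerA_A s).card : ℝ) ≤ 2 ^ s := by
  rw [lowerA_card_A]
  split_ifs with h
  · subst h; simp
  · push_cast
    exact pow_le_pow_right₀ (by norm_num) (by omega)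

theorem lowerA_card_A_ge (s : ℕ) : (2 : ℝ) ^ s / 2 ≤ ((lowerA_A s).card : ℝ) := by
  rw [lowerA_card_A]
  split_ifs with h
  · subst h; norm_num
  · obtain ⟨t, rfl⟩ : ∃ t, s = t + 1 := ⟨s - 1, by omega⟩
    rw [Nat.add_sub_cancel]
    push_cast
    rw [pow_succ]
    linarith

theorem lowerA_rec (d n : ℕ) : (PP (d + 1) n).card =
    ∑ s ∈ range (n + 1), (lowerA_A s).card * (PP d (n - s)).card := by
  have h1 : ∑ s ∈ range (n + 1), (lowerA_A s).card * (PP d (n - s)).card =
      ((range (n + 1)).sigma fun s => lowerA_A s ×ˢ PP d (n - s)).card := by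
    rw [Finset.card_sigma]
    exact Finset.sum_congr rfl fun s _ => (Finset.card_product _ _).symm
  rw [h1]
  refine Finset.card_nbij' (fun ξ => ⟨sz (ξ 0), (ξ 0, Fin.tail ξ)⟩)
    (fun p => Fin.cons p.2.1 p.2.2) ?_ ?_ ?_ ?_
  · intro ξ hξ
    rw [Finset.mem_coe, lowerA_mem] at hξ
    obtain ⟨h2, h3⟩ := hξ
    have h4 : sz (ξ 0) + tsz (Fin.tail ξ) = n := by
      rw [← h2]; unfold tsz; rw [Fin.sum_univ_succ]; rfl
    rw [Finset.mem_coe, Finset.mem_sigma, Finset.mem_range, Finset.mem_product, lowerA_mem,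
      lowerA_mem_A]
    refine ⟨?_, ⟨rfl, h3 0⟩, ?_, fun i => h3 i.succ⟩
    · change sz (ξ 0) < n + 1
      omega
    · change tsz (Fin.tail ξ) = n - sz (ξ 0)
      omega
  · rintro ⟨s, v, η⟩ hp
    rw [Finset.mem_coe, Finset.mem_sigma, Finset.mem_range, Finset.mem_product, lowerA_mem,
      lowerA_mem_A] at hp
    obtain ⟨h2, ⟨h3, h4⟩, h5, h6⟩ := hp
    simp only at h2 h3 h4 h5 h6
    rw [Finset.mem_coe, lowerA_mem]
    constructor
    · unfold tsz at h5 ⊢
      rw [Fin.sum_univ_succ]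
      simp only [Fin.cons_zero, Fin.cons_succ]
      omega
    · intro i
      refine Fin.cases ?_ (fun i => ?_) i
      · simpa using h4
      · simpa using h6 i
  · intro ξ _
    exact Fin.cons_self_tail ξ
  · rintro ⟨s, v, η⟩ hp
    rw [Finset.mem_coe, Finset.mem_sigma, Finset.mem_range, Finset.mem_product, lowerA_mem,
      lowerA_mem_A] at hp
    obtain ⟨h2, ⟨h3, h4⟩, h5, h6⟩ := hp
    simp only at h3
    simp only [Fin.cons_zero, Fin.tail_cons]
    rw [h3]

theorem lowerA_zero (n : ℕ) : (PP 0 n).card = if n = 0 then 1 else 0 := by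
  split_ifs with h
  · subst h
    rw [Finset.card_eq_one]
    refine ⟨Fin.elim0, ?_⟩
    ext ξ
    rw [lowerA_mem, Finset.mem_singleton]
    constructor
    · intro _; exact Subsingleton.elim _ _
    · intro _; exact ⟨by simp [tsz], fun i => i.elim0⟩
  · rw [Finset.card_eq_zero]
    ext ξ
    rw [lowerA_mem]
    simp only [tsz, Finset.univ_eq_empty, Finset.sum_empty, Finset.notMem_empty, iff_false, not_and]
    intro h'; exact absurd h'.symm h

theorem lowerA_one (n : ℕ) : (PP 1 n).card = (lowerA_A n).card := by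
  rw [lowerA_rec 0 n, Finset.sum_eq_single n]
  · rw [lowerA_zero]; simp
  · intro s hs hsn
    rw [Finset.mem_range] at hs
    rw [lowerA_zero, if_neg (by omega), mul_zero]
  · intro h; exact absurd (Finset.mem_range.2 (Nat.lt_succ_self n)) h

theorem card_PP_ge (d : ℕ) (hd : 1 ≤ d) : ∃ c : ℝ, 0 < c ∧ ∀ n : ℕ, 1 ≤ n →
    c * (2 ^ n * (n : ℝ) ^ (d - 1)) ≤ ((PP d n).card : ℝ) := by
  induction d, hd using Nat.le_induction with
  | base =>
    refine ⟨1 / 2, by norm_num, fun n _ => ?_⟩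
    rw [lowerA_one]
    have := lowerA_card_A_ge n
    simp only [Nat.sub_self, pow_zero, mul_one]
    linarith
  | succ d hd ih =>
    obtain ⟨c, hc, h⟩ := ih
    refine ⟨c / 2 ^ (d + 1), by positivity, fun n hn => ?_⟩
    rw [lowerA_rec]
    push_cast
    have hsub : range (n / 2 + 1) ⊆ range (n + 1) := Finset.range_mono (by omega)
    have h1 : ∑ s ∈ range (n / 2 + 1), (c / 2) * (2 ^ n * ((n : ℝ) / 2) ^ (d - 1)) ≤
        ∑ s ∈ range (n + 1), ((lowerA_A s).card : ℝ) * ((PP d (n - s)).card : ℝ) := by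
      calc ∑ s ∈ range (n / 2 + 1), (c / 2) * (2 ^ n * ((n : ℝ) / 2) ^ (d - 1))
          ≤ ∑ s ∈ range (n / 2 + 1), ((lowerA_A s).card : ℝ) * ((PP d (n - s)).card : ℝ) := by
            apply Finset.sum_le_sum
            intro s hs
            rw [Finset.mem_range] at hs
            have hs1 : 1 ≤ n - s := by omega
            have h2 := h (n - s) hs1
            have h3 := lowerA_card_A_ge s
            have h4 : (n : ℝ) / 2 ≤ ((n - s : ℕ) : ℝ) := by
              have : n ≤ 2 * (n - s) := by omega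
              have h5 : (n : ℝ) ≤ 2 * ((n - s : ℕ) : ℝ) := by exact_mod_cast this
              linarith
            have h5 : ((n : ℝ) / 2) ^ (d - 1) ≤ ((n - s : ℕ) : ℝ) ^ (d - 1) :=
              pow_le_pow_left₀ (by positivity) h4 _
            have h6 : (2 : ℝ) ^ n = 2 ^ s * 2 ^ (n - s) := by
              rw [← pow_add]; congr 1; omega
            calc (c / 2) * (2 ^ n * ((n : ℝ) / 2) ^ (d - 1))
                = (2 ^ s / 2) * (c * (2 ^ (n - s) * ((n : ℝ) / 2) ^ (d - 1))) := by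
                  rw [h6]; ring
              _ ≤ (2 ^ s / 2) * (c * (2 ^ (n - s) * ((n - s : ℕ) : ℝ) ^ (d - 1))) := by
                  gcongr
              _ ≤ ((lowerA_A s).card : ℝ) * ((PP d (n - s)).card : ℝ) :=
                  mul_le_mul h3 h2 (by positivity) (by positivity)
        _ ≤ _ := Finset.sum_le_sum_of_subset_of_nonneg hsub fun _ _ _ => by positivity
    rw [Finset.sum_const, Finset.card_range, nsmul_eq_mul] at h1
    refine le_trans ?_ h1
    have h7 : (n : ℝ) / 2 ≤ ((n / 2 + 1 : ℕ) : ℝ) := by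
      have : n ≤ 2 * (n / 2 + 1) := by omega
      have h5 : (n : ℝ) ≤ 2 * ((n / 2 + 1 : ℕ) : ℝ) := by exact_mod_cast this
      linarith
    have h8 : (0 : ℝ) ≤ (c / 2) * (2 ^ n * ((n : ℝ) / 2) ^ (d - 1)) := by positivity
    refine le_trans (le_of_eq ?_) (mul_le_mul_of_nonneg_right h7 h8)
    obtain ⟨e, rfl⟩ : ∃ e, d = e + 1 := ⟨d - 1, by omega⟩
    simp only [Nat.add_sub_cancel]
    rw [div_pow, pow_succ (n : ℝ) e]
    field_simp
    ring

theorem card_PP_le (d n : ℕ) (hd : 1 ≤ d) : ((PP d n).card : ℝ) ≤ DD d n := by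
  induction d, hd using Nat.le_induction generalizing n with
  | base =>
    rw [lowerA_one]
    have := lowerA_card_A_le n
    simpa [DD] using this
  | succ d hd ih =>
    rw [lowerA_rec]
    push_cast
    calc ∑ s ∈ range (n + 1), ((lowerA_A s).card : ℝ) * ((PP d (n - s)).card : ℝ)
        ≤ ∑ s ∈ range (n + 1), 2 ^ n * ((n : ℝ) + 1) ^ (d - 1) := by
          apply Finset.sum_le_sum
          intro s hs
          rw [Finset.mem_range] at hs
          have h1 := lowerA_card_A_le s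
          have h2 := ih (n - s)
          unfold DD at h2
          have h3 : ((n - s : ℕ) : ℝ) + 1 ≤ (n : ℝ) + 1 := by
            have : ((n - s : ℕ) : ℝ) ≤ (n : ℝ) := by exact_mod_cast Nat.sub_le n s
            linarith
          have h4 : (((n - s : ℕ) : ℝ) + 1) ^ (d - 1) ≤ ((n : ℝ) + 1) ^ (d - 1) :=
            pow_le_pow_left₀ (by positivity) h3 _
          have h6 : (2 : ℝ) ^ n = 2 ^ s * 2 ^ (n - s) := by
            rw [← pow_add]; congr 1; omega
          calc ((lowerA_A s).card : ℝ) * ((PP d (n - s)).card : ℝ)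
              ≤ 2 ^ s * (2 ^ (n - s) * (((n - s : ℕ) : ℝ) + 1) ^ (d - 1)) :=
                mul_le_mul h1 h2 (by positivity) (by positivity)
            _ ≤ 2 ^ s * (2 ^ (n - s) * ((n : ℝ) + 1) ^ (d - 1)) := by gcongr
            _ = 2 ^ n * ((n : ℝ) + 1) ^ (d - 1) := by rw [h6]; ring
      _ = DD (d + 1) n := by
          rw [Finset.sum_const, Finset.card_range, nsmul_eq_mul]
          obtain ⟨e, rfl⟩ : ∃ e, d = e + 1 := ⟨d - 1, by omega⟩
          unfold DD
          simp only [Nat.add_sub_cancel]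
          push_cast
          ring

theorem lowerA_ball {α : Type*} [DecidableEq α] (P : Finset α) :
    ((P.powerset.filter fun S => 16 * S.card ≤ P.card).card : ℝ) ≤ 2 ^ ((P.card : ℝ) / 2) := by
  set N := P.card with hN
  have h1 : ((P.powerset.filter fun S => 16 * S.card ≤ N).card : ℝ) ≤
      ∑ S ∈ P.powerset, (1 / 16 : ℝ) ^ S.card * 2 ^ ((N : ℝ) / 4) := by
    rw [Finset.card_eq_sum_ones]
    push_cast
    calc ∑ S ∈ P.powerset.filter (fun S => 16 * S.card ≤ N), (1 : ℝ)
        ≤ ∑ S ∈ P.powerset.filter (fun S => 16 * S.card ≤ N),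
          (1 / 16 : ℝ) ^ S.card * 2 ^ ((N : ℝ) / 4) := by
          apply Finset.sum_le_sum
          intro S hS
          have h2 := (Finset.mem_filter.1 hS).2
          have h3 : (4 * S.card : ℝ) ≤ (N : ℝ) / 4 := by
            have : (16 * S.card : ℝ) ≤ N := by exact_mod_cast h2
            linarith
          have h4 : (16 : ℝ) ^ S.card ≤ 2 ^ ((N : ℝ) / 4) := by
            calc (16 : ℝ) ^ S.card = (2 : ℝ) ^ (4 * S.card) := by
                  rw [pow_mul]; norm_num
              _ = (2 : ℝ) ^ (((4 * S.card : ℕ)) : ℝ) := by rw [Real.rpow_natCast]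
              _ ≤ 2 ^ ((N : ℝ) / 4) := by
                  apply Real.rpow_le_rpow_of_exponent_le (by norm_num)
                  push_cast
                  exact h3
          rw [one_div, inv_pow, ← div_eq_inv_mul, le_div_iff₀ (by positivity)]
          linarith
      _ ≤ _ := Finset.sum_le_sum_of_subset_of_nonneg (Finset.filter_subset _ _)
          fun _ _ _ => by positivity
  have h2 : ∑ S ∈ P.powerset, (1 / 16 : ℝ) ^ S.card * 2 ^ ((N : ℝ) / 4) =
      (17 / 16 : ℝ) ^ N * 2 ^ ((N : ℝ) / 4) := by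
    rw [← Finset.sum_mul]
    congr 1
    have := Finset.sum_pow_mul_eq_add_pow (1 / 16 : ℝ) 1 P
    simp only [one_pow, mul_one] at this
    rw [this, hN]
    norm_num
  have h3 : (17 / 16 : ℝ) ^ N ≤ 2 ^ ((N : ℝ) / 4) := by
    have h4 : (17 / 16 : ℝ) ≤ 2 ^ ((1 : ℝ) / 4) := by
      have h5 : ((17 / 16 : ℝ) ^ (4 : ℕ)) ≤ (2 ^ ((1 : ℝ) / 4)) ^ (4 : ℕ) := by
        rw [← Real.rpow_natCast ((2 : ℝ) ^ ((1 : ℝ) / 4)), ← Real.rpow_mul (by norm_num)]
        norm_num
      exact le_of_pow_le_pow_left₀ (by norm_num) (by positivity) h5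
    calc (17 / 16 : ℝ) ^ N ≤ (2 ^ ((1 : ℝ) / 4)) ^ N := pow_le_pow_left₀ (by norm_num) h4 N
      _ = 2 ^ ((N : ℝ) / 4) := by
          rw [← Real.rpow_natCast, ← Real.rpow_mul (by norm_num)]
          congr 1; ring
  calc ((P.powerset.filter fun S => 16 * S.card ≤ N).card : ℝ)
      ≤ (17 / 16 : ℝ) ^ N * 2 ^ ((N : ℝ) / 4) := h1.trans_eq h2
    _ ≤ 2 ^ ((N : ℝ) / 4) * 2 ^ ((N : ℝ) / 4) := by gcongr
    _ = 2 ^ ((N : ℝ) / 2) := by
        rw [← Real.rpow_add (by norm_num)]; congr 1; ring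

theorem hamming_ball {α : Type*} [DecidableEq α] (P : Finset α) (T₀ : Finset α) :
    ((P.powerset.filter fun T => 16 * (symmDiff T T₀).card ≤ P.card).card : ℝ) ≤ 2 ^ ((P.card : ℝ) / 2) := by
  refine le_trans ?_ (lowerA_ball P)
  rw [Nat.cast_le]
  refine Finset.card_le_card_of_injOn (fun T => symmDiff T (T₀ ∩ P)) ?_ ?_
  · intro T hT
    rw [Finset.mem_coe, Finset.mem_filter, Finset.mem_powerset] at hT
    obtain ⟨hTP, hc⟩ := hT
    have hsub : symmDiff T (T₀ ∩ P) ⊆ symmDiff T T₀ := by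
      intro a ha
      rw [Finset.mem_symmDiff, Finset.mem_inter] at ha
      rw [Finset.mem_symmDiff]
      rcases ha with ⟨h1, h2⟩ | ⟨⟨h1, h2⟩, h3⟩
      · exact Or.inl ⟨h1, fun h => h2 ⟨h, hTP h1⟩⟩
      · exact Or.inr ⟨h1, h3⟩
    rw [Finset.mem_coe, Finset.mem_filter, Finset.mem_powerset]
    constructor
    · intro a ha
      rw [Finset.mem_symmDiff, Finset.mem_inter] at ha
      rcases ha with ⟨h1, _⟩ | ⟨⟨_, h2⟩, _⟩
      · exact hTP h1
      · exact h2
    · have := Finset.card_le_card hsub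
      simp only
      omega
  · intro T _ T' _ h
    exact symmDiff_left_injective _ h

end Pool.Agent.LibEnt73
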