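import Pool.Agent.LibEnt73.TorusDefs

/-! Definitions for the lower bounds. -/

namespace Pool.Agent.LibEnt73

open MeasureTheory Finset UnitAddTorus

noncomputable section

/-- nonnegative frequencies of the layer -/
def PP (d n : ℕ) : Finset (Fin d → ℤ) := (dQ d n).filter fun ξ => ∀ i, 0 ≤ ξ i

/-- random sign polynomial -/
def fs {d : ℕ} (n : ℕ) (e : (Fin d → ℤ) → Bool) (x : UnitAddTorus (Fin d)) : ℝ :=
  ∑ ξ ∈ PP d n, (if e ξ then 1 else -1) * (mFourier ξ x).re

/-- sign pattern of a subset -/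
def sgn {d : ℕ} (T : Finset (Fin d → ℤ)) (ξ : Fin d → ℤ) : Bool := decide (ξ ∈ T)

end

end Pool.Agent.LibEnt73
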