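import Pool.Agent.LibEnt73.TorusDefs

/-! Task TO: Parseval, evaluation on the grid, splitting of the hyperbolic cross, blocks. -/

namespace Pool.Agent.LibEnt73

open MeasureTheory ProbabilityTheory Finset UnitAddTorus

theorem torus_integral_fourier (n : ℤ) :
    ∫ x, fourier n x ∂(AddCircle.haarAddCircle : Measure UnitAddCircle) =
      if n = 0 then 1 else 0 := by
  have h := congrFun (fourierCoeff_fourier (T := 1) n) 0
  rw [fourierCoeff] at h
  simp only [neg_zero, fourier_zero, one_smul] at h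
  rw [h]
  simp [Pi.single_apply, eq_comm]

/-- orthogonality -/
theorem integral_mFourier_mul_conj {d : ℕ} (ξ η : Fin d → ℤ) :
    ∫ x, mFourier ξ x * (starRingEnd ℂ) (mFourier η x) ∂(muT d) = if ξ = η then 1 else 0 := by
  have h1 : ∀ x : UnitAddTorus (Fin d), mFourier ξ x * (starRingEnd ℂ) (mFourier η x) =
      ∏ i, (fourier (ξ i - η i) : C(UnitAddCircle, ℂ)) (x i) := by
    intro x
    rw [← mFourier_neg, ← mFourier_add]
    simp only [mFourier, ContinuousMap.coe_mk, Pi.add_apply, Pi.neg_apply, sub_eq_add_neg]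
  simp_rw [h1]
  rw [muT, integral_fintype_prod_eq_prod
    (f := fun i (y : UnitAddCircle) => (fourier (ξ i - η i) : C(UnitAddCircle, ℂ)) y)]
  simp_rw [torus_integral_fourier, sub_eq_zero]
  rw [Finset.prod_ite_zero]
  simp only [Finset.mem_univ, forall_const, Finset.prod_const_one]
  by_cases h : ξ = η
  · subst h; simp
  · rw [if_neg h, if_neg]
    exact fun h' => h (funext h')

theorem torus_integrable {d : ℕ} {f : UnitAddTorus (Fin d) → ℂ} (hf : Continuous f) :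
    Integrable f (muT d) := by
  apply Continuous.integrable_of_hasCompactSupport hf
  exact HasCompactSupport.of_compactSpace f

/-- Parseval on the torus -/
theorem parseval_tp {d : ℕ} (n : ℕ) (c : (Fin d → ℤ) → ℂ) :
    ∫ x, ‖tp n c x‖ ^ 2 ∂(muT d) = ∑ ξ ∈ Q d n, ‖c ξ‖ ^ 2 := by
  have h1 : ∀ x, ((‖tp n c x‖ ^ 2 : ℝ) : ℂ) = ∑ ξ ∈ Q d n, ∑ η ∈ Q d n,
      (c ξ * (starRingEnd ℂ) (c η)) * (mFourier ξ x * (starRingEnd ℂ) (mFourier η x)) := by
    intro x
    push_cast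
    rw [← Complex.mul_conj', tp, map_sum, Finset.sum_mul_sum]
    refine Finset.sum_congr rfl fun ξ _ => Finset.sum_congr rfl fun η _ => ?_
    rw [map_mul]
    ring
  have hc : ∀ ξ : Fin d → ℤ, Continuous fun x => mFourier ξ x := fun ξ => (mFourier ξ).continuous
  have hint : ∀ ξ η : Fin d → ℤ, Integrable (fun x => (c ξ * (starRingEnd ℂ) (c η)) *
      (mFourier ξ x * (starRingEnd ℂ) (mFourier η x))) (muT d) := by
    intro ξ η
    apply torus_integrable
    exact continuous_const.mul ((hc ξ).mul (Complex.continuous_conj.comp (hc η)))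
  have h2 : ((∫ x, ‖tp n c x‖ ^ 2 ∂(muT d) : ℝ) : ℂ) = ((∑ ξ ∈ Q d n, ‖c ξ‖ ^ 2 : ℝ) : ℂ) := by
    rw [← integral_complex_ofReal]
    simp_rw [h1]
    rw [integral_finsetSum _ fun ξ _ => integrable_finsetSum _ fun η _ => hint ξ η]
    push_cast
    refine Finset.sum_congr rfl fun ξ hξ => ?_
    rw [integral_finsetSum _ fun η _ => hint ξ η]
    simp_rw [integral_const_mul, integral_mFourier_mul_conj]
    rw [Finset.sum_eq_single ξ]
    · rw [if_pos rfl, mul_one, Complex.mul_conj']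
    · intro η _ hη
      rw [if_neg (Ne.symm hη), mul_zero]
    · exact fun h => absurd hξ h
  exact_mod_cast h2

theorem torus_tsz_cons {m : ℕ} (ξ : ℤ) (η : Fin m → ℤ) :
    tsz (Fin.cons ξ η : Fin (m + 1) → ℤ) = sz ξ + tsz η := by
  unfold tsz
  rw [Fin.sum_univ_succ]
  simp

/-- splitting of sums over the hyperbolic cross -/
theorem sum_Q_split {E : Type*} [AddCommMonoid E] (m n : ℕ) (f : (Fin (m + 1) → ℤ) → E) :
    ∑ ζ ∈ Q (m + 1) n, f ζ = ∑ η ∈ Q m n,
      ∑ ξ ∈ Finset.Ioo (-(2 : ℤ) ^ (n - tsz η)) (2 ^ (n - tsz η)), f (Fin.cons ξ η) := by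
  rw [Finset.sum_sigma']
  symm
  refine Finset.sum_nbij' (fun p => (Fin.cons p.2 p.1 : Fin (m + 1) → ℤ))
    (fun ζ => (⟨Fin.tail ζ, ζ 0⟩ : Sigma fun _ : Fin m → ℤ => ℤ)) ?_ ?_ ?_ ?_ ?_
  · rintro ⟨η, ξ⟩ h
    rw [Finset.mem_sigma] at h
    obtain ⟨h1, h2⟩ := h
    rw [← sz_le_iff] at h2
    rw [mem_Q] at h1 ⊢
    rw [torus_tsz_cons]
    simp only at h1 h2 ⊢
    omega
  · intro ζ h
    rw [← Fin.cons_self_tail ζ, mem_Q, torus_tsz_cons] at h
    rw [Finset.mem_sigma, ← sz_le_iff, mem_Q]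
    simp only
    omega
  · rintro ⟨η, ξ⟩ _
    simp
  · intro ζ _
    simp
  · rintro ⟨η, ξ⟩ _
    rfl

theorem torus_ee_eq (N : ℕ) (ξ : ℤ) (u : ZMod (2 ^ N)) :
    (fourier ξ : C(UnitAddCircle, ℂ)) (((u.val : ℝ) / 2 ^ N : ℝ) : UnitAddCircle) = ee N ξ u := by
  have h1 : (ξ : ZMod (2 ^ N)) * u = ((ξ * (u.val : ℤ) : ℤ) : ZMod (2 ^ N)) := by
    push_cast
    rw [ZMod.natCast_zmod_val]
  rw [fourier_coe_apply, ee, h1, ZMod.stdAddChar_coe]
  congr 1
  push_cast
  ring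

/-- evaluation on the grid, split form: first coordinate and the rest -/
theorem tp_grid (m n : ℕ) (c : (Fin (m + 1) → ℤ) → ℂ) (N : ℕ) (x : ZMod (2 ^ N))
    (y : Fin m → ZMod (2 ^ N)) :
    tp n c (Fin.cons (((x.val : ℝ) / 2 ^ N : ℝ) : UnitAddCircle)
        (fun i => (((y i).val : ℝ) / 2 ^ N : ℝ)) : UnitAddTorus (Fin (m + 1)))
      = ∑ η ∈ Q m n, (∑ ξ ∈ Finset.Ioo (-(2 : ℤ) ^ (n - tsz η)) (2 ^ (n - tsz η)),
          c (Fin.cons ξ η) * ee N ξ x) * eem N η y := by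
  rw [tp, sum_Q_split]
  refine Finset.sum_congr rfl fun η _ => ?_
  rw [Finset.sum_mul]
  refine Finset.sum_congr rfl fun ξ _ => ?_
  rw [mul_assoc]
  congr 1
  simp only [mFourier, ContinuousMap.coe_mk]
  rw [Fin.prod_univ_succ]
  simp only [Fin.cons_zero, Fin.cons_succ]
  rw [torus_ee_eq, eem]
  congr 1
  exact Finset.prod_congr rfl fun i _ => torus_ee_eq N (η i) (y i)

theorem torus_mem_block (v : ℤ) (s : ℕ) :
    v ∈ (Finset.Ioo (-(2 : ℤ) ^ s) (2 ^ s)).filter (fun v => (2 : ℤ) ^ s / 2 ≤ |v|) ↔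
      sz v = s := by
  rw [Finset.mem_filter, ← sz_le_iff]
  rcases s with _ | s
  · constructor
    · intro h; omega
    · intro h
      refine ⟨h.le, ?_⟩
      norm_num
  · have h1 : (2 : ℤ) ^ (s + 1) / 2 = 2 ^ s := by
      rw [pow_succ]; omega
    rw [h1, Int.abs_eq_natAbs]
    have h2 : ((2 : ℤ) ^ s ≤ (v.natAbs : ℤ)) ↔ s < sz v := by
      unfold sz
      rw [Nat.lt_size]
      constructor
      · intro h; exact_mod_cast h
      · intro h; exact_mod_cast h
    rw [h2]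
    omega

theorem mem_rho {d : ℕ} (s : Fin d → ℕ) (k : Fin d → ℤ) : k ∈ rho s ↔ ∀ i, sz (k i) = s i := by
  unfold rho
  rw [Fintype.mem_piFinset]
  exact forall_congr' fun i => torus_mem_block (k i) (s i)

theorem QQ_eq (d n : ℕ) : QQ d n = Q d n := by
  ext k
  unfold QQ
  simp only [Finset.mem_biUnion, Finset.mem_range, mem_rho, mem_Q, Finset.mem_piAntidiag]
  constructor
  · rintro ⟨l, hl, s, ⟨hs, -⟩, hk⟩
    unfold tsz
    rw [Finset.sum_congr rfl fun i _ => hk i, hs]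
    omega
  · intro h
    exact ⟨tsz k, by omega, fun i => sz (k i), ⟨rfl, fun i _ => Finset.mem_univ i⟩, fun i => rfl⟩

/-- `f_n` is the projection on the layer `dQ d n` -/
theorem lay_eq {d : ℕ} (n : ℕ) (f : UnitAddTorus (Fin d) → ℂ) (x : UnitAddTorus (Fin d)) :
    lay n f x = ∑ k ∈ dQ d n, coef f k * mFourier k x := by
  unfold lay del
  have hmaps : ∀ k ∈ dQ d n, (fun i => sz (k i)) ∈
      Finset.piAntidiag (Finset.univ : Finset (Fin d)) n := by
    intro k hk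
    rw [Finset.mem_piAntidiag]
    exact ⟨mem_dQ.1 hk, fun i _ => Finset.mem_univ i⟩
  rw [← Finset.sum_fiberwise_of_maps_to hmaps]
  refine Finset.sum_congr rfl fun s hs => ?_
  refine Finset.sum_congr ?_ fun _ _ => rfl
  ext k
  rw [mem_rho, Finset.mem_filter, mem_dQ]
  constructor
  · intro h
    refine ⟨?_, funext h⟩
    unfold tsz
    rw [Finset.sum_congr rfl fun i _ => h i]
    exact (Finset.mem_piAntidiag.1 hs).1
  · rintro ⟨-, h⟩ i
    exact congrFun h i

/-- a continuous function is bounded by its `L_∞` norm -/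
theorem norm_le_of_eLpNorm_top {d : ℕ} (f : UnitAddTorus (Fin d) → ℂ) (hf : Continuous f) (M : ℝ)
    (hM : 0 ≤ M) (h : eLpNorm f ⊤ (muT d) ≤ ENNReal.ofReal M) (x : UnitAddTorus (Fin d)) : ‖f x‖ ≤ M := by
  by_contra hx
  rw [not_le] at hx
  have hopen : IsOpen {y : UnitAddTorus (Fin d) | M < ‖f y‖} :=
    isOpen_lt continuous_const hf.norm
  have : (muT d).IsOpenPosMeasure := by unfold muT; infer_instance
  have hpos : 0 < (muT d) {y : UnitAddTorus (Fin d) | M < ‖f y‖} :=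
    hopen.measure_pos _ ⟨x, hx⟩
  have hae : ∀ᵐ y ∂(muT d), ‖f y‖ ≤ M := by
    rw [eLpNorm_exponent_top] at h
    have h1 := ae_le_eLpNormEssSup (f := f) (μ := muT d)
    filter_upwards [h1] with y hy
    have h2 := hy.trans h
    rw [← ofReal_norm] at h2
    exact (ENNReal.ofReal_le_ofReal_iff hM).1 h2
  rw [ae_iff] at hae
  simp only [not_le] at hae
  exact hpos.ne' hae

end Pool.Agent.LibEnt73
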