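import Pool.Agent.LibEnt73.LowerSigns
import Pool.Agent.LibEnt73.Torus

/-! Task LY: the real valued bounded polynomials of the layer need many `L_1` balls
(uses good_signs, hamming_ball, orthogonality). -/

namespace Pool.Agent.LibEnt73

open MeasureTheory Finset UnitAddTorus

theorem lowerLayer_sz_neg (v : ℤ) : sz (-v) = sz v := by
  unfold sz; rw [Int.natAbs_neg]

theorem lowerLayer_tsz_neg {d : ℕ} (ξ : Fin d → ℤ) : tsz (-ξ) = tsz ξ := by
  unfold tsz
  exact Finset.sum_congr rfl fun i _ => lowerLayer_sz_neg _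

theorem lowerLayer_mem {d n : ℕ} {ξ : Fin d → ℤ} : ξ ∈ PP d n ↔ tsz ξ = n ∧ ∀ i, 0 ≤ ξ i := by
  unfold PP
  rw [Finset.mem_filter, mem_dQ]

theorem lowerLayer_neg_not_mem {d n : ℕ} (hn : 1 ≤ n) {ξ : Fin d → ℤ} (h : ξ ∈ PP d n) :
    -ξ ∉ PP d n := by
  intro h'
  rw [lowerLayer_mem] at h h'
  have h0 : ξ = 0 := by
    funext i
    have h1 := h.2 i
    have h2 := h'.2 i
    simp only [Pi.neg_apply, Pi.zero_apply] at h2 ⊢
    omega
  subst h0
  have : tsz (0 : Fin d → ℤ) = 0 := by simp [tsz, sz]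
  omega

open Classical in
/-- coefficients of the cosine polynomial with coefficients `s` -/
noncomputable def lowerLayer_co {d : ℕ} (n : ℕ) (s : (Fin d → ℤ) → ℝ) (ξ : Fin d → ℤ) : ℂ :=
  (((if ξ ∈ PP d n then s ξ else 0) + (if -ξ ∈ PP d n then s (-ξ) else 0)) / 2 : ℝ)

open Classical in
theorem lowerLayer_sum {d : ℕ} (n : ℕ) (s : (Fin d → ℤ) → ℝ) (x : UnitAddTorus (Fin d)) :
    ∑ ξ ∈ dQ d n, lowerLayer_co n s ξ * mFourier ξ x =
      ((∑ ξ ∈ PP d n, s ξ * (mFourier ξ x).re : ℝ) : ℂ) := by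
  have hsub : PP d n ⊆ dQ d n := Finset.filter_subset _ _
  have h1 : ∑ ξ ∈ dQ d n, ((if ξ ∈ PP d n then s ξ else 0 : ℝ) : ℂ) * mFourier ξ x =
      ∑ ξ ∈ PP d n, (s ξ : ℂ) * mFourier ξ x := by
    rw [← Finset.sum_subset hsub]
    · exact Finset.sum_congr rfl fun ξ hξ => by rw [if_pos hξ]
    · intro ξ _ hξ
      rw [if_neg hξ]; simp
  have h2 : ∑ ξ ∈ dQ d n, ((if -ξ ∈ PP d n then s (-ξ) else 0 : ℝ) : ℂ) * mFourier ξ x =
      ∑ ξ ∈ PP d n, (s ξ : ℂ) * (starRingEnd ℂ) (mFourier ξ x) := by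
    have h3 : ∑ ξ ∈ dQ d n, ((if -ξ ∈ PP d n then s (-ξ) else 0 : ℝ) : ℂ) * mFourier ξ x =
        ∑ ξ ∈ dQ d n, ((if ξ ∈ PP d n then s ξ else 0 : ℝ) : ℂ) * mFourier (-ξ) x := by
      refine Finset.sum_nbij' (fun ξ => -ξ) (fun ξ => -ξ) ?_ ?_ ?_ ?_ ?_
      · intro ξ hξ; rw [mem_dQ] at hξ ⊢; rw [lowerLayer_tsz_neg]; exact hξ
      · intro ξ hξ; rw [mem_dQ] at hξ ⊢; rw [lowerLayer_tsz_neg]; exact hξ
      · intro ξ _; simp
      · intro ξ _; simp
      · intro ξ _; rw [neg_neg]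
    rw [h3, ← Finset.sum_subset hsub]
    · exact Finset.sum_congr rfl fun ξ hξ => by rw [if_pos hξ, mFourier_neg]
    · intro ξ _ hξ
      rw [if_neg hξ]; simp
  have h4 : ∑ ξ ∈ dQ d n, lowerLayer_co n s ξ * mFourier ξ x =
      ((∑ ξ ∈ dQ d n, ((if ξ ∈ PP d n then s ξ else 0 : ℝ) : ℂ) * mFourier ξ x) +
      (∑ ξ ∈ dQ d n, ((if -ξ ∈ PP d n then s (-ξ) else 0 : ℝ) : ℂ) * mFourier ξ x)) / 2 := by
    rw [← Finset.sum_add_distrib, Finset.sum_div]
    refine Finset.sum_congr rfl fun ξ _ => ?_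
    unfold lowerLayer_co
    push_cast
    ring
  rw [h4, h1, h2, ← Finset.sum_add_distrib, Finset.sum_div]
  push_cast
  refine Finset.sum_congr rfl fun ξ _ => ?_
  have h5 := Complex.add_conj (mFourier ξ x)
  rw [← mul_add, h5]
  push_cast
  ring

theorem lowerLayer_continuous {d : ℕ} (n : ℕ) (s : (Fin d → ℤ) → ℝ) :
    Continuous fun x : UnitAddTorus (Fin d) => ∑ ξ ∈ PP d n, s ξ * (mFourier ξ x).re :=
  continuous_finsetSum _ fun ξ _ =>
    continuous_const.mul (Complex.continuous_re.comp (mFourier ξ).continuous)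

/-- a continuous real function on the torus is integrable -/
theorem lowerLayer_integrable {d : ℕ} {f : UnitAddTorus (Fin d) → ℝ} (hf : Continuous f) :
    Integrable f (muT d) := by
  exact hf.integrable_of_hasCompactSupport (HasCompactSupport.of_compactSpace f)

/-- lower bound of the `L_2` norm -/
theorem lowerLayer_l2 {d n : ℕ} (hn : 1 ≤ n) (s : (Fin d → ℤ) → ℝ) (D : Finset (Fin d → ℤ))
    (hD : D ⊆ PP d n) (hs : ∀ ξ ∈ D, |s ξ| = 2) :
    (D.card : ℝ) ≤ ∫ x, (∑ ξ ∈ PP d n, s ξ * (mFourier ξ x).re) ^ 2 ∂(muT d) := by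
  classical
  let c : (Fin d → ℤ) → ℂ := fun ξ => if ξ ∈ dQ d n then lowerLayer_co n s ξ else 0
  have hQ : dQ d n ⊆ Q d n := by
    intro ξ hξ; rw [mem_dQ] at hξ; rw [mem_Q]; exact hξ.le
  have h1 : ∀ x, tp n c x = ((∑ ξ ∈ PP d n, s ξ * (mFourier ξ x).re : ℝ) : ℂ) := by
    intro x
    rw [← lowerLayer_sum]
    unfold tp
    rw [← Finset.sum_subset hQ]
    · exact Finset.sum_congr rfl fun ξ hξ => by simp only [c]; rw [if_pos hξ]
    · intro ξ _ hξ
      simp only [c]; rw [if_neg hξ, zero_mul]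
  have h2 := parseval_tp n c
  have h3 : ∫ x, ‖tp n c x‖ ^ 2 ∂(muT d) =
      ∫ x, (∑ ξ ∈ PP d n, s ξ * (mFourier ξ x).re) ^ 2 ∂(muT d) := by
    congr 1
    funext x
    rw [h1, Complex.norm_real, Real.norm_eq_abs, sq_abs]
  rw [← h3, h2]
  calc (D.card : ℝ) = ∑ ξ ∈ D, ‖c ξ‖ ^ 2 := by
        rw [Finset.card_eq_sum_ones]
        push_cast
        refine Finset.sum_congr rfl fun ξ hξ => ?_
        have h4 := hD hξ
        have h5 : ξ ∈ dQ d n := (Finset.filter_subset _ _ : PP d n ⊆ dQ d n) h4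
        simp only [c]
        rw [if_pos h5]
        unfold lowerLayer_co
        rw [if_pos h4, if_neg (lowerLayer_neg_not_mem hn h4), add_zero, Complex.norm_real,
          Real.norm_eq_abs, abs_div, hs ξ hξ]
        norm_num
    _ ≤ ∑ ξ ∈ Q d n, ‖c ξ‖ ^ 2 :=
        Finset.sum_le_sum_of_subset_of_nonneg
          (hD.trans ((Finset.filter_subset _ _ : PP d n ⊆ dQ d n).trans hQ))
          fun _ _ _ => by positivity

theorem lowerLayer_pt (a t : ℝ) (ha : 0 < a) (ht : 0 ≤ t) :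
    t ^ 2 ≤ 2 / 3 * a * t + t ^ 4 / (3 * a ^ 2) := by
  have h : 0 ≤ t * (t - a) ^ 2 * (t + 2 * a) := by positivity
  have h2 : 2 / 3 * a * t + t ^ 4 / (3 * a ^ 2) - t ^ 2 =
      (t * (t - a) ^ 2 * (t + 2 * a)) / (3 * a ^ 2) := by
    field_simp
    ring
  have h3 : 0 ≤ 2 / 3 * a * t + t ^ 4 / (3 * a ^ 2) - t ^ 2 := by
    rw [h2]; positivity
  linarith

theorem lowerLayer_holder {d : ℕ} (h : UnitAddTorus (Fin d) → ℝ) (hh : Continuous h) (N δ : ℝ)
    (hN : 0 < N) (h1 : ∫ x, |h x| ∂(muT d) ≤ δ * Real.sqrt N)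
    (h4 : ∫ x, h x ^ 4 ∂(muT d) ≤ 192 * N ^ 2) (hδ : δ ≤ 1 / 2000) :
    ∫ x, h x ^ 2 ∂(muT d) ≤ N / 16 := by
  have ha : 0 < 64 * Real.sqrt N := by positivity
  have hsq : Real.sqrt N ^ 2 = N := Real.sq_sqrt hN.le
  calc ∫ x, h x ^ 2 ∂(muT d)
      ≤ ∫ x, (2 / 3 * (64 * Real.sqrt N) * |h x| + h x ^ 4 / (3 * (64 * Real.sqrt N) ^ 2))
        ∂(muT d) := by
        apply integral_mono
        · exact lowerLayer_integrable (hh.pow 2)
        · exact lowerLayer_integrable ((continuous_const.mul hh.abs).add ((hh.pow 4).div_const _))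
        · intro x
          have := lowerLayer_pt (64 * Real.sqrt N) |h x| ha (abs_nonneg _)
          have e4 : |h x| ^ 4 = h x ^ 4 := by
            rw [show (4 : ℕ) = 2 * 2 by norm_num, pow_mul, sq_abs, ← pow_mul]
          rw [sq_abs, e4] at this
          exact this
    _ = 2 / 3 * (64 * Real.sqrt N) * ∫ x, |h x| ∂(muT d) +
        (∫ x, h x ^ 4 ∂(muT d)) / (3 * (64 * Real.sqrt N) ^ 2) := by
        rw [integral_add, integral_const_mul, integral_div]
        · exact (lowerLayer_integrable hh.abs).const_mul _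
        · exact (lowerLayer_integrable (hh.pow 4)).div_const _
    _ ≤ 2 / 3 * (64 * Real.sqrt N) * (1 / 2000 * Real.sqrt N) +
        (192 * N ^ 2) / (3 * (64 * Real.sqrt N) ^ 2) := by
        have hδ' : δ * Real.sqrt N ≤ 1 / 2000 * Real.sqrt N :=
          mul_le_mul_of_nonneg_right hδ (Real.sqrt_nonneg _)
        gcongr
        exact h1.trans hδ'
    _ ≤ N / 16 := by
        have e1 : 2 / 3 * (64 * Real.sqrt N) * (1 / 2000 * Real.sqrt N) = 2 / 3 * 64 / 2000 * N := by
          calc 2 / 3 * (64 * Real.sqrt N) * (1 / 2000 * Real.sqrt N)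
              = 2 / 3 * 64 / 2000 * Real.sqrt N ^ 2 := by ring
            _ = 2 / 3 * 64 / 2000 * N := by rw [hsq]
        have e2 : (192 * N ^ 2) / (3 * (64 * Real.sqrt N) ^ 2) = N / 64 := by
          rw [mul_pow, hsq]; field_simp; norm_num
        rw [e1, e2]
        nlinarith

theorem layer_lower (d : ℕ) (hd : 1 ≤ d) : ∃ c : ℝ, 0 < c ∧ ∀ n : ℕ, 1 ≤ n →
    ∀ Y : Finset (UnitAddTorus (Fin d) → ℂ), (∀ y ∈ Y, MemLp y 1 (muT d)) →
      (∀ co : (Fin d → ℤ) → ℂ, (∀ x, (∑ ξ ∈ dQ d n, co ξ * mFourier ξ x).im = 0) →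
        (∀ x, ‖∑ ξ ∈ dQ d n, co ξ * mFourier ξ x‖ ≤ 1) →
        ∃ y ∈ Y, eLpNorm ((fun x => ∑ ξ ∈ dQ d n, co ξ * mFourier ξ x) - y) 1 (muT d)
          ≤ ENNReal.ofReal (c * (n : ℝ) ^ (-(1 / 2) : ℝ))) →
      (2 : ℝ) ^ (((PP d n).card : ℝ) / 2 - 1) ≤ (Y.card : ℝ) := by
  classical
  obtain ⟨C, hC, hgood⟩ := good_signs d hd
  obtain ⟨c₀, hc₀, hPP⟩ := card_PP_ge d hd
  refine ⟨1 / (4000 * C), by positivity, fun n hn Y hY hcov => ?_⟩
  set N : ℝ := ((PP d n).card : ℝ) with hNdef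
  have hn0 : (0 : ℝ) < n := by exact_mod_cast hn
  have hN : 0 < N := lt_of_lt_of_le (by positivity) (hPP n hn)
  set G := (PP d n).powerset.filter fun T =>
        (∀ x, |fs n (sgn T) x| ≤ C * Real.sqrt (n * (PP d n).card)) ∧
        ∫ x, (fs n (sgn T) x) ^ 4 ∂(muT d) ≤ 12 * ((PP d n).card : ℝ) ^ 2 with hG
  have hGcard : (2 : ℝ) ^ (PP d n).card / 2 ≤ (G.card : ℝ) := hgood n hn
  -- the sign functions
  let s : Finset (Fin d → ℤ) → (Fin d → ℤ) → ℝ := fun T ξ => if sgn T ξ then 1 else -1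
  have hfs : ∀ T x, fs n (sgn T) x = ∑ ξ ∈ PP d n, s T ξ * (mFourier ξ x).re := fun T x => rfl
  set K : ℝ := C * Real.sqrt (n * (PP d n).card) with hK
  have hK0 : 0 < K := by
    rw [hK]; exact mul_pos hC (Real.sqrt_pos.2 (mul_pos hn0 hN))
  -- the normalised polynomials
  have hF : ∀ T x, ∑ ξ ∈ dQ d n, lowerLayer_co n (fun ξ => s T ξ / K) ξ * mFourier ξ x =
      ((fs n (sgn T) x / K : ℝ) : ℂ) := by
    intro T x
    rw [lowerLayer_sum, hfs, Finset.sum_div]
    congr 1
    exact Finset.sum_congr rfl fun ξ _ => by ring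
  have hcover : ∀ T ∈ G, ∃ y ∈ Y, eLpNorm ((fun x => ((fs n (sgn T) x / K : ℝ) : ℂ)) - y) 1 (muT d)
      ≤ ENNReal.ofReal (1 / (4000 * C) * (n : ℝ) ^ (-(1 / 2) : ℝ)) := by
    intro T hT
    have hT2 := (Finset.mem_filter.1 hT).2.1
    have := hcov (lowerLayer_co n fun ξ => s T ξ / K) (fun x => by rw [hF, Complex.ofReal_im])
      (fun x => by
        rw [hF, Complex.norm_real, Real.norm_eq_abs, abs_div, abs_of_pos hK0, div_le_one hK0]
        exact hT2 x)
    simpa only [hF] using this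
  choose! y hyY hy using hcover
  -- the fibres are contained in Hamming balls
  have hfib : ∀ z ∈ Y, ((G.filter fun T => y T = z).card : ℝ) ≤ 2 ^ (N / 2) := by
    intro z hz
    by_cases hne : (G.filter fun T => y T = z).Nonempty
    · obtain ⟨T₀, hT₀⟩ := hne
      rw [Finset.mem_filter] at hT₀
      obtain ⟨hT₀G, hT₀z⟩ := hT₀
      refine le_trans ?_ (hamming_ball (PP d n) T₀)
      rw [Nat.cast_le]
      apply Finset.card_le_card
      intro T hT
      rw [Finset.mem_filter] at hT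
      obtain ⟨hTG, hTz⟩ := hT
      have hTP := (Finset.mem_filter.1 hTG).1
      have hT₀P := (Finset.mem_filter.1 hT₀G).1
      rw [Finset.mem_filter]
      refine ⟨hTP, ?_⟩
      rw [Finset.mem_powerset] at hTP hT₀P
      -- the difference
      let u : (Fin d → ℤ) → ℝ := fun ξ => s T ξ - s T₀ ξ
      let h : UnitAddTorus (Fin d) → ℝ := fun x => ∑ ξ ∈ PP d n, u ξ * (mFourier ξ x).re
      have hh : Continuous h := lowerLayer_continuous n u
      have hdiff : ∀ x, h x = fs n (sgn T) x - fs n (sgn T₀) x := by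
        intro x
        simp only [h, u, hfs]
        rw [← Finset.sum_sub_distrib]
        exact Finset.sum_congr rfl fun ξ _ => by ring
      have hcT : ∀ T, Continuous fun x => fs n (sgn T) x := fun T =>
        lowerLayer_continuous n (s T)
      -- `L_2`
      have hl2 : (((symmDiff T T₀).card : ℕ) : ℝ) ≤ ∫ x, (h x) ^ 2 ∂(muT d) := by
        apply lowerLayer_l2 hn u
        · intro ξ hξ
          rw [Finset.mem_symmDiff] at hξ
          rcases hξ with h | h
          · exact hTP h.1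
          · exact hT₀P h.1
        · intro ξ hξ
          rw [Finset.mem_symmDiff] at hξ
          simp only [u, s, sgn]
          rcases hξ with h | h
          · simp [h.1, h.2]; norm_num
          · simp [h.1, h.2]; norm_num
      -- `L_4`
      have hl4 : ∫ x, (h x) ^ 4 ∂(muT d) ≤ 192 * N ^ 2 := by
        have a1 := (Finset.mem_filter.1 hTG).2.2
        have a2 := (Finset.mem_filter.1 hT₀G).2.2
        calc ∫ x, (h x) ^ 4 ∂(muT d)
            ≤ ∫ x, (8 * (fs n (sgn T) x) ^ 4 + 8 * (fs n (sgn T₀) x) ^ 4) ∂(muT d) := by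
              apply integral_mono
              · exact lowerLayer_integrable (hh.pow 4)
              · exact lowerLayer_integrable ((continuous_const.mul ((hcT T).pow 4)).add
                  (continuous_const.mul ((hcT T₀).pow 4)))
              · intro x
                simp only [hdiff]
                generalize fs n (sgn T) x = p
                generalize fs n (sgn T₀) x = q
                nlinarith [sq_nonneg (p + q), sq_nonneg (p - q), sq_nonneg (p ^ 2 - q ^ 2),
                  mul_nonneg (sq_nonneg (p + q)) (sq_nonneg (p - q)),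
                  sq_nonneg ((p + q) ^ 2), sq_nonneg ((p + q) ^ 2 - (p - q) ^ 2)]
          _ = 8 * ∫ x, (fs n (sgn T) x) ^ 4 ∂(muT d) + 8 * ∫ x, (fs n (sgn T₀) x) ^ 4 ∂(muT d) := by
              rw [integral_add, integral_const_mul, integral_const_mul]
              · exact (lowerLayer_integrable ((hcT T).pow 4)).const_mul _
              · exact (lowerLayer_integrable ((hcT T₀).pow 4)).const_mul _
          _ ≤ 192 * N ^ 2 := by linarith
      -- `L_1`
      have hl1 : ∫ x, |h x| ∂(muT d) ≤ 1 / 2000 * Real.sqrt N := by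
        set r : ℝ := 1 / (4000 * C) * (n : ℝ) ^ (-(1 / 2) : ℝ) with hr
        have hr0 : 0 ≤ r := by positivity
        have b1 := hy T hTG
        have b2 := hy T₀ hT₀G
        rw [hTz] at b1
        rw [hT₀z] at b2
        have hz1 : AEStronglyMeasurable z (muT d) := (hY z hz).1
        have hm : ∀ T, AEStronglyMeasurable (fun x => ((fs n (sgn T) x / K : ℝ) : ℂ)) (muT d) :=
          fun T => (Complex.continuous_ofReal.comp ((hcT T).div_const K)).aestronglyMeasurable
        have b3 : eLpNorm (fun x => ((h x / K : ℝ) : ℂ)) 1 (muT d) ≤ ENNReal.ofReal (2 * r) := by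
          have e : (fun x => ((h x / K : ℝ) : ℂ)) =
              ((fun x => ((fs n (sgn T) x / K : ℝ) : ℂ)) - z) -
                ((fun x => ((fs n (sgn T₀) x / K : ℝ) : ℂ)) - z) := by
            funext x
            simp only [Pi.sub_apply, hdiff]
            push_cast
            ring
          rw [e]
          calc _ ≤ eLpNorm ((fun x => ((fs n (sgn T) x / K : ℝ) : ℂ)) - z) 1 (muT d) +
                eLpNorm ((fun x => ((fs n (sgn T₀) x / K : ℝ) : ℂ)) - z) 1 (muT d) :=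
                eLpNorm_sub_le ((hm T).sub hz1) ((hm T₀).sub hz1) le_rfl
            _ ≤ ENNReal.ofReal r + ENNReal.ofReal r := add_le_add b1 b2
            _ = ENNReal.ofReal (2 * r) := by
                rw [← ENNReal.ofReal_add hr0 hr0]; congr 1; ring
        have hint : Integrable (fun x => h x / K) (muT d) :=
          lowerLayer_integrable (hh.div_const K)
        have b4 : ENNReal.ofReal (∫ x, |h x / K| ∂(muT d)) ≤ ENNReal.ofReal (2 * r) := by
          have e5 : ∫ x, |h x / K| ∂(muT d) = ∫ x, ‖h x / K‖ ∂(muT d) := rfl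
          rw [e5, ofReal_integral_norm_eq_lintegral_enorm hint]
          rw [eLpNorm_one_eq_lintegral_enorm] at b3
          refine le_trans (le_of_eq ?_) b3
          congr 1
          funext x
          rw [← ofReal_norm, ← ofReal_norm, Complex.norm_real]
        have b5 : ∫ x, |h x / K| ∂(muT d) ≤ 2 * r :=
          (ENNReal.ofReal_le_ofReal_iff (by positivity)).1 b4
        have b6 : ∫ x, |h x / K| ∂(muT d) = (∫ x, |h x| ∂(muT d)) / K := by
          rw [← integral_div]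
          congr 1
          funext x
          rw [abs_div, abs_of_pos hK0]
        rw [b6, div_le_iff₀ hK0] at b5
        refine b5.trans (le_of_eq ?_)
        have hsn : Real.sqrt (n * (PP d n).card) = Real.sqrt n * Real.sqrt N :=
          Real.sqrt_mul hn0.le _
        have hrn : (n : ℝ) ^ (-(1 / 2) : ℝ) = (Real.sqrt n)⁻¹ := by
          rw [Real.rpow_neg hn0.le, Real.sqrt_eq_rpow]
        have hs0 : Real.sqrt n ≠ 0 := (Real.sqrt_pos.2 hn0).ne'
        rw [hr, hK, hsn, hrn]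
        field_simp
        norm_num
      have hfin := lowerLayer_holder h hh N (1 / 2000) hN hl1 hl4 le_rfl
      have : (((symmDiff T T₀).card : ℕ) : ℝ) ≤ N / 16 := hl2.trans hfin
      have h16 : (16 : ℝ) * ((symmDiff T T₀).card : ℝ) ≤ N := by linarith
      rw [hNdef] at h16
      exact_mod_cast h16
    · rw [Finset.not_nonempty_iff_eq_empty] at hne
      rw [hne]
      simp only [Finset.card_empty, Nat.cast_zero]
      positivity
  have hsum : (G.card : ℝ) ≤ (Y.card : ℝ) * 2 ^ (N / 2) := by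
    rw [Finset.card_eq_sum_card_fiberwise (f := y) (t := Y) (fun T hT => hyY T hT)]
    push_cast
    calc ∑ z ∈ Y, ((G.filter fun T => y T = z).card : ℝ) ≤ ∑ _z ∈ Y, (2 : ℝ) ^ (N / 2) :=
          Finset.sum_le_sum hfib
      _ = (Y.card : ℝ) * 2 ^ (N / 2) := by rw [Finset.sum_const, nsmul_eq_mul]
  have h2 : (2 : ℝ) ^ (N / 2 - 1) * 2 ^ (N / 2) ≤ (Y.card : ℝ) * 2 ^ (N / 2) := by
    refine le_trans (le_of_eq ?_) (hGcard.trans hsum)
    rw [← Real.rpow_add (by norm_num), ← Real.rpow_natCast]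
    rw [show N / 2 - 1 + N / 2 = N - 1 by ring, Real.rpow_sub (by norm_num), Real.rpow_one]
  exact le_of_mul_le_mul_right h2 (by positivity)

end Pool.Agent.LibEnt73
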