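import Pool.Agent.LibEnt73.LowerA

/-! Task LS: many good signs (sup norm and `L_4` norm). -/

namespace Pool.Agent.LibEnt73

open MeasureTheory Finset UnitAddTorus

/-- signed sum -/
noncomputable def lowerSigns_g {α : Type*} [DecidableEq α] (a : α → ℝ) (s T : Finset α) : ℝ :=
  ∑ ξ ∈ s, (if ξ ∈ T then 1 else -1) * a ξ

lemma lowerSigns_g_insert_left {α : Type*} [DecidableEq α] (a : α → ℝ) {s T : Finset α} {b : α}
    (hb : b ∉ s) (hT : T ⊆ s) : lowerSigns_g a (insert b s) T = lowerSigns_g a s T - a b := by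
  unfold lowerSigns_g
  rw [Finset.sum_insert hb, if_neg (fun h => hb (hT h))]
  ring

lemma lowerSigns_g_insert_right {α : Type*} [DecidableEq α] (a : α → ℝ) {s T : Finset α} {b : α}
    (hb : b ∉ s) :
    lowerSigns_g a (insert b s) (insert b T) = lowerSigns_g a s T + a b := by
  unfold lowerSigns_g
  rw [Finset.sum_insert hb, if_pos (Finset.mem_insert_self _ _)]
  rw [add_comm, one_mul]
  congr 1
  apply Finset.sum_congr rfl
  intro ξ hξ
  have : ξ ≠ b := fun h => hb (h ▸ hξ)
  simp [Finset.mem_insert, this]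

lemma lowerSigns_two {α : Type*} [DecidableEq α] (a : α → ℝ) (s : Finset α) :
    ∑ T ∈ s.powerset, (lowerSigns_g a s T) ^ 2 = 2 ^ s.card * ∑ ξ ∈ s, a ξ ^ 2 := by
  induction s using Finset.induction_on with
  | empty => simp [lowerSigns_g]
  | insert b s hb ih =>
    rw [Finset.sum_powerset_insert hb, Finset.card_insert_of_notMem hb, Finset.sum_insert hb]
    rw [← Finset.sum_add_distrib]
    have : ∀ T ∈ s.powerset, (lowerSigns_g a (insert b s) T) ^ 2
        + (lowerSigns_g a (insert b s) (insert b T)) ^ 2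
        = 2 * (lowerSigns_g a s T) ^ 2 + 2 * a b ^ 2 := by
      intro T hT
      rw [lowerSigns_g_insert_left a hb (Finset.mem_powerset.1 hT), lowerSigns_g_insert_right a hb]
      ring
    rw [Finset.sum_congr rfl this, Finset.sum_add_distrib, ← Finset.mul_sum, ih, Finset.sum_const,
      Finset.card_powerset, nsmul_eq_mul]
    push_cast
    ring

lemma lowerSigns_four {α : Type*} [DecidableEq α] (a : α → ℝ) (s : Finset α) :
    ∑ T ∈ s.powerset, (lowerSigns_g a s T) ^ 4 ≤ 2 ^ s.card * (3 * (∑ ξ ∈ s, a ξ ^ 2) ^ 2) := by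
  induction s using Finset.induction_on with
  | empty => simp [lowerSigns_g]
  | insert b s hb ih =>
    rw [Finset.sum_powerset_insert hb, Finset.card_insert_of_notMem hb, Finset.sum_insert hb]
    rw [← Finset.sum_add_distrib]
    have : ∀ T ∈ s.powerset, (lowerSigns_g a (insert b s) T) ^ 4
        + (lowerSigns_g a (insert b s) (insert b T)) ^ 4
        = 2 * (lowerSigns_g a s T) ^ 4 + 12 * a b ^ 2 * (lowerSigns_g a s T) ^ 2 + 2 * a b ^ 4 := by
      intro T hT
      rw [lowerSigns_g_insert_left a hb (Finset.mem_powerset.1 hT), lowerSigns_g_insert_right a hb]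
      ring
    rw [Finset.sum_congr rfl this, Finset.sum_add_distrib, Finset.sum_add_distrib, ← Finset.mul_sum,
      ← Finset.mul_sum, lowerSigns_two, Finset.sum_const, Finset.card_powerset, nsmul_eq_mul]
    push_cast
    have h4 : 0 ≤ a b ^ 4 := by positivity
    have h2 : (0 : ℝ) < 2 ^ s.card := by positivity
    have h5 : 0 ≤ (2 : ℝ) ^ s.card * a b ^ 4 := by positivity
    have : 2 ^ (s.card + 1) * (3 * (a b ^ 2 + ∑ x ∈ s, a x ^ 2) ^ 2)
        = 2 * (2 ^ s.card * (3 * (∑ ξ ∈ s, a ξ ^ 2) ^ 2))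
          + 12 * a b ^ 2 * (2 ^ s.card * ∑ ξ ∈ s, a ξ ^ 2) + 6 * (2 ^ s.card * a b ^ 4) := by
      ring
    rw [this]
    nlinarith

lemma lowerSigns_exp {α : Type*} [DecidableEq α] (a : α → ℝ) (s : Finset α) (l : ℝ) :
    ∑ T ∈ s.powerset, Real.exp (l * lowerSigns_g a s T)
      ≤ 2 ^ s.card * Real.exp (l ^ 2 * (∑ ξ ∈ s, a ξ ^ 2) / 2) := by
  induction s using Finset.induction_on with
  | empty => simp [lowerSigns_g]
  | insert b s hb ih =>
    rw [Finset.sum_powerset_insert hb, Finset.card_insert_of_notMem hb, Finset.sum_insert hb]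
    rw [← Finset.sum_add_distrib]
    have : ∀ T ∈ s.powerset, Real.exp (l * lowerSigns_g a (insert b s) T)
        + Real.exp (l * lowerSigns_g a (insert b s) (insert b T))
        ≤ Real.exp (l * lowerSigns_g a s T) * (2 * Real.exp ((l * a b) ^ 2 / 2)) := by
      intro T hT
      rw [lowerSigns_g_insert_left a hb (Finset.mem_powerset.1 hT), lowerSigns_g_insert_right a hb]
      have h1 : l * (lowerSigns_g a s T - a b) = l * lowerSigns_g a s T + -(l * a b) := by ring
      have h2 : l * (lowerSigns_g a s T + a b) = l * lowerSigns_g a s T + (l * a b) := by ring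
      rw [h1, h2, Real.exp_add, Real.exp_add, ← mul_add]
      apply mul_le_mul_of_nonneg_left _ (Real.exp_pos _).le
      have := Real.cosh_le_exp_half_sq (l * a b)
      rw [Real.cosh_eq] at this
      linarith
    refine (Finset.sum_le_sum this).trans ?_
    rw [← Finset.sum_mul]
    have hpos : (0 : ℝ) ≤ 2 * Real.exp ((l * a b) ^ 2 / 2) := by positivity
    refine (mul_le_mul_of_nonneg_right ih hpos).trans ?_
    have h3 : l ^ 2 * (a b ^ 2 + ∑ x ∈ s, a x ^ 2) / 2
        = l ^ 2 * (∑ x ∈ s, a x ^ 2) / 2 + (l * a b) ^ 2 / 2 := by ring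
    rw [h3, Real.exp_add, pow_succ]
    apply le_of_eq
    ring

lemma lowerSigns_fs {d : ℕ} (n : ℕ) (T : Finset (Fin d → ℤ)) (x : UnitAddTorus (Fin d)) :
    fs n (sgn T) x = lowerSigns_g (fun ξ => (mFourier ξ x).re) (PP d n) T := by
  unfold fs sgn lowerSigns_g
  simp

lemma lowerSigns_abs_le {d : ℕ} (ξ : Fin d → ℤ) (x : UnitAddTorus (Fin d)) :
    |(mFourier ξ x).re| ≤ 1 := by
  refine (Complex.abs_re_le_norm _).trans ?_
  have := (mFourier ξ).norm_coe_le_norm x
  rw [mFourier_norm] at this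
  exact this

lemma lowerSigns_sq_le {d : ℕ} (ξ : Fin d → ℤ) (x : UnitAddTorus (Fin d)) :
    (mFourier ξ x).re ^ 2 ≤ 1 := by
  have := lowerSigns_abs_le ξ x
  rw [← sq_abs]
  exact pow_le_one₀ (abs_nonneg _) this

lemma lowerSigns_sum_sq_le {d : ℕ} (n : ℕ) (x : UnitAddTorus (Fin d)) :
    ∑ ξ ∈ PP d n, (mFourier ξ x).re ^ 2 ≤ ((PP d n).card : ℝ) := by
  refine (Finset.sum_le_sum fun ξ _ => lowerSigns_sq_le ξ x).trans ?_
  simp

lemma lowerSigns_continuous {d : ℕ} (n : ℕ) (e : (Fin d → ℤ) → Bool) : Continuous (fs n e) := by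
  unfold fs
  exact continuous_finsetSum _ fun ξ _ =>
    continuous_const.mul (Complex.continuous_re.comp (mFourier ξ).continuous)

lemma lowerSigns_integrable {d : ℕ} (n : ℕ) (e : (Fin d → ℤ) → Bool) :
    Integrable (fun x => (fs n e x) ^ 4) (muT d) :=
  ((lowerSigns_continuous n e).pow 4).integrable_of_hasCompactSupport
    (HasCompactSupport.of_compactSpace _)

/-- fourth moment -/
theorem fs_fourth (d n : ℕ) :
    (∑ T ∈ (PP d n).powerset, ∫ x, (fs n (sgn T) x) ^ 4 ∂(muT d))
      ≤ 2 ^ (PP d n).card * (3 * ((PP d n).card : ℝ) ^ 2) := by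
  rw [← integral_finsetSum _ fun T _ => lowerSigns_integrable n (sgn T)]
  have hle : ∀ x : UnitAddTorus (Fin d), ∑ T ∈ (PP d n).powerset, (fs n (sgn T) x) ^ 4
      ≤ 2 ^ (PP d n).card * (3 * ((PP d n).card : ℝ) ^ 2) := by
    intro x
    simp_rw [lowerSigns_fs]
    refine (lowerSigns_four _ _).trans ?_
    have h0 : 0 ≤ ∑ ξ ∈ PP d n, (mFourier ξ x).re ^ 2 := Finset.sum_nonneg fun _ _ => sq_nonneg _
    have h1 := lowerSigns_sum_sq_le n x
    gcongr
  calc ∫ x, ∑ T ∈ (PP d n).powerset, (fs n (sgn T) x) ^ 4 ∂(muT d)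
      ≤ ∫ _x, (2 ^ (PP d n).card * (3 * ((PP d n).card : ℝ) ^ 2) : ℝ) ∂(muT d) := by
        apply integral_mono
        · exact integrable_finsetSum _ fun T _ => lowerSigns_integrable n (sgn T)
        · exact integrable_const _
        · exact hle
    _ = _ := by simp

/-- exponential moment at a point -/
theorem fs_exp (d n : ℕ) (x : UnitAddTorus (Fin d)) (l : ℝ) :
    (∑ T ∈ (PP d n).powerset, Real.exp (l * fs n (sgn T) x))
      ≤ 2 ^ (PP d n).card * Real.exp (l ^ 2 * (PP d n).card / 2) := by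
  simp_rw [lowerSigns_fs]
  refine (lowerSigns_exp _ _ l).trans ?_
  have h1 := lowerSigns_sum_sq_le n x
  gcongr

/-- point of the torus with real coordinates -/
noncomputable def lowerSigns_pt {d : ℕ} (r : Fin d → ℝ) : UnitAddTorus (Fin d) := fun i => (r i : UnitAddCircle)

lemma lowerSigns_re_pt {d : ℕ} (ξ : Fin d → ℤ) (r : Fin d → ℝ) :
    (mFourier ξ (lowerSigns_pt r)).re = Real.cos (2 * Real.pi * ∑ i, (ξ i : ℝ) * r i) := by
  have : mFourier ξ (lowerSigns_pt r)
      = Complex.exp (((2 * Real.pi * ∑ i, (ξ i : ℝ) * r i : ℝ) : ℂ) * Complex.I) := by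
    unfold mFourier lowerSigns_pt
    simp only [ContinuousMap.coe_mk, fourier_coe_apply]
    rw [← Complex.exp_sum]
    congr 1
    push_cast
    rw [Finset.mul_sum, Finset.sum_mul]
    apply Finset.sum_congr rfl
    intro i _
    ring
  rw [this, Complex.exp_ofReal_mul_I_re]

lemma lowerSigns_abs_lt {d n : ℕ} {ξ : Fin d → ℤ} (hξ : ξ ∈ PP d n) (i : Fin d) :
    |(ξ i : ℝ)| ≤ 2 ^ n := by
  unfold PP at hξ
  have h1 := (Finset.mem_filter.1 hξ).1
  have h2 : sz (ξ i) ≤ n := (sz_le_tsz ξ i).trans (mem_dQ.1 h1).le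
  have h3 := Finset.mem_Ioo.1 (sz_le_iff.1 h2)
  rw [abs_le]
  constructor
  · have := h3.1.le
    exact_mod_cast this
  · have := h3.2.le
    exact_mod_cast this

lemma lowerSigns_lip {d : ℕ} (n : ℕ) (e : (Fin d → ℤ) → Bool) (r s : Fin d → ℝ) (δ : ℝ)
    (h : ∀ i, |r i - s i| ≤ δ) :
    |fs n e (lowerSigns_pt r) - fs n e (lowerSigns_pt s)|
      ≤ (PP d n).card * (2 * Real.pi * (d * (2 ^ n * δ))) := by
  unfold fs
  rw [← Finset.sum_sub_distrib]
  refine (Finset.abs_sum_le_sum_abs _ _).trans ?_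
  have : ∀ ξ ∈ PP d n, |(if e ξ then (1 : ℝ) else -1) * (mFourier ξ (lowerSigns_pt r)).re
      - (if e ξ then (1 : ℝ) else -1) * (mFourier ξ (lowerSigns_pt s)).re|
      ≤ 2 * Real.pi * (d * (2 ^ n * δ)) := by
    intro ξ hξ
    rw [← mul_sub, abs_mul]
    have h1 : |(if e ξ then (1 : ℝ) else -1)| = 1 := by split_ifs <;> simp
    rw [h1, one_mul, lowerSigns_re_pt, lowerSigns_re_pt]
    refine (Real.abs_cos_sub_cos_le _ _).trans ?_
    rw [← mul_sub, ← Finset.sum_sub_distrib, abs_mul, abs_of_pos (by positivity : 0 < 2 * Real.pi)]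
    apply mul_le_mul_of_nonneg_left _ (by positivity)
    refine (Finset.abs_sum_le_sum_abs _ _).trans ?_
    have h2 : ∀ i ∈ (Finset.univ : Finset (Fin d)), |(ξ i : ℝ) * r i - ξ i * s i| ≤ 2 ^ n * δ := by
      intro i _
      rw [← mul_sub, abs_mul]
      exact mul_le_mul (lowerSigns_abs_lt hξ i) (h i) (abs_nonneg _) (by positivity)
    refine (Finset.sum_le_sum h2).trans ?_
    simp
  refine (Finset.sum_le_sum this).trans ?_
  simp

lemma lowerSigns_exists_pt {d : ℕ} (x : UnitAddTorus (Fin d)) (M : ℕ) (hM : 0 < M) :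
    ∃ (r : Fin d → ℝ) (j : Fin d → Fin M), x = lowerSigns_pt r ∧
      ∀ i, |r i - ((j i : ℕ) : ℝ) / M| ≤ 1 / M := by
  have h1 : ∀ i, ∃ (t : ℝ) (j : Fin M), (t : UnitAddCircle) = x i ∧ |t - ((j : ℕ) : ℝ) / M| ≤ 1 / M := by
    intro i
    have hx : x i ∈ ((↑) : ℝ → UnitAddCircle) '' Set.Ico 0 (0 + 1) := by
      rw [AddCircle.coe_image_Ico_eq]
      trivial
    obtain ⟨t, ht, htx⟩ := hx
    have hM' : (0 : ℝ) < M := by exact_mod_cast hM
    have h0 : 0 ≤ t * M := mul_nonneg ht.1 hM'.le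
    have hlt : ⌊t * M⌋₊ < M := by
      rw [Nat.floor_lt h0]
      have := ht.2
      nlinarith
    refine ⟨t, ⟨⌊t * M⌋₊, hlt⟩, htx, ?_⟩
    have h2 := Nat.floor_le h0
    have h3 := Nat.lt_floor_add_one (t * M)
    have h4 : t - (⌊t * M⌋₊ : ℝ) / M = (t * M - ⌊t * M⌋₊) / M := by
      field_simp
    simp only
    rw [h4, abs_div, abs_of_pos hM', abs_of_nonneg (by linarith)]
    exact div_le_div_of_nonneg_right (by linarith) hM'.le
  choose t j h using h1
  exact ⟨t, j, funext fun i => (h i).1.symm, fun i => (h i).2⟩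

open Classical in
lemma lowerSigns_chernoff (d n : ℕ) (x : UnitAddTorus (Fin d)) (lam : ℝ) (hlam : 0 ≤ lam)
    (hN : 0 < (PP d n).card) :
    ((((PP d n).powerset.filter fun T => lam < |fs n (sgn T) x|).card : ℕ) : ℝ)
      ≤ 2 * (2 ^ (PP d n).card * Real.exp (-(lam ^ 2 / (2 * (PP d n).card)))) := by
  have hN' : (0 : ℝ) < (PP d n).card := by exact_mod_cast hN
  have key : ∀ l : ℝ, |l| = lam / (PP d n).card →
      ((((PP d n).powerset.filter fun T => |l| * lam < l * fs n (sgn T) x).card : ℕ) : ℝ)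
      ≤ 2 ^ (PP d n).card * Real.exp (-(lam ^ 2 / (2 * (PP d n).card))) := by
    intro l hl
    have h1 : ((((PP d n).powerset.filter fun T => |l| * lam < l * fs n (sgn T) x).card : ℕ) : ℝ)
        * Real.exp (|l| * lam) ≤ ∑ T ∈ (PP d n).powerset, Real.exp (l * fs n (sgn T) x) := by
      rw [← nsmul_eq_mul, ← Finset.sum_const]
      refine (Finset.sum_le_sum ?_).trans
        (Finset.sum_le_sum_of_subset_of_nonneg (Finset.filter_subset _ _)
          fun _ _ _ => (Real.exp_pos _).le)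
      intro T hT
      exact Real.exp_le_exp.2 (Finset.mem_filter.1 hT).2.le
    have h2 := h1.trans (fs_exp d n x l)
    have h3 : Real.exp (-(lam ^ 2 / (2 * (PP d n).card)))
        = Real.exp (l ^ 2 * (PP d n).card / 2) * Real.exp (-(|l| * lam)) := by
      rw [← Real.exp_add]
      congr 1
      rw [← sq_abs l, hl]
      field_simp
      ring
    rw [h3, ← mul_assoc, Real.exp_neg, ← div_eq_mul_inv, le_div_iff₀ (Real.exp_pos _)]
    exact h2
  have hc0 : 0 ≤ lam / (PP d n).card := by positivity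
  have k1 := key (lam / (PP d n).card) (abs_of_nonneg hc0)
  have k2 := key (-(lam / (PP d n).card)) (by rw [abs_neg, abs_of_nonneg hc0])
  rw [abs_neg] at k2
  rw [abs_of_nonneg hc0] at k1 k2
  by_cases hl0 : lam = 0
  · subst hl0
    have : ((((PP d n).powerset.filter fun T => (0 : ℝ) < |fs n (sgn T) x|).card : ℕ) : ℝ)
        ≤ 2 ^ (PP d n).card := by
      refine (Nat.cast_le.2 (Finset.card_filter_le _ _)).trans ?_
      rw [Finset.card_powerset]
      simp
    refine this.trans ?_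
    simp
  have hlpos : 0 < lam := lt_of_le_of_ne hlam (Ne.symm hl0)
  have hc : 0 < lam / (PP d n).card := by positivity
  have hsub : ((PP d n).powerset.filter fun T => lam < |fs n (sgn T) x|)
      ⊆ ((PP d n).powerset.filter fun T => lam / (PP d n).card * lam
          < lam / (PP d n).card * fs n (sgn T) x)
        ∪ ((PP d n).powerset.filter fun T => lam / (PP d n).card * lam
          < -(lam / (PP d n).card) * fs n (sgn T) x) := by
    intro T hT
    rw [Finset.mem_filter] at hT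
    rw [Finset.mem_union, Finset.mem_filter, Finset.mem_filter]
    rcases lt_abs.1 hT.2 with h | h
    · exact Or.inl ⟨hT.1, mul_lt_mul_of_pos_left h hc⟩
    · refine Or.inr ⟨hT.1, ?_⟩
      rw [neg_mul, ← mul_neg]
      exact mul_lt_mul_of_pos_left h hc
  have hcard := (Finset.card_le_card hsub).trans (Finset.card_union_le _ _)
  have hcard' : ((((PP d n).powerset.filter fun T => lam < |fs n (sgn T) x|).card : ℕ) : ℝ)
      ≤ ((((PP d n).powerset.filter fun T => lam / (PP d n).card * lam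
          < lam / (PP d n).card * fs n (sgn T) x).card : ℕ) : ℝ)
        + ((((PP d n).powerset.filter fun T => lam / (PP d n).card * lam
          < -(lam / (PP d n).card) * fs n (sgn T) x).card : ℕ) : ℝ) := by
    exact_mod_cast hcard
  linarith

lemma lowerSigns_card_le (d n : ℕ) (hd : 1 ≤ d) : ((PP d n).card : ℝ) ≤ 2 ^ (n * d) := by
  refine (card_PP_le d n hd).trans ?_
  unfold DD
  have h1 : ((n : ℝ) + 1) ≤ 2 ^ n := by
    have := Nat.lt_two_pow_self (n := n)
    exact_mod_cast this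
  obtain ⟨k, rfl⟩ := Nat.exists_eq_add_of_le hd
  have : (2 : ℝ) ^ (n * (1 + k)) = 2 ^ n * (2 ^ n) ^ k := by
    rw [← pow_mul, ← pow_add]
    congr 1
    ring
  rw [this]
  have h2 : 1 + k - 1 = k := by omega
  rw [h2]
  gcongr

open Classical in
theorem good_signs (d : ℕ) (hd : 1 ≤ d) : ∃ C : ℝ, 0 < C ∧ ∀ n : ℕ, 1 ≤ n →
    (2 : ℝ) ^ (PP d n).card / 2 ≤
      (((PP d n).powerset.filter fun T =>
        (∀ x, |fs n (sgn T) x| ≤ C * Real.sqrt (n * (PP d n).card)) ∧
        ∫ x, (fs n (sgn T) x) ^ 4 ∂(muT d) ≤ 12 * ((PP d n).card : ℝ) ^ 2).card : ℝ) := by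
  set S : ℕ := (2 * d + 4) * d + 3 with hS
  set C0 : ℝ := Real.sqrt (2 * S) with hC0
  refine ⟨C0 + 1, by positivity, ?_⟩
  intro n hn
  rcases Nat.eq_zero_or_pos (PP d n).card with h0 | hN
  · have he : PP d n = ∅ := Finset.card_eq_zero.1 h0
    have hf : ∀ T x, fs n (sgn (d := d) T) x = 0 := by
      intro T x
      unfold fs
      rw [he]
      simp
    have : ((PP d n).powerset.filter fun T =>
        (∀ x, |fs n (sgn T) x| ≤ (C0 + 1) * Real.sqrt (n * (PP d n).card)) ∧
        ∫ x, (fs n (sgn T) x) ^ 4 ∂(muT d) ≤ 12 * ((PP d n).card : ℝ) ^ 2) = (PP d n).powerset := by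
      apply Finset.filter_true_of_mem
      intro T _
      simp [hf, h0]
    rw [this, Finset.card_powerset, h0]
    norm_num
  have hN' : (0 : ℝ) < (PP d n).card := by exact_mod_cast hN
  have hN1 : (1 : ℝ) ≤ (PP d n).card := by exact_mod_cast hN
  have hn1 : (1 : ℝ) ≤ n := by exact_mod_cast hn
  set N : ℕ := (PP d n).card with hNdef
  set lam : ℝ := C0 * Real.sqrt (n * N) with hlam
  have hlam0 : 0 ≤ lam := by positivity
  set K : ℕ := (d + 3) + n + n * d with hK
  set M : ℕ := 2 ^ K with hM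
  have hMpos : 0 < M := by positivity
  have hMpos' : (0 : ℝ) < M := by exact_mod_cast hMpos
  have hMr : (M : ℝ) = 2 ^ K := by rw [hM]; push_cast; rfl
  -- the grid
  let gp : (Fin d → Fin M) → UnitAddTorus (Fin d) := fun j => lowerSigns_pt fun i => ((j i : ℕ) : ℝ) / M
  set bad4 := (PP d n).powerset.filter fun T =>
    12 * (N : ℝ) ^ 2 < ∫ x, (fs n (sgn T) x) ^ 4 ∂(muT d) with hbad4
  set badg := (Finset.univ : Finset (Fin d → Fin M)).biUnion fun j =>
    (PP d n).powerset.filter fun T => lam < |fs n (sgn T) (gp j)| with hbadg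
  set good := ((PP d n).powerset.filter fun T =>
        (∀ x, |fs n (sgn T) x| ≤ (C0 + 1) * Real.sqrt (n * N)) ∧
        ∫ x, (fs n (sgn T) x) ^ 4 ∂(muT d) ≤ 12 * (N : ℝ) ^ 2) with hgood
  have hcover : (PP d n).powerset ⊆ good ∪ (bad4 ∪ badg) := by
    intro T hT
    by_cases h4 : T ∈ bad4
    · exact Finset.mem_union_right _ (Finset.mem_union_left _ h4)
    by_cases hg : T ∈ badg
    · exact Finset.mem_union_right _ (Finset.mem_union_right _ hg)
    apply Finset.mem_union_left
    rw [hgood, Finset.mem_filter]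
    refine ⟨hT, ?_, ?_⟩
    · intro x
      obtain ⟨r, j, hx, hr⟩ := lowerSigns_exists_pt x M hMpos
      have h1 : |fs n (sgn T) (gp j)| ≤ lam := by
        by_contra hcon
        apply hg
        rw [hbadg, Finset.mem_biUnion]
        exact ⟨j, Finset.mem_univ _, Finset.mem_filter.2 ⟨hT, not_le.1 hcon⟩⟩
      have h2 := lowerSigns_lip n (sgn T) r (fun i => ((j i : ℕ) : ℝ) / M) (1 / M) hr
      rw [← hx] at h2
      have h3 : ((N : ℝ)) * (2 * Real.pi * (d * (2 ^ n * (1 / M)))) ≤ 1 := by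
        have hNle : (N : ℝ) ≤ 2 ^ (n * d) := lowerSigns_card_le d n hd
        have hdle : (d : ℝ) ≤ 2 ^ d := by
          have := (Nat.lt_two_pow_self (n := d)).le
          exact_mod_cast this
        have hpi : 2 * Real.pi ≤ 8 := by
          have := Real.pi_lt_four
          linarith
        have : (N : ℝ) * (2 * Real.pi * (d * (2 ^ n * (1 / M))))
            = ((N : ℝ) * (2 * Real.pi) * d * 2 ^ n) / M := by
          field_simp
        rw [this, div_le_one hMpos', hMr, hK]
        calc (N : ℝ) * (2 * Real.pi) * d * 2 ^ n ≤ 2 ^ (n * d) * 8 * 2 ^ d * 2 ^ n := by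
              gcongr
          _ = 2 ^ (d + 3 + n + n * d) := by
              rw [pow_add, pow_add, pow_add]
              ring
      have h4 : (1 : ℝ) ≤ Real.sqrt (n * N) := by
        rw [Real.one_le_sqrt]
        nlinarith
      have h5 : |fs n (sgn T) x| ≤ |fs n (sgn T) (gp j)| + |fs n (sgn T) x - fs n (sgn T) (gp j)| := by
        have := abs_add_le (fs n (sgn T) (gp j)) (fs n (sgn T) x - fs n (sgn T) (gp j))
        simpa using this
      have h6 : |fs n (sgn T) x - fs n (sgn T) (gp j)| ≤ 1 := h2.trans h3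
      calc |fs n (sgn T) x| ≤ lam + 1 := by linarith
        _ ≤ lam + Real.sqrt (n * N) := by linarith
        _ = (C0 + 1) * Real.sqrt (n * N) := by rw [hlam]; ring
    · by_contra hcon
      exact h4 (Finset.mem_filter.2 ⟨hT, not_le.1 hcon⟩)
  have hc4 : (bad4.card : ℝ) ≤ 2 ^ N / 4 := by
    have h1 : (bad4.card : ℝ) * (12 * (N : ℝ) ^ 2)
        ≤ ∑ T ∈ (PP d n).powerset, ∫ x, (fs n (sgn T) x) ^ 4 ∂(muT d) := by
      rw [← nsmul_eq_mul, ← Finset.sum_const]
      refine (Finset.sum_le_sum ?_).trans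
        (Finset.sum_le_sum_of_subset_of_nonneg (Finset.filter_subset _ _) ?_)
      · intro T hT
        exact (Finset.mem_filter.1 hT).2.le
      · intro T _ _
        exact integral_nonneg fun x => by positivity
    have h2 := h1.trans (fs_fourth d n)
    have h3 : (0 : ℝ) < (N : ℝ) ^ 2 := by positivity
    have h4 : (bad4.card : ℝ) * 12 * (N : ℝ) ^ 2 ≤ 2 ^ N * 3 * (N : ℝ) ^ 2 := by
      calc _ = (bad4.card : ℝ) * (12 * (N : ℝ) ^ 2) := by ring
        _ ≤ _ := h2
        _ = _ := by ring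
    have h5 := le_of_mul_le_mul_right h4 h3
    linarith
  have hcg : (badg.card : ℝ) ≤ 2 ^ N / 4 := by
    have h1 : (badg.card : ℝ) ≤ ∑ _j : Fin d → Fin M,
        2 * (2 ^ N * Real.exp (-(lam ^ 2 / (2 * N)))) := by
      refine (Nat.cast_le.2 Finset.card_biUnion_le).trans ?_
      push_cast
      exact Finset.sum_le_sum fun j _ => lowerSigns_chernoff d n (gp j) lam hlam0 hN
    refine h1.trans ?_
    rw [Finset.sum_const, Finset.card_univ, nsmul_eq_mul]
    have hcard : (Fintype.card (Fin d → Fin M) : ℝ) = 2 ^ (K * d) := by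
      rw [Fintype.card_pi]
      simp [hM, pow_mul]
    rw [hcard]
    have hl2 : lam ^ 2 / (2 * N) = n * S := by
      have a1 : C0 ^ 2 = 2 * S := Real.sq_sqrt (by positivity)
      have a2 : Real.sqrt (n * N) ^ 2 = n * N := Real.sq_sqrt (by positivity)
      rw [hlam, mul_pow, a1, a2]
      field_simp
    rw [hl2]
    have hexp : (8 : ℝ) * 2 ^ (K * d) ≤ Real.exp (n * S) := by
      have e1 : (2 : ℝ) ≤ Real.exp 1 := by
        have := Real.exp_one_gt_d9
        linarith
      have e2 : Real.exp (n * S) = Real.exp 1 ^ (n * S) := by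
        rw [← Real.exp_nat_mul]
        push_cast
        ring_nf
      have e3 : 3 + K * d ≤ n * S := by
        rw [hK, hS]
        obtain ⟨k, rfl⟩ := Nat.exists_eq_add_of_le hn
        ring_nf
        nlinarith
      calc (8 : ℝ) * 2 ^ (K * d) = 2 ^ (3 + K * d) := by rw [pow_add]; norm_num
        _ ≤ 2 ^ (n * S) := pow_le_pow_right₀ (by norm_num) e3
        _ ≤ Real.exp 1 ^ (n * S) := pow_le_pow_left₀ (by norm_num) e1 _
        _ = Real.exp (n * S) := e2.symm
    have hE : 0 < Real.exp (n * S) := Real.exp_pos _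
    have h2N : (0 : ℝ) < 2 ^ N := by positivity
    rw [Real.exp_neg]
    have : (2 : ℝ) ^ (K * d) * (2 * (2 ^ N * (Real.exp (n * S))⁻¹))
        = (8 * 2 ^ (K * d)) * (Real.exp (n * S))⁻¹ * (2 ^ N / 4) := by ring
    rw [this]
    have h3 : (8 * 2 ^ (K * d)) * (Real.exp (n * S))⁻¹ ≤ 1 := by
      rw [← div_eq_mul_inv, div_le_one hE]
      exact hexp
    nlinarith
  have htot : (2 : ℝ) ^ N ≤ good.card + (bad4.card + badg.card) := by
    have h1 := (Finset.card_le_card hcover).trans
      ((Finset.card_union_le _ _).trans (Nat.add_le_add_left (Finset.card_union_le _ _) _))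
    rw [Finset.card_powerset] at h1
    exact_mod_cast h1
  linarith

end Pool.Agent.LibEnt73
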