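import Pool.Agent.LibEnt73.LowerLayer

/-! Task LW: lower bounds for the classes (uses layer_lower, card_PP_ge, card_PP_le, lay_eq, QQ_eq). -/

namespace Pool.Agent.LibEnt73

open MeasureTheory Finset UnitAddTorus

noncomputable section

/-- amplitude of the layer `n` -/
def lowerW_amp (d : ℕ) (a b : ℝ) (n : ℕ) : ℝ :=
  (2 : ℝ) ^ (-(a * n)) * (n : ℝ) ^ (((d : ℝ) - 1) * b)

theorem lowerW_amp_pos (d : ℕ) (a b : ℝ) (n : ℕ) (hn : 1 ≤ n) : 0 < lowerW_amp d a b n := by
  unfold lowerW_amp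
  have : (0 : ℝ) < n := by exact_mod_cast hn
  positivity

/-- choice of the level for a given number of bits -/
theorem lowerW_choice (d : ℕ) (hd : 1 ≤ d) : ∃ c C : ℝ, 0 < c ∧ 0 < C ∧ ∀ k : ℕ, 2 ≤ k →
    ∃ n : ℕ, 1 ≤ n ∧ (k : ℝ) < ((PP d n).card : ℝ) / 2 - 1 ∧ c * (2 ^ n * (n : ℝ) ^ (d - 1)) ≤ k ∧
      Real.log k ≤ C * n ∧ c * n ≤ Real.log k := by
  obtain ⟨c0, hc0, hge⟩ := card_PP_ge d hd
  set c1 : ℝ := min (c0 / (6 * 2 ^ (d - 1))) 1 with hc1
  have hc1pos : 0 < c1 := lt_min (by positivity) one_pos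
  have hc1le : c1 ≤ 1 := min_le_right _ _
  have hc1le' : c1 ≤ c0 / (6 * 2 ^ (d - 1)) := min_le_left _ _
  -- a constant for the logarithm
  have hlog2 : 0 < Real.log 2 := Real.log_pos (by norm_num)
  -- `log (c1 2^n) ≥ ...`
  obtain ⟨c2, hc2pos, hc2⟩ : ∃ c2 : ℝ, 0 < c2 ∧ ∀ n : ℕ, 1 ≤ n → ∀ k : ℕ, 2 ≤ k →
      c1 * 2 ^ n ≤ (k : ℝ) → c2 * n ≤ Real.log k := by
    set B : ℝ := -Real.log c1 with hB
    have hB0 : 0 ≤ B := by
      rw [hB]
      have := Real.log_nonpos hc1pos.le hc1le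
      linarith
    refine ⟨Real.log 2 ^ 2 / (2 * (Real.log 2 + B)), by positivity, fun n hn k hk h => ?_⟩
    have hk2 : Real.log 2 ≤ Real.log k := Real.log_le_log (by norm_num) (by exact_mod_cast hk)
    have h1 : (n : ℝ) * Real.log 2 - B ≤ Real.log k := by
      have h2 : Real.log (c1 * 2 ^ n) ≤ Real.log k := Real.log_le_log (by positivity) h
      rw [Real.log_mul hc1pos.ne' (by positivity), Real.log_pow] at h2
      rw [hB]
      linarith
    -- `(log 2 + B) log k ≥ log 2 * (n log 2) / 2`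
    have hpos : 0 < 2 * (Real.log 2 + B) := by positivity
    rw [div_mul_eq_mul_div, div_le_iff₀ hpos]
    have hn0 : (0 : ℝ) ≤ n := Nat.cast_nonneg n
    nlinarith [mul_nonneg hB0 (sub_nonneg.2 hk2), mul_nonneg hlog2.le (sub_nonneg.2 h1),
      mul_nonneg hlog2.le (sub_nonneg.2 hk2)]
  refine ⟨min c1 c2, (Real.log 2 + d), lt_min hc1pos hc2pos, by positivity, fun k hk => ?_⟩
  have hk' : (2 : ℝ) ≤ k := by exact_mod_cast hk
  -- existence
  have hex : ∃ n : ℕ, 1 ≤ n ∧ 2 * k + 2 < (PP d n).card := by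
    obtain ⟨n, hn⟩ := pow_unbounded_of_one_lt ((2 * k + 2) / c0 : ℝ) (one_lt_two)
    refine ⟨n + 1, by omega, ?_⟩
    have h1 := hge (n + 1) (by omega)
    have h2 : (2 * k + 2 : ℝ) < c0 * 2 ^ n := by
      rw [div_lt_iff₀ hc0] at hn
      linarith
    have h3 : (2 : ℝ) ^ n ≤ 2 ^ (n + 1) * ((n + 1 : ℕ) : ℝ) ^ (d - 1) := by
      have h4 : (2 : ℝ) ^ n ≤ 2 ^ (n + 1) := by
        rw [pow_succ]
        have : (0 : ℝ) < 2 ^ n := by positivity
        linarith
      have h5 : (1 : ℝ) ≤ ((n + 1 : ℕ) : ℝ) ^ (d - 1) := by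
        apply one_le_pow₀
        push_cast
        have : (0 : ℝ) ≤ n := Nat.cast_nonneg n
        linarith
      calc (2 : ℝ) ^ n ≤ 2 ^ (n + 1) := h4
        _ = 2 ^ (n + 1) * 1 := (mul_one _).symm
        _ ≤ _ := by gcongr
    have h6 : (2 * k + 2 : ℝ) < ((PP d (n + 1)).card : ℝ) :=
      h2.trans_le ((mul_le_mul_of_nonneg_left h3 hc0.le).trans h1)
    exact_mod_cast h6
  classical
  let n := Nat.find hex
  have hn : 1 ≤ n ∧ 2 * k + 2 < (PP d n).card := Nat.find_spec hex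
  have hmin : ∀ m, m < n → ¬ (1 ≤ m ∧ 2 * k + 2 < (PP d m).card) := fun m hm => Nat.find_min hex hm
  have hn1 : (1 : ℝ) ≤ n := by exact_mod_cast hn.1
  -- lower bound for `k`
  have hlow : c1 * (2 ^ n * (n : ℝ) ^ (d - 1)) ≤ k := by
    rcases Nat.lt_or_ge 1 n with h1 | h1
    · have h2 := hmin (n - 1) (by omega)
      have h3 : (PP d (n - 1)).card ≤ 2 * k + 2 := by
        by_contra hcon
        exact h2 ⟨by omega, by omega⟩
      have h4 := hge (n - 1) (by omega)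
      have h5 : ((PP d (n - 1)).card : ℝ) ≤ 2 * k + 2 := by exact_mod_cast h3
      have h6 : c0 * (2 ^ (n - 1) * ((n - 1 : ℕ) : ℝ) ^ (d - 1)) ≤ 3 * k := by linarith
      have h7 : (n : ℝ) / 2 ≤ ((n - 1 : ℕ) : ℝ) := by
        rw [Nat.cast_sub (by omega)]
        have : (2 : ℝ) ≤ n := by exact_mod_cast h1
        push_cast
        linarith
      have h8 : ((n : ℝ) / 2) ^ (d - 1) ≤ ((n - 1 : ℕ) : ℝ) ^ (d - 1) := by gcongr
      have h9 : (2 : ℝ) ^ n = 2 * 2 ^ (n - 1) := by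
        rw [← pow_succ']
        congr 1
        omega
      rw [div_pow] at h8
      have h10 : c1 * (2 ^ n * (n : ℝ) ^ (d - 1)) ≤
          c0 / (6 * 2 ^ (d - 1)) * (2 ^ n * (n : ℝ) ^ (d - 1)) := by gcongr
      refine h10.trans ?_
      have h11 : c0 / (6 * 2 ^ (d - 1)) * (2 ^ n * (n : ℝ) ^ (d - 1))
          = (c0 * (2 ^ (n - 1) * ((n : ℝ) ^ (d - 1) / 2 ^ (d - 1)))) / 3 := by
        rw [h9]
        field_simp
        ring
      rw [h11, div_le_iff₀ (by norm_num)]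
      calc c0 * (2 ^ (n - 1) * ((n : ℝ) ^ (d - 1) / 2 ^ (d - 1)))
          ≤ c0 * (2 ^ (n - 1) * ((n - 1 : ℕ) : ℝ) ^ (d - 1)) := by gcongr
        _ ≤ 3 * k := h6
        _ = k * 3 := by ring
    · have h2 : n = 1 := by omega
      rw [h2]
      push_cast
      rw [one_pow]
      nlinarith
  refine ⟨n, hn.1, ?_, ?_, ?_, ?_⟩
  · have h1 : ((2 * k + 2 : ℕ) : ℝ) < ((PP d n).card : ℝ) := by exact_mod_cast hn.2
    push_cast at h1
    linarith
  · refine le_trans ?_ hlow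
    gcongr
    exact min_le_left _ _
  · -- upper bound for `log k`
    have h1 : ((2 * k + 2 : ℕ) : ℝ) < ((PP d n).card : ℝ) := by exact_mod_cast hn.2
    push_cast at h1
    have h2 := card_PP_le d n hd
    unfold DD at h2
    have h3 : (k : ℝ) ≤ 2 ^ n * ((n : ℝ) + 1) ^ (d - 1) := by linarith
    have h4 : Real.log k ≤ Real.log (2 ^ n * ((n : ℝ) + 1) ^ (d - 1)) :=
      Real.log_le_log (by linarith) h3
    rw [Real.log_mul (by positivity) (by positivity), Real.log_pow, Real.log_pow] at h4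
    have h5 : Real.log ((n : ℝ) + 1) ≤ n := by
      have := Real.log_le_sub_one_of_pos (show (0 : ℝ) < (n : ℝ) + 1 by positivity)
      linarith
    have h6 : ((d - 1 : ℕ) : ℝ) ≤ d := by exact_mod_cast Nat.sub_le d 1
    have h7 : ((d - 1 : ℕ) : ℝ) * Real.log ((n : ℝ) + 1) ≤ d * n := by
      have h8 : 0 ≤ Real.log ((n : ℝ) + 1) := Real.log_nonneg (by linarith)
      exact mul_le_mul h6 h5 h8 (by positivity)
    nlinarith
  · refine le_trans ?_ (hc2 n hn.1 k hk ?_)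
    · gcongr
      exact min_le_right _ _
    · refine le_trans ?_ hlow
      have h5 : (1 : ℝ) ≤ (n : ℝ) ^ (d - 1) := one_le_pow₀ hn1
      have h6 : (0 : ℝ) < 2 ^ n := by positivity
      have : (2 : ℝ) ^ n ≤ 2 ^ n * (n : ℝ) ^ (d - 1) := by nlinarith
      gcongr

/-- comparison of the amplitude with `phi` -/
theorem lowerW_phi (d : ℕ) (hd : 1 ≤ d) (a b : ℝ) (ha : 0 < a) (c C : ℝ) (hc : 0 < c) (hC : 0 < C) :
    ∃ c' : ℝ, 0 < c' ∧ ∀ k n : ℕ, 2 ≤ k → 1 ≤ n → c * (2 ^ n * (n : ℝ) ^ (d - 1)) ≤ k →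
      Real.log k ≤ C * n → c * n ≤ Real.log k →
      c' * phi d a b k ≤ lowerW_amp d a b n * (n : ℝ) ^ (-(1 / 2) : ℝ) := by
  set E : ℝ := ((d : ℝ) - 1) * (a + b) - 1 / 2 with hE
  set K : ℝ := c ^ (-a) * (C ^ E + c ^ E) with hK
  have hKpos : 0 < K := by positivity
  refine ⟨K⁻¹, by positivity, fun k n hk hn h1 h2 h3 => ?_⟩
  have hn0 : (0 : ℝ) < n := by exact_mod_cast hn
  have hk0 : (0 : ℝ) < k := by
    have : (2 : ℝ) ≤ k := by exact_mod_cast hk
    linarith
  have hl0 : 0 < Real.log k := lt_of_lt_of_le (by positivity) h3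
  rw [inv_mul_le_iff₀ hKpos]
  unfold phi
  rw [← hE]
  have hd1 : (((d - 1 : ℕ) : ℝ)) = (d : ℝ) - 1 := by
    rw [Nat.cast_sub hd]; simp
  -- first factor
  have f1 : (k : ℝ) ^ (-a) ≤ c ^ (-a) * ((2 : ℝ) ^ (-(a * n)) * (n : ℝ) ^ (-(((d : ℝ) - 1) * a))) := by
    have e1 : (k : ℝ) ^ (-a) ≤ (c * (2 ^ n * (n : ℝ) ^ (d - 1))) ^ (-a) :=
      Real.rpow_le_rpow_of_nonpos (by positivity) h1 (by linarith)
    refine e1.trans (le_of_eq ?_)
    rw [Real.mul_rpow hc.le (by positivity), Real.mul_rpow (by positivity) (by positivity)]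
    congr 2
    · rw [← Real.rpow_natCast 2 n, ← Real.rpow_mul (by norm_num)]
      congr 1
      ring
    · rw [← Real.rpow_natCast (n : ℝ) (d - 1), ← Real.rpow_mul hn0.le, hd1]
      congr 1
      ring
  -- second factor
  have f2 : Real.log k ^ E ≤ (C ^ E + c ^ E) * (n : ℝ) ^ E := by
    rcases le_total 0 E with hE0 | hE0
    · have e1 : Real.log k ^ E ≤ (C * n) ^ E := Real.rpow_le_rpow hl0.le h2 hE0
      rw [Real.mul_rpow hC.le hn0.le] at e1
      refine e1.trans ?_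
      have : 0 < c ^ E := by positivity
      gcongr
      linarith
    · have e1 : Real.log k ^ E ≤ (c * n) ^ E :=
        Real.rpow_le_rpow_of_nonpos (by positivity) h3 hE0
      rw [Real.mul_rpow hc.le hn0.le] at e1
      refine e1.trans ?_
      have : 0 < C ^ E := by positivity
      gcongr
      linarith
  calc (k : ℝ) ^ (-a) * Real.log k ^ E
      ≤ (c ^ (-a) * ((2 : ℝ) ^ (-(a * n)) * (n : ℝ) ^ (-(((d : ℝ) - 1) * a)))) *
        ((C ^ E + c ^ E) * (n : ℝ) ^ E) := by gcongr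
    _ = K * ((2 : ℝ) ^ (-(a * n)) * ((n : ℝ) ^ (-(((d : ℝ) - 1) * a)) * (n : ℝ) ^ E)) := by
        rw [hK]; ring
    _ = K * (lowerW_amp d a b n * (n : ℝ) ^ (-(1 / 2) : ℝ)) := by
        unfold lowerW_amp
        rw [mul_assoc ((2 : ℝ) ^ (-(a * n))), ← Real.rpow_add hn0, ← Real.rpow_add hn0]
        congr 3
        rw [hE]
        ring

/-- the main argument, for any class containing the scaled layer polynomials -/
theorem lowerW_core (d : ℕ) (hd : 1 ≤ d) (p : ℝ) (hp : 1 ≤ p) (a b : ℝ) (ha : 0 < a)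
    (F : Set (UnitAddTorus (Fin d) → ℂ))
    (hF : ∀ n : ℕ, 1 ≤ n → ∀ co : (Fin d → ℤ) → ℂ,
      (∀ x, (∑ ξ ∈ dQ d n, co ξ * mFourier ξ x).im = 0) →
      (∀ x, ‖∑ ξ ∈ dQ d n, co ξ * mFourier ξ x‖ ≤ 1) →
      (fun x => (lowerW_amp d a b n : ℂ) * ∑ ξ ∈ dQ d n, co ξ * mFourier ξ x) ∈ F) :
    ∃ c : ℝ, 0 < c ∧ ∀ k : ℕ, 2 ≤ k →
      ∀ ε ∈ radii (ENNReal.ofReal p) F k, c * phi d a b k ≤ ε := by
  classical
  obtain ⟨c0, hc0, hlay⟩ := layer_lower d hd
  obtain ⟨c, C, hc, hC, hch⟩ := lowerW_choice d hd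
  obtain ⟨c', hc', hphi⟩ := lowerW_phi d hd a b ha c C hc hC
  refine ⟨c0 * c', by positivity, fun k hk ε hε => ?_⟩
  obtain ⟨n, hn, hcard, h1, h2, h3⟩ := hch k hk
  have hφ := hphi k n hk hn h1 h2 h3
  obtain ⟨hε0, Y, hYc, hYm, hYf⟩ := hε
  have hA := lowerW_amp_pos d a b n hn
  set A := lowerW_amp d a b n with hAdef
  have hp0 : (0 : ℝ) < p := by linarith
  have hp1 : (1 : ENNReal) ≤ ENNReal.ofReal p := by
    rw [← ENNReal.ofReal_one]
    exact ENNReal.ofReal_le_ofReal hp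
  -- it suffices to bound `ε` from below by `c0 A n^(-1/2)`
  have key : c0 * (A * (n : ℝ) ^ (-(1 / 2) : ℝ)) ≤ ε := by
    by_contra hcon
    push Not at hcon
    have hYY := hlay n hn (Y.image fun y => ((A : ℂ)⁻¹) • y) ?_ ?_
    · have hle : ((Y.image fun y => ((A : ℂ)⁻¹) • y).card : ℝ) ≤ 2 ^ k := by
        have h4 : (Y.image fun y => ((A : ℂ)⁻¹) • y).card ≤ 2 ^ k :=
          (Finset.card_image_le).trans hYc
        exact_mod_cast h4
      have h5 : (2 : ℝ) ^ (k : ℝ) < (2 : ℝ) ^ (((PP d n).card : ℝ) / 2 - 1) :=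
        Real.rpow_lt_rpow_of_exponent_lt (by norm_num) hcard
      rw [Real.rpow_natCast] at h5
      linarith
    · intro y hy
      obtain ⟨z, hz, rfl⟩ := Finset.mem_image.1 hy
      exact ((hYm z hz).mono_exponent hp1).const_smul _
    · intro co hreal hbd
      obtain ⟨y, hy, hyε⟩ := hYf _ (hF n hn co hreal hbd)
      refine ⟨(A : ℂ)⁻¹ • y, Finset.mem_image_of_mem _ hy, ?_⟩
      have hAC : (A : ℂ) ≠ 0 := by exact_mod_cast hA.ne'
      have hcont : Continuous fun x : UnitAddTorus (Fin d) =>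
          ∑ ξ ∈ dQ d n, co ξ * mFourier ξ x :=
        continuous_finsetSum _ fun ξ _ => continuous_const.mul (mFourier ξ).continuous
      have heq : ((fun x => ∑ ξ ∈ dQ d n, co ξ * mFourier ξ x) - (A : ℂ)⁻¹ • y)
          = (A : ℂ)⁻¹ • ((fun x => (A : ℂ) * ∑ ξ ∈ dQ d n, co ξ * mFourier ξ x) - y) := by
        funext x
        simp only [Pi.sub_apply, Pi.smul_apply, smul_eq_mul]
        rw [mul_sub, ← mul_assoc, inv_mul_cancel₀ hAC, one_mul]
      have hmeas : AEStronglyMeasurable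
          ((fun x => (A : ℂ) * ∑ ξ ∈ dQ d n, co ξ * mFourier ξ x) - y) (muT d) :=
        ((continuous_const.mul hcont).aestronglyMeasurable).sub (hYm y hy).1
      rw [heq]
      calc eLpNorm ((A : ℂ)⁻¹ • ((fun x => (A : ℂ) * ∑ ξ ∈ dQ d n, co ξ * mFourier ξ x) - y)) 1
              (muT d)
          ≤ eLpNorm ((A : ℂ)⁻¹ • ((fun x => (A : ℂ) * ∑ ξ ∈ dQ d n, co ξ * mFourier ξ x) - y))
              (ENNReal.ofReal p) (muT d) :=
            eLpNorm_le_eLpNorm_of_exponent_le hp1 (hmeas.const_smul _)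
        _ = ENNReal.ofReal A⁻¹ *
            eLpNorm ((fun x => (A : ℂ) * ∑ ξ ∈ dQ d n, co ξ * mFourier ξ x) - y)
              (ENNReal.ofReal p) (muT d) := by
            rw [eLpNorm_const_smul]
            congr 1
            rw [← ofReal_norm, norm_inv, Complex.norm_real, Real.norm_of_nonneg hA.le]
        _ ≤ ENNReal.ofReal A⁻¹ * ENNReal.ofReal ε := by gcongr
        _ = ENNReal.ofReal (A⁻¹ * ε) := (ENNReal.ofReal_mul (by positivity)).symm
        _ ≤ ENNReal.ofReal (c0 * (n : ℝ) ^ (-(1 / 2) : ℝ)) := by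
            apply ENNReal.ofReal_le_ofReal
            rw [inv_mul_le_iff₀ hA]
            nlinarith [hcon.le]
  calc c0 * c' * phi d a b k = c0 * (c' * phi d a b k) := by ring
    _ ≤ c0 * (A * (n : ℝ) ^ (-(1 / 2) : ℝ)) := by gcongr
    _ ≤ ε := key

/-- Fourier coefficients of a scaled layer polynomial -/
theorem lowerW_coef {d : ℕ} (n : ℕ) (A : ℂ) (co : (Fin d → ℤ) → ℂ) (k : Fin d → ℤ) :
    coef (fun x => A * ∑ ξ ∈ dQ d n, co ξ * mFourier ξ x) k = if k ∈ dQ d n then A * co k else 0 := by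
  classical
  unfold coef
  have h1 : ∀ x : UnitAddTorus (Fin d), (A * ∑ ξ ∈ dQ d n, co ξ * mFourier ξ x) *
      (starRingEnd ℂ) (mFourier k x)
      = ∑ ξ ∈ dQ d n, (A * co ξ) * (mFourier ξ x * (starRingEnd ℂ) (mFourier k x)) := by
    intro x
    rw [mul_assoc, Finset.sum_mul, Finset.mul_sum]
    refine Finset.sum_congr rfl fun ξ _ => ?_
    ring
  simp_rw [h1]
  rw [integral_finsetSum]
  · have h2 : ∀ ξ ∈ dQ d n, ∫ x, A * co ξ * (mFourier ξ x * (starRingEnd ℂ) (mFourier k x)) ∂(muT d)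
        = if ξ = k then A * co ξ else 0 := by
      intro ξ _
      rw [integral_const_mul, integral_mFourier_mul_conj]
      split_ifs <;> simp
    rw [Finset.sum_congr rfl h2, Finset.sum_ite_eq']
  · intro ξ _
    apply Integrable.const_mul
    apply Continuous.integrable_of_hasCompactSupport
    · exact (mFourier ξ).continuous.mul (Complex.continuous_conj.comp (mFourier k).continuous)
    · exact HasCompactSupport.of_compactSpace _

theorem lowerW_bound {d : ℕ} (n : ℕ) (A : ℝ) (hA : 0 ≤ A) (co : (Fin d → ℤ) → ℂ)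
    (hbd : ∀ x : UnitAddTorus (Fin d), ‖∑ ξ ∈ dQ d n, co ξ * mFourier ξ x‖ ≤ 1) :
    eLpNorm (fun x => (A : ℂ) * ∑ ξ ∈ dQ d n, co ξ * mFourier ξ x) ⊤ (muT d) ≤ ENNReal.ofReal A := by
  refine (eLpNorm_le_of_ae_bound (C := A) (ae_of_all _ fun x => ?_)).trans ?_
  · rw [norm_mul, Complex.norm_real, Real.norm_of_nonneg hA]
    nlinarith [hbd x]
  · simp

theorem lowerW_cont {d : ℕ} (n : ℕ) (A : ℂ) (co : (Fin d → ℤ) → ℂ) :
    Continuous (fun x : UnitAddTorus (Fin d) => A * ∑ ξ ∈ dQ d n, co ξ * mFourier ξ x) :=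
  continuous_const.mul
    (continuous_finsetSum _ fun ξ _ => continuous_const.mul (mFourier ξ).continuous)

/-- lower bound for the real valued functions of the class `W` (for all `a > 0`) -/
theorem lower_W (d : ℕ) (hd : 1 ≤ d) (p : ℝ) (hp : 1 ≤ p) (a b : ℝ) (ha : 0 < a) :
    ∃ c : ℝ, 0 < c ∧ ∀ k : ℕ, 2 ≤ k →
      ∀ ε ∈ radii (ENNReal.ofReal p) {f ∈ WC d a b | ∀ x, (f x).im = 0} k, c * phi d a b k ≤ ε := by
  classical
  refine lowerW_core d hd p hp a b ha _ fun n hn co hreal hbd => ⟨?_, fun x => ?_⟩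
  · have hA := lowerW_amp_pos d a b n hn
    have hb := lowerW_bound n (lowerW_amp d a b n) hA.le co hbd
    refine ⟨⟨(lowerW_cont n _ co).aestronglyMeasurable, hb.trans_lt ENNReal.ofReal_lt_top⟩,
      fun m => ?_⟩
    have hlay : lay m (fun x => (lowerW_amp d a b n : ℂ) * ∑ ξ ∈ dQ d n, co ξ * mFourier ξ x)
        = fun x => if m = n then
          (lowerW_amp d a b n : ℂ) * ∑ ξ ∈ dQ d n, co ξ * mFourier ξ x else 0 := by
      funext x
      rw [lay_eq]
      simp_rw [lowerW_coef]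
      split_ifs with hmn
      · subst hmn
        rw [Finset.mul_sum]
        refine Finset.sum_congr rfl fun ξ hξ => ?_
        rw [if_pos hξ]
        ring
      · refine Finset.sum_eq_zero fun ξ hξ => ?_
        rw [if_neg, zero_mul]
        intro h
        exact hmn ((mem_dQ.1 hξ).symm.trans (mem_dQ.1 h))
    rw [hlay]
    by_cases hmn : m = n
    · subst hmn
      simp only [if_true]
      refine hb.trans (le_of_eq ?_)
      congr 1
      unfold lowerW_amp
      rw [max_eq_left (by exact_mod_cast hn)]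
    · simp only [if_neg hmn]
      have : (fun _ : UnitAddTorus (Fin d) => (0 : ℂ)) = 0 := rfl
      rw [this, eLpNorm_zero]
      exact zero_le
  · have h := hreal x
    change ((lowerW_amp d a b n : ℂ) * ∑ ξ ∈ dQ d n, co ξ * mFourier ξ x).im = 0
    rw [Complex.im_ofReal_mul, h, mul_zero]

/-- lower bound for the real valued functions of the class `\bar W` (for all `a > 0`) -/
theorem lower_Wb (d : ℕ) (hd : 1 ≤ d) (p : ℝ) (hp : 1 ≤ p) (a b : ℝ) (ha : 0 < a) :
    ∃ c : ℝ, 0 < c ∧ ∀ k : ℕ, 2 ≤ k →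
      ∀ ε ∈ radii (ENNReal.ofReal p) {f ∈ WbC d a b | ∀ x, (f x).im = 0} k, c * phi d a b k ≤ ε := by
  classical
  refine lowerW_core d hd p hp a b ha _ fun n hn co hreal hbd => ⟨?_, fun x => ?_⟩
  · have hA := lowerW_amp_pos d a b n hn
    have hb := lowerW_bound n (lowerW_amp d a b n) hA.le co hbd
    refine ⟨fun m => if m = n then
      (fun x => (lowerW_amp d a b n : ℂ) * ∑ ξ ∈ dQ d n, co ξ * mFourier ξ x) else 0,
      fun m hm => ?_, ae_of_all _ fun x => ?_⟩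
    · by_cases hmn : m = n
      · subst hmn
        simp only [if_true]
        refine ⟨⟨fun ξ => if ξ ∈ dQ d m then (lowerW_amp d a b m : ℂ) * co ξ else 0, ?_⟩, ?_⟩
        · funext x
          rw [QQ_eq, Finset.mul_sum]
          have hsub : dQ d m ⊆ Q d m := fun ξ hξ => mem_Q.2 (mem_dQ.1 hξ).le
          rw [← Finset.sum_subset hsub]
          · refine Finset.sum_congr rfl fun ξ hξ => ?_
            simp only [if_pos hξ]
            ring
          · intro ξ _ hξ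
            simp only [if_neg hξ, zero_mul]
        · exact hb
      · simp only [if_neg hmn]
        refine ⟨⟨fun _ => 0, ?_⟩, ?_⟩
        · funext x
          simp
        · rw [eLpNorm_zero]
          exact zero_le
    · have h1 := hasSum_single (f := fun j : ℕ => (if j + 1 = n then
            (fun x => (lowerW_amp d a b n : ℂ) * ∑ ξ ∈ dQ d n, co ξ * mFourier ξ x) else 0) x)
            (n - 1) (fun j hj => by
              have : j + 1 ≠ n := by omega
              simp only [if_neg this, Pi.zero_apply])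
      have h2 : n - 1 + 1 = n := by omega
      simp only [h2, if_true] at h1
      exact h1
  · have h := hreal x
    change ((lowerW_amp d a b n : ℂ) * ∑ ξ ∈ dQ d n, co ξ * mFourier ξ x).im = 0
    rw [Complex.im_ofReal_mul, h, mul_zero]

end

end Pool.Agent.LibEnt73
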