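import Pool.Agent.LibEnt73.MWDefs
import Pool.Agent.LibEnt73.KerEst

/-! Task MC: covariance of the Gaussian fields, expectation of `R(g)` (uses FejerB, KerEst, GaussU). -/

namespace Pool.Agent.LibEnt73

open MeasureTheory ProbabilityTheory Finset

theorem mwcov_re (N m : ℕ) (ξ : Fin m → ℤ) (y z : Fin m → ZMod (2 ^ N)) :
    (eem N ξ y).re * (eem N ξ z).re + (eem N ξ y).im * (eem N ξ z).im =
      (eem N ξ (y - z)).re := by
  rw [sub_eq_add_neg, eem_add_right, eem_neg_right, Complex.mul_re, Complex.conj_re,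
    Complex.conj_im]
  ring

theorem mwcov_WW (N m μ n' : ℕ) (h : μ ≤ n') (u : Fin m → ZMod (2 ^ N)) :
    WW N μ u = ∑ ξ ∈ box m (n' + 1), Wh m μ ξ * (eem N ξ u).re := by
  have h1 := congrArg Complex.re (WW_eq N m μ n' h u)
  rw [Complex.ofReal_re, Complex.re_sum] at h1
  rw [h1]
  exact Finset.sum_congr rfl fun ξ _ => Complex.re_ofReal_mul _ _

theorem dot_Ek (m n k : ℕ) (y z : Fin m → ZMod (2 ^ (n + 4))) :
    dot (Ek m n k y) (Ek m n k z) = rk (n + 4) (n + 2) k (y - z) := by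
  unfold dot
  rw [Fintype.sum_prod_type]
  simp only [Fin.sum_univ_two]
  unfold rk
  rw [mwcov_WW (n + 4) m (n + 2 - k) (n + 2) (Nat.sub_le _ _), Finset.mul_sum,
    ← Finset.sum_coe_sort (box m (n + 2 + 1))]
  refine Finset.sum_congr rfl fun ξ _ => ?_
  have h0 : 0 ≤ kap2 m (n + 2) * 2 ^ k * Wh m (n + 2 - k) ξ := by
    have h1 := (kap2_pos m (n + 2)).le
    have h2 := Wh_nonneg m (n + 2 - k) ξ
    positivity
  unfold Ek
  simp only [if_true, Fin.one_eq_zero_iff, OfNat.ofNat_ne_one, if_false]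
  rw [← mwcov_re]
  linear_combination ((eem (n + 4) (ξ : Fin m → ℤ) y).re * (eem (n + 4) (ξ : Fin m → ℤ) z).re +
    (eem (n + 4) (ξ : Fin m → ℤ) y).im * (eem (n + 4) (ξ : Fin m → ℤ) z).im) *
      Real.mul_self_sqrt h0

theorem nsq_Ek (m n k : ℕ) (y : Fin m → ZMod (2 ^ (n + 4))) :
    nsq (Ek m n k y) = vk m n k := by
  have h := dot_Ek m n k y y
  rw [sub_self] at h
  rw [vk, ← h]
  unfold nsq dot
  exact Finset.sum_congr rfl fun b _ => sq _

theorem mwcov_UU_congr {B : Type*} [Fintype B] (k : ℕ) (σ α : ℕ → ℝ) (θ : ℝ) (X : ℕ → B → ℝ)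
    (g g' : ℕ → B → ℝ) (h : ∀ j ≤ k, g j = g' j) : UU k σ α θ X g = UU k σ α θ X g' := by
  unfold UU
  rw [h k le_rfl]
  congr 2
  refine Finset.prod_congr rfl fun j hj => ?_
  rw [h j (Finset.mem_range.1 hj).le]

/-- the indices of the Gaussians of the ancestors of the block `(k,a)` -/
def mwcovE (m n k a : ℕ) (hk : k ≤ n + 2) (ha : a < 2 ^ k) : Fin (k + 1) × BB m n → GI m n :=
  fun p => Sum.inl ((⟨p.1, by omega⟩, ⟨a / 2 ^ (k - p.1), by
    refine (Nat.div_le_self _ _).trans_lt (ha.trans_le ?_)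
    exact Nat.pow_le_pow_right (by norm_num) hk⟩), p.2)

theorem mwcovE_injective (m n k a : ℕ) (hk : k ≤ n + 2) (ha : a < 2 ^ k) :
    Function.Injective (mwcovE m n k a hk ha) := by
  rintro ⟨j, b⟩ ⟨j', b'⟩ h
  unfold mwcovE at h
  simp only [Sum.inl.injEq, Prod.mk.injEq, Fin.mk.injEq] at h
  exact Prod.ext (Fin.ext h.1.1) h.2

theorem mwcov_Uk_eq {m n : ℕ} (k a : ℕ) (hk : k ≤ n + 2) (ha : a < 2 ^ k)
    (g : GI m n → ℝ) (y : Fin m → ZMod (2 ^ (n + 4))) :
    Uk g k a y = UU k (fun j => sg k j a) (al m n) th (fun j => Ek m n j y)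
      (ext fun (j : Fin (k + 1)) (b : BB m n) => g (mwcovE m n k a hk ha (j, b))) := by
  unfold Uk
  apply mwcov_UU_congr
  intro j hj
  funext b
  have h1 : j < k + 1 := by omega
  have h2 : j < n + 3 ∧ a / 2 ^ (k - j) < 2 ^ (n + 2) := by
    refine ⟨by omega, (Nat.div_le_self _ _).trans_lt (ha.trans_le ?_)⟩
    exact Nat.pow_le_pow_right (by norm_num) hk
  simp only [gg, ext, dif_pos h1, dif_pos h2, mwcovE]

theorem integral_Uk (m n k a : ℕ) (hk : k ≤ n + 2) (ha : a < 2 ^ k)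
    (y z : Fin m → ZMod (2 ^ (n + 4))) :
    Integrable (fun g : GI m n → ℝ => Uk g k a y * Uk g k a z) (gam (GI m n)) ∧
    ∫ g : GI m n → ℝ, Uk g k a y * Uk g k a z ∂(gam (GI m n)) = bet (n + 4) (n + 2) k (y - z) := by
  have hσ : ∀ j, (fun j => sg k j a) j ^ 2 = 1 := by
    intro j
    simp only [sg]
    split_ifs <;> norm_num
  obtain ⟨h1, h2⟩ := UU_second_moment k (fun j => sg k j a) (al m n) (vk m n) (1 / 10) hσ
    (fun j => rfl) (fun j => Ek m n j y) (fun j => Ek m n j z) (fun j => nsq_Ek m n j y)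
    (fun j => nsq_Ek m n j z)
  have hmp := gam_marginal k (mwcovE m n k a hk ha) (mwcovE_injective m n k a hk ha)
  have heq : (fun g : GI m n → ℝ => Uk g k a y * Uk g k a z) =
      (fun g : Fin (k + 1) → BB m n → ℝ =>
        UU k (fun j => sg k j a) (al m n) (Real.exp (-(1 / 10) / 2)) (fun j => Ek m n j y) (ext g) *
        UU k (fun j => sg k j a) (al m n) (Real.exp (-(1 / 10) / 2)) (fun j => Ek m n j z) (ext g)) ∘
      (fun (g : GI m n → ℝ) (j : Fin (k + 1)) (b : BB m n) => g (mwcovE m n k a hk ha (j, b))) := by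
    funext g
    rw [mwcov_Uk_eq k a hk ha, mwcov_Uk_eq k a hk ha]
    rfl
  rw [heq]
  refine ⟨(hmp.integrable_comp h1.aestronglyMeasurable).2 h1, ?_⟩
  have h3 : ∫ g : GI m n → ℝ, ((fun g : Fin (k + 1) → BB m n → ℝ =>
        UU k (fun j => sg k j a) (al m n) (Real.exp (-(1 / 10) / 2)) (fun j => Ek m n j y) (ext g) *
        UU k (fun j => sg k j a) (al m n) (Real.exp (-(1 / 10) / 2)) (fun j => Ek m n j z) (ext g)) ∘
      (fun (g : GI m n → ℝ) (j : Fin (k + 1)) (b : BB m n) => g (mwcovE m n k a hk ha (j, b)))) g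
        ∂(gam (GI m n)) = bet (n + 4) (n + 2) k (y - z) := by
    have h4 := integral_map (μ := gam (GI m n)) hmp.measurable.aemeasurable
      (f := fun g : Fin (k + 1) → BB m n → ℝ =>
        UU k (fun j => sg k j a) (al m n) (Real.exp (-(1 / 10) / 2)) (fun j => Ek m n j y) (ext g) *
        UU k (fun j => sg k j a) (al m n) (Real.exp (-(1 / 10) / 2)) (fun j => Ek m n j z) (ext g))
      (by rw [hmp.map_eq]; exact h1.aestronglyMeasurable)
    rw [hmp.map_eq, h2] at h4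
    simp only [Function.comp]
    rw [← h4]
    simp only [dot_Ek, bet]
  exact h3

theorem mwcov_avg {α Ω : Type*} [Fintype α] [MeasurableSpace Ω] (μ : Measure Ω) (f : α → Ω → ℝ)
    (h : ∀ x, Integrable (f x) μ) : Integrable (fun g => avg fun x => f x g) μ ∧
      ∫ g, (avg fun x => f x g) ∂μ = avg fun x => ∫ g, f x g ∂μ := by
  unfold avg
  constructor
  · exact (integrable_finsetSum _ fun x _ => h x).smul (1 / (Fintype.card α : ℝ))
  · rw [integral_smul, integral_finsetSum _ fun x _ => h x]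

theorem mwcov_normsq (N m : ℕ) (η : Fin m → ℤ) (U : (Fin m → ZMod (2 ^ N)) → ℝ) :
    ‖avg (fun y => (U y : ℂ) * eem N η y)‖ ^ 2 =
      avg fun y => avg fun z => U y * U z * (eem N η (y - z)).re := by
  unfold avg
  rw [norm_smul, mul_pow, Real.norm_eq_abs, sq_abs, ← Complex.normSq_eq_norm_sq,
    Complex.normSq_apply, Complex.re_sum, Complex.im_sum]
  simp only [Complex.re_ofReal_mul, Complex.im_ofReal_mul, smul_eq_mul, ← mwcov_re]
  rw [Finset.sum_mul_sum, Finset.sum_mul_sum, ← Finset.sum_add_distrib, Finset.mul_sum,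
    Finset.mul_sum]
  refine Finset.sum_congr rfl fun y _ => ?_
  rw [← Finset.sum_add_distrib, Finset.mul_sum, Finset.mul_sum, Finset.mul_sum]
  refine Finset.sum_congr rfl fun z _ => ?_
  ring

theorem mwcov_conv {G : Type*} [Fintype G] [AddGroup G] (f : G → ℝ) :
    (avg fun y : G => avg fun z : G => f (y - z)) = avg f := by
  unfold avg
  have h1 : ∀ y : G, ∑ z : G, f (y - z) = ∑ u, f u := fun y =>
    Equiv.sum_comp (Equiv.subLeft y) f
  simp only [h1, smul_eq_mul, Finset.sum_const, Finset.card_univ, nsmul_eq_mul]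
  have h2 : (Fintype.card G : ℝ) ≠ 0 := by
    exact_mod_cast Fintype.card_ne_zero
  field_simp

theorem mwcov_level (m n k a : ℕ) (hk : k ≤ n + 2) (ha : a < 2 ^ k) (η : Fin m → ℤ) :
    Integrable (fun g : GI m n → ℝ => ‖avg (fun y => (Uk g k a y : ℂ) * eem (n + 4) η y)‖ ^ 2)
      (gam (GI m n)) ∧
    ∫ g : GI m n → ℝ, ‖avg (fun y => (Uk g k a y : ℂ) * eem (n + 4) η y)‖ ^ 2 ∂(gam (GI m n)) =
      avg fun u : Fin m → ZMod (2 ^ (n + 4)) => bet (n + 4) (n + 2) k u * (eem (n + 4) η u).re := by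
  simp only [mwcov_normsq]
  have h1 : ∀ y z : Fin m → ZMod (2 ^ (n + 4)), Integrable (fun g : GI m n → ℝ =>
      Uk g k a y * Uk g k a z * (eem (n + 4) η (y - z)).re) (gam (GI m n)) := fun y z =>
    (integral_Uk m n k a hk ha y z).1.mul_const _
  have h2 := fun y : Fin m → ZMod (2 ^ (n + 4)) => mwcov_avg (gam (GI m n))
    (fun (z : Fin m → ZMod (2 ^ (n + 4))) (g : GI m n → ℝ) =>
      Uk g k a y * Uk g k a z * (eem (n + 4) η (y - z)).re) (h1 y)
  have h3 := mwcov_avg (gam (GI m n))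
    (fun (y : Fin m → ZMod (2 ^ (n + 4))) (g : GI m n → ℝ) =>
      avg fun z : Fin m → ZMod (2 ^ (n + 4)) =>
        Uk g k a y * Uk g k a z * (eem (n + 4) η (y - z)).re) (fun y => (h2 y).1)
  refine ⟨h3.1, ?_⟩
  rw [h3.2, ← mwcov_conv (fun u : Fin m → ZMod (2 ^ (n + 4)) =>
    bet (n + 4) (n + 2) k u * (eem (n + 4) η u).re)]
  congr 1
  funext y
  rw [(h2 y).2]
  congr 1
  funext z
  rw [integral_mul_const, (integral_Uk m n k a hk ha y z).2]

theorem mwcov_weight (m n k : ℕ) (hm : 1 ≤ m) (η : Fin m → ℤ) (hη : tsz η ≤ n) :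
    (1 / 2 : ℝ) ^ (k - (n - tsz η)) ≤
      ∑ i ∈ range (k + 1), (1 / 2 : ℝ) ^ i * Wh m (n + 2 - k + i) η := by
  have h1 : k - (n - tsz η) ∈ range (k + 1) := Finset.mem_range.2 (by omega)
  refine le_trans ?_ (Finset.single_le_sum (f := fun i => (1 / 2 : ℝ) ^ i *
    Wh m (n + 2 - k + i) η) (fun i _ => ?_) h1)
  · have h2 : 1 ≤ Wh m (n + 2 - k + (k - (n - tsz η))) η := Wh_ge_one m _ hm η (by omega)
    exact le_mul_of_one_le_right (by positivity) h2
  · exact mul_nonneg (by positivity) (Wh_nonneg _ _ _)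

theorem mwcov_Q_subset (m n : ℕ) : Q m n ⊆ box m (n + 2 + 1) := by
  intro ξ hξ
  rw [mem_Q] at hξ
  unfold box
  rw [Fintype.mem_piFinset]
  intro i
  exact sz_le_iff.1 (((sz_le_tsz ξ i).trans hξ).trans (by omega))

theorem mwcov_avg_le {α : Type*} [Fintype α] (f g : α → ℝ) (h : ∀ x, f x = g x) :
    avg f = avg g := congrArg avg (funext h)

theorem mwcov_sum_avg {α ι : Type*} [Fintype α] (s : Finset ι) (f : ι → α → ℝ) :
    ∑ i ∈ s, avg (f i) = avg fun x => ∑ i ∈ s, f i x := by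
  unfold avg
  rw [← Finset.smul_sum, Finset.sum_comm]

theorem mwcov_mul_avg {α : Type*} [Fintype α] (c : ℝ) (f : α → ℝ) :
    c * avg f = avg fun x => c * f x := by
  unfold avg
  rw [← Finset.mul_sum, smul_eq_mul, smul_eq_mul]
  ring

theorem integral_Rg (m : ℕ) (hm : 2 ≤ m) : ∃ C : ℝ, 0 < C ∧ ∀ n : ℕ,
    Integrable (fun g : GI m n → ℝ => Rg g) (gam (GI m n)) ∧ ∫ g : GI m n → ℝ, Rg g ∂(gam (GI m n)) ≤ C := by
  obtain ⟨C, hC, hker⟩ := kernel_estimate m hm
  refine ⟨C, hC, fun n => ?_⟩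
  have hint : ∀ k ∈ range (n + 2 + 1), ∀ η : Fin m → ℤ, ∀ a ∈ range (2 ^ k),
      Integrable (fun g : GI m n → ℝ => ‖avg (fun y => (Uk g k a y : ℂ) * eem (n + 4) η y)‖ ^ 2)
        (gam (GI m n)) := fun k hk η a ha =>
    (mwcov_level m n k a (Nat.lt_succ_iff.1 (Finset.mem_range.1 hk)) (Finset.mem_range.1 ha) η).1
  have hint2 : ∀ k ∈ range (n + 2 + 1), ∀ η ∈ Q m n, Integrable (fun g : GI m n → ℝ =>
      (1 / 2 : ℝ) ^ (k - (n - tsz η)) * ((1 / 2 : ℝ) ^ k *
        ∑ a ∈ range (2 ^ k), ‖avg (fun y => (Uk g k a y : ℂ) * eem (n + 4) η y)‖ ^ 2))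
      (gam (GI m n)) := fun k hk η _ =>
    ((integrable_finsetSum _ fun a ha => hint k hk η a ha).const_mul _).const_mul _
  have hint3 : ∀ k ∈ range (n + 2 + 1), Integrable (fun g : GI m n → ℝ => ∑ η ∈ Q m n,
      (1 / 2 : ℝ) ^ (k - (n - tsz η)) * ((1 / 2 : ℝ) ^ k *
        ∑ a ∈ range (2 ^ k), ‖avg (fun y => (Uk g k a y : ℂ) * eem (n + 4) η y)‖ ^ 2))
      (gam (GI m n)) := fun k hk => integrable_finsetSum _ fun η hη => hint2 k hk η hη
  refine ⟨integrable_finsetSum _ hint3, ?_⟩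
  refine le_trans ?_ (hker (n + 2) (n + 4) (by omega))
  unfold Rg RR
  rw [integral_finsetSum _ hint3]
  refine Finset.sum_le_sum fun k hk => ?_
  have hk' : k ≤ n + 2 := Nat.lt_succ_iff.1 (Finset.mem_range.1 hk)
  rw [integral_finsetSum _ (hint2 k hk)]
  have hterm : ∀ η : Fin m → ℤ, ∫ g : GI m n → ℝ, (1 / 2 : ℝ) ^ (k - (n - tsz η)) *
      ((1 / 2 : ℝ) ^ k * ∑ a ∈ range (2 ^ k),
        ‖avg (fun y => (Uk g k a y : ℂ) * eem (n + 4) η y)‖ ^ 2) ∂(gam (GI m n)) =
      (1 / 2 : ℝ) ^ (k - (n - tsz η)) * avg fun u : Fin m → ZMod (2 ^ (n + 4)) =>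
        bet (n + 4) (n + 2) k u * (eem (n + 4) η u).re := by
    intro η
    rw [integral_const_mul, integral_const_mul, integral_finsetSum _ fun a ha => hint k hk η a ha,
      Finset.sum_congr rfl fun a ha => (mwcov_level m n k a hk' (Finset.mem_range.1 ha) η).2,
      Finset.sum_const, Finset.card_range, nsmul_eq_mul, Nat.cast_pow, Nat.cast_ofNat]
    congr 1
    rw [← mul_assoc, ← mul_pow]
    norm_num
  have hpos : ∀ η : Fin m → ℤ, 0 ≤ avg fun u : Fin m → ZMod (2 ^ (n + 4)) =>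
      bet (n + 4) (n + 2) k u * (eem (n + 4) η u).re := by
    intro η
    rw [← (mwcov_level m n k 0 hk' (by positivity) η).2]
    exact integral_nonneg fun g => by positivity
  rw [Finset.sum_congr rfl fun η _ => hterm η]
  have hlam : ∀ u : Fin m → ZMod (2 ^ (n + 4)), bet (n + 4) (n + 2) k u * lam (n + 4) (n + 2) k u =
      ∑ η ∈ box m (n + 2 + 1), (∑ i ∈ range (k + 1), (1 / 2 : ℝ) ^ i * Wh m (n + 2 - k + i) η) *
        (bet (n + 4) (n + 2) k u * (eem (n + 4) η u).re) := by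
    intro u
    have h1 : lam (n + 4) (n + 2) k u = ∑ i ∈ range (k + 1), ∑ η ∈ box m (n + 2 + 1),
        (1 / 2 : ℝ) ^ i * Wh m (n + 2 - k + i) η * (eem (n + 4) η u).re := by
      unfold lam
      refine Finset.sum_congr rfl fun i hi => ?_
      have hi' := Finset.mem_range.1 hi
      rw [mwcov_WW (n + 4) m (n + 2 - k + i) (n + 2) (by omega) u, Finset.mul_sum]
      exact Finset.sum_congr rfl fun η _ => by ring
    rw [h1, Finset.sum_comm, Finset.mul_sum]
    refine Finset.sum_congr rfl fun η _ => ?_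
    rw [← Finset.sum_mul]
    ring
  calc ∑ η ∈ Q m n, (1 / 2 : ℝ) ^ (k - (n - tsz η)) *
        (avg fun u : Fin m → ZMod (2 ^ (n + 4)) =>
          bet (n + 4) (n + 2) k u * (eem (n + 4) η u).re)
      ≤ ∑ η ∈ Q m n, (∑ i ∈ range (k + 1), (1 / 2 : ℝ) ^ i * Wh m (n + 2 - k + i) η) *
        (avg fun u : Fin m → ZMod (2 ^ (n + 4)) =>
          bet (n + 4) (n + 2) k u * (eem (n + 4) η u).re) := by
        refine Finset.sum_le_sum fun η hη => ?_
        exact mul_le_mul_of_nonneg_right (mwcov_weight m n k (by omega) η (mem_Q.1 hη)) (hpos η)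
    _ ≤ ∑ η ∈ box m (n + 2 + 1),
        (∑ i ∈ range (k + 1), (1 / 2 : ℝ) ^ i * Wh m (n + 2 - k + i) η) *
        (avg fun u : Fin m → ZMod (2 ^ (n + 4)) =>
          bet (n + 4) (n + 2) k u * (eem (n + 4) η u).re) := by
        refine Finset.sum_le_sum_of_subset_of_nonneg (mwcov_Q_subset m n) fun η _ _ => ?_
        refine mul_nonneg (Finset.sum_nonneg fun i _ => ?_) (hpos η)
        exact mul_nonneg (by positivity) (Wh_nonneg _ _ _)
    _ = avg (fun u : Fin m → ZMod (2 ^ (n + 4)) =>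
        bet (n + 4) (n + 2) k u * lam (n + 4) (n + 2) k u) := by
        simp only [mwcov_mul_avg, mwcov_sum_avg]
        exact congrArg avg (funext fun u => (hlam u).symm)

end Pool.Agent.LibEnt73
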