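import Pool.Agent.LibEnt73.Base

/-! Task RA: structure of Riesz products in the first variable. -/

namespace Pool.Agent.LibEnt73

open MeasureTheory ProbabilityTheory Finset

noncomputable section

/-- value of the Rademacher sign of level `j` on block `a` of level `k` (`j < k`) -/
def sg (k j a : ℕ) : ℝ := if (a / 2 ^ (k - j - 1)) % 2 = 0 then 1 else -1

theorem blk_of_blk (N k j : ℕ) (hj : j ≤ k) (hk : k ≤ N) (x : ZMod (2 ^ N)) :
    blk N j x = blk N k x / 2 ^ (k - j) := by
  unfold blk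
  rw [Nat.div_div_eq_div_mul, ← pow_add]
  congr 2
  omega

theorem rsgn_of_blk (N k j : ℕ) (hj : j < k) (hk : k ≤ N) (x : ZMod (2 ^ N)) :
    rsgn N j x = sg k j (blk N k x) := by
  unfold rsgn sg blk
  rw [Nat.div_div_eq_div_mul, ← pow_add]
  have : N - k + (k - j - 1) = N - j - 1 := by omega
  rw [this]

theorem blk_lt (N k : ℕ) (hk : k ≤ N) (x : ZMod (2 ^ N)) : blk N k x < 2 ^ k := by
  unfold blk
  apply Nat.div_lt_of_lt_mul
  rw [← pow_add, Nat.sub_add_cancel hk]
  exact ZMod.val_lt x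

theorem rieszA_sum_divMod (a b : ℕ) (F : ℕ → ℕ → ℝ) :
    ∑ v ∈ range (a * b), F (v / b) (v % b) = ∑ q ∈ range a, ∑ r ∈ range b, F q r := by
  induction a with
  | zero => simp
  | succ a ih =>
    rw [Nat.add_mul, Nat.one_mul, Finset.sum_range_add, ih, Finset.sum_range_succ]
    congr 1
    refine Finset.sum_congr rfl fun x hx => ?_
    have hx' : x < b := Finset.mem_range.1 hx
    have hb : 0 < b := by omega
    rw [Nat.add_comm (a * b) x, Nat.add_mul_div_right _ _ hb, Nat.div_eq_of_lt hx',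
      Nat.add_mul_mod_self_right, Nat.mod_eq_of_lt hx', Nat.zero_add]

theorem rieszA_sum_zmod (N : ℕ) (F : ℕ → ℝ) :
    ∑ x : ZMod (2 ^ N), F x.val = ∑ v ∈ range (2 ^ N), F v := by
  refine Finset.sum_nbij (fun x => x.val) ?_ ?_ ?_ (fun _ _ => rfl)
  · intro x _
    exact Finset.mem_range.2 (ZMod.val_lt x)
  · intro x _ y _ h
    exact ZMod.val_injective _ h
  · intro v hv
    have hv' : v < 2 ^ N := by simpa using hv
    exact ⟨(v : ZMod (2 ^ N)), by simp, ZMod.val_natCast_of_lt hv'⟩

/-- the sign of level `K` integrates to zero on each block of level `K` -/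
theorem rieszA_sum_zero (N K : ℕ) (hK : K < N) (G : ℕ → ℝ) :
    ∑ x : ZMod (2 ^ N), rsgn N K x * G (blk N K x) = 0 := by
  obtain ⟨s, hs⟩ : ∃ s, N = K + 1 + s := ⟨N - K - 1, by omega⟩
  have e1 : N - K - 1 = s := by omega
  have e2 : N - K = s + 1 := by omega
  have h1 : ∑ x : ZMod (2 ^ N), rsgn N K x * G (blk N K x)
      = ∑ v ∈ range (2 ^ N), (fun w : ℕ => (if w % 2 = 0 then (1 : ℝ) else -1) * G (w / 2))
          (v / 2 ^ s) := by
    rw [← rieszA_sum_zmod N (fun v => (fun w : ℕ => (if w % 2 = 0 then (1 : ℝ) else -1) * G (w / 2))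
          (v / 2 ^ s))]
    refine Finset.sum_congr rfl fun x _ => ?_
    unfold rsgn blk
    rw [e1, e2]
    have h5 : x.val / 2 ^ s / 2 = x.val / 2 ^ (s + 1) := by
      rw [Nat.div_div_eq_div_mul, ← pow_succ]
    simp only [h5]
  rw [h1]
  have h2 : 2 ^ N = (2 ^ K * 2) * 2 ^ s := by
    rw [hs, pow_add, pow_succ]
  rw [h2, rieszA_sum_divMod (2 ^ K * 2) (2 ^ s)
    (fun w _ => (if w % 2 = 0 then (1 : ℝ) else -1) * G (w / 2))]
  simp only [Finset.sum_const, Finset.card_range, nsmul_eq_mul]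
  rw [← Finset.mul_sum]
  have h3 := rieszA_sum_divMod (2 ^ K) 2 (fun q r => (if r = 0 then (1 : ℝ) else -1) * G q)
  rw [h3]
  simp [Finset.sum_range_succ]

/-- the Riesz product has average one -/
theorem riesz_avg (N K : ℕ) (hK : K ≤ N) (A : ℕ → ℕ → ℝ) :
    avg (fun x : ZMod (2 ^ N) => ∏ k ∈ range K, (1 + rsgn N k x * A k (blk N k x))) = 1 := by
  induction K with
  | zero =>
    unfold avg
    simp
  | succ K ih =>
    have ih' := ih (by omega)
    have h1 : ∀ x : ZMod (2 ^ N), ∏ k ∈ range (K + 1), (1 + rsgn N k x * A k (blk N k x))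
        = ∏ k ∈ range K, (1 + rsgn N k x * A k (blk N k x)) + rsgn N K x *
          (fun b => (∏ j ∈ range K, (1 + sg K j b * A j (b / 2 ^ (K - j)))) * A K b) (blk N K x) := by
      intro x
      rw [Finset.prod_range_succ, mul_add, mul_one]
      congr 1
      have h2 : ∏ k ∈ range K, (1 + rsgn N k x * A k (blk N k x))
          = ∏ j ∈ range K, (1 + sg K j (blk N K x) * A j (blk N K x / 2 ^ (K - j))) := by
        refine Finset.prod_congr rfl fun j hj => ?_
        have hj' := Finset.mem_range.1 hj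
        rw [rsgn_of_blk N K j hj' (by omega) x, blk_of_blk N K j hj'.le (by omega) x]
      rw [h2]
      ring
    have hz := rieszA_sum_zero N K (by omega)
      (fun b => (∏ j ∈ range K, (1 + sg K j b * A j (b / 2 ^ (K - j)))) * A K b)
    unfold avg at ih' ⊢
    rw [Finset.sum_congr rfl fun x _ => h1 x, Finset.sum_add_distrib, hz, add_zero]
    exact ih'

/-- telescoping expansion of the Riesz product -/
theorem riesz_expand (N K : ℕ) (hK : K ≤ N) (A : ℕ → ℕ → ℝ) (x : ZMod (2 ^ N)) :
    ∏ k ∈ range K, (1 + rsgn N k x * A k (blk N k x))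
      = 1 + ∑ k ∈ range K, rsgn N k x * (A k (blk N k x) *
          ∏ j ∈ range k, (1 + sg k j (blk N k x) * A j (blk N k x / 2 ^ (k - j)))) := by
  induction K with
  | zero => simp
  | succ K ih =>
    have ih' := ih (by omega)
    have h2 : ∏ k ∈ range K, (1 + rsgn N k x * A k (blk N k x))
        = ∏ j ∈ range K, (1 + sg K j (blk N K x) * A j (blk N K x / 2 ^ (K - j))) := by
      refine Finset.prod_congr rfl fun j hj => ?_
      have hj' := Finset.mem_range.1 hj
      rw [rsgn_of_blk N K j hj' (by omega) x, blk_of_blk N K j hj'.le (by omega) x]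
    rw [Finset.sum_range_succ, ← add_assoc, ← ih', Finset.prod_range_succ, mul_add, mul_one]
    congr 1
    rw [h2]
    ring

end

end Pool.Agent.LibEnt73
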