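import Pool.Agent.LibEnt73.HaarB
import Pool.Agent.LibEnt73.RieszA

/-! Task RB: the pairing bound (R4) (uses haar_upper, Chars). -/

namespace Pool.Agent.LibEnt73

open MeasureTheory ProbabilityTheory Finset

noncomputable section

/-- a function of `(x₁,x')` with hyperbolic cross spectrum, in split form -/
def fsplit (N n : ℕ) {m : ℕ} (c : ℤ → (Fin m → ℤ) → ℂ) (x : ZMod (2 ^ N)) (y : Fin m → ZMod (2 ^ N)) : ℂ :=
  ∑ η ∈ Q m n, (∑ ξ ∈ Finset.Ioo (-(2 : ℤ) ^ (n - tsz η)) (2 ^ (n - tsz η)), c ξ η * ee N ξ x) *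
    eem N η y

/-- sum of squares of the coefficients -/
def csq (n : ℕ) {m : ℕ} (c : ℤ → (Fin m → ℤ) → ℂ) : ℝ :=
  ∑ η ∈ Q m n, ∑ ξ ∈ Finset.Ioo (-(2 : ℤ) ^ (n - tsz η)) (2 ^ (n - tsz η)), ‖c ξ η‖ ^ 2

/-- the quantity `R` -/
def RR (N n n' : ℕ) {m : ℕ} (U : ℕ → ℕ → (Fin m → ZMod (2 ^ N)) → ℝ) : ℝ :=
  ∑ k ∈ range (n' + 1), ∑ η ∈ Q m n, (1 / 2 : ℝ) ^ (k - (n - tsz η)) * ((1 / 2 : ℝ) ^ k *
    ∑ a ∈ range (2 ^ k), ‖avg (fun y => (U k a y : ℂ) * eem N η y)‖ ^ 2)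

/-! ### auxiliary lemmas -/

theorem rb_avg_prod {α β E : Type*} [Fintype α] [Fintype β] [AddCommMonoid E] [Module ℝ E]
    (f : α × β → E) : avg f = avg (fun x => avg fun y => f (x, y)) := by
  unfold avg
  rw [Fintype.sum_prod_type, Fintype.card_prod, ← Finset.smul_sum, smul_smul]
  congr 1
  push_cast
  rw [one_div_mul_one_div]

theorem rb_avg_sum {α ι E : Type*} [Fintype α] [AddCommMonoid E] [Module ℝ E]
    (s : Finset ι) (f : ι → α → E) : avg (fun x => ∑ i ∈ s, f i x) = ∑ i ∈ s, avg (f i) := by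
  unfold avg
  rw [Finset.sum_comm, Finset.smul_sum]

theorem rb_avg_mul_left {α : Type*} [Fintype α] (c : ℂ) (f : α → ℂ) :
    avg (fun x => c * f x) = c * avg f := by
  unfold avg
  rw [← Finset.mul_sum, mul_smul_comm]

theorem rb_avg_mul_right {α : Type*} [Fintype α] (c : ℂ) (f : α → ℂ) :
    avg (fun x => f x * c) = avg f * c := by
  unfold avg
  rw [← Finset.sum_mul, smul_mul_assoc]

theorem rb_avg_ofReal {α : Type*} [Fintype α] (f : α → ℝ) :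
    ((avg f : ℝ) : ℂ) = avg (fun x => (f x : ℂ)) := by
  unfold avg
  simp [Complex.ofReal_sum]

/-- orthonormal Parseval -/
theorem rb_parseval {α ι : Type*} [Fintype α] [DecidableEq ι] (s : Finset ι) (e : ι → α → ℂ)
    (he : ∀ i ∈ s, ∀ j ∈ s, avg (fun y => e i y * (starRingEnd ℂ) (e j y)) = if i = j then 1 else 0)
    (c : ι → ℂ) :
    avg (fun y => ‖∑ i ∈ s, c i * e i y‖ ^ 2) = ∑ i ∈ s, ‖c i‖ ^ 2 := by
  have key : ((avg (fun y => ‖∑ i ∈ s, c i * e i y‖ ^ 2) : ℝ) : ℂ)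
      = ((∑ i ∈ s, ‖c i‖ ^ 2 : ℝ) : ℂ) := by
    rw [rb_avg_ofReal]
    have h1 : ∀ y, ((‖∑ i ∈ s, c i * e i y‖ ^ 2 : ℝ) : ℂ)
        = ∑ i ∈ s, ∑ j ∈ s, (c i * (starRingEnd ℂ) (c j)) *
            (e i y * (starRingEnd ℂ) (e j y)) := by
      intro y
      rw [Complex.ofReal_pow, ← Complex.mul_conj', map_sum, Finset.sum_mul_sum]
      refine Finset.sum_congr rfl fun i _ => Finset.sum_congr rfl fun j _ => ?_
      rw [map_mul]; ring
    simp_rw [h1]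
    rw [rb_avg_sum]
    have h2 : ∀ i ∈ s, avg (fun y => ∑ j ∈ s, (c i * (starRingEnd ℂ) (c j)) *
            (e i y * (starRingEnd ℂ) (e j y))) = c i * (starRingEnd ℂ) (c i) := by
      intro i hi
      rw [rb_avg_sum]
      rw [Finset.sum_eq_single i]
      · rw [rb_avg_mul_left, he i hi i hi, if_pos rfl, mul_one]
      · intro j hj hji
        rw [rb_avg_mul_left, he i hi j hj, if_neg (Ne.symm hji), mul_zero]
      · intro h; exact absurd hi h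
    rw [Finset.sum_congr rfl h2]
    push_cast
    refine Finset.sum_congr rfl fun i _ => ?_
    rw [Complex.mul_conj']
  exact_mod_cast key

theorem rb_Q_box {m n : ℕ} {η : Fin m → ℤ} (h : η ∈ Q m n) : η ∈ box m n := by
  unfold Q at h
  exact (Finset.mem_filter.1 h).1

/-- Parseval on the grid -/
theorem parseval_split (N n : ℕ) (hn : n < N) {m : ℕ} (c : ℤ → (Fin m → ℤ) → ℂ) :
    avg (fun p : ZMod (2 ^ N) × (Fin m → ZMod (2 ^ N)) => ‖fsplit N n c p.1 p.2‖ ^ 2) = csq n c := by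
  rw [rb_avg_prod]
  have h1 : ∀ x : ZMod (2 ^ N), avg (fun y : Fin m → ZMod (2 ^ N) => ‖fsplit N n c x y‖ ^ 2)
      = ∑ η ∈ Q m n, ‖∑ ξ ∈ Finset.Ioo (-(2 : ℤ) ^ (n - tsz η)) (2 ^ (n - tsz η)),
          c ξ η * ee N ξ x‖ ^ 2 := by
    intro x
    unfold fsplit
    exact rb_parseval (Q m n) (fun η y => eem N η y)
      (fun i hi j hj => avg_eem_mul_conj N n hn i j (rb_Q_box hi) (rb_Q_box hj)) _
  simp_rw [h1]
  rw [rb_avg_sum]
  unfold csq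
  refine Finset.sum_congr rfl fun η _ => ?_
  exact parseval_one N (n - tsz η) (lt_of_le_of_lt (Nat.sub_le _ _) hn) (fun ξ => c ξ η)

/-- the pairing in terms of Haar coefficients -/
theorem rb_pairing_eq (N n n' : ℕ) (hn' : n' < N) {m : ℕ} (c : ℤ → (Fin m → ℤ) → ℂ)
    (U : ℕ → ℕ → (Fin m → ZMod (2 ^ N)) → ℝ) :
    avg (fun p : ZMod (2 ^ N) × (Fin m → ZMod (2 ^ N)) =>
      fsplit N n c p.1 p.2 * ∑ k ∈ range (n' + 1), ((rsgn N k p.1 * U k (blk N k p.1) p.2 : ℝ) : ℂ))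
      = ∑ k ∈ range (n' + 1), ∑ η ∈ Q m n, ∑ a ∈ range (2 ^ k),
        hc N k a (fun x => ∑ ξ ∈ Finset.Ioo (-(2 : ℤ) ^ (n - tsz η)) (2 ^ (n - tsz η)),
          c ξ η * ee N ξ x) * avg (fun y => (U k a y : ℂ) * eem N η y) := by
  have h1 : ∀ p : ZMod (2 ^ N) × (Fin m → ZMod (2 ^ N)),
      fsplit N n c p.1 p.2 * ∑ k ∈ range (n' + 1), ((rsgn N k p.1 * U k (blk N k p.1) p.2 : ℝ) : ℂ)
      = ∑ k ∈ range (n' + 1), ∑ η ∈ Q m n, ∑ a ∈ range (2 ^ k),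
        (if blk N k p.1 = a then (rsgn N k p.1 : ℂ) *
          (∑ ξ ∈ Finset.Ioo (-(2 : ℤ) ^ (n - tsz η)) (2 ^ (n - tsz η)), c ξ η * ee N ξ p.1) else 0) *
          ((U k a p.2 : ℂ) * eem N η p.2) := by
    intro p
    unfold fsplit
    rw [Finset.mul_sum]
    refine Finset.sum_congr rfl fun k hk => ?_
    rw [Finset.sum_mul]
    refine Finset.sum_congr rfl fun η _ => ?_
    have hkN : k ≤ N := by
      have := Finset.mem_range.1 hk
      omega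
    rw [Finset.sum_eq_single (blk N k p.1)]
    · rw [if_pos rfl]
      push_cast
      ring
    · intro a _ ha
      rw [if_neg (Ne.symm ha), zero_mul]
    · intro h
      exact absurd (Finset.mem_range.2 (blk_lt N k hkN p.1)) h
  simp_rw [h1]
  rw [rb_avg_sum]
  refine Finset.sum_congr rfl fun k _ => ?_
  rw [rb_avg_sum]
  refine Finset.sum_congr rfl fun η _ => ?_
  rw [rb_avg_sum]
  refine Finset.sum_congr rfl fun a _ => ?_
  rw [rb_avg_prod]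
  simp only
  have h2 : ∀ x : ZMod (2 ^ N), avg (fun y : Fin m → ZMod (2 ^ N) =>
      (if blk N k x = a then (rsgn N k x : ℂ) *
          (∑ ξ ∈ Finset.Ioo (-(2 : ℤ) ^ (n - tsz η)) (2 ^ (n - tsz η)), c ξ η * ee N ξ x) else 0) *
          ((U k a y : ℂ) * eem N η y))
      = (if blk N k x = a then (rsgn N k x : ℂ) *
          (∑ ξ ∈ Finset.Ioo (-(2 : ℤ) ^ (n - tsz η)) (2 ^ (n - tsz η)), c ξ η * ee N ξ x) else 0) *
          avg (fun y => (U k a y : ℂ) * eem N η y) := fun x => rb_avg_mul_left _ _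
  simp_rw [h2]
  rw [rb_avg_mul_right]
  rfl

/-- weighted Cauchy-Schwarz for complex sums -/
theorem rb_cs {ι : Type*} (s : Finset ι) (f g : ι → ℂ) (w v : ι → ℝ)
    (hw : ∀ i ∈ s, 0 ≤ w i) (hv : ∀ i ∈ s, 0 ≤ v i) (hwv : ∀ i ∈ s, w i * v i = 1) :
    ‖∑ i ∈ s, f i * g i‖ ^ 2 ≤ (∑ i ∈ s, w i * ‖f i‖ ^ 2) * ∑ i ∈ s, v i * ‖g i‖ ^ 2 := by
  have h1 : ‖∑ i ∈ s, f i * g i‖ ≤ ∑ i ∈ s, (Real.sqrt (w i) * ‖f i‖) * (Real.sqrt (v i) * ‖g i‖) := by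
    refine (norm_sum_le _ _).trans (Finset.sum_le_sum fun i hi => ?_)
    rw [norm_mul]
    have h3 : Real.sqrt (w i) * Real.sqrt (v i) = 1 := by
      rw [← Real.sqrt_mul (hw i hi), hwv i hi, Real.sqrt_one]
    calc ‖f i‖ * ‖g i‖ = (Real.sqrt (w i) * Real.sqrt (v i)) * (‖f i‖ * ‖g i‖) := by
          rw [h3, one_mul]
      _ ≤ _ := le_of_eq (by ring)
  have h2 : (∑ i ∈ s, (Real.sqrt (w i) * ‖f i‖) * (Real.sqrt (v i) * ‖g i‖)) ^ 2
      ≤ (∑ i ∈ s, w i * ‖f i‖ ^ 2) * ∑ i ∈ s, v i * ‖g i‖ ^ 2 := by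
    refine (Finset.sum_mul_sq_le_sq_mul_sq s _ _).trans (le_of_eq ?_)
    congr 1
    · refine Finset.sum_congr rfl fun i hi => ?_
      rw [mul_pow, Real.sq_sqrt (hw i hi)]
    · refine Finset.sum_congr rfl fun i hi => ?_
      rw [mul_pow, Real.sq_sqrt (hv i hi)]
  exact (pow_le_pow_left₀ (norm_nonneg _) h1 2).trans h2

/-- pairing bound (R4) -/
theorem pairing_bound (N n n' : ℕ) (hn : n < N) (hn' : n' < N) {m : ℕ} (c : ℤ → (Fin m → ℤ) → ℂ)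
    (U : ℕ → ℕ → (Fin m → ZMod (2 ^ N)) → ℝ) :
    ‖avg (fun p : ZMod (2 ^ N) × (Fin m → ZMod (2 ^ N)) =>
      fsplit N n c p.1 p.2 * ∑ k ∈ range (n' + 1), ((rsgn N k p.1 * U k (blk N k p.1) p.2 : ℝ) : ℂ))‖ ^ 2
      ≤ 11 * csq n c * RR N n n' U := by
  rw [rb_pairing_eq N n n' hn' c U]
  set F : ℕ → (Fin m → ℤ) → ℕ → ℂ := fun k η a =>
    hc N k a (fun x => ∑ ξ ∈ Finset.Ioo (-(2 : ℤ) ^ (n - tsz η)) (2 ^ (n - tsz η)),
          c ξ η * ee N ξ x) with hF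
  set G : ℕ → (Fin m → ℤ) → ℕ → ℂ := fun k η a => avg (fun y => (U k a y : ℂ) * eem N η y) with hG
  -- one sum over triples
  have hsig : ∑ k ∈ range (n' + 1), ∑ η ∈ Q m n, ∑ a ∈ range (2 ^ k), F k η a * G k η a
      = ∑ t ∈ (range (n' + 1)).sigma (fun k => (Q m n ×ˢ range (2 ^ k))),
          F t.1 t.2.1 t.2.2 * G t.1 t.2.1 t.2.2 := by
    rw [Finset.sum_sigma]
    refine Finset.sum_congr rfl fun k _ => ?_
    rw [Finset.sum_product]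
  have hcs := rb_cs ((range (n' + 1)).sigma (fun k => (Q m n ×ˢ range (2 ^ k))))
    (fun t => F t.1 t.2.1 t.2.2) (fun t => G t.1 t.2.1 t.2.2)
    (fun t => (2 : ℝ) ^ (t.1 - (n - tsz t.2.1)) * (2 : ℝ) ^ t.1)
    (fun t => (1 / 2 : ℝ) ^ (t.1 - (n - tsz t.2.1)) * (1 / 2 : ℝ) ^ t.1)
    (fun t _ => by positivity) (fun t _ => by positivity)
    (fun t _ => by
      have h2 : ∀ j : ℕ, (2 : ℝ) ^ j * (1 / 2 : ℝ) ^ j = 1 := fun j => by
        rw [← mul_pow]; norm_num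
      calc (2 : ℝ) ^ (t.1 - (n - tsz t.2.1)) * (2 : ℝ) ^ t.1 *
          ((1 / 2 : ℝ) ^ (t.1 - (n - tsz t.2.1)) * (1 / 2 : ℝ) ^ t.1)
          = ((2 : ℝ) ^ (t.1 - (n - tsz t.2.1)) * (1 / 2 : ℝ) ^ (t.1 - (n - tsz t.2.1))) *
            ((2 : ℝ) ^ t.1 * (1 / 2 : ℝ) ^ t.1) := by ring
        _ = 1 := by rw [h2, h2, one_mul])
  have hFsum : ∑ t ∈ (range (n' + 1)).sigma (fun k => (Q m n ×ˢ range (2 ^ k))),
      (2 : ℝ) ^ (t.1 - (n - tsz t.2.1)) * (2 : ℝ) ^ t.1 * ‖F t.1 t.2.1 t.2.2‖ ^ 2 ≤ 11 * csq n c := by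
    rw [Finset.sum_sigma]
    have e1 : ∀ k ∈ range (n' + 1), ∑ s ∈ Q m n ×ˢ range (2 ^ k),
        (2 : ℝ) ^ (k - (n - tsz s.1)) * (2 : ℝ) ^ k * ‖F k s.1 s.2‖ ^ 2
        = ∑ η ∈ Q m n, (2 : ℝ) ^ (k - (n - tsz η)) * ((2 : ℝ) ^ k * ∑ a ∈ range (2 ^ k),
            ‖F k η a‖ ^ 2) := by
      intro k _
      rw [Finset.sum_product]
      refine Finset.sum_congr rfl fun η _ => ?_
      rw [Finset.mul_sum, Finset.mul_sum]
      refine Finset.sum_congr rfl fun a _ => ?_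
      ring
    rw [Finset.sum_congr rfl e1, Finset.sum_comm]
    unfold csq
    rw [Finset.mul_sum]
    refine Finset.sum_le_sum fun η _ => ?_
    exact haar_upper N (n - tsz η) (n' + 1) (lt_of_le_of_lt (Nat.sub_le _ _) hn) (by omega)
      (fun ξ => c ξ η)
  have hGsum : ∑ t ∈ (range (n' + 1)).sigma (fun k => (Q m n ×ˢ range (2 ^ k))),
      (1 / 2 : ℝ) ^ (t.1 - (n - tsz t.2.1)) * (1 / 2 : ℝ) ^ t.1 * ‖G t.1 t.2.1 t.2.2‖ ^ 2
      = RR N n n' U := by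
    rw [Finset.sum_sigma]
    unfold RR
    refine Finset.sum_congr rfl fun k _ => ?_
    rw [Finset.sum_product]
    refine Finset.sum_congr rfl fun η _ => ?_
    simp only
    rw [Finset.mul_sum, Finset.mul_sum]
    refine Finset.sum_congr rfl fun a _ => ?_
    ring
  rw [hsig]
  refine hcs.trans ?_
  rw [hGsum]
  refine mul_le_mul_of_nonneg_right hFsum ?_
  unfold RR
  positivity

end

end Pool.Agent.LibEnt73
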