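import Pool.Agent.LibEnt73.KerDefs
import Pool.Agent.LibEnt73.GaussU
import Pool.Agent.LibEnt73.RieszB

/-! The Gaussian functional: definitions. Everywhere `n' = n + 2`, `N = n + 4`. -/

namespace Pool.Agent.LibEnt73

open MeasureTheory ProbabilityTheory Finset

noncomputable section

/-- index of the Gaussians of one block -/
abbrev BB (m n : ℕ) : Type := ↥(box m (n + 3)) × Fin 2

/-- index of the mean part -/
abbrev B0 (m n : ℕ) : Type := ↥(Q m n) × Fin 2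

/-- index of all Gaussians -/
abbrev GI (m n : ℕ) : Type := ((Fin (n + 3) × Fin (2 ^ (n + 2))) × BB m n) ⊕ B0 m n

/-- Gaussian vector of the block `(k,a)` -/
def gg {m n : ℕ} (g : GI m n → ℝ) (k a : ℕ) : BB m n → ℝ := fun b =>
  if h : k < n + 3 ∧ a < 2 ^ (n + 2) then g (Sum.inl ((⟨k, h.1⟩, ⟨a, h.2⟩), b)) else 0

/-- coefficient vector of level `k` at the point `y` -/
def Ek (m n k : ℕ) (y : Fin m → ZMod (2 ^ (n + 4))) : BB m n → ℝ := fun b =>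
  Real.sqrt (kap2 m (n + 2) * 2 ^ k * Wh m (n + 2 - k) b.1) *
    (if b.2 = 0 then (eem (n + 4) (b.1 : Fin m → ℤ) y).re else (eem (n + 4) (b.1 : Fin m → ℤ) y).im)

/-- coefficient vector of the mean part -/
def E0 (m n : ℕ) (y : Fin m → ZMod (2 ^ (n + 4))) : B0 m n → ℝ := fun b =>
  (if b.2 = 0 then (eem (n + 4) (b.1 : Fin m → ℤ) y).re else (eem (n + 4) (b.1 : Fin m → ℤ) y).im)

/-- variance of level `k` -/
def vk (m n k : ℕ) : ℝ := rk (n + 4) (n + 2) k (0 : Fin m → ZMod (2 ^ (n + 4)))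

/-- amplitude of level `k` -/
def al (m n k : ℕ) : ℝ := Real.exp ((vk m n k - 1 / 10) / 2)

/-- `θ` -/
def th : ℝ := Real.exp (-(1 / 10) / 2)

/-- `Z_k(a,y)` -/
def Zk {m n : ℕ} (g : GI m n → ℝ) (k a : ℕ) (y : Fin m → ZMod (2 ^ (n + 4))) : ℝ :=
  dot (Ek m n k y) (gg g k a)

/-- `U_k(a,y)` -/
def Uk {m n : ℕ} (g : GI m n → ℝ) (k a : ℕ) (y : Fin m → ZMod (2 ^ (n + 4))) : ℝ :=
  UU k (fun j => sg k j a) (al m n) th (fun j => Ek m n j y) (fun j => gg g j (a / 2 ^ (k - j)))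

/-- `Y_0` -/
def Y0 {m n : ℕ} (g : GI m n → ℝ) (y : Fin m → ZMod (2 ^ (n + 4))) : ℝ :=
  dot (E0 m n y) (fun b => g (Sum.inr b))

/-- `R(g)` -/
def Rg {m n : ℕ} (g : GI m n → ℝ) : ℝ := RR (n + 4) n (n + 2) (Uk g)

/-- the linear functional `⟨f, κ^{-1} Y + Y_0⟩` -/
def pairF {m n : ℕ} (g : GI m n → ℝ) (c : ℤ → (Fin m → ℤ) → ℂ) : ℂ :=
  avg (fun p : ZMod (2 ^ (n + 4)) × (Fin m → ZMod (2 ^ (n + 4))) =>
    fsplit (n + 4) n c p.1 p.2 *
      (((Real.sqrt (kap2 m (n + 2)))⁻¹ *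
        (∑ k ∈ range (n + 3), rsgn (n + 4) k p.1 * Zk g k (blk (n + 4) k p.1) p.2) + Y0 g p.2 : ℝ) : ℂ))

/-- the coefficients `c` define a real valued function on the grid -/
def RealOn (m n : ℕ) (c : ℤ → (Fin m → ℤ) → ℂ) : Prop :=
  ∀ x y, (fsplit (n + 4) n c x y).im = 0

end

end Pool.Agent.LibEnt73
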