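import Pool.Agent.LibEnt73.Torus

/-! Task UW: `c W ⊆ \bar W`. -/

namespace Pool.Agent.LibEnt73

open MeasureTheory Finset UnitAddTorus

theorem upperW_continuous_lay {d : ℕ} (n : ℕ) (f : UnitAddTorus (Fin d) → ℂ) :
    Continuous (lay n f) := by
  unfold lay
  refine continuous_finsetSum _ fun s _ => ?_
  unfold del
  exact continuous_finsetSum _ fun k _ => continuous_const.mul (mFourier k).continuous

/-- the majorant -/
noncomputable def upperW_M (a β : ℝ) (n : ℕ) : ℝ := (2 : ℝ) ^ (-(a * n)) * (max (n : ℝ) 1) ^ β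

theorem upperW_M_nonneg (a β : ℝ) (n : ℕ) : 0 ≤ upperW_M a β n := by
  unfold upperW_M; positivity

theorem upperW_M_summable (a β : ℝ) (ha : 0 < a) : Summable (upperW_M a β) := by
  set r : ℝ := (2 : ℝ) ^ (-a) with hr
  have hr0 : 0 < r := by positivity
  have hr1 : r < 1 := Real.rpow_lt_one_of_one_lt_of_neg (by norm_num) (by linarith)
  set K : ℕ := ⌈|β|⌉₊ with hK
  have h1 : Summable (fun n : ℕ => ((n : ℝ)) ^ K * r ^ n) :=
    summable_pow_mul_geometric_of_norm_lt_one K (by rw [Real.norm_eq_abs, abs_of_pos hr0]; exact hr1)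
  have h2 : Summable (fun n : ℕ => (((n + 1 : ℕ) : ℝ)) ^ K * r ^ (n + 1)) :=
    (summable_nat_add_iff 1).mpr h1
  have h3 := h2.mul_left (1 / r)
  refine Summable.of_nonneg_of_le (upperW_M_nonneg a β) (fun n => ?_) h3
  have h4 : (2 : ℝ) ^ (-(a * n)) = r ^ n := by
    rw [hr, ← Real.rpow_natCast, ← Real.rpow_mul (by norm_num)]
    ring_nf
  have h5 : (1 : ℝ) ≤ max (n : ℝ) 1 := le_max_right _ _
  have h6 : (max (n : ℝ) 1) ^ β ≤ (((n + 1 : ℕ) : ℝ)) ^ K := by
    calc (max (n : ℝ) 1) ^ β ≤ (max (n : ℝ) 1) ^ (K : ℝ) :=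
          Real.rpow_le_rpow_of_exponent_le h5 ((le_abs_self β).trans (Nat.le_ceil _))
      _ = (max (n : ℝ) 1) ^ K := Real.rpow_natCast _ _
      _ ≤ (((n + 1 : ℕ) : ℝ)) ^ K := by
          refine pow_le_pow_left₀ (by linarith) ?_ K
          push_cast
          refine max_le (by linarith) ?_
          have : (0 : ℝ) ≤ n := Nat.cast_nonneg n
          linarith
  unfold upperW_M
  rw [h4]
  calc r ^ n * (max (n : ℝ) 1) ^ β ≤ r ^ n * (((n + 1 : ℕ) : ℝ)) ^ K :=
        mul_le_mul_of_nonneg_left h6 (by positivity)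
    _ = 1 / r * ((((n + 1 : ℕ) : ℝ)) ^ K * r ^ (n + 1)) := by
        rw [pow_succ r n]
        field_simp

theorem upperW_integrable {d : ℕ} {f : UnitAddTorus (Fin d) → ℂ} (hf : Continuous f) :
    Integrable f (muT d) :=
  hf.integrable_of_hasCompactSupport (HasCompactSupport.of_compactSpace f)

theorem upperW_coef_lay {d : ℕ} (n : ℕ) (f : UnitAddTorus (Fin d) → ℂ) (k : Fin d → ℤ) :
    coef (lay n f) k = if n = tsz k then coef f k else 0 := by
  have h1 : ∀ x, lay n f x * (starRingEnd ℂ) (mFourier k x) =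
      ∑ ξ ∈ dQ d n, coef f ξ * (mFourier ξ x * (starRingEnd ℂ) (mFourier k x)) := by
    intro x
    rw [lay_eq, Finset.sum_mul]
    exact Finset.sum_congr rfl fun ξ _ => by ring
  have hc : coef (lay n f) k = ∫ x, lay n f x * (starRingEnd ℂ) (mFourier k x) ∂(muT d) := rfl
  rw [hc]
  simp_rw [h1]
  rw [integral_finsetSum]
  · simp_rw [integral_const_mul, integral_mFourier_mul_conj]
    simp only [mul_ite, mul_one, mul_zero, Finset.sum_ite_eq', mem_dQ]
    by_cases h : n = tsz k
    · rw [if_pos h, if_pos h.symm]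
    · rw [if_neg h, if_neg (Ne.symm h)]
  · intro ξ _
    refine upperW_integrable ?_
    exact continuous_const.mul ((mFourier ξ).continuous.mul
      (RCLike.continuous_conj.comp (mFourier k).continuous))

theorem upperW_norm_conj {d : ℕ} (k : Fin d → ℤ) (x : UnitAddTorus (Fin d)) :
    ‖(starRingEnd ℂ) (mFourier k x)‖ ≤ 1 := by
  rw [RCLike.norm_conj]
  have := (mFourier k).norm_coe_le_norm x
  rwa [mFourier_norm] at this

section

noncomputable local instance : MeasureSpace UnitAddCircle := ⟨AddCircle.haarAddCircle⟩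

theorem upperW_unique' {d : ℕ} (h : UnitAddTorus (Fin d) → ℂ)
    (hh : MemLp h 2 (volume : Measure (UnitAddTorus (Fin d)))) (h0 : ∀ k, mFourierCoeff h k = 0) :
    h =ᵐ[(volume : Measure (UnitAddTorus (Fin d)))] 0 := by
  have h1 : mFourierBasis.repr (hh.toLp h) = 0 := by
    ext k
    rw [mFourierBasis_repr]
    have h2 : mFourierCoeff (hh.toLp h) k = mFourierCoeff h k := by
      unfold mFourierCoeff
      refine integral_congr_ae ?_
      filter_upwards [hh.coeFn_toLp] with x hx
      rw [hx]
    rw [h2, h0 k]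
    rfl
  have h3 : hh.toLp h = 0 := by
    have := congrArg mFourierBasis.repr.symm h1
    simpa using this
  have h4 := hh.coeFn_toLp
  rw [h3] at h4
  exact h4.symm.trans (Lp.coeFn_zero _ _ _)

end

/-- uniqueness of Fourier coefficients -/
theorem upperW_unique {d : ℕ} (h : UnitAddTorus (Fin d) → ℂ) (hh : MemLp h 2 (muT d))
    (h0 : ∀ k, coef h k = 0) : h =ᵐ[muT d] 0 := by
  refine upperW_unique' h hh (fun k => ?_)
  rw [← h0 k]
  unfold mFourierCoeff coef
  refine integral_congr_ae (Filter.Eventually.of_forall fun x => ?_)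
  dsimp only
  rw [mFourier_neg, smul_eq_mul, mul_comm]

theorem upperW_sum_Q {d : ℕ} (m n : ℕ) (hmn : m ≤ n) (F : (Fin d → ℤ) → ℂ) :
    ∑ k ∈ Q d n, (if tsz k = m then F k else 0) = ∑ k ∈ dQ d m, F k := by
  rw [← Finset.sum_filter]
  refine Finset.sum_congr ?_ fun _ _ => rfl
  ext k
  rw [Finset.mem_filter, mem_Q, mem_dQ]
  constructor
  · exact fun h => h.2
  · exact fun h => ⟨h.le.trans hmn, h⟩

theorem W_subset (d : ℕ) (hd : 1 ≤ d) (a b : ℝ) (ha : 0 < a) : ∃ c : ℝ, 0 < c ∧
    ∀ f ∈ WC d a b, (fun x => (c : ℂ) * f x) ∈ WbC d a b := by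
  set β : ℝ := ((d : ℝ) - 1) * b with hβ
  have h2a : 0 < (2 : ℝ) ^ a := by positivity
  refine ⟨1 / (1 + 2 ^ a), by positivity, ?_⟩
  set c : ℝ := 1 / (1 + 2 ^ a) with hc
  have hc0 : 0 < c := by positivity
  have hc1 : c ≤ 1 := by
    rw [hc, div_le_one (by positivity)]
    linarith
  intro f hf
  obtain ⟨hfL, hfn⟩ := hf
  have hb : ∀ n x, ‖lay n f x‖ ≤ upperW_M a β n := fun n x =>
    norm_le_of_eLpNorm_top (lay n f) (upperW_continuous_lay n f) _ (upperW_M_nonneg a β n) (hfn n) x
  have hM := upperW_M_summable a β ha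
  have hsum : ∀ x, Summable (fun n => lay n f x) := fun x =>
    Summable.of_norm_bounded hM (fun n => hb n x)
  set g : UnitAddTorus (Fin d) → ℂ := fun x => ∑' n, lay n f x with hg
  have hgc : Continuous g := continuous_tsum (fun n => upperW_continuous_lay n f) hM hb
  -- coefficients of `g`
  have hcoef : ∀ k, coef g k = coef f k := by
    intro k
    have h1 := hasSum_integral_of_summable_integral_norm (μ := muT d)
      (F := fun n x => lay n f x * (starRingEnd ℂ) (mFourier k x))
      (fun n => upperW_integrable ((upperW_continuous_lay n f).mul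
        (RCLike.continuous_conj.comp (mFourier k).continuous)))
      (by
        refine Summable.of_nonneg_of_le (fun n => integral_nonneg fun x => norm_nonneg _)
          (fun n => ?_) hM
        refine (integral_mono_of_nonneg (Filter.Eventually.of_forall fun x => norm_nonneg _)
          (integrable_const (upperW_M a β n)) (Filter.Eventually.of_forall fun x => ?_)).trans ?_
        · simp only
          rw [norm_mul]
          calc ‖lay n f x‖ * ‖(starRingEnd ℂ) (mFourier k x)‖ ≤ upperW_M a β n * 1 :=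
                mul_le_mul (hb n x) (upperW_norm_conj k x) (norm_nonneg _) (upperW_M_nonneg a β n)
            _ = upperW_M a β n := mul_one _
        · simp)
    have h2 : (fun n => ∫ x, lay n f x * (starRingEnd ℂ) (mFourier k x) ∂(muT d)) =
        fun n => if n = tsz k then coef f k else 0 := by
      funext n
      exact upperW_coef_lay n f k
    have h3 : HasSum (fun n : ℕ => if n = tsz k then coef f k else 0) (coef f k) :=
      hasSum_ite_eq (tsz k) (coef f k)
    rw [h2] at h1
    have h4 := h1.unique h3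
    have h5 : coef g k = ∫ x, ∑' n, lay n f x * (starRingEnd ℂ) (mFourier k x) ∂(muT d) := by
      unfold coef
      refine integral_congr_ae (Filter.Eventually.of_forall fun x => ?_)
      simp only [hg]
      rw [tsum_mul_right]
    rw [h5, h4]
  -- `f = g` almost everywhere
  have hf2 : MemLp f 2 (muT d) := hfL.mono_exponent le_top
  have hg2 : MemLp g 2 (muT d) := by
    refine MemLp.mono_exponent (q := ⊤) ?_ le_top
    exact memLp_top_of_bound hgc.aestronglyMeasurable (∑' n, upperW_M a β n)
      (Filter.Eventually.of_forall fun x => tsum_of_norm_bounded hM.hasSum (fun n => hb n x))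
  have hfg : f =ᵐ[muT d] g := by
    have h1 : (f - g) =ᵐ[muT d] 0 := by
      refine upperW_unique (f - g) (hf2.sub hg2) (fun k => ?_)
      have h2 : coef (f - g) k = coef f k - coef g k := by
        unfold coef
        rw [← integral_sub]
        · refine integral_congr_ae (Filter.Eventually.of_forall fun x => ?_)
          simp only [Pi.sub_apply]
          ring
        · refine (hf2.integrable (by norm_num)).mul_bdd (c := 1)
            ((RCLike.continuous_conj.comp (mFourier k).continuous).aestronglyMeasurable)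
            (Filter.Eventually.of_forall fun x => upperW_norm_conj k x)
        · refine (hg2.integrable (by norm_num)).mul_bdd (c := 1)
            ((RCLike.continuous_conj.comp (mFourier k).continuous).aestronglyMeasurable)
            (Filter.Eventually.of_forall fun x => upperW_norm_conj k x)
      rw [h2, hcoef k, sub_self]
    filter_upwards [h1] with x hx
    have : f x - g x = 0 := hx
    exact sub_eq_zero.mp this
  -- the decomposition
  refine ⟨fun n x => if n = 1 then (c : ℂ) * (lay 0 f x + lay 1 f x) else (c : ℂ) * lay n f x,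
    fun n hn => ⟨?_, ?_⟩, ?_⟩
  · rcases eq_or_ne n 1 with rfl | hn1
    · refine ⟨fun k => (if tsz k = 0 then (c : ℂ) * coef f k else 0) +
        (if tsz k = 1 then (c : ℂ) * coef f k else 0), ?_⟩
      funext x
      dsimp only
      rw [if_pos rfl, QQ_eq, lay_eq, lay_eq]
      simp only [add_mul, Finset.sum_add_distrib, ite_mul, zero_mul]
      rw [upperW_sum_Q 0 1 (by norm_num) (fun k => (c : ℂ) * coef f k * mFourier k x),
        upperW_sum_Q 1 1 le_rfl (fun k => (c : ℂ) * coef f k * mFourier k x), mul_add,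
        Finset.mul_sum, Finset.mul_sum]
      simp only [mul_assoc]
    · refine ⟨fun k => (if tsz k = n then (c : ℂ) * coef f k else 0), ?_⟩
      funext x
      dsimp only
      rw [if_neg hn1, QQ_eq, lay_eq]
      simp only [ite_mul, zero_mul]
      rw [upperW_sum_Q n n le_rfl (fun k => (c : ℂ) * coef f k * mFourier k x), Finset.mul_sum]
      simp only [mul_assoc]
  · rw [eLpNorm_exponent_top]
    refine eLpNormEssSup_le_of_ae_bound (Filter.Eventually.of_forall fun x => ?_)
    dsimp only
    rcases eq_or_ne n 1 with rfl | hn1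
    · rw [if_pos rfl, norm_mul, Complex.norm_real, Real.norm_eq_abs, abs_of_pos hc0]
      have h0 := hb 0 x
      have h1 := hb 1 x
      have e0 : upperW_M a β 0 = 1 := by
        unfold upperW_M
        simp
      have e1 : upperW_M a β 1 = 2 ^ (-a) := by
        unfold upperW_M
        simp
      rw [e0] at h0
      rw [e1] at h1
      have h2 : ‖lay 0 f x + lay 1 f x‖ ≤ 1 + 2 ^ (-a) :=
        (norm_add_le _ _).trans (add_le_add h0 h1)
      have h3 : c * (1 + 2 ^ (-a)) = 2 ^ (-a) := by
        rw [hc, Real.rpow_neg (by norm_num)]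
        field_simp
        ring
      calc c * ‖lay 0 f x + lay 1 f x‖ ≤ c * (1 + 2 ^ (-a)) := mul_le_mul_of_nonneg_left h2 hc0.le
        _ = 2 ^ (-a) := h3
        _ = (2 : ℝ) ^ (-(a * ((1 : ℕ) : ℝ))) * (((1 : ℕ) : ℝ)) ^ β := by simp
    · rw [if_neg hn1, norm_mul, Complex.norm_real, Real.norm_eq_abs, abs_of_pos hc0]
      have h0 := hb n x
      have hmax : max (n : ℝ) 1 = n := max_eq_left (by exact_mod_cast hn)
      unfold upperW_M at h0
      rw [hmax] at h0
      calc c * ‖lay n f x‖ ≤ 1 * ‖lay n f x‖ := mul_le_mul_of_nonneg_right hc1 (norm_nonneg _)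
        _ = ‖lay n f x‖ := one_mul _
        _ ≤ _ := h0
  · filter_upwards [hfg] with x hx
    have h1 : HasSum (fun n => lay n f x) (g x) := (hsum x).hasSum
    have h2 : HasSum (fun n => lay (n + 1) f x) (g x - lay 0 f x) := by
      have h2' : HasSum (fun n => lay n f x) (g x - lay 0 f x + ∑ i ∈ Finset.range 1, lay i f x) := by
        simpa using h1
      exact (hasSum_nat_add_iff (f := fun n => lay n f x) 1).mpr h2'
    have h3 : HasSum (fun n : ℕ => if n = 0 then (c : ℂ) * lay 0 f x else 0) ((c : ℂ) * lay 0 f x) :=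
      hasSum_ite_eq 0 _
    have h4 := (h2.mul_left (c : ℂ)).add h3
    have h5 : (c : ℂ) * (g x - lay 0 f x) + (c : ℂ) * lay 0 f x = (c : ℂ) * f x := by
      rw [hx]; ring
    rw [h5] at h4
    refine h4.congr_fun (fun n => ?_)
    rcases Nat.eq_zero_or_pos n with hn | hn
    · subst hn
      simp
      ring
    · rw [if_neg (by omega), if_neg (by omega), add_zero]

end Pool.Agent.LibEnt73
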