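import Pool.Agent.LibEnt73.UpperMain
import Pool.Agent.LibEnt73.UpperW
import Pool.Agent.LibEnt73.LowerW

/-! Main theorem. -/

namespace Pool.Agent.LibEnt73

open MeasureTheory Finset UnitAddTorus

theorem radii_mono {d : ℕ} (p : ENNReal) {F G : Set (UnitAddTorus (Fin d) → ℂ)} (h : F ⊆ G) (k : ℕ) :
    radii p G k ⊆ radii p F k := by
  rintro ε ⟨h0, Y, hY, hm, hc⟩
  exact ⟨h0, Y, hY, hm, fun f hf => hc f (h hf)⟩

theorem main (d : ℕ) (hd : 3 ≤ d) (p : ℝ) (hp : 1 ≤ p) (a b : ℝ) (ha : max (1 / 2) (1 - 1 / p) < a) :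
    (∃ c C : ℝ, 0 < c ∧ 0 < C ∧ ∀ k : ℕ, 2 ≤ k →
      c * phi d a b k ≤ entropyNumber (ENNReal.ofReal p) (WC d a b) k ∧
      entropyNumber (ENNReal.ofReal p) (WC d a b) k ≤ C * phi d a b k) ∧
    (∃ c C : ℝ, 0 < c ∧ 0 < C ∧ ∀ k : ℕ, 2 ≤ k →
      c * phi d a b k ≤ entropyNumber (ENNReal.ofReal p) (WbC d a b) k ∧
      entropyNumber (ENNReal.ofReal p) (WbC d a b) k ≤ C * phi d a b k) := by
  have h1 : 1 / 2 < a := lt_of_le_of_lt (le_max_left _ _) ha
  have h2 : 1 - 1 / p < a := lt_of_le_of_lt (le_max_right _ _) ha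
  have ha0 : 0 < a := by linarith
  obtain ⟨C, hC, hup⟩ := upper_Wb d hd p hp a b h1 h2
  obtain ⟨c, hc, hlow⟩ := lower_W d (by omega) p hp a b ha0
  obtain ⟨c', hc', hlow'⟩ := lower_Wb d (by omega) p hp a b ha0
  obtain ⟨e, he, hW⟩ := W_subset d (by omega) a b ha0
  have hbdd : ∀ (F : Set (UnitAddTorus (Fin d) → ℂ)) (k : ℕ), BddBelow (radii (ENNReal.ofReal p) F k) :=
    fun F k => ⟨0, fun ε h => h.1.le⟩
  -- upper bound for W by scaling
  have hup' : ∀ k : ℕ, 2 ≤ k → (C / e) * phi d a b k ∈ radii (ENNReal.ofReal p) (WC d a b) k := by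
    intro k hk
    obtain ⟨h0, Y, hY, hm, hcov⟩ := hup k hk
    classical
    refine ⟨?_, Y.image (fun y => (((1 / e : ℝ) : ℂ)) • y), (Finset.card_image_le).trans hY, ?_, ?_⟩
    · have : C / e * phi d a b k = (1 / e) * (C * phi d a b k) := by ring
      rw [this]; positivity
    · intro y hy
      obtain ⟨z, hz, rfl⟩ := Finset.mem_image.1 hy
      exact (hm z hz).const_smul _
    · intro f hf
      obtain ⟨y, hy, hfy⟩ := hcov _ (hW f hf)
      refine ⟨_, Finset.mem_image_of_mem _ hy, ?_⟩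
      have hcalc : f - (((1 / e : ℝ) : ℂ)) • y
          = (((1 / e : ℝ) : ℂ)) • ((fun x => (e : ℂ) * f x) - y) := by
        funext x
        have : (e : ℂ) ≠ 0 := by exact_mod_cast he.ne'
        simp only [Pi.sub_apply, Pi.smul_apply, smul_eq_mul, Complex.ofReal_div, Complex.ofReal_one]
        field_simp
      rw [hcalc, eLpNorm_const_smul]
      have hn : ‖(((1 / e : ℝ) : ℂ))‖ₑ = ENNReal.ofReal (1 / e) := by
        rw [← ofReal_norm, Complex.norm_real, Real.norm_of_nonneg (by positivity)]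
      rw [hn]
      calc ENNReal.ofReal (1 / e) * eLpNorm ((fun x => (e : ℂ) * f x) - y) (ENNReal.ofReal p) (muT d)
          ≤ ENNReal.ofReal (1 / e) * ENNReal.ofReal (C * phi d a b k) := by gcongr
        _ = ENNReal.ofReal (C / e * phi d a b k) := by
            rw [← ENNReal.ofReal_mul (by positivity)]
            congr 1; ring
  refine ⟨⟨c, C / e, hc, by positivity, fun k hk => ⟨?_, ?_⟩⟩, ⟨c', C, hc', hC, fun k hk => ⟨?_, ?_⟩⟩⟩
  · refine le_csInf ⟨_, hup' k hk⟩ fun ε hε => hlow k hk ε (radii_mono _ (fun f hf => hf.1) k hε)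
  · exact csInf_le (hbdd _ _) (hup' k hk)
  · refine le_csInf ⟨_, hup k hk⟩ fun ε hε => hlow' k hk ε (radii_mono _ (fun f hf => hf.1) k hε)
  · exact csInf_le (hbdd _ _) (hup k hk)

end Pool.Agent.LibEnt73
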