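import Pool.Agent.LibEnt73.Base

/-! Trigonometric polynomials on the torus `UnitAddTorus (Fin d)`; the classes of MP_572ff6_an. -/

namespace Pool.Agent.LibEnt73

open MeasureTheory ProbabilityTheory Finset UnitAddTorus

noncomputable section

/-- normalised Haar measure of the torus -/
def muT (d : ℕ) : Measure (UnitAddTorus (Fin d)) := Measure.pi fun _ : Fin d => AddCircle.haarAddCircle

instance (d : ℕ) : IsProbabilityMeasure (muT d) := by unfold muT; infer_instance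

/-- trigonometric polynomial with frequencies in the hyperbolic cross -/
def tp {d : ℕ} (n : ℕ) (c : (Fin d → ℤ) → ℂ) (x : UnitAddTorus (Fin d)) : ℂ :=
  ∑ ξ ∈ Q d n, c ξ * mFourier ξ x

/-- bounded polynomials (complex valued), given by coefficients -/
def KC (d n : ℕ) : Set ((Fin d → ℤ) → ℂ) := {c | ∀ x, ‖tp n c x‖ ≤ 1}

/-- bounded real valued polynomials, given by coefficients -/
def KR (d n : ℕ) : Set ((Fin d → ℤ) → ℂ) := {c | (∀ x, (tp n c x).im = 0) ∧ ∀ x, ‖tp n c x‖ ≤ 1}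

/-- squared `ℓ_2` distance of the coefficients on `Q d n` -/
def cdist {d : ℕ} (n : ℕ) (c c' : (Fin d → ℤ) → ℂ) : ℝ := ∑ ξ ∈ Q d n, ‖c ξ - c' ξ‖ ^ 2

/-- `2^n (n+1)^(d-1)` -/
def DD (d n : ℕ) : ℝ := 2 ^ n * ((n : ℝ) + 1) ^ (d - 1)

theorem continuous_tp {d : ℕ} (n : ℕ) (c : (Fin d → ℤ) → ℂ) : Continuous (tp n c) := by
  unfold tp
  exact continuous_finsetSum _ fun ξ _ => continuous_const.mul (mFourier ξ).continuous

/-- Fourier coefficient `\hat f(k)` -/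
def coef {d : ℕ} (f : UnitAddTorus (Fin d) → ℂ) (k : Fin d → ℤ) : ℂ :=
  ∫ x, f x * (starRingEnd ℂ) (mFourier k x) ∂(muT d)

/-- dyadic block `ρ(s)` -/
def rho {d : ℕ} (s : Fin d → ℕ) : Finset (Fin d → ℤ) :=
  Fintype.piFinset fun j => (Finset.Ioo (-(2 : ℤ) ^ s j) (2 ^ s j)).filter fun v => (2 : ℤ) ^ s j / 2 ≤ |v|

/-- `δ_s(f)` -/
def del {d : ℕ} (s : Fin d → ℕ) (f : UnitAddTorus (Fin d) → ℂ) (x : UnitAddTorus (Fin d)) : ℂ :=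
  ∑ k ∈ rho s, coef f k * mFourier k x

/-- `f_n = ∑_{‖s‖_1 = n} δ_s(f)` -/
def lay {d : ℕ} (n : ℕ) (f : UnitAddTorus (Fin d) → ℂ) (x : UnitAddTorus (Fin d)) : ℂ :=
  ∑ s ∈ Finset.piAntidiag (Finset.univ : Finset (Fin d)) n, del s f x

/-- the class `W^{a,b}_∞` -/
def WC (d : ℕ) (a b : ℝ) : Set (UnitAddTorus (Fin d) → ℂ) :=
  {f | MemLp f ⊤ (muT d) ∧ ∀ n : ℕ, eLpNorm (lay n f) ⊤ (muT d) ≤
    ENNReal.ofReal ((2 : ℝ) ^ (-(a * n)) * (max (n : ℝ) 1) ^ (((d : ℝ) - 1) * b))}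

/-- the step hyperbolic cross `Q_n = ⋃_{‖s‖_1 ≤ n} ρ(s)` -/
def QQ (d n : ℕ) : Finset (Fin d → ℤ) :=
  (Finset.range (n + 1)).biUnion fun l => (Finset.piAntidiag (Finset.univ : Finset (Fin d)) l).biUnion rho

/-- trigonometric polynomials with frequencies in `Q_n` -/
def TQ (d n : ℕ) : Set (UnitAddTorus (Fin d) → ℂ) :=
  {t | ∃ c : (Fin d → ℤ) → ℂ, t = fun x => ∑ k ∈ QQ d n, c k * mFourier k x}

/-- the class `\bar W^{a,b}_∞` -/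
def WbC (d : ℕ) (a b : ℝ) : Set (UnitAddTorus (Fin d) → ℂ) :=
  {f | ∃ t : ℕ → UnitAddTorus (Fin d) → ℂ,
    (∀ n, 1 ≤ n → t n ∈ TQ d n ∧ eLpNorm (t n) ⊤ (muT d) ≤
      ENNReal.ofReal ((2 : ℝ) ^ (-(a * n)) * (n : ℝ) ^ (((d : ℝ) - 1) * b))) ∧
    ∀ᵐ x ∂(muT d), HasSum (fun n : ℕ => t (n + 1) x) (f x)}

/-- radii `ε` such that `F` is covered by `2^k` balls of radius `ε` of `L_p` -/
def radii {d : ℕ} (p : ENNReal) (F : Set (UnitAddTorus (Fin d) → ℂ)) (k : ℕ) : Set ℝ :=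
  {ε | 0 < ε ∧ ∃ Y : Finset (UnitAddTorus (Fin d) → ℂ), Y.card ≤ 2 ^ k ∧ (∀ y ∈ Y, MemLp y p (muT d)) ∧
    ∀ f ∈ F, ∃ y ∈ Y, eLpNorm (f - y) p (muT d) ≤ ENNReal.ofReal ε}

/-- entropy number `ε_k(F, L_p)` -/
def entropyNumber {d : ℕ} (p : ENNReal) (F : Set (UnitAddTorus (Fin d) → ℂ)) (k : ℕ) : ℝ :=
  sInf (radii p F k)

/-- the order `k^{-a} (log k)^{(d-1)(a+b)-1/2}` -/
def phi (d : ℕ) (a b : ℝ) (k : ℕ) : ℝ :=
  (k : ℝ) ^ (-a) * (Real.log k) ^ (((d : ℝ) - 1) * (a + b) - 1 / 2)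

end

end Pool.Agent.LibEnt73
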