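import Pool.Agent.LibEnt73.TorusDefs

/-! Task UB: bits allocation (real analysis only). -/

namespace Pool.Agent.LibEnt73

open MeasureTheory Finset UnitAddTorus

/-- radius at scale `n` with `κ` bits (times the size of the class at scale `n`) -/
noncomputable def rad (d : ℕ) (a b γ C c₀ : ℝ) (n κ : ℕ) : ℝ :=
  (2 : ℝ) ^ (-(a * n)) * (n : ℝ) ^ (((d : ℝ) - 1) * b) *
    (if κ = 0 then 1 else C * ((n : ℝ) + 1) ^ (-(1 / 2) : ℝ) * (DD d n / κ) ^ γ *
      (2 : ℝ) ^ (-(c₀ * κ / DD d n)))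

theorem upperBits_ratio {x y t β : ℝ} (hx : 0 < x) (hy : 0 < y) (ht : 1 ≤ t) (hxy : x ≤ t * y)
    (hyx : y ≤ t * x) : x ^ β ≤ t ^ |β| * y ^ β := by
  have ht0 : 0 < t := lt_of_lt_of_le one_pos ht
  rcases le_or_gt 0 β with h | h
  · rw [abs_of_nonneg h, ← Real.mul_rpow ht0.le hy.le]
    exact Real.rpow_le_rpow hx.le hxy h
  · rw [abs_of_neg h]
    have h1 : y / t ≤ x := by rw [div_le_iff₀ ht0]; linarith
    have h2 : 0 < y / t := by positivity
    calc x ^ β ≤ (y / t) ^ β := Real.rpow_le_rpow_of_nonpos h2 h1 h.le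
      _ = y ^ β / t ^ β := Real.div_rpow hy.le ht0.le β
      _ = t ^ (-β) * y ^ β := by rw [Real.rpow_neg ht0.le]; field_simp

theorem upperBits_poly (E η : ℝ) (hE : 0 ≤ E) (hη : 0 < η) :
    ∃ M : ℝ, 1 ≤ M ∧ ∀ i : ℕ, (1 + (i : ℝ)) ^ E ≤ M * (2 : ℝ) ^ (η * i) := by
  set s : ℝ := η / (E + 1) with hs
  have hs0 : 0 < s := by positivity
  have hl2 : 0 < Real.log 2 := Real.log_pos (by norm_num)
  set m : ℝ := 1 + 1 / (s * Real.log 2) with hm
  have hm1 : 1 ≤ m := by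
    have : 0 < 1 / (s * Real.log 2) := by positivity
    linarith
  refine ⟨m ^ (E + 1), Real.one_le_rpow hm1 (by linarith), fun i => ?_⟩
  have hi : (0 : ℝ) ≤ i := Nat.cast_nonneg i
  have h1 : 1 + s * i * Real.log 2 ≤ (2 : ℝ) ^ (s * i) := by
    rw [Real.rpow_def_of_pos (by norm_num)]
    have := Real.add_one_le_exp (Real.log 2 * (s * i))
    nlinarith
  have h2 : 1 + (i : ℝ) ≤ m * (2 : ℝ) ^ (s * i) := by
    have h3 : 1 + (i : ℝ) ≤ m * (1 + s * i * Real.log 2) := by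
      have : 1 / (s * Real.log 2) * (s * i * Real.log 2) = i := by field_simp
      have h4 : 0 ≤ s * i * Real.log 2 := by positivity
      have h5 : 0 < 1 / (s * Real.log 2) := by positivity
      rw [hm]
      nlinarith
    exact h3.trans (mul_le_mul_of_nonneg_left h1 (by linarith))
  calc (1 + (i : ℝ)) ^ E ≤ (1 + (i : ℝ)) ^ (E + 1) :=
        Real.rpow_le_rpow_of_exponent_le (by linarith) (by linarith)
    _ ≤ (m * (2 : ℝ) ^ (s * i)) ^ (E + 1) := Real.rpow_le_rpow (by positivity) h2 (by linarith)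
    _ = m ^ (E + 1) * (2 : ℝ) ^ (η * i) := by
        rw [Real.mul_rpow (by linarith) (by positivity), ← Real.rpow_mul (by norm_num)]
        congr 2
        rw [hs]; field_simp

theorem upperBits_DD_pos (d n : ℕ) : 0 < DD d n := by unfold DD; positivity

theorem upperBits_DD_ge (d n : ℕ) : (2 : ℝ) ^ n ≤ DD d n := by
  unfold DD
  have h : (1 : ℝ) ≤ ((n : ℝ) + 1) ^ (d - 1) := one_le_pow₀ (by linarith [Nat.cast_nonneg (α := ℝ) n])
  nlinarith [pow_pos (two_pos (α := ℝ)) n]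

theorem upperBits_DD_down (d n j : ℕ) : DD d n ≤ (1 / 2 : ℝ) ^ j * DD d (n + j) := by
  unfold DD
  have h : ((n : ℝ) + 1) ^ (d - 1) ≤ (((n + j : ℕ) : ℝ) + 1) ^ (d - 1) := by
    apply pow_le_pow_left₀ (by positivity)
    push_cast
    linarith [Nat.cast_nonneg (α := ℝ) j]
  have h2 : (1 / 2 : ℝ) ^ j * (2 ^ (n + j) * (((n + j : ℕ) : ℝ) + 1) ^ (d - 1))
      = 2 ^ n * (((n + j : ℕ) : ℝ) + 1) ^ (d - 1) := by
    rw [pow_add]
    have : (1 / 2 : ℝ) ^ j * 2 ^ j = 1 := by rw [← mul_pow]; norm_num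
    linear_combination (2 ^ n * (((n + j : ℕ) : ℝ) + 1) ^ (d - 1)) * this
  rw [h2]
  exact mul_le_mul_of_nonneg_left h (by positivity)

theorem upperBits_DD_up (d n i : ℕ) :
    DD d (n + i) ≤ DD d n * ((2 : ℝ) ^ (i : ℝ) * (1 + (i : ℝ)) ^ (((d - 1 : ℕ) : ℝ))) := by
  unfold DD
  rw [Real.rpow_natCast, Real.rpow_natCast]
  have h : (((n + i : ℕ) : ℝ) + 1) ^ (d - 1) ≤ (((n : ℝ) + 1) * (1 + i)) ^ (d - 1) := by
    apply pow_le_pow_left₀ (by positivity)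
    push_cast
    have : (0 : ℝ) ≤ n * i := by positivity
    nlinarith
  rw [mul_pow] at h
  calc (2 : ℝ) ^ (n + i) * (((n + i : ℕ) : ℝ) + 1) ^ (d - 1)
      ≤ 2 ^ (n + i) * (((n : ℝ) + 1) ^ (d - 1) * (1 + (i : ℝ)) ^ (d - 1)) :=
        mul_le_mul_of_nonneg_left h (by positivity)
    _ = _ := by rw [pow_add]; ring

/-- the size of the main term -/
noncomputable def upperBits_G (a β : ℝ) (n : ℕ) : ℝ :=
  (2 : ℝ) ^ (-(a * n)) * (n : ℝ) ^ β * ((n : ℝ) + 1) ^ (-(1 / 2) : ℝ)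

theorem upperBits_G_pos (a β : ℝ) {n : ℕ} (hn : 1 ≤ n) : 0 < upperBits_G a β n := by
  have : (0 : ℝ) < n := by exact_mod_cast hn
  unfold upperBits_G
  positivity

/-- scales below `n₀` -/
theorem upperBits_low (d : ℕ) (a b γ C c₀ : ℝ) (ha0 : 0 ≤ a) (hγ : 0 < γ) (hC : 0 < C) (hc₀ : 0 < c₀) (A₁ : ℝ)
    (hA1 : 1 ≤ A₁) (hA : a + (|((d : ℝ) - 1) * b| + 1 / 2) + 1 ≤ c₀ * A₁) (n j : ℕ) (hn : 1 ≤ n) :
    rad d a b γ C c₀ n ⌈A₁ * DD d n * (1 + j)⌉₊ ≤
      C * upperBits_G a (((d : ℝ) - 1) * b) (n + j) * (2 : ℝ) ^ (-(j : ℝ)) := by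
  set β : ℝ := ((d : ℝ) - 1) * b with hβ
  have hn0 : (0 : ℝ) < n := by exact_mod_cast hn
  have hn1 : (1 : ℝ) ≤ n := by exact_mod_cast hn
  have hj : (0 : ℝ) ≤ j := Nat.cast_nonneg j
  have hD := upperBits_DD_pos d n
  set κ : ℕ := ⌈A₁ * DD d n * (1 + j)⌉₊ with hκ
  have hκ1 : A₁ * DD d n * (1 + j) ≤ κ := Nat.le_ceil _
  have hκpos : (0 : ℝ) < κ := lt_of_lt_of_le (by positivity) hκ1
  have hκne : κ ≠ 0 := by
    intro h; rw [h] at hκpos; simp at hκpos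
  unfold rad
  rw [if_neg hκne]
  -- (DD/κ)^γ ≤ 1
  have e1 : (DD d n / κ) ^ γ ≤ 1 := by
    apply Real.rpow_le_one (by positivity) _ hγ.le
    rw [div_le_one hκpos]
    refine le_trans ?_ hκ1
    have : 1 ≤ A₁ * (1 + j) := by nlinarith
    nlinarith
  have e2 : (2 : ℝ) ^ (-(c₀ * κ / DD d n)) ≤
      (2 : ℝ) ^ (-((a + (|β| + 1 / 2) + 1) * (1 + j))) := by
    apply Real.rpow_le_rpow_of_exponent_le (by norm_num)
    rw [neg_le_neg_iff, le_div_iff₀ hD]
    have h1 : c₀ * (A₁ * DD d n * (1 + j)) ≤ c₀ * κ := mul_le_mul_of_nonneg_left hκ1 hc₀.le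
    have h2 : (a + (|β| + 1 / 2) + 1) * ((1 + j) * DD d n) ≤ (c₀ * A₁) * ((1 + j) * DD d n) :=
      mul_le_mul_of_nonneg_right hA (by positivity)
    nlinarith
  have e3 : (n : ℝ) ^ β ≤ (1 + (j : ℝ)) ^ |β| * ((n + j : ℕ) : ℝ) ^ β := by
    apply upperBits_ratio hn0 (by push_cast; linarith) (by linarith)
    · push_cast
      nlinarith
    · push_cast
      nlinarith
  have e4 : ((n : ℝ) + 1) ^ (-(1 / 2) : ℝ) ≤
      (1 + (j : ℝ)) ^ (1 / 2 : ℝ) * (((n + j : ℕ) : ℝ) + 1) ^ (-(1 / 2) : ℝ) := by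
    have := upperBits_ratio (x := (n : ℝ) + 1) (y := ((n + j : ℕ) : ℝ) + 1) (t := 1 + j)
      (β := -(1 / 2)) (by linarith) (by push_cast; linarith) (by linarith)
      (by push_cast; nlinarith) (by push_cast; nlinarith)
    rwa [abs_neg, abs_of_pos (by norm_num : (0 : ℝ) < 1 / 2)] at this
  have e5 : 1 + (j : ℝ) ≤ (2 : ℝ) ^ (j : ℝ) := by
    rw [Real.rpow_natCast]
    have := Nat.lt_two_pow_self (n := j)
    have h : ((j + 1 : ℕ) : ℝ) ≤ ((2 ^ j : ℕ) : ℝ) := by exact_mod_cast this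
    push_cast at h
    linarith
  have hb0 : 0 ≤ |β| := abs_nonneg β
  have e6 : (1 + (j : ℝ)) ^ |β| * (1 + (j : ℝ)) ^ (1 / 2 : ℝ) ≤ (2 : ℝ) ^ ((|β| + 1 / 2) * j) := by
    rw [← Real.rpow_add (by linarith)]
    calc (1 + (j : ℝ)) ^ (|β| + 1 / 2) ≤ ((2 : ℝ) ^ (j : ℝ)) ^ (|β| + 1 / 2) :=
          Real.rpow_le_rpow (by linarith) e5 (by positivity)
      _ = _ := by rw [← Real.rpow_mul (by norm_num)]; ring_nf
  have p1 : (0 : ℝ) ≤ ((n + j : ℕ) : ℝ) ^ β := by positivity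
  have p2 : (0 : ℝ) ≤ (((n + j : ℕ) : ℝ) + 1) ^ (-(1 / 2) : ℝ) := by positivity
  calc (2 : ℝ) ^ (-(a * n)) * (n : ℝ) ^ β * (C * ((n : ℝ) + 1) ^ (-(1 / 2) : ℝ) *
        (DD d n / κ) ^ γ * (2 : ℝ) ^ (-(c₀ * κ / DD d n)))
      ≤ (2 : ℝ) ^ (-(a * n)) * ((1 + (j : ℝ)) ^ |β| * ((n + j : ℕ) : ℝ) ^ β) *
        (C * ((1 + (j : ℝ)) ^ (1 / 2 : ℝ) * (((n + j : ℕ) : ℝ) + 1) ^ (-(1 / 2) : ℝ)) *
        1 * (2 : ℝ) ^ (-((a + (|β| + 1 / 2) + 1) * (1 + j)))) := by gcongr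
    _ = C * (2 : ℝ) ^ (-(a * n)) * (((n + j : ℕ) : ℝ) ^ β * (((n + j : ℕ) : ℝ) + 1) ^ (-(1 / 2) : ℝ)) *
        ((1 + (j : ℝ)) ^ |β| * (1 + (j : ℝ)) ^ (1 / 2 : ℝ)) *
        (2 : ℝ) ^ (-((a + (|β| + 1 / 2) + 1) * (1 + j))) := by ring
    _ ≤ C * (2 : ℝ) ^ (-(a * n)) * (((n + j : ℕ) : ℝ) ^ β * (((n + j : ℕ) : ℝ) + 1) ^ (-(1 / 2) : ℝ)) *
        (2 : ℝ) ^ ((|β| + 1 / 2) * j) *
        (2 : ℝ) ^ (-((a + (|β| + 1 / 2) + 1) * (1 + j))) := by gcongr
    _ = C * (((n + j : ℕ) : ℝ) ^ β * (((n + j : ℕ) : ℝ) + 1) ^ (-(1 / 2) : ℝ)) *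
        ((2 : ℝ) ^ (-(a * n)) * (2 : ℝ) ^ ((|β| + 1 / 2) * j) *
        (2 : ℝ) ^ (-((a + (|β| + 1 / 2) + 1) * (1 + j)))) := by ring
    _ ≤ C * (((n + j : ℕ) : ℝ) ^ β * (((n + j : ℕ) : ℝ) + 1) ^ (-(1 / 2) : ℝ)) *
        ((2 : ℝ) ^ (-(a * ((n + j : ℕ) : ℝ))) * (2 : ℝ) ^ (-(j : ℝ))) := by
        apply mul_le_mul_of_nonneg_left _ (by positivity)
        rw [← Real.rpow_add (by norm_num), ← Real.rpow_add (by norm_num),
          ← Real.rpow_add (by norm_num)]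
        apply Real.rpow_le_rpow_of_exponent_le (by norm_num)
        push_cast
        nlinarith [mul_nonneg ha0 hj]
    _ = _ := by unfold upperBits_G; ring


/-- scales above `n₀` -/
theorem upperBits_high (d : ℕ) (a b γ C c₀ δ η : ℝ) (hγ : 0 < γ) (hC : 0 < C)
    (hc₀ : 0 < c₀) (hη : 0 < η) (h1 : (1 + δ) * γ + 2 * η ≤ a) (h2 : δ + 2 * η ≤ a) :
    ∃ M : ℝ, 0 < M ∧ ∀ n i : ℕ, 1 ≤ n → 
    rad d a b γ C c₀ (n + i) ⌊DD d n * (2 : ℝ) ^ (-(δ * i))⌋₊ ≤
      M * upperBits_G a (((d : ℝ) - 1) * b) n * (2 : ℝ) ^ (-(η * i)) := by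
  set β : ℝ := ((d : ℝ) - 1) * b with hβ
  obtain ⟨M, hM1, hM⟩ := upperBits_poly (|β| + ((d - 1 : ℕ) : ℝ) * γ) η (by positivity) hη
  refine ⟨(1 + C * 2 ^ γ) * M, by positivity, fun n i hn => ?_⟩
  have hn0 : (0 : ℝ) < n := by exact_mod_cast hn
  have hn1 : (1 : ℝ) ≤ n := by exact_mod_cast hn
  have hi : (0 : ℝ) ≤ i := Nat.cast_nonneg i
  have hD := upperBits_DD_pos d n
  have hD2 := upperBits_DD_pos d (n + i)
  set D : ℝ := DD d n with hDdef
  set κ : ℕ := ⌊D * (2 : ℝ) ^ (-(δ * i))⌋₊ with hκ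
  have hbase : (0 : ℝ) < 1 + i := by linarith
  have e3 : ((n + i : ℕ) : ℝ) ^ β ≤ (1 + (i : ℝ)) ^ |β| * (n : ℝ) ^ β := by
    apply upperBits_ratio (by push_cast; linarith) hn0 (by linarith)
    · push_cast
      nlinarith
    · push_cast
      nlinarith
  have hMi := hM i
  have hsplit : (1 + (i : ℝ)) ^ (|β| + ((d - 1 : ℕ) : ℝ) * γ) =
      (1 + (i : ℝ)) ^ |β| * (1 + (i : ℝ)) ^ (((d - 1 : ℕ) : ℝ) * γ) := Real.rpow_add hbase _ _
  have hone : 1 ≤ (1 + (i : ℝ)) ^ (((d - 1 : ℕ) : ℝ) * γ) :=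
    Real.one_le_rpow (by linarith) (by positivity)
  have hGpos := upperBits_G_pos a β hn
  have hGdef : upperBits_G a β n = (2 : ℝ) ^ (-(a * n)) * (n : ℝ) ^ β * ((n : ℝ) + 1) ^ (-(1 / 2) : ℝ) := rfl
  have han : (2 : ℝ) ^ (-(a * ((n + i : ℕ) : ℝ))) = (2 : ℝ) ^ (-(a * n)) * (2 : ℝ) ^ (-(a * i)) := by
    rw [← Real.rpow_add (by norm_num)]
    congr 1
    push_cast
    ring
  unfold rad
  rw [han]
  by_cases hκ0 : κ = 0
  · rw [if_pos hκ0, mul_one]
    -- D * 2^{-δ i} < 1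
    have hlt : D * (2 : ℝ) ^ (-(δ * i)) < 1 := by
      have := Nat.lt_floor_add_one (D * (2 : ℝ) ^ (-(δ * i)))
      rw [← hκ, hκ0] at this
      simpa using this
    have hDi : D < (2 : ℝ) ^ (δ * i) := by
      rw [Real.rpow_neg (by norm_num)] at hlt
      have hp : (0 : ℝ) < (2 : ℝ) ^ (δ * i) := by positivity
      rwa [mul_inv_lt_iff₀ hp, one_mul] at hlt
    have hn2 : (n : ℝ) + 1 ≤ D := by
      refine le_trans ?_ (upperBits_DD_ge d n)
      have := Nat.lt_two_pow_self (n := n)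
      exact_mod_cast this
    have hhalf : 1 ≤ (2 : ℝ) ^ (δ * i) * ((n : ℝ) + 1) ^ (-(1 / 2) : ℝ) := by
      rw [Real.rpow_neg (by linarith), ← div_eq_mul_inv, le_div_iff₀ (by positivity), one_mul]
      calc ((n : ℝ) + 1) ^ (1 / 2 : ℝ) ≤ ((n : ℝ) + 1) ^ (1 : ℝ) :=
            Real.rpow_le_rpow_of_exponent_le (by linarith) (by norm_num)
        _ = (n : ℝ) + 1 := Real.rpow_one _
        _ ≤ _ := by linarith
    have hA : (2 : ℝ) ^ (-(a * i)) * (2 : ℝ) ^ (δ * i) * (2 : ℝ) ^ (η * i) ≤ (2 : ℝ) ^ (-(η * i)) := by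
      rw [← Real.rpow_add (by norm_num), ← Real.rpow_add (by norm_num)]
      apply Real.rpow_le_rpow_of_exponent_le (by norm_num)
      nlinarith
    calc (2 : ℝ) ^ (-(a * n)) * (2 : ℝ) ^ (-(a * i)) * ((n + i : ℕ) : ℝ) ^ β
        ≤ (2 : ℝ) ^ (-(a * n)) * (2 : ℝ) ^ (-(a * i)) * ((1 + (i : ℝ)) ^ |β| * (n : ℝ) ^ β) := by
          gcongr
      _ ≤ (2 : ℝ) ^ (-(a * n)) * (2 : ℝ) ^ (-(a * i)) * ((M * (2 : ℝ) ^ (η * i)) * (n : ℝ) ^ β) := by
          have : (1 + (i : ℝ)) ^ |β| ≤ M * (2 : ℝ) ^ (η * i) := by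
            refine le_trans ?_ hMi
            rw [hsplit]
            exact le_mul_of_one_le_right (by positivity) hone
          gcongr
      _ ≤ ((2 : ℝ) ^ (-(a * n)) * (2 : ℝ) ^ (-(a * i)) * ((M * (2 : ℝ) ^ (η * i)) * (n : ℝ) ^ β)) *
          ((2 : ℝ) ^ (δ * i) * ((n : ℝ) + 1) ^ (-(1 / 2) : ℝ)) :=
          le_mul_of_one_le_right (by positivity) hhalf
      _ = M * upperBits_G a β n * ((2 : ℝ) ^ (-(a * i)) * (2 : ℝ) ^ (δ * i) * (2 : ℝ) ^ (η * i)) := by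
          rw [hGdef]; ring
      _ ≤ M * upperBits_G a β n * (2 : ℝ) ^ (-(η * i)) := by gcongr
      _ ≤ (1 + C * 2 ^ γ) * M * upperBits_G a β n * (2 : ℝ) ^ (-(η * i)) := by
          have : 1 * M ≤ (1 + C * 2 ^ γ) * M := by
            apply mul_le_mul_of_nonneg_right _ (by linarith)
            have : 0 < C * (2 : ℝ) ^ γ := by positivity
            linarith
          rw [one_mul] at this
          gcongr
  · rw [if_neg hκ0]
    have hκ1 : (1 : ℝ) ≤ κ := by exact_mod_cast Nat.one_le_iff_ne_zero.2 hκ0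
    have hκpos : (0 : ℝ) < κ := by linarith
    have hκhalf : D * (2 : ℝ) ^ (-(δ * i)) ≤ 2 * κ := by
      have := Nat.lt_floor_add_one (D * (2 : ℝ) ^ (-(δ * i)))
      rw [← hκ] at this
      linarith
    have e1 : DD d (n + i) / κ ≤ 2 * ((2 : ℝ) ^ ((1 + δ) * i) * (1 + (i : ℝ)) ^ (((d - 1 : ℕ) : ℝ))) := by
      rw [div_le_iff₀ hκpos]
      calc DD d (n + i) ≤ D * ((2 : ℝ) ^ (i : ℝ) * (1 + (i : ℝ)) ^ (((d - 1 : ℕ) : ℝ))) :=
            upperBits_DD_up d n i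
        _ = (D * (2 : ℝ) ^ (-(δ * i))) * ((2 : ℝ) ^ ((1 + δ) * i) * (1 + (i : ℝ)) ^ (((d - 1 : ℕ) : ℝ))) := by
            have : (2 : ℝ) ^ (i : ℝ) = (2 : ℝ) ^ (-(δ * i)) * (2 : ℝ) ^ ((1 + δ) * i) := by
              rw [← Real.rpow_add (by norm_num)]
              congr 1
              ring
            rw [this]; ring
        _ ≤ (2 * κ) * ((2 : ℝ) ^ ((1 + δ) * i) * (1 + (i : ℝ)) ^ (((d - 1 : ℕ) : ℝ))) := by gcongr
        _ = _ := by ring
    have e2 : (DD d (n + i) / κ) ^ γ ≤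
        2 ^ γ * ((2 : ℝ) ^ ((1 + δ) * γ * i) * (1 + (i : ℝ)) ^ (((d - 1 : ℕ) : ℝ) * γ)) := by
      refine (Real.rpow_le_rpow (by positivity) e1 hγ.le).trans (le_of_eq ?_)
      rw [Real.mul_rpow (by norm_num) (by positivity), Real.mul_rpow (by positivity) (by positivity),
        ← Real.rpow_mul (by norm_num), ← Real.rpow_mul (by linarith)]
      congr 3
      ring
    have e4 : (((n + i : ℕ) : ℝ) + 1) ^ (-(1 / 2) : ℝ) ≤ ((n : ℝ) + 1) ^ (-(1 / 2) : ℝ) := by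
      apply Real.rpow_le_rpow_of_nonpos (by linarith) (by push_cast; linarith) (by norm_num)
    have e5 : (2 : ℝ) ^ (-(c₀ * κ / DD d (n + i))) ≤ 1 := by
      apply Real.rpow_le_one_of_one_le_of_nonpos (by norm_num)
      rw [neg_nonpos]
      positivity
    have hA : (2 : ℝ) ^ (-(a * i)) * (2 : ℝ) ^ ((1 + δ) * γ * i) * (2 : ℝ) ^ (η * i) ≤
        (2 : ℝ) ^ (-(η * i)) := by
      rw [← Real.rpow_add (by norm_num), ← Real.rpow_add (by norm_num)]
      apply Real.rpow_le_rpow_of_exponent_le (by norm_num)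
      nlinarith
    calc (2 : ℝ) ^ (-(a * n)) * (2 : ℝ) ^ (-(a * i)) * ((n + i : ℕ) : ℝ) ^ β *
          (C * (((n + i : ℕ) : ℝ) + 1) ^ (-(1 / 2) : ℝ) * (DD d (n + i) / κ) ^ γ *
            (2 : ℝ) ^ (-(c₀ * κ / DD d (n + i))))
        ≤ (2 : ℝ) ^ (-(a * n)) * (2 : ℝ) ^ (-(a * i)) * ((1 + (i : ℝ)) ^ |β| * (n : ℝ) ^ β) *
          (C * ((n : ℝ) + 1) ^ (-(1 / 2) : ℝ) *
            (2 ^ γ * ((2 : ℝ) ^ ((1 + δ) * γ * i) * (1 + (i : ℝ)) ^ (((d - 1 : ℕ) : ℝ) * γ))) * 1) := by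
          gcongr
      _ = C * 2 ^ γ * upperBits_G a β n * ((2 : ℝ) ^ (-(a * i)) * (2 : ℝ) ^ ((1 + δ) * γ * i)) *
            ((1 + (i : ℝ)) ^ |β| * (1 + (i : ℝ)) ^ (((d - 1 : ℕ) : ℝ) * γ)) := by
          rw [hGdef]; ring
      _ ≤ C * 2 ^ γ * upperBits_G a β n * ((2 : ℝ) ^ (-(a * i)) * (2 : ℝ) ^ ((1 + δ) * γ * i)) *
            (M * (2 : ℝ) ^ (η * i)) := by
          rw [← hsplit]
          gcongr
      _ = C * 2 ^ γ * M * upperBits_G a β n *
            ((2 : ℝ) ^ (-(a * i)) * (2 : ℝ) ^ ((1 + δ) * γ * i) * (2 : ℝ) ^ (η * i)) := by ring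
      _ ≤ C * 2 ^ γ * M * upperBits_G a β n * (2 : ℝ) ^ (-(η * i)) := by gcongr
      _ ≤ (1 + C * 2 ^ γ) * M * upperBits_G a β n * (2 : ℝ) ^ (-(η * i)) := by
          have : C * 2 ^ γ * M ≤ (1 + C * 2 ^ γ) * M := by
            apply mul_le_mul_of_nonneg_right _ (by linarith)
            linarith
          gcongr

/-- the main term is bounded by `phi` -/
theorem upperBits_phi (d : ℕ) (hd : 1 ≤ d) (a b A : ℝ) (ha : 0 ≤ a) (hA : 1 ≤ A) :
    ∃ c : ℝ, 0 < c ∧ ∀ n k : ℕ, 1 ≤ n → A * DD d n ≤ k → (k : ℝ) ≤ A * DD d (n + 1) →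
      upperBits_G a (((d : ℝ) - 1) * b) n ≤ c * phi d a b k := by
  obtain ⟨e, rfl⟩ : ∃ e, d = e + 1 := ⟨d - 1, by omega⟩
  set β : ℝ := (((e + 1 : ℕ) : ℝ) - 1) * b with hβ
  set s : ℝ := (((e + 1 : ℕ) : ℝ) - 1) * (a + b) - 1 / 2 with hs
  have hse : s = e * a + β - 1 / 2 := by rw [hs, hβ]; push_cast; ring
  have hl2 : 0 < Real.log 2 := Real.log_pos (by norm_num)
  obtain ⟨B, hB⟩ : ∃ B : ℝ, B = A * 2 * 3 ^ e := ⟨_, rfl⟩
  have hB1 : 1 ≤ B := by
    have : (1 : ℝ) ≤ 3 ^ e := one_le_pow₀ (by norm_num)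
    rw [hB]
    nlinarith
  set t : ℝ := 1 + 1 / Real.log 2 + (Real.log B + Real.log 2 + e) with ht
  have hlogB : 0 ≤ Real.log B := Real.log_nonneg hB1
  have hinv : 0 < 1 / Real.log 2 := by positivity
  have ht1 : 1 ≤ t := by
    rw [ht]; have : (0 : ℝ) ≤ e := Nat.cast_nonneg e
    linarith
  refine ⟨B ^ a * t ^ |s|, by positivity, fun n k hn h1 h2 => ?_⟩
  have hn0 : (0 : ℝ) < n := by exact_mod_cast hn
  have hn1 : (1 : ℝ) ≤ n := by exact_mod_cast hn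
  have hpn : (1 : ℝ) ≤ 2 ^ n := one_le_pow₀ (by norm_num)
  have hk2 : (2 : ℝ) ^ n ≤ k := by
    refine le_trans ?_ h1
    have := upperBits_DD_ge (e + 1) n
    nlinarith
  have hkpos : (0 : ℝ) < k := by linarith
  have hkup : (k : ℝ) ≤ B * (2 ^ n * (n : ℝ) ^ e) := by
    refine h2.trans ?_
    unfold DD
    have h3 : (((n + 1 : ℕ) : ℝ) + 1) ^ (e + 1 - 1) ≤ 3 ^ e * (n : ℝ) ^ e := by
      rw [Nat.add_sub_cancel, ← mul_pow]
      apply pow_le_pow_left₀ (by positivity)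
      push_cast
      linarith
    calc A * (2 ^ (n + 1) * (((n + 1 : ℕ) : ℝ) + 1) ^ (e + 1 - 1))
        ≤ A * (2 ^ (n + 1) * (3 ^ e * (n : ℝ) ^ e)) := by gcongr
      _ = _ := by rw [hB]; ring
  have hL1 : n * Real.log 2 ≤ Real.log k := by
    have := Real.log_le_log (by positivity) hk2
    rwa [Real.log_pow] at this
  have hLpos : 0 < Real.log k := lt_of_lt_of_le (by positivity) hL1
  have hL2 : Real.log k ≤ Real.log B + (n * Real.log 2 + e * Real.log n) := by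
    have h3 := Real.log_le_log hkpos hkup
    rwa [Real.log_mul (by positivity) (by positivity), Real.log_mul (by positivity) (by positivity),
      Real.log_pow, Real.log_pow] at h3
  have hlogn : Real.log n ≤ n := (Real.log_le_sub_one_of_pos hn0).trans (by linarith)
  have he0 : (0 : ℝ) ≤ e := Nat.cast_nonneg e
  have hL3 : Real.log k ≤ t * n := by
    have h3 : Real.log B ≤ Real.log B * n := le_mul_of_one_le_right hlogB hn1
    have h4 : (e : ℝ) * Real.log n ≤ e * n := mul_le_mul_of_nonneg_left hlogn he0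
    rw [ht]
    nlinarith
  have hL4 : (n : ℝ) ≤ t * Real.log k := by
    have h3 : (n : ℝ) ≤ 1 / Real.log 2 * Real.log k := by
      rw [div_mul_eq_mul_div, one_mul, le_div_iff₀ hl2]
      exact hL1
    refine h3.trans (mul_le_mul_of_nonneg_right ?_ hLpos.le)
    rw [ht]
    linarith
  have hmain : (n : ℝ) ^ s ≤ t ^ |s| * (Real.log k) ^ s := upperBits_ratio hn0 hLpos ht1 hL4 hL3
  have hka : (2 : ℝ) ^ (-(a * n)) * (n : ℝ) ^ (-(e * a)) ≤ B ^ a * (k : ℝ) ^ (-a) := by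
    have h3 : (B * (2 ^ n * (n : ℝ) ^ e)) ^ (-a) ≤ (k : ℝ) ^ (-a) :=
      Real.rpow_le_rpow_of_nonpos hkpos hkup (by linarith)
    rw [Real.mul_rpow (by positivity) (by positivity), Real.mul_rpow (by positivity) (by positivity)]
      at h3
    have h4 : ((2 : ℝ) ^ n) ^ (-a) = (2 : ℝ) ^ (-(a * n)) := by
      rw [← Real.rpow_natCast, ← Real.rpow_mul (by norm_num)]
      congr 1
      ring
    have h5 : ((n : ℝ) ^ e) ^ (-a) = (n : ℝ) ^ (-(e * a)) := by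
      rw [← Real.rpow_natCast, ← Real.rpow_mul hn0.le]
      congr 1
      ring
    rw [h4, h5, Real.rpow_neg (by positivity)] at h3
    have h6 := mul_le_mul_of_nonneg_left h3 (show (0 : ℝ) ≤ B ^ a by positivity)
    refine le_trans (le_of_eq ?_) h6
    field_simp
  have hG : upperBits_G a β n ≤ (2 : ℝ) ^ (-(a * n)) * (n : ℝ) ^ (-(e * a)) * (n : ℝ) ^ s := by
    unfold upperBits_G
    have h3 : ((n : ℝ) + 1) ^ (-(1 / 2) : ℝ) ≤ (n : ℝ) ^ (-(1 / 2) : ℝ) :=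
      Real.rpow_le_rpow_of_nonpos hn0 (by linarith) (by norm_num)
    calc (2 : ℝ) ^ (-(a * n)) * (n : ℝ) ^ β * ((n : ℝ) + 1) ^ (-(1 / 2) : ℝ)
        ≤ (2 : ℝ) ^ (-(a * n)) * (n : ℝ) ^ β * (n : ℝ) ^ (-(1 / 2) : ℝ) := by gcongr
      _ = (2 : ℝ) ^ (-(a * n)) * ((n : ℝ) ^ β * (n : ℝ) ^ (-(1 / 2) : ℝ)) := by ring
      _ = (2 : ℝ) ^ (-(a * n)) * ((n : ℝ) ^ (-(e * a)) * (n : ℝ) ^ s) := by
          rw [← Real.rpow_add hn0, ← Real.rpow_add hn0]
          congr 2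
          rw [hse]; ring
      _ = _ := by ring
  unfold phi
  calc upperBits_G a β n ≤ (2 : ℝ) ^ (-(a * n)) * (n : ℝ) ^ (-(e * a)) * (n : ℝ) ^ s := hG
    _ ≤ (B ^ a * (k : ℝ) ^ (-a)) * (t ^ |s| * (Real.log k) ^ s) := by gcongr
    _ = _ := by ring

theorem upperBits_sumIcc (f : ℕ → ℕ) (J : ℕ) : ∑ n ∈ Finset.Icc 1 J, f n = ∑ n ∈ range J, f (n + 1) := by
  induction J with
  | zero => simp
  | succ J ih => rw [Finset.sum_Icc_succ_top (by omega), ih, Finset.sum_range_succ]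

theorem upperBits_geom1 (N : ℕ) : ∑ j ∈ range N, ((j : ℝ) + 1) * (1 / 2) ^ j ≤ 4 := by
  have h : ∑ j ∈ range N, ((j : ℝ) + 1) * (1 / 2) ^ j = 4 - 2 * ((N : ℝ) + 2) * (1 / 2) ^ N := by
    induction N with
    | zero => norm_num
    | succ N ih => rw [Finset.sum_range_succ, ih]; push_cast; ring
  rw [h]
  have : 0 ≤ 2 * ((N : ℝ) + 2) * (1 / 2) ^ N := by positivity
  linarith

theorem upperBits_geom2 {q : ℝ} (hq0 : 0 ≤ q) (hq1 : q < 1) (N : ℕ) :
    ∑ j ∈ range N, q ^ j ≤ 1 / (1 - q) := by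
  have h := geom_sum_mul_neg q N
  rw [le_div_iff₀ (by linarith), h]
  have : 0 ≤ q ^ N := by positivity
  linarith

/-- splitting a series of radii at `n₀` -/
theorem upperBits_tsum (f : ℕ → ℝ) (hf : ∀ n, 0 ≤ f n) (n₀ : ℕ) (M r : ℝ) (hM : 0 ≤ M) (hr0 : 0 < r)
    (hr1 : r < 1) (h1 : ∀ n j, n + j + 1 = n₀ → f n ≤ M * r ^ j) (h2 : ∀ i, f (n₀ + i) ≤ M * r ^ i) :
    Summable f ∧ ∑' n, f n ≤ M * (2 / (1 - r)) := by
  have hs : Summable (fun i => f (i + n₀)) := by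
    refine Summable.of_nonneg_of_le (fun i => hf _) (fun i => ?_)
      ((summable_geometric_of_lt_one hr0.le hr1).mul_left M)
    rw [add_comm]
    exact h2 i
  have hsf : Summable f := (summable_nat_add_iff n₀).1 hs
  refine ⟨hsf, ?_⟩
  rw [← hsf.sum_add_tsum_nat_add n₀]
  have ha : ∑ n ∈ range n₀, f n ≤ M * (1 / (1 - r)) := by
    rw [← Finset.sum_range_reflect]
    calc ∑ j ∈ range n₀, f (n₀ - 1 - j) ≤ ∑ j ∈ range n₀, M * r ^ j := by
          refine Finset.sum_le_sum fun j hj => h1 _ _ ?_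
          have := Finset.mem_range.1 hj
          omega
      _ = M * ∑ j ∈ range n₀, r ^ j := by rw [Finset.mul_sum]
      _ ≤ _ := mul_le_mul_of_nonneg_left (upperBits_geom2 hr0.le hr1 n₀) hM
  have hb : ∑' i, f (i + n₀) ≤ M * (1 / (1 - r)) := by
    calc ∑' i, f (i + n₀) ≤ ∑' i, M * r ^ i :=
          hs.tsum_le_tsum (fun i => by rw [add_comm]; exact h2 i)
            ((summable_geometric_of_lt_one hr0.le hr1).mul_left M)
      _ = M * (1 / (1 - r)) := by rw [tsum_mul_left, tsum_geometric_of_lt_one hr0.le hr1, one_div]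
  calc _ ≤ M * (1 / (1 - r)) + M * (1 / (1 - r)) := add_le_add ha hb
    _ = _ := by ring

theorem upperBits_rad_nonneg (d : ℕ) (a b γ C c₀ : ℝ) (hC : 0 < C) (n κ : ℕ) :
    0 ≤ rad d a b γ C c₀ n κ := by
  have := upperBits_DD_pos d n
  unfold rad
  split_ifs <;> positivity

theorem upperBits_phi_pos (d : ℕ) (a b : ℝ) {k : ℕ} (hk : 2 ≤ k) : 0 < phi d a b k := by
  have h1 : (1 : ℝ) < k := by exact_mod_cast hk
  have := Real.log_pos h1
  have h0 : (0 : ℝ) < k := by linarith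
  unfold phi
  positivity

/-- small `k`: no bits -/
theorem upperBits_small (d : ℕ) (a b γ C c₀ : ℝ) (ha : 0 < a) (hC : 0 < C) (K : ℕ) :
    ∃ C' : ℝ, 0 < C' ∧ ∀ k : ℕ, 2 ≤ k → k < K →
      Summable (fun n : ℕ => rad d a b γ C c₀ (n + 1) 0) ∧
      ∑' n : ℕ, rad d a b γ C c₀ (n + 1) 0 ≤ C' * phi d a b k := by
  have hsum : Summable (fun n : ℕ => rad d a b γ C c₀ (n + 1) 0) := by
    set β : ℝ := ((d : ℝ) - 1) * b with hβ
    obtain ⟨M, hM1, hM⟩ := upperBits_poly |β| (a / 2) (abs_nonneg _) (by linarith)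
    have hr0 : (0 : ℝ) < (2 : ℝ) ^ (-(a / 2)) := by positivity
    have hr1 : (2 : ℝ) ^ (-(a / 2)) < 1 := Real.rpow_lt_one_of_one_lt_of_neg (by norm_num) (by linarith)
    refine Summable.of_nonneg_of_le (fun n => upperBits_rad_nonneg d a b γ C c₀ hC _ _) (fun n => ?_)
      ((summable_geometric_of_lt_one hr0.le hr1).mul_left M)
    unfold rad
    rw [if_pos rfl, mul_one]
    have hn : (0 : ℝ) ≤ n := Nat.cast_nonneg n
    have h1 : ((n + 1 : ℕ) : ℝ) ^ β ≤ (1 + (n : ℝ)) ^ |β| := by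
      have := upperBits_ratio (x := ((n + 1 : ℕ) : ℝ)) (y := 1) (t := 1 + n) (β := β)
        (by push_cast; linarith) one_pos (by linarith) (by push_cast; linarith)
        (by push_cast; nlinarith)
      simpa using this
    calc (2 : ℝ) ^ (-(a * ((n + 1 : ℕ) : ℝ))) * ((n + 1 : ℕ) : ℝ) ^ β
        ≤ (2 : ℝ) ^ (-(a * ((n + 1 : ℕ) : ℝ))) * (M * (2 : ℝ) ^ (a / 2 * n)) := by
          have := h1.trans (hM n)
          gcongr
      _ = M * ((2 : ℝ) ^ (-(a * ((n + 1 : ℕ) : ℝ))) * (2 : ℝ) ^ (a / 2 * n)) := by ring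
      _ ≤ M * ((2 : ℝ) ^ (-(a / 2))) ^ n := by
          apply mul_le_mul_of_nonneg_left _ (by linarith)
          rw [← Real.rpow_add (by norm_num), ← Real.rpow_natCast, ← Real.rpow_mul (by norm_num)]
          apply Real.rpow_le_rpow_of_exponent_le (by norm_num)
          push_cast
          nlinarith
  set S : ℝ := ∑' n : ℕ, rad d a b γ C c₀ (n + 1) 0 with hS
  have hS0 : 0 ≤ S := tsum_nonneg fun n => upperBits_rad_nonneg d a b γ C c₀ hC _ _
  refine ⟨1 + ∑ k ∈ range K, (if 2 ≤ k then S / phi d a b k else 0), ?_, fun k hk hkK => ⟨hsum, ?_⟩⟩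
  · have : 0 ≤ ∑ k ∈ range K, (if 2 ≤ k then S / phi d a b k else 0) := by
      refine Finset.sum_nonneg fun k _ => ?_
      split_ifs with h
      · have := upperBits_phi_pos d a b h
        positivity
      · exact le_rfl
    linarith
  · have hp := upperBits_phi_pos d a b hk
    have h1 : S / phi d a b k ≤ ∑ k ∈ range K, (if 2 ≤ k then S / phi d a b k else 0) := by
      have h2 := Finset.single_le_sum (s := range K) (f := fun k => if 2 ≤ k then S / phi d a b k else 0)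
        (fun k _ => by
          split_ifs with h
          · have := upperBits_phi_pos d a b h
            positivity
          · exact le_rfl) (Finset.mem_range.2 hkK)
      rwa [if_pos hk] at h2
    rw [div_le_iff₀ hp] at h1
    nlinarith

theorem bits_allocation (d : ℕ) (hd : 1 ≤ d) (a b γ C c₀ : ℝ) (ha : γ < a) (hγ : 0 < γ) (hC : 0 < C)
    (hc₀ : 0 < c₀) : ∃ C' : ℝ, 0 < C' ∧ ∀ k : ℕ, 2 ≤ k → ∃ (κ : ℕ → ℕ) (J : ℕ),
      (∀ n, J < n → κ n = 0) ∧ (∑ n ∈ Finset.Icc 1 J, κ n ≤ k) ∧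
      Summable (fun n : ℕ => rad d a b γ C c₀ (n + 1) (κ (n + 1))) ∧
      ∑' n : ℕ, rad d a b γ C c₀ (n + 1) (κ (n + 1)) ≤ C' * phi d a b k := by
  have ha0 : 0 < a := hγ.trans ha
  set β : ℝ := ((d : ℝ) - 1) * b with hβ
  -- δ and η
  obtain ⟨δ, η, hδ, hη, hη1, hδ1, hδ2⟩ : ∃ δ η : ℝ, 0 < δ ∧ 0 < η ∧ η ≤ 1 ∧
      (1 + δ) * γ + 2 * η ≤ a ∧ δ + 2 * η ≤ a := by
    refine ⟨min (a / 2) ((a - γ) / (2 * γ)), min 1 ((a - γ) / 4), ?_, ?_, min_le_left _ _, ?_, ?_⟩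
    · have : 0 < a - γ := by linarith
      exact lt_min (by linarith) (by positivity)
    · exact lt_min one_pos (by linarith)
    · have h1 : min (a / 2) ((a - γ) / (2 * γ)) * γ ≤ (a - γ) / 2 := by
        calc min (a / 2) ((a - γ) / (2 * γ)) * γ ≤ (a - γ) / (2 * γ) * γ :=
              mul_le_mul_of_nonneg_right (min_le_right _ _) hγ.le
          _ = (a - γ) / 2 := by field_simp
      have h2 : min 1 ((a - γ) / 4) ≤ (a - γ) / 4 := min_le_right _ _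
      nlinarith
    · have h1 : min (a / 2) ((a - γ) / (2 * γ)) ≤ a / 2 := min_le_left _ _
      have h2 : min 1 ((a - γ) / 4) ≤ (a - γ) / 4 := min_le_right _ _
      linarith
  obtain ⟨M, hM0, hM⟩ := upperBits_high d a b γ C c₀ δ η hγ hC hc₀ hη hδ1 hδ2
  -- A₁
  obtain ⟨A₁, hA1, hA2⟩ : ∃ A₁ : ℝ, 1 ≤ A₁ ∧ a + (|β| + 1 / 2) + 1 ≤ c₀ * A₁ := by
    refine ⟨max 1 ((a + (|β| + 1 / 2) + 1) / c₀), le_max_left _ _, ?_⟩
    have := le_max_right 1 ((a + (|β| + 1 / 2) + 1) / c₀)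
    rwa [div_le_iff₀ hc₀, mul_comm] at this
  set q : ℝ := (2 : ℝ) ^ (-δ) with hq
  have hq0 : 0 < q := by positivity
  have hq1 : q < 1 := Real.rpow_lt_one_of_one_lt_of_neg (by norm_num) (by linarith)
  set r : ℝ := (2 : ℝ) ^ (-η) with hr
  have hr0 : 0 < r := by positivity
  have hr1 : r < 1 := Real.rpow_lt_one_of_one_lt_of_neg (by norm_num) (by linarith)
  have hq2 : 0 < 1 / (1 - q) := by
    have : 0 < 1 - q := by linarith
    positivity
  set A : ℝ := 4 * A₁ + 1 + 1 / (1 - q) with hA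
  have hA_1 : 1 ≤ A := by rw [hA]; linarith
  obtain ⟨c₁, hc₁, hphi⟩ := upperBits_phi d hd a b A ha0.le hA_1
  obtain ⟨C₂, hC₂, hsmall⟩ := upperBits_small d a b γ C c₀ ha0 hC ⌈A * DD d 1⌉₊
  refine ⟨C₂ + (C + M) * (2 / (1 - r)) * c₁, ?_, fun k hk => ?_⟩
  · have : 0 < 1 - r := by linarith
    positivity
  have hphipos := upperBits_phi_pos d a b hk
  have hr2 : 0 < 2 / (1 - r) := by
    have : 0 < 1 - r := by linarith
    positivity
  by_cases hkK : k < ⌈A * DD d 1⌉₊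
  · refine ⟨fun _ => 0, 0, fun _ _ => rfl, by simp, (hsmall k hk hkK).1, ?_⟩
    refine (hsmall k hk hkK).2.trans ?_
    have : 0 ≤ (C + M) * (2 / (1 - r)) * c₁ := by positivity
    nlinarith
  · have hk1 : A * DD d 1 ≤ k := (Nat.le_ceil _).trans (by exact_mod_cast not_lt.1 hkK)
    -- choose n₀
    have hex : ∃ n : ℕ, (k : ℝ) < A * DD d (n + 1) := by
      refine ⟨k, ?_⟩
      have h1 := upperBits_DD_ge d (k + 1)
      have h2 : (k : ℝ) < 2 ^ (k + 1) := by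
        have : k < 2 ^ (k + 1) := Nat.lt_two_pow_self.trans (Nat.pow_lt_pow_right (by norm_num) (by omega))
        exact_mod_cast this
      have h3 : DD d (k + 1) ≤ A * DD d (k + 1) :=
        le_mul_of_one_le_left (upperBits_DD_pos d _).le hA_1
      linarith
    classical
    set n₀ : ℕ := Nat.find hex with hn₀
    have hn₀2 : (k : ℝ) < A * DD d (n₀ + 1) := Nat.find_spec hex
    have hn₀1 : 1 ≤ n₀ := by
      by_contra h
      have h0 : n₀ = 0 := by omega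
      rw [h0] at hn₀2
      exact absurd hk1 (not_le.2 hn₀2)
    have hn₀3 : A * DD d n₀ ≤ k := by
      obtain ⟨m, hm⟩ : ∃ m, n₀ = m + 1 := ⟨n₀ - 1, by omega⟩
      have := Nat.find_min hex (m := m) (by rw [← hn₀]; omega)
      rw [not_lt] at this
      rwa [hm]
    have hG := hphi n₀ k hn₀1 hn₀3 hn₀2.le
    rw [← hβ] at hG
    have hGpos := upperBits_G_pos a β hn₀1
    set D : ℝ := DD d n₀ with hD
    have hD0 : 0 < D := upperBits_DD_pos d n₀
    set κ : ℕ → ℕ := fun n => if n ≤ n₀ then ⌈A₁ * DD d n * (1 + ((n₀ - n : ℕ) : ℝ))⌉₊ else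
      ⌊D * (2 : ℝ) ^ (-(δ * ((n - n₀ : ℕ) : ℝ)))⌋₊ with hκ
    have hpow : ∀ i : ℕ, (2 : ℝ) ^ (-(δ * (i : ℝ))) = q ^ i := by
      intro i
      rw [hq, ← Real.rpow_natCast, ← Real.rpow_mul (by norm_num)]
      congr 1
      ring
    have hpow2 : ∀ i : ℕ, (2 : ℝ) ^ (-(η * (i : ℝ))) = r ^ i := by
      intro i
      rw [hr, ← Real.rpow_natCast, ← Real.rpow_mul (by norm_num)]
      congr 1
      ring
    obtain ⟨J', hJ'⟩ : ∃ J' : ℕ, D * q ^ J' < 1 := by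
      obtain ⟨J', hJ'⟩ := exists_pow_lt_of_lt_one (show 0 < D⁻¹ by positivity) hq1
      refine ⟨J', ?_⟩
      calc D * q ^ J' < D * D⁻¹ := mul_lt_mul_of_pos_left hJ' hD0
        _ = 1 := mul_inv_cancel₀ hD0.ne'
    refine ⟨κ, n₀ + J', ?_, ?_, ?_⟩
    · intro n hn
      simp only [hκ]
      rw [if_neg (by omega), Nat.floor_eq_zero, hpow]
      refine lt_of_le_of_lt ?_ hJ'
      apply mul_le_mul_of_nonneg_left _ hD0.le
      exact pow_le_pow_of_le_one hq0.le hq1.le (by omega)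
    · rw [upperBits_sumIcc, Finset.sum_range_add]
      have hreal : ((∑ n ∈ range n₀, κ (n + 1) + ∑ i ∈ range J', κ (n₀ + i + 1) : ℕ) : ℝ) ≤ k := by
        push_cast
        have hs1 : ∑ n ∈ range n₀, (κ (n + 1) : ℝ) ≤ (4 * A₁ + 1) * D := by
          rw [← Finset.sum_range_reflect]
          have hterm : ∀ j ∈ range n₀, (κ (n₀ - 1 - j + 1) : ℝ) ≤
              A₁ * D * (((j : ℝ) + 1) * (1 / 2) ^ j) + 1 := by
            intro j hj
            have hj' := Finset.mem_range.1 hj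
            simp only [hκ]
            rw [if_pos (by omega)]
            have e1 : n₀ - (n₀ - 1 - j + 1) = j := by omega
            have e2 := upperBits_DD_down d (n₀ - 1 - j + 1) j
            have e3 : n₀ - 1 - j + 1 + j = n₀ := by omega
            rw [e3, ← hD] at e2
            rw [e1]
            have hDn := upperBits_DD_pos d (n₀ - 1 - j + 1)
            refine (Nat.ceil_lt_add_one (by positivity)).le.trans ?_
            have : A₁ * DD d (n₀ - 1 - j + 1) * (1 + (j : ℝ)) ≤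
                A₁ * ((1 / 2 : ℝ) ^ j * D) * (1 + (j : ℝ)) := by gcongr
            linarith
          refine (Finset.sum_le_sum hterm).trans ?_
          rw [Finset.sum_add_distrib, ← Finset.mul_sum]
          simp only [Finset.sum_const, Finset.card_range, nsmul_eq_mul, mul_one]
          have h4 := upperBits_geom1 n₀
          have hnD : (n₀ : ℝ) ≤ D := by
            refine le_trans ?_ (upperBits_DD_ge d n₀)
            have := Nat.lt_two_pow_self (n := n₀)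
            exact_mod_cast this.le
          have h5 : A₁ * D * ∑ j ∈ range n₀, ((j : ℝ) + 1) * (1 / 2) ^ j ≤ A₁ * D * 4 :=
            mul_le_mul_of_nonneg_left h4 (by positivity)
          linarith
        have hs2 : ∑ i ∈ range J', (κ (n₀ + i + 1) : ℝ) ≤ 1 / (1 - q) * D := by
          have hterm : ∀ i ∈ range J', (κ (n₀ + i + 1) : ℝ) ≤ D * q ^ i := by
            intro i _
            simp only [hκ]
            rw [if_neg (by omega)]
            refine (Nat.floor_le (by positivity)).trans ?_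
            rw [hpow]
            apply mul_le_mul_of_nonneg_left _ hD0.le
            exact pow_le_pow_of_le_one hq0.le hq1.le (by omega)
          refine (Finset.sum_le_sum hterm).trans ?_
          rw [← Finset.mul_sum, mul_comm]
          exact mul_le_mul_of_nonneg_right (upperBits_geom2 hq0.le hq1 J') hD0.le
        have : A * D ≤ k := hn₀3
        rw [hA] at this
        linarith
      exact_mod_cast hreal
    · have hmain := upperBits_tsum (fun n : ℕ => rad d a b γ C c₀ (n + 1) (κ (n + 1)))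
        (fun n => upperBits_rad_nonneg d a b γ C c₀ hC _ _) n₀ ((C + M) * upperBits_G a β n₀) r
        (by positivity) hr0 hr1 ?_ ?_
      · refine ⟨hmain.1, hmain.2.trans ?_⟩
        have h1 : (C + M) * upperBits_G a β n₀ * (2 / (1 - r)) ≤
            (C + M) * (c₁ * phi d a b k) * (2 / (1 - r)) := by gcongr
        have h2 : 0 ≤ C₂ * phi d a b k := by positivity
        linarith
      · intro n j hnj
        simp only [hκ]
        rw [if_pos (by omega)]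
        have e1 : n₀ - (n + 1) = j := by omega
        rw [e1]
        have h1 := upperBits_low d a b γ C c₀ ha0.le hγ hC hc₀ A₁ hA1 hA2 (n + 1) j (by omega)
        have e2 : n + 1 + j = n₀ := by omega
        rw [e2, ← hβ] at h1
        refine h1.trans ?_
        have h2 : (2 : ℝ) ^ (-(j : ℝ)) ≤ r ^ j := by
          rw [← hpow2]
          apply Real.rpow_le_rpow_of_exponent_le (by norm_num)
          have : (0 : ℝ) ≤ j := Nat.cast_nonneg j
          nlinarith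
        have h3 : C ≤ C + M := by linarith
        gcongr
      · intro i
        simp only [hκ]
        rw [if_neg (by omega)]
        have e1 : n₀ + i + 1 - n₀ = i + 1 := by omega
        rw [e1]
        have h1 := hM n₀ (i + 1) hn₀1
        rw [← hβ, ← hD] at h1
        have e2 : n₀ + i + 1 = n₀ + (i + 1) := by omega
        rw [e2]
        refine h1.trans ?_
        rw [hpow2]
        have h2 : r ^ (i + 1) ≤ r ^ i := pow_le_pow_of_le_one hr0.le hr1.le (by omega)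
        have h3 : M ≤ C + M := by linarith
        gcongr

end Pool.Agent.LibEnt73
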