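import Pool.Agent.LibEnt73.UpperBits
import Pool.Agent.LibEnt73.LayerSL

/-! Task UM: upper bound for the class `\bar W` (uses single_layer, bits_allocation, Torus). -/

namespace Pool.Agent.LibEnt73

open MeasureTheory Finset UnitAddTorus

theorem um_tp_smul {d : ℕ} (n : ℕ) (r : ℂ) (c : (Fin d → ℤ) → ℂ) (x : UnitAddTorus (Fin d)) :
    tp n (r • c) x = r * tp n c x := by
  unfold tp
  rw [Finset.mul_sum]
  exact Finset.sum_congr rfl fun ξ _ => by rw [Pi.smul_apply, smul_eq_mul, mul_assoc]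

theorem um_tp_zero {d : ℕ} (n : ℕ) : tp n (0 : (Fin d → ℤ) → ℂ) = 0 := by
  funext x
  unfold tp
  simp

theorem um_enorm_le_one {d n : ℕ} {c : (Fin d → ℤ) → ℂ} (hc : c ∈ KC d n) (p : ENNReal) :
    eLpNorm (tp n c) p (muT d) ≤ ENNReal.ofReal 1 := by
  refine (eLpNorm_le_of_ae_bound (C := 1) (ae_of_all _ hc)).trans ?_
  simp

/-- centres of a single scale -/
theorem um_scale (d : ℕ) (hd : 3 ≤ d) (p : ℝ) (hp : 1 ≤ p) (a b γ : ℝ) (h1 : 1 / 2 < γ)
    (h2 : 1 - 1 / p < γ) : ∃ C c₀ : ℝ, 0 < C ∧ 0 < c₀ ∧ ∀ n κ : ℕ, 1 ≤ n →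
    ∃ Y : Finset ((Fin d → ℤ) → ℂ), Y.card ≤ 2 ^ κ ∧ (κ = 0 → Y = {0}) ∧
      ∀ c : (Fin d → ℤ) → ℂ, (∀ x, ‖tp n c x‖ ≤ (2 : ℝ) ^ (-(a * n)) * (n : ℝ) ^ (((d : ℝ) - 1) * b)) →
      ∃ y ∈ Y, eLpNorm (tp n c - tp n y) (ENNReal.ofReal p) (muT d) ≤
        ENNReal.ofReal (rad d a b γ C c₀ n κ) := by
  classical
  obtain ⟨C, c₀, hC, hc₀, h⟩ := single_layer d hd p hp γ h1 h2
  refine ⟨C, c₀, hC, hc₀, fun n κ hn => ?_⟩
  set s : ℝ := (2 : ℝ) ^ (-(a * n)) * (n : ℝ) ^ (((d : ℝ) - 1) * b) with hs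
  have hn0 : (0 : ℝ) < n := by exact_mod_cast hn
  have hs0 : 0 < s := by positivity
  have hscale : ∀ c : (Fin d → ℤ) → ℂ, (∀ x, ‖tp n c x‖ ≤ s) → ((s⁻¹ : ℝ) : ℂ) • c ∈ KC d n := by
    intro c hc x
    rw [um_tp_smul, norm_mul, Complex.norm_real, Real.norm_of_nonneg (by positivity)]
    rw [inv_mul_le_iff₀ hs0, mul_one]
    exact hc x
  by_cases hκ : κ = 0
  · subst hκ
    refine ⟨{0}, by simp, fun _ => rfl, fun c hc => ⟨0, by simp, ?_⟩⟩
    rw [um_tp_zero, sub_zero]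
    unfold rad
    rw [if_pos rfl, mul_one, ← hs]
    refine (eLpNorm_le_of_ae_bound (C := s) (ae_of_all _ hc)).trans ?_
    simp
  · obtain ⟨Y, hY, hcov⟩ := h n κ (by omega)
    refine ⟨Y.image (fun y => ((s : ℝ) : ℂ) • y), Finset.card_image_le.trans hY, fun h0 => absurd h0 hκ,
      fun c hc => ?_⟩
    obtain ⟨y, hy, hy2⟩ := hcov _ (hscale c hc)
    refine ⟨_, Finset.mem_image_of_mem _ hy, ?_⟩
    have hcalc : tp n c - tp n (((s : ℝ) : ℂ) • y)
        = ((s : ℝ) : ℂ) • (tp n (((s⁻¹ : ℝ) : ℂ) • c) - tp n y) := by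
      funext x
      have : (s : ℂ) ≠ 0 := by exact_mod_cast hs0.ne'
      simp only [Pi.sub_apply, Pi.smul_apply, um_tp_smul, smul_eq_mul, Complex.ofReal_inv]
      field_simp
    rw [hcalc, eLpNorm_const_smul, ← ofReal_norm, Complex.norm_real, Real.norm_of_nonneg hs0.le]
    unfold rad
    rw [if_neg hκ, ← hs, ENNReal.ofReal_mul hs0.le]
    gcongr

theorem upper_Wb (d : ℕ) (hd : 3 ≤ d) (p : ℝ) (hp : 1 ≤ p) (a b : ℝ) (h1 : 1 / 2 < a)
    (h2 : 1 - 1 / p < a) : ∃ C : ℝ, 0 < C ∧ ∀ k : ℕ, 2 ≤ k →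
      C * phi d a b k ∈ radii (ENNReal.ofReal p) (WbC d a b) k := by
  classical
  set γ : ℝ := (max (1 / 2) (1 - 1 / p) + a) / 2 with hγ
  have hmax : max (1 / 2) (1 - 1 / p) < a := max_lt h1 h2
  have hg1 : 1 / 2 < γ := by
    have := le_max_left (1 / 2) (1 - 1 / p)
    rw [hγ]; linarith
  have hg2 : 1 - 1 / p < γ := by
    have := le_max_right (1 / 2) (1 - 1 / p)
    rw [hγ]; linarith
  have hga : γ < a := by rw [hγ]; linarith
  obtain ⟨C, c₀, hC, hc₀, hY⟩ := um_scale d hd p hp a b γ hg1 hg2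
  obtain ⟨C', hC', hb⟩ := bits_allocation d (by omega) a b γ C c₀ hga (by linarith) hC hc₀
  refine ⟨C', hC', fun k hk => ?_⟩
  obtain ⟨κ, J, hκ, hsum, hsm, hts⟩ := hb k hk
  have hphi : 0 < phi d a b k := by
    unfold phi
    have h2k : (2 : ℝ) ≤ k := by exact_mod_cast hk
    have : 0 < Real.log k := Real.log_pos (by linarith)
    positivity
  refine ⟨by positivity, ?_⟩
  choose! Y hYc hY0 hYcov using hY
  -- the set of centres
  let P : Finset (∀ n ∈ Finset.Icc 1 J, (Fin d → ℤ) → ℂ) := (Finset.Icc 1 J).pi fun n => Y n (κ n)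
  let cen : (∀ n ∈ Finset.Icc 1 J, (Fin d → ℤ) → ℂ) → UnitAddTorus (Fin d) → ℂ := fun y x =>
    ∑ n ∈ (Finset.Icc 1 J).attach, tp n.1 (y n.1 n.2) x
  have hcenc : ∀ y, Continuous (cen y) := fun y =>
    continuous_finsetSum _ fun n _ => continuous_tp n.1 (y n.1 n.2)
  refine ⟨P.image cen, ?_, ?_, ?_⟩
  · refine Finset.card_image_le.trans ?_
    rw [Finset.card_pi]
    calc ∏ n ∈ Finset.Icc 1 J, (Y n (κ n)).card ≤ ∏ n ∈ Finset.Icc 1 J, 2 ^ κ n :=
          Finset.prod_le_prod' fun n hn => hYc n (κ n) (Finset.mem_Icc.1 hn).1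
      _ = 2 ^ ∑ n ∈ Finset.Icc 1 J, κ n := by rw [Finset.prod_pow_eq_pow_sum]
      _ ≤ 2 ^ k := Nat.pow_le_pow_right (by norm_num) hsum
  · intro y hy
    obtain ⟨z, _, rfl⟩ := Finset.mem_image.1 hy
    exact (hcenc z).memLp_of_hasCompactSupport (HasCompactSupport.of_compactSpace _)
  · rintro f ⟨t, ht, hf⟩
    have htc : ∀ n, 1 ≤ n → ∃ c : (Fin d → ℤ) → ℂ, t n = tp n c := by
      intro n hn
      obtain ⟨c, hc⟩ := (ht n hn).1
      exact ⟨c, by rw [hc, QQ_eq]; rfl⟩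
    choose! c hc using htc
    have hcb : ∀ n, 1 ≤ n → ∀ x, ‖tp n (c n) x‖ ≤ (2 : ℝ) ^ (-(a * n)) * (n : ℝ) ^ (((d : ℝ) - 1) * b) := by
      intro n hn x
      have hn0 : (0 : ℝ) < n := by exact_mod_cast hn
      refine norm_le_of_eLpNorm_top _ (continuous_tp n (c n)) _ (by positivity) ?_ x
      rw [← hc n hn]
      exact (ht n hn).2
    have hy : ∀ n, 1 ≤ n → ∃ y ∈ Y n (κ n), eLpNorm (tp n (c n) - tp n y) (ENNReal.ofReal p) (muT d) ≤
        ENNReal.ofReal (rad d a b γ C c₀ n (κ n)) := fun n hn => hYcov n (κ n) hn (c n) (hcb n hn)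
    choose! y hyY hyb using hy
    have hy0 : ∀ n, J < n → y n = 0 := by
      intro n hn
      have h1n : 1 ≤ n := by omega
      have := hyY n h1n
      rw [hY0 n (κ n) h1n (hκ n hn)] at this
      simpa using this
    refine ⟨cen fun n _ => y n, Finset.mem_image_of_mem _ ?_, ?_⟩
    · rw [Finset.mem_pi]
      intro n hn
      exact hyY n (Finset.mem_Icc.1 hn).1
    · -- Fatou
      have hcen : ∀ x, cen (fun n _ => y n) x = ∑ n ∈ Finset.range J, tp (n + 1) (y (n + 1)) x := by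
        intro x
        change ∑ n ∈ (Finset.Icc 1 J).attach, tp n.1 (y n.1) x = _
        rw [Finset.sum_attach (Finset.Icc 1 J) (fun n => tp n (y n) x)]
        rw [Finset.range_eq_Ico, Finset.sum_Ico_add' (fun n => tp n (y n) x) 0 J 1]
        rfl
      have hcen2 : ∀ x, ∀ n, J ≤ n → ∑ i ∈ Finset.range n, tp (i + 1) (y (i + 1)) x
          = cen (fun n _ => y n) x := by
        intro x n hn
        rw [hcen x]
        refine (Finset.sum_subset (Finset.range_mono hn) ?_).symm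
        intro i _ hi
        rw [hy0 (i + 1) (by simpa using hi), um_tp_zero]
        rfl
      let F : ℕ → UnitAddTorus (Fin d) → ℂ := fun n x =>
        ∑ i ∈ Finset.range n, (tp (i + 1) (c (i + 1)) x - tp (i + 1) (y (i + 1)) x)
      have hFc : ∀ n, Continuous (F n) := fun n =>
        continuous_finsetSum _ fun i _ => (continuous_tp _ _).sub (continuous_tp _ _)
      have hlim : ∀ᵐ x ∂(muT d), Filter.Tendsto (fun n => F n x) Filter.atTop
          (nhds ((f - cen fun n _ => y n) x)) := by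
        filter_upwards [hf] with x hx
        have h1 := hx.tendsto_sum_nat
        have h2 := h1.sub_const (cen (fun n _ => y n) x)
        refine h2.congr' ?_
        filter_upwards [Filter.eventually_ge_atTop J] with n hn
        change _ = ∑ i ∈ Finset.range n, (tp (i + 1) (c (i + 1)) x - tp (i + 1) (y (i + 1)) x)
        rw [Finset.sum_sub_distrib, hcen2 x n hn]
        congr 1
        exact Finset.sum_congr rfl fun i _ => by rw [hc (i + 1) (by omega)]
      refine (Lp.eLpNorm_lim_le_liminf_eLpNorm (fun n => (hFc n).aestronglyMeasurable) _ hlim).trans ?_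
      refine Filter.liminf_le_of_le (by isBoundedDefault) ?_
      intro B hB
      obtain ⟨n, hn⟩ := hB.exists
      refine hn.trans ?_
      have hFsum : F n = ∑ i ∈ Finset.range n, (tp (i + 1) (c (i + 1)) - tp (i + 1) (y (i + 1))) := by
        funext x
        rw [Finset.sum_apply]
        rfl
      rw [hFsum]
      refine (eLpNorm_sum_le (fun i _ => ((continuous_tp _ _).sub (continuous_tp _ _)).aestronglyMeasurable)
        (by rw [← ENNReal.ofReal_one]; exact ENNReal.ofReal_le_ofReal hp)).trans ?_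
      refine (Finset.sum_le_sum fun i _ => hyb (i + 1) (by omega)).trans ?_
      have hnn : ∀ n, 0 ≤ rad d a b γ C c₀ (n + 1) (κ (n + 1)) := by
        intro n
        unfold rad DD
        split_ifs <;> positivity
      rw [← ENNReal.ofReal_sum_of_nonneg (fun i _ => hnn i)]
      refine ENNReal.ofReal_le_ofReal ?_
      exact (hsm.sum_le_tsum _ (fun i _ => hnn i)).trans hts

end Pool.Agent.LibEnt73
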